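import Pool.Agent.Helper21.FC.Defs

/-!
MP_0aa406_nt, project FD (helper21): definitions.

`ZMod k → ℤ` is the ring `R_k = ⊕ ℤ e_c` (`c : ZMod k`) of the standard positions `ps n c = ⌈c n / k⌉`,
`e_a e_b = p ^ cy n a b * e_(a+b)`.  Product: `rmul`; value modulo `p ^ n - 1`: `ev`; real place
`e_c ↦ ρ ^ tn n c`, `ρ = p ^ (1/k)`: `Sr`; real circulant: `ci` (acting by `act` of project FC).
-/

set_option autoImplicit false

namespace Pool.Agent.Helper21.FD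

open Finset Pool.Agent.Helper21.FC

/-- `p ^ (1 / k)` -/
noncomputable def rho (p k : ℕ) : ℝ := (p : ℝ) ^ ((1 : ℝ) / k)

/-- the residue of `- c n` modulo `k` -/
def tn (n : ℕ) {k : ℕ} (c : ZMod k) : ℕ := (-(c * (n : ZMod k))).val

/-- the standard position `⌈c n / k⌉` -/
def ps (n : ℕ) {k : ℕ} (c : ZMod k) : ℕ := (c.val * n + tn n c) / k

/-- the carry of `a + b` -/
def cy (n : ℕ) {k : ℕ} (a b : ZMod k) : ℕ := (tn n a + tn n b) / k

/-- product in the ring of standard positions -/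
def rmul (p n : ℕ) {k : ℕ} [NeZero k] (μ x : ZMod k → ℤ) (u : ZMod k) : ℤ :=
  ∑ i : ZMod k, μ (u - i) * x i * (p : ℤ) ^ cy n (u - i) i

/-- value modulo `p ^ n - 1` -/
def ev (p n : ℕ) {k : ℕ} [NeZero k] (μ : ZMod k → ℤ) : ℤ :=
  ∑ c : ZMod k, μ c * (p : ℤ) ^ ps n c

/-- the real place -/
noncomputable def Sr (p n : ℕ) {k : ℕ} [NeZero k] (μ : ZMod k → ℤ) : ℝ :=
  ∑ c : ZMod k, (μ c : ℝ) * rho p k ^ tn n c

/-- the real circulant -/
noncomputable def ci (p n : ℕ) {k : ℕ} (μ : ZMod k → ℤ) (t : ZMod k) : ℝ :=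
  (μ t : ℝ) * rho p k ^ tn n t

/-- base change from `k` to `k * q` -/
def bc (q : ℕ) {k : ℕ} (μ : ZMod k → ℤ) (c : ZMod (k * q)) : ℤ :=
  if q ∣ c.val then μ ((c.val / q : ℕ) : ZMod k) else 0

/-- the projection `ZMod k → ZMod m` (used for `m ∣ k`) -/
def pr (m : ℕ) {k : ℕ} (c : ZMod k) : ZMod m := (c.val : ZMod m)

/-- sums over the fibres of the projection -/
noncomputable def qt (m : ℕ) {k : ℕ} [NeZero k] (a : ZMod k → ℝ) (t : ZMod m) : ℝ :=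
  ∑ c ∈ univ.filter (fun c : ZMod k => pr m c = t), a c

/-- at least two entries are nonzero -/
def Two {m : ℕ} (a : ZMod m → ℝ) : Prop := ∃ t t', t ≠ t' ∧ a t ≠ 0 ∧ a t' ≠ 0

/-- sign of a real number as an integer -/
noncomputable def sg (x : ℝ) : ℤ := if 0 < x then 1 else if x < 0 then -1 else 0

/-- `x` is `∑ v_t ρ ^ t` with integers `|v_t| ≤ p ^ B`, `ρ = p ^ (1/k)` -/
def Alg (p k : ℕ) [NeZero k] (B : ℕ) (x : ℝ) : Prop :=
  ∃ v : ZMod k → ℤ, (∀ t, |v t| ≤ (p : ℤ) ^ B) ∧ x = ∑ t : ZMod k, (v t : ℝ) * rho p k ^ t.val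

/-- a direction with entries in `ℤ[ρ]` of value at least `c` for the circulant `a` -/
def AVal (p k : ℕ) [NeZero k] (B : ℕ) {m : ℕ} [NeZero m] (a : ZMod m → ℝ) (c : ℝ) : Prop :=
  ∃ y : ZMod m → ℝ, (∀ i, Alg p k B (y i)) ∧ (∀ i, y i ≠ 0) ∧ (∀ u, act a y u ≠ 0) ∧
    c ≤ ((∑ i, sg (y i) - ∑ u, sg (act a y u) : ℤ) : ℝ)

/-- an integral direction of value at least `c` for `μ` -/
def DVal (p n B : ℕ) {k : ℕ} [NeZero k] (μ : ZMod k → ℤ) (c : ℝ) : Prop :=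
  ∃ w : ZMod k → ℤ, (∀ i, |w i| ≤ (p : ℤ) ^ B) ∧ (∀ i, w i ≠ 0) ∧ (∀ u, rmul p n μ w u ≠ 0) ∧
    c ≤ ((∑ i, Int.sign (w i) - ∑ u, Int.sign (rmul p n μ w u) : ℤ) : ℝ)

/-- number of `x < n` for which the exponent `(q i + x) % n` is the largest one -/
def gp (n : ℕ) {ι : Type} [Fintype ι] [DecidableEq ι] (q : ι → ℕ) (i : ι) : ℕ :=
  ((range n).filter (fun x => ∀ j, j ≠ i → (q j + x) % n < (q i + x) % n)).card

end Pool.Agent.Helper21.FD
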