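import Pool.Agent.Helper77.KZ.Game
import Pool.Agent.Helper21.FD.Defs

/-!
MP_0aa406_nt, project FD (helper21): the value of the sign pattern game on a cyclic group of odd order.
-/

set_option autoImplicit false

namespace Pool.Agent.Helper21.FD

open Finset Pool.Agent.Helper21.FC
open scoped Pointwise

private theorem G1_sum {m : ℕ} [NeZero m] (g : ZMod m → ℤ) (hg : Helper77.KZ.IsSign g)
    (hno : ¬ ∃ i, g i = -1) :
    ∑ i, g i = ((univ.filter (fun i => g i ≠ 0)).card : ℤ) := by
  rw [Finset.card_filter]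
  push_cast
  refine Finset.sum_congr rfl fun i _ => ?_
  rcases hg i with h | h | h
  · rw [h]; simp
  · rw [h]; simp
  · exact absurd ⟨i, h⟩ hno

/-- the part of `Helper77.KZ.hasVal_odd` which uses the game -/
theorem game_odd {m : ℕ} [NeZero m] (hodd : Odd m) (hm : m ≠ 1) (g : ZMod m → ℤ)
    (hg : Helper77.KZ.IsSign g) (hτ : 2 ≤ (univ.filter (fun i => g i ≠ 0)).card)
    (hneg : (∃ i, g i = -1) ∨ 3 ≤ (univ.filter (fun i => g i ≠ 0)).card) :
    ∃ q : ℕ, Helper77.KZ.Val g univ (-(q : ℤ)) ∧ m.minFac * q ≤ m := by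
  by_cases he3 : 3 ≤ ∑ i, g i
  · refine ⟨0, ?_, by simp⟩
    simpa using Helper77.KZ.val_three he3
  have hneg' : ∃ i, g i = -1 := by
    by_contra hno
    rcases hneg with h | h
    · exact hno h
    · apply he3
      rw [G1_sum g hg hno]
      exact_mod_cast h
  have hTT : Helper77.KZ.TT g = univ.filter (fun i => g i ≠ 0) := rfl
  have hTne : (Helper77.KZ.TT g).Nonempty := by
    rw [hTT]; exact Finset.card_pos.mp (by omega)
  have hfac : 0 < m.minFac := Nat.minFac_pos m
  obtain ⟨A, _, _, q, h1, h2⟩ := Helper77.KZ.claim hg m.minFac hfac (by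
    intro Y hY hYodd hsmall hsub
    have hcard := Helper77.KZ.stuck_card hY.2.1
    have hYpos : 0 < Y.card := Finset.card_pos.mpr hY.1
    have hpos' : 0 < (Y + Helper77.KZ.TT g).card := Finset.card_pos.mpr (hY.1.add hTne)
    have hcd := Helper77.KZ.cd hm hY.1 hTne hsmall
    rcases lt_trichotomy (∑ i, g i) 2 with h | h | h
    · exfalso
      have h3 : ((Y + Helper77.KZ.TT g).card : ℤ) ≤ Y.card := by
        rw [hcard]
        have : (∑ i, g i) ≤ 1 := by omega
        have hY0 : (0 : ℤ) ≤ Y.card := by positivity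
        nlinarith
      have h4 : (Y + Helper77.KZ.TT g).card ≤ Y.card := by exact_mod_cast h3
      rw [hTT] at hcd h4
      omega
    · exact Helper77.KZ.core2 hodd hm hg h hneg' hY hYodd hsmall hsub
    · omega) univ
  refine ⟨q, h1, h2.trans ?_⟩
  have := Finset.card_le_univ (A + Helper77.KZ.TT g)
  rwa [ZMod.card] at this

end Pool.Agent.Helper21.FD
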