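import Pool.Agent.Helper21.FD.L2

/-!
MP_0aa406_nt, project FD (helper21): plays of the sign pattern game give directions for real matrices.
-/

set_option autoImplicit false

namespace Pool.Agent.Helper21.FD

open Finset Pool.Agent.Helper21.FC

private theorem G2_sg_pos {x : ℝ} (h : 0 < x) : sg x = 1 := by
  unfold sg
  rw [if_pos h]

private theorem G2_sg_neg {x : ℝ} (h : x < 0) : sg x = -1 := by
  unfold sg
  rw [if_neg (not_lt.2 h.le), if_pos h]

private theorem G2_sg_zero : sg (0 : ℝ) = 0 := by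
  unfold sg
  rw [if_neg (lt_irrefl _), if_neg (lt_irrefl _)]

private theorem G2_sg_eq_zero {x : ℝ} : sg x = 0 ↔ x = 0 := by
  constructor
  · intro h
    rcases lt_trichotomy x 0 with h1 | h1 | h1
    · rw [G2_sg_neg h1] at h
      norm_num at h
    · exact h1
    · rw [G2_sg_pos h1] at h
      norm_num at h
  · intro h
    rw [h, G2_sg_zero]

private theorem G2_sum_diff {k : ℕ} [NeZero k] (f f' : ZMod k → ℤ) (s : ZMod k)
    (h : ∀ i, i ≠ s → f i = f' i) : ∑ i, f i = ∑ i, f' i + (f s - f' s) := by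
  have h1 : ∑ i, (f i - f' i) = f s - f' s := by
    apply Finset.sum_eq_single s
    · intro i _ hi
      rw [h i hi, sub_self]
    · intro hs
      exact absurd (mem_univ s) hs
  rw [Finset.sum_sub_distrib] at h1
  linarith

private theorem G2_step {m : ℕ} [NeZero m] (g : ZMod m → ℤ) (c : ZMod m → ZMod m → ℝ)
    (hc : ∀ u i, sg (c u i) = g (i - u)) (b B : ℝ) (hb : 0 < b) (hB : ∀ u i, |c u i| ≤ B)
    (hb' : ∀ u i, c u i ≠ 0 → b ≤ |c u i|) (Λ : ℤ) (hΛ1 : 1 ≤ Λ) (hΛ : m * B < b * Λ)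
    (U : Finset (ZMod m)) (s : ZMod m) (F : ℤ)
    (ih : ∃ w : ZMod m → ℤ, (∀ i, w i ≠ 0) ∧
      (∀ i, |w i| ≤ Λ ^ (Helper77.KZ.rest g U s).card) ∧
      (∀ u ∈ Helper77.KZ.rest g U s, ∑ i, c u i * (w i : ℝ) ≠ 0) ∧
      (m : ℤ) + F ≤ ∑ i, Int.sign (w i) -
        ∑ u ∈ Helper77.KZ.rest g U s, sg (∑ i, c u i * (w i : ℝ))) :
    ∃ w : ZMod m → ℤ, (∀ i, w i ≠ 0) ∧ (∀ i, |w i| ≤ Λ ^ U.card) ∧
      (∀ u ∈ U, ∑ i, c u i * (w i : ℝ) ≠ 0) ∧
      (m : ℤ) + (F + |Helper77.KZ.EE g U s - 1| - 1) ≤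
        ∑ i, Int.sign (w i) - ∑ u ∈ U, sg (∑ i, c u i * (w i : ℝ)) := by
  obtain ⟨w', h1, h2, h3, h4⟩ := ih
  have hB0 : 0 ≤ B := (abs_nonneg _).trans (hB s s)
  by_cases hU : Helper77.KZ.rest g U s = U
  · rw [hU] at h2 h3 h4
    have hE : Helper77.KZ.EE g U s = 0 := by
      unfold Helper77.KZ.EE
      apply Finset.sum_eq_zero
      intro l hl
      rw [← hU] at hl
      exact (Finset.mem_filter.1 hl).2
    refine ⟨w', h1, h2, h3, ?_⟩
    rw [hE]
    simpa using h4
  · have hsub : Helper77.KZ.rest g U s ⊆ U := Finset.filter_subset _ _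
    have hcard : (Helper77.KZ.rest g U s).card + 1 ≤ U.card :=
      Finset.card_lt_card (Finset.ssubset_iff_subset_ne.2 ⟨hsub, hU⟩)
    obtain ⟨M, hM⟩ : ∃ M : ℤ, M = Λ ^ (Helper77.KZ.rest g U s).card := ⟨_, rfl⟩
    rw [← hM] at h2
    have hM1 : 1 ≤ M := by
      rw [hM]
      exact one_le_pow₀ hΛ1
    obtain ⟨L, hL⟩ : ∃ L : ℤ, L = Λ ^ U.card := ⟨_, rfl⟩
    have hML : Λ * M ≤ L := by
      rw [hM, hL, ← pow_succ']
      exact pow_le_pow_right₀ hΛ1 hcard
    have hL0 : 0 < L := by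
      rw [hL]
      positivity
    have hML1 : M ≤ L := by
      refine le_trans ?_ hML
      nlinarith
    have hMR : (1 : ℝ) ≤ (M : ℝ) := by exact_mod_cast hM1
    have hLR : (0 : ℝ) < (L : ℝ) := by exact_mod_cast hL0
    have hMLR : (Λ : ℝ) * (M : ℝ) ≤ (L : ℝ) := by exact_mod_cast hML
    have hkey : (m : ℝ) * B * (M : ℝ) < b * (L : ℝ) := by
      have h5 : (m : ℝ) * B * (M : ℝ) < b * Λ * (M : ℝ) :=
        mul_lt_mul_of_pos_right hΛ (by linarith)
      have h6 : b * ((Λ : ℝ) * (M : ℝ)) ≤ b * (L : ℝ) := mul_le_mul_of_nonneg_left hMLR hb.le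
      linarith
    obtain ⟨e, he, hE⟩ : ∃ e : ℤ, (e = 1 ∨ e = -1) ∧
        e * (1 - Helper77.KZ.EE g U s) = |Helper77.KZ.EE g U s - 1| := by
      rcases le_total 0 (1 - Helper77.KZ.EE g U s) with h | h
      · refine ⟨1, Or.inl rfl, ?_⟩
        rw [abs_sub_comm, abs_of_nonneg h, one_mul]
      · refine ⟨-1, Or.inr rfl, ?_⟩
        rw [abs_sub_comm, abs_of_nonpos h, neg_one_mul]
    have he1 : |e| = 1 := by
      rcases he with rfl | rfl <;> simp
    have hes : Int.sign e = e := by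
      rcases he with rfl | rfl <;> rfl
    set w : ZMod m → ℤ := fun i => if i = s then e * L else w' i with hw
    have hws : w s = e * L := by simp [hw]
    have hwi : ∀ i, i ≠ s → w i = w' i := fun i hi => by simp [hw, hi]
    have hsw : Int.sign (w s) = e := by
      rw [hws, Int.sign_mul, hes, Int.sign_eq_one_of_pos hL0, mul_one]
    have hrow : ∀ u, ∑ i, c u i * (w i : ℝ) =
        ∑ i ∈ univ.erase s, c u i * (w' i : ℝ) + c u s * ((e : ℝ) * (L : ℝ)) := by
      intro u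
      rw [← Finset.sum_erase_add _ _ (mem_univ s), hws]
      congr 1
      · apply Finset.sum_congr rfl
        intro i hi
        rw [hwi i (Finset.ne_of_mem_erase hi)]
      · push_cast
        ring
    have hrest : ∀ u, |∑ i ∈ univ.erase s, c u i * (w' i : ℝ)| < b * (L : ℝ) := by
      intro u
      have h5 : |∑ i ∈ univ.erase s, c u i * (w' i : ℝ)| ≤
          ∑ i ∈ univ.erase s, |c u i * (w' i : ℝ)| := Finset.abs_sum_le_sum_abs _ _
      have h6 : ∑ i ∈ univ.erase s, |c u i * (w' i : ℝ)| ≤ ∑ i : ZMod m, |c u i * (w' i : ℝ)| :=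
        Finset.sum_le_sum_of_subset_of_nonneg (Finset.erase_subset _ _)
          fun i _ _ => abs_nonneg _
      have h7 : ∑ i : ZMod m, |c u i * (w' i : ℝ)| ≤ ∑ _i : ZMod m, B * (M : ℝ) := by
        apply Finset.sum_le_sum
        intro i _
        rw [abs_mul]
        have h8 : |(w' i : ℝ)| ≤ (M : ℝ) := by exact_mod_cast h2 i
        exact mul_le_mul (hB u i) h8 (abs_nonneg _) hB0
      rw [Finset.sum_const, Finset.card_univ, ZMod.card, nsmul_eq_mul] at h7
      have : (m : ℝ) * (B * (M : ℝ)) = (m : ℝ) * B * (M : ℝ) := by ring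
      linarith
    have hcz : ∀ u, g (s - u) = 0 ↔ c u s = 0 := by
      intro u
      rw [← hc u s, G2_sg_eq_zero]
    -- rows of the rest
    have hr1 : ∀ u ∈ Helper77.KZ.rest g U s,
        ∑ i, c u i * (w i : ℝ) = ∑ i, c u i * (w' i : ℝ) := by
      intro u hu
      have hu0 : c u s = 0 := (hcz u).1 (Finset.mem_filter.1 hu).2
      rw [hrow u, hu0, zero_mul, add_zero, ← Finset.sum_erase_add _ _ (mem_univ s), hu0, zero_mul,
        add_zero]
    -- the other rows
    have hr2 : ∀ u ∈ U, u ∉ Helper77.KZ.rest g U s →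
        sg (∑ i, c u i * (w i : ℝ)) = e * g (s - u) := by
      intro u hu hur
      have hu0 : c u s ≠ 0 := by
        intro h0
        exact hur (Finset.mem_filter.2 ⟨hu, (hcz u).2 h0⟩)
      have h5 := abs_lt.1 (hrest u)
      have h6 := hb' u s hu0
      rw [hrow u, ← hc u s]
      rcases lt_or_gt_of_ne hu0 with h | h
      · rw [abs_of_neg h] at h6
        have h7 : b * (L : ℝ) ≤ -c u s * (L : ℝ) := mul_le_mul_of_nonneg_right h6 hLR.le
        rw [G2_sg_neg h]
        rcases he with rfl | rfl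
        · rw [G2_sg_neg (by push_cast; linarith)]
          rfl
        · rw [G2_sg_pos (by push_cast; linarith)]
          rfl
      · rw [abs_of_pos h] at h6
        have h7 : b * (L : ℝ) ≤ c u s * (L : ℝ) := mul_le_mul_of_nonneg_right h6 hLR.le
        rw [G2_sg_pos h]
        rcases he with rfl | rfl
        · rw [G2_sg_pos (by push_cast; linarith)]
          rfl
        · rw [G2_sg_neg (by push_cast; linarith)]
          rfl
    refine ⟨w, ?_, ?_, ?_, ?_⟩
    · intro i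
      by_cases hi : i = s
      · rw [hi, hws]
        rcases he with rfl | rfl
        · rw [one_mul]
          exact hL0.ne'
        · rw [neg_one_mul]
          exact neg_ne_zero.2 hL0.ne'
      · rw [hwi i hi]
        exact h1 i
    · intro i
      rw [← hL]
      by_cases hi : i = s
      · rw [hi, hws, abs_mul, he1, one_mul, abs_of_pos hL0]
      · rw [hwi i hi]
        exact (h2 i).trans hML1
    · intro u hu
      by_cases hur : u ∈ Helper77.KZ.rest g U s
      · rw [hr1 u hur]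
        exact h3 u hur
      · intro h0
        have h5 := hr2 u hu hur
        rw [h0, G2_sg_zero] at h5
        have h6 : g (s - u) = 0 := by
          rcases he with rfl | rfl
          · linarith
          · linarith
        exact hur (Finset.mem_filter.2 ⟨hu, h6⟩)
    · have hsum1 : ∑ i, Int.sign (w i) = ∑ i, Int.sign (w' i) + (e - Int.sign (w' s)) := by
        rw [← hsw]
        exact G2_sum_diff (fun i => Int.sign (w i)) (fun i => Int.sign (w' i)) s
          fun i hi => by rw [hwi i hi]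
      have hsum2 : ∑ u ∈ U, sg (∑ i, c u i * (w i : ℝ)) =
          ∑ u ∈ Helper77.KZ.rest g U s, sg (∑ i, c u i * (w' i : ℝ)) +
            e * Helper77.KZ.EE g U s := by
        rw [← Finset.sum_sdiff hsub, add_comm]
        congr 1
        · apply Finset.sum_congr rfl
          intro u hu
          rw [hr1 u hu]
        · unfold Helper77.KZ.EE
          rw [← Finset.sum_sdiff hsub, mul_add]
          have h5 : ∑ l ∈ Helper77.KZ.rest g U s, g (s - l) = 0 :=
            Finset.sum_eq_zero fun l hl => (Finset.mem_filter.1 hl).2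
          rw [h5, mul_zero, add_zero, Finset.mul_sum]
          apply Finset.sum_congr rfl
          intro u hu
          rw [Finset.mem_sdiff] at hu
          exact hr2 u hu.1 hu.2
      rw [hsum1, hsum2]
      have h6 : Int.sign (w' s) ≤ 1 := by
        rcases Int.sign_trichotomy (w' s) with h | h | h <;> rw [h] <;> norm_num
      linarith

/-- real version of `Helper21.FC.play_value` -/
theorem play_real {m : ℕ} [NeZero m] (g : ZMod m → ℤ) (c : ZMod m → ZMod m → ℝ)
    (hc : ∀ u i, sg (c u i) = g (i - u)) (b B : ℝ) (hb : 0 < b) (hB : ∀ u i, |c u i| ≤ B)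
    (hb' : ∀ u i, c u i ≠ 0 → b ≤ |c u i|) (Λ : ℤ) (hΛ1 : 1 ≤ Λ) (hΛ : m * B < b * Λ)
    (U : Finset (ZMod m)) (F : ℤ) (hF : Helper77.KZ.Play g U F) :
    ∃ w : ZMod m → ℤ, (∀ i, w i ≠ 0) ∧ (∀ i, |w i| ≤ Λ ^ U.card) ∧
      (∀ u ∈ U, ∑ i, c u i * (w i : ℝ) ≠ 0) ∧
      (m : ℤ) + F ≤ ∑ i, Int.sign (w i) - ∑ u ∈ U, sg (∑ i, c u i * (w i : ℝ)) := by
  induction hF with
  | nil =>
    refine ⟨fun _ => 1, fun _ => one_ne_zero, fun _ => by simp, fun u hu => by simp at hu, ?_⟩
    simp [ZMod.card]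
  | step U s F _ ih => exact G2_step g c hc b B hb hB hb' Λ hΛ1 hΛ U s F ih

theorem sg_int (z : ℤ) : sg (z : ℝ) = Int.sign z := by
  rcases lt_trichotomy z 0 with h | h | h
  · rw [Int.sign_eq_neg_one_of_neg h, G2_sg_neg (by exact_mod_cast h)]
  · rw [h, Int.sign_zero, Int.cast_zero, G2_sg_zero]
  · rw [Int.sign_eq_one_of_pos h, G2_sg_pos (by exact_mod_cast h)]

/-- a play for the sign pattern of `a` gives a direction for `a` -/
theorem aval_of_val (k B m : ℕ) [NeZero k] [NeZero m] : ∃ B1 : ℕ, ∀ p : ℕ, p.Prime →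
    ∀ a : ZMod m → ℝ, (∀ t, Alg p k B (a t)) → ∀ F : ℤ,
    Helper77.KZ.Val (fun t => sg (a (-t))) univ F → AVal p k B1 a (m + F) := by
  obtain ⟨B', hB'⟩ := liouville k B
  -- Λ = p ^ (m + (B + k + 1) + B' + 1)
  refine ⟨(m + (B + k + 1) + B' + 1) * m, ?_⟩
  intro p hp a ha F hF
  obtain ⟨F', hFF', hplay⟩ := hF
  have hp2 : 2 ≤ p := hp.two_le
  have hpR : (1 : ℝ) < (p : ℝ) := by exact_mod_cast hp.one_lt
  have hp0 : (0 : ℝ) < (p : ℝ) := by linarith
  have hm : (m : ℝ) ≤ (p : ℝ) ^ m := by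
    have := L1_card_le hp2 m
    exact_mod_cast this
  have hΛ : (m : ℝ) * (p : ℝ) ^ (B + k + 1) <
      ((p : ℝ) ^ B')⁻¹ * (((p : ℤ) ^ (m + (B + k + 1) + B' + 1) : ℤ) : ℝ) := by
    have h1 : ((p : ℝ) ^ B')⁻¹ * (((p : ℤ) ^ (m + (B + k + 1) + B' + 1) : ℤ) : ℝ) =
        (p : ℝ) ^ m * (p : ℝ) ^ (B + k + 1) * (p : ℝ) := by
      push_cast
      rw [pow_succ, pow_add, pow_add]
      field_simp
    rw [h1]
    have h2 : (m : ℝ) * (p : ℝ) ^ (B + k + 1) ≤ (p : ℝ) ^ m * (p : ℝ) ^ (B + k + 1) :=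
      mul_le_mul_of_nonneg_right hm (by positivity)
    have h3 : 0 < (p : ℝ) ^ m * (p : ℝ) ^ (B + k + 1) := by positivity
    nlinarith
  obtain ⟨w, hw0, hwb, hwr, hwv⟩ := play_real (fun t => sg (a (-t))) (fun u i => a (u - i))
    (fun u i => by simp only [neg_sub]) (((p : ℝ) ^ B')⁻¹) ((p : ℝ) ^ (B + k + 1))
    (by positivity) (fun u i => (ha (u - i)).abs_le hp2)
    (fun u i h => hB' p hp _ (ha (u - i)) h)
    ((p : ℤ) ^ (m + (B + k + 1) + B' + 1)) (one_le_pow₀ (by exact_mod_cast hp.one_lt.le)) hΛ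
    univ F' hplay
  refine ⟨fun i => (w i : ℝ), ?_, ?_, ?_, ?_⟩
  · intro i
    apply alg_int
    refine (hwb i).trans (le_of_eq ?_)
    rw [Finset.card_univ, ZMod.card, ← pow_mul]
  · intro i
    exact Int.cast_ne_zero.2 (hw0 i)
  · intro u
    exact hwr u (mem_univ u)
  · have h1 : (m : ℤ) + F ≤ ∑ i, sg (w i : ℝ) - ∑ u, sg (act a (fun i => (w i : ℝ)) u) := by
      have h2 : ∑ i, sg (w i : ℝ) = ∑ i, Int.sign (w i) :=
        Finset.sum_congr rfl fun i _ => sg_int (w i)
      rw [h2]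
      unfold act
      linarith
    have h3 : (((m : ℤ) + F : ℤ) : ℝ) ≤
        ((∑ i, sg (w i : ℝ) - ∑ u, sg (act a (fun i => (w i : ℝ)) u) : ℤ) : ℝ) := by
      exact_mod_cast h1
    refine le_trans (le_of_eq ?_) h3
    push_cast
    ring

end Pool.Agent.Helper21.FD
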