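import Pool.Agent.Helper21.FD.Defs

/-!
MP_0aa406_nt, project FD (helper21): coordinates along the cosets of a cyclic subgroup.
-/

set_option autoImplicit false

namespace Pool.Agent.Helper21.FD

open Finset Pool.Agent.Helper21.FC

/-- the representative of the coset of `i` -/
private noncomputable def G3_rep {m : ℕ} (s i : ZMod m) : ZMod m :=
  Quotient.out (QuotientAddGroup.mk i : ZMod m ⧸ AddSubgroup.zmultiples s)

private theorem G3_rep_mem {m : ℕ} (s i : ZMod m) :
    i - G3_rep s i ∈ AddSubgroup.zmultiples s := by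
  have h : (QuotientAddGroup.mk (G3_rep s i) : ZMod m ⧸ AddSubgroup.zmultiples s)
      = QuotientAddGroup.mk i := Quotient.out_eq' _
  have h2 := QuotientAddGroup.eq.1 h
  rwa [neg_add_eq_sub] at h2

private theorem G3_rep_add {m : ℕ} (s i x : ZMod m) (hx : x ∈ AddSubgroup.zmultiples s) :
    G3_rep s (i + x) = G3_rep s i := by
  unfold G3_rep
  congr 1
  refine QuotientAddGroup.eq.2 ?_
  have : -(i + x) + i = -x := by abel
  rw [this]
  exact neg_mem hx

/-- `J i` is the number of steps `s` from a fixed representative of the coset of `i` to `i` -/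
theorem chain_coord {m : ℕ} [NeZero m] (s : ZMod m) : ∃ J : ZMod m → ℕ,
    (∀ i, J i < addOrderOf s) ∧
    (∀ i, J i + 1 < addOrderOf s → J (i + s) = J i + 1) ∧
    (∀ i, J i + 1 = addOrderOf s → J (i + s) = 0) ∧
    ∀ j, j < addOrderOf s → (univ.filter (fun i => J i = j)).card * addOrderOf s = m := by
  have hfin : IsOfFinAddOrder s := isOfFinAddOrder_of_finite s
  have ho : 0 < addOrderOf s := hfin.addOrderOf_pos
  have hex : ∀ i : ZMod m, ∃ k : ℕ, k < addOrderOf s ∧ k • s = i - G3_rep s i := by
    intro i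
    have h1 := G3_rep_mem s i
    rw [mem_zmultiples_iff_mem_range_addOrderOf] at h1
    obtain ⟨k, hk, hk2⟩ := Finset.mem_image.1 h1
    exact ⟨k, Finset.mem_range.1 hk, hk2⟩
  choose J hJ1 hJ2 using hex
  have huniq : ∀ i k, k < addOrderOf s → k • s = i - G3_rep s i → J i = k := by
    intro i k hk h
    exact nsmul_injOn_Iio_addOrderOf (Set.mem_Iio.2 (hJ1 i)) (Set.mem_Iio.2 hk)
      ((hJ2 i).trans h.symm)
  have hss : s ∈ AddSubgroup.zmultiples s := AddSubgroup.mem_zmultiples s
  have hks : ∀ k : ℕ, k • s ∈ AddSubgroup.zmultiples s := fun k =>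
    AddSubgroup.nsmul_mem _ hss k
  have hfib : ∀ j, j < addOrderOf s →
      (univ.filter (fun i => J i = j)).card = (univ.filter (fun i => J i = 0)).card := by
    intro j hj
    refine Finset.card_nbij' (fun i => i - j • s) (fun i => i + j • s) ?_ ?_ ?_ ?_
    · intro i hi
      have hi' : J i = j := (Finset.mem_filter.1 (Finset.mem_coe.1 hi)).2
      refine Finset.mem_coe.2 (Finset.mem_filter.2 ⟨Finset.mem_univ _, ?_⟩)
      refine huniq _ 0 ho ?_
      have h1 : G3_rep s (i - j • s) = G3_rep s i := by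
        rw [sub_eq_add_neg]
        exact G3_rep_add s i _ (neg_mem (hks j))
      have h2 := hJ2 i
      rw [hi'] at h2
      show 0 • s = i - j • s - G3_rep s (i - j • s)
      rw [h1, h2, zero_nsmul]
      abel
    · intro i hi
      have hi' : J i = 0 := (Finset.mem_filter.1 (Finset.mem_coe.1 hi)).2
      refine Finset.mem_coe.2 (Finset.mem_filter.2 ⟨Finset.mem_univ _, ?_⟩)
      refine huniq _ j hj ?_
      have h1 : G3_rep s (i + j • s) = G3_rep s i := G3_rep_add s i _ (hks j)
      have h2 := hJ2 i
      rw [hi', zero_nsmul] at h2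
      show j • s = i + j • s - G3_rep s (i + j • s)
      rw [h1]
      have h3 : i = G3_rep s i := (sub_eq_zero.1 h2.symm)
      calc j • s = (i - G3_rep s i) + j • s := by rw [← h2, zero_add]
        _ = i + j • s - G3_rep s i := by abel
    · intro i _
      show i - j • s + j • s = i
      abel
    · intro i _
      show i + j • s - j • s = i
      abel
  refine ⟨J, hJ1, ?_, ?_, ?_⟩
  · intro i hi
    refine huniq _ _ hi ?_
    rw [G3_rep_add s i s hss, add_nsmul, one_nsmul, hJ2 i]
    abel
  · intro i hi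
    refine huniq _ 0 ho ?_
    have h1 : (J i + 1) • s = 0 := by rw [hi]; exact addOrderOf_nsmul_eq_zero s
    rw [add_nsmul, one_nsmul, hJ2 i] at h1
    rw [G3_rep_add s i s hss, zero_nsmul, ← h1]
    abel
  · intro j hj
    have h1 : (univ : Finset (ZMod m)).card
        = ∑ b ∈ range (addOrderOf s), (univ.filter (fun i => J i = b)).card :=
      Finset.card_eq_sum_card_fiberwise (fun i _ => Finset.mem_coe.2 (Finset.mem_range.2 (hJ1 i)))
    rw [Finset.sum_congr rfl (fun b hb => hfib b (Finset.mem_range.1 hb)), Finset.sum_const,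
      Finset.card_range, Finset.card_univ, ZMod.card, smul_eq_mul] at h1
    rw [hfib j hj, mul_comm]
    exact h1.symm

/-- orders in `ZMod m` are divisors of `m` -/
theorem le_order {m l : ℕ} [NeZero m] (hl : ∀ q : ℕ, q.Prime → q ∣ m → l ≤ q) (s : ZMod m)
    (hs : s ≠ 0) : l ≤ addOrderOf s := by
  have h1 : addOrderOf s ≠ 1 := fun h => hs (AddMonoid.addOrderOf_eq_one_iff.1 h)
  have h2 : addOrderOf s ∣ m := by
    have := addOrderOf_dvd_card (x := s)
    rwa [ZMod.card] at this
  have hfin : IsOfFinAddOrder s := isOfFinAddOrder_of_finite s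
  have ho : 0 < addOrderOf s := hfin.addOrderOf_pos
  exact (hl _ (Nat.minFac_prime h1) ((Nat.minFac_dvd _).trans h2)).trans (Nat.minFac_le ho)

end Pool.Agent.Helper21.FD
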