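import Pool.Agent.Helper21.FD.Q4

/-!
MP_0aa406_nt, project FD (helper21): sums `∑ v_t ρ ^ t` with bounded integers `v_t`.
-/

set_option autoImplicit false

namespace Pool.Agent.Helper21.FD

open Finset Pool.Agent.Helper21.FC

variable {p k : ℕ} [NeZero k]

theorem Alg.mono (hp : 2 ≤ p) {B B' : ℕ} (h : B ≤ B') {x : ℝ} (hx : Alg p k B x) :
    Alg p k B' x := by
  obtain ⟨v, hv, rfl⟩ := hx
  refine ⟨v, fun t => (hv t).trans ?_, rfl⟩
  exact pow_le_pow_right₀ (by exact_mod_cast (by omega : 1 ≤ p)) h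

theorem alg_int_rho (B : ℕ) (z : ℤ) (hz : |z| ≤ (p : ℤ) ^ B) (j : ℕ) (hj : j < k) :
    Alg p k B ((z : ℝ) * rho p k ^ j) := by
  refine ⟨Pi.single (j : ZMod k) z, fun t => ?_, ?_⟩
  · by_cases h : t = (j : ZMod k)
    · subst h
      rw [Pi.single_eq_same]
      exact hz
    · rw [Pi.single_eq_of_ne h, abs_zero]
      positivity
  · rw [Finset.sum_eq_single (j : ZMod k)]
    · rw [Pi.single_eq_same, ZMod.val_natCast_of_lt hj]
    · intro b _ hb
      rw [Pi.single_eq_of_ne hb]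
      simp
    · intro h
      exact absurd (mem_univ _) h

theorem alg_int (B : ℕ) (z : ℤ) (hz : |z| ≤ (p : ℤ) ^ B) : Alg p k B (z : ℝ) := by
  have h := alg_int_rho (p := p) (k := k) B z hz 0 (Nat.pos_of_ne_zero (NeZero.ne k))
  rwa [pow_zero, mul_one] at h

theorem alg_zero : Alg p k 0 (0 : ℝ) := by
  have h := alg_int (p := p) (k := k) 0 0 (by simp)
  simpa using h

theorem Alg.neg {B : ℕ} {x : ℝ} (hx : Alg p k B x) : Alg p k B (-x) := by
  obtain ⟨v, hv, rfl⟩ := hx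
  refine ⟨fun t => - v t, fun t => by rw [abs_neg]; exact hv t, ?_⟩
  rw [← Finset.sum_neg_distrib]
  refine Finset.sum_congr rfl fun t _ => ?_
  push_cast
  ring

theorem Alg.abs {B : ℕ} {x : ℝ} (hx : Alg p k B x) : Alg p k B |x| := by
  rcases abs_choice x with h | h <;> rw [h]
  · exact hx
  · exact hx.neg

theorem Alg.add (hp : 2 ≤ p) {B B' : ℕ} {x y : ℝ} (hx : Alg p k B x) (hy : Alg p k B' y) :
    Alg p k (max B B' + 1) (x + y) := by
  obtain ⟨v, hv, rfl⟩ := hx.mono hp (le_max_left B B')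
  obtain ⟨w, hw, rfl⟩ := hy.mono hp (le_max_right B B')
  refine ⟨fun t => v t + w t, fun t => ?_, ?_⟩
  · have h1 := abs_add_le (v t) (w t)
    have h2 := hv t
    have h3 := hw t
    have h4 : (2 : ℤ) ≤ p := by exact_mod_cast hp
    have h5 : (0 : ℤ) ≤ (p : ℤ) ^ max B B' := by positivity
    rw [pow_succ]
    nlinarith
  · rw [← Finset.sum_add_distrib]
    refine Finset.sum_congr rfl fun t _ => ?_
    push_cast
    ring

theorem L1_card_le (hp : 2 ≤ p) (n : ℕ) : (n : ℤ) ≤ (p : ℤ) ^ n := by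
  have h1 : n ≤ 2 ^ n := Nat.lt_two_pow_self.le
  have h2 : 2 ^ n ≤ p ^ n := Nat.pow_le_pow_left hp n
  exact_mod_cast h1.trans h2

theorem Alg.sum (hp : 2 ≤ p) {B : ℕ} {ι : Type} (s : Finset ι) (x : ι → ℝ)
    (hx : ∀ i ∈ s, Alg p k B (x i)) : Alg p k (B + s.card) (∑ i ∈ s, x i) := by
  classical
  choose! v hv hx' using hx
  refine ⟨fun t => ∑ i ∈ s, v i t, fun t => ?_, ?_⟩
  · calc |∑ i ∈ s, v i t| ≤ ∑ i ∈ s, |v i t| := Finset.abs_sum_le_sum_abs _ _
      _ ≤ ∑ _i ∈ s, (p : ℤ) ^ B := Finset.sum_le_sum fun i hi => hv i hi t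
      _ = s.card * (p : ℤ) ^ B := by rw [Finset.sum_const, nsmul_eq_mul]
      _ ≤ (p : ℤ) ^ s.card * (p : ℤ) ^ B :=
          mul_le_mul_of_nonneg_right (L1_card_le hp _) (by positivity)
      _ = (p : ℤ) ^ (B + s.card) := by rw [pow_add, mul_comm]
  · rw [Finset.sum_congr rfl hx', Finset.sum_comm]
    refine Finset.sum_congr rfl fun t _ => ?_
    push_cast
    rw [Finset.sum_mul]

theorem L1_tn (t : ZMod k) : tn (k - 1) t = t.val := by
  unfold tn
  have h1 : ((k - 1 : ℕ) : ZMod k) = -1 := by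
    have hk : 1 ≤ k := Nat.pos_of_ne_zero (NeZero.ne k)
    rw [Nat.cast_sub hk]
    simp
  rw [h1]
  congr 1
  ring

theorem L1_Sr (v : ZMod k → ℤ) : Sr p (k - 1) v = ∑ t : ZMod k, (v t : ℝ) * rho p k ^ t.val := by
  unfold Sr
  refine Finset.sum_congr rfl fun t _ => ?_
  rw [L1_tn]

theorem Alg.mul (hp : 2 ≤ p) {B B' : ℕ} {x y : ℝ} (hx : Alg p k B x) (hy : Alg p k B' y) :
    Alg p k (B + B' + k + 1) (x * y) := by
  obtain ⟨v, hv, rfl⟩ := hx
  obtain ⟨w, hw, rfl⟩ := hy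
  refine ⟨rmul p (k - 1) v w, fun u => ?_, ?_⟩
  · unfold rmul
    have hkey : ∀ i ∈ (univ : Finset (ZMod k)),
        |v (u - i) * w i * (p : ℤ) ^ cy (k - 1) (u - i) i| ≤ (p : ℤ) ^ B * (p : ℤ) ^ B' * p := by
      intro i _
      rw [abs_mul, abs_mul]
      have h1 : |(p : ℤ) ^ cy (k - 1) (u - i) i| ≤ (p : ℤ) := by
        rw [abs_of_nonneg (by positivity)]
        have h2 : cy (k - 1) (u - i) i ≤ 1 := by
          unfold cy
          rw [L1_tn, L1_tn]
          have h3 := ZMod.val_lt (u - i)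
          have h4 := ZMod.val_lt i
          rw [Nat.div_le_iff_le_mul_add_pred (Nat.pos_of_ne_zero (NeZero.ne k))]
          omega
        calc (p : ℤ) ^ cy (k - 1) (u - i) i ≤ (p : ℤ) ^ 1 :=
              pow_le_pow_right₀ (by exact_mod_cast (by omega : 1 ≤ p)) h2
          _ = p := pow_one _
      exact mul_le_mul (mul_le_mul (hv _) (hw _) (abs_nonneg _) (by positivity)) h1
        (abs_nonneg _) (by positivity)
    calc |∑ i, v (u - i) * w i * (p : ℤ) ^ cy (k - 1) (u - i) i|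
        ≤ ∑ i, |v (u - i) * w i * (p : ℤ) ^ cy (k - 1) (u - i) i| :=
          Finset.abs_sum_le_sum_abs _ _
      _ ≤ ∑ _i : ZMod k, (p : ℤ) ^ B * (p : ℤ) ^ B' * p := Finset.sum_le_sum hkey
      _ = k * ((p : ℤ) ^ B * (p : ℤ) ^ B' * p) := by
          rw [Finset.sum_const, Finset.card_univ, ZMod.card, nsmul_eq_mul]
      _ ≤ (p : ℤ) ^ k * ((p : ℤ) ^ B * (p : ℤ) ^ B' * p) :=
          mul_le_mul_of_nonneg_right (L1_card_le hp _) (by positivity)
      _ = (p : ℤ) ^ (B + B' + k + 1) := by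
          rw [pow_succ, pow_add, pow_add]
          ring
  · rw [← L1_Sr, ← L1_Sr, ← L1_Sr, Sr_rmul]

theorem Alg.abs_le (hp : 2 ≤ p) {B : ℕ} {x : ℝ} (hx : Alg p k B x) :
    |x| ≤ (p : ℝ) ^ (B + k + 1) := by
  obtain ⟨v, hv, rfl⟩ := hx
  have hk : 0 < k := Nat.pos_of_ne_zero (NeZero.ne k)
  have hkey : ∀ t ∈ (univ : Finset (ZMod k)),
      |(v t : ℝ) * rho p k ^ t.val| ≤ (p : ℝ) ^ B * p := by
    intro t _
    have h1 := rho_bounds p k hp hk t.val (ZMod.val_lt t).le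
    rw [abs_mul]
    refine mul_le_mul ?_ ?_ (abs_nonneg _) (by positivity)
    · have := hv t
      exact_mod_cast this
    · rw [abs_of_nonneg (by linarith)]
      exact h1.2
  calc |∑ t : ZMod k, (v t : ℝ) * rho p k ^ t.val|
      ≤ ∑ t : ZMod k, |(v t : ℝ) * rho p k ^ t.val| := Finset.abs_sum_le_sum_abs _ _
    _ ≤ ∑ _t : ZMod k, (p : ℝ) ^ B * p := Finset.sum_le_sum hkey
    _ = k * ((p : ℝ) ^ B * p) := by
        rw [Finset.sum_const, Finset.card_univ, ZMod.card, nsmul_eq_mul]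
    _ ≤ (p : ℝ) ^ k * ((p : ℝ) ^ B * p) := by
        refine mul_le_mul_of_nonneg_right ?_ (by positivity)
        have := L1_card_le hp k
        exact_mod_cast this
    _ = (p : ℝ) ^ (B + k + 1) := by
        rw [pow_succ, pow_add]
        ring

theorem L1_tn_lt (n : ℕ) (t : ZMod k) : tn n t < k := ZMod.val_lt _

theorem alg_ci (n B : ℕ) (μ : ZMod k → ℤ) (hμ : ∀ t, |μ t| ≤ (p : ℤ) ^ B) (t : ZMod k) :
    Alg p k B (ci p n μ t) := alg_int_rho B (μ t) (hμ t) _ (L1_tn_lt n t)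

/-- rows of the action (the circulant has `m` entries, `m` need not be `k`) -/
theorem alg_act (hp : 2 ≤ p) {B B' m : ℕ} [NeZero m] (a y : ZMod m → ℝ)
    (ha : ∀ t, Alg p k B (a t)) (hy : ∀ t, Alg p k B' (y t)) (u : ZMod m) :
    Alg p k (B + B' + k + 1 + m) (act a y u) := by
  have h := Alg.sum (k := k) hp (univ : Finset (ZMod m)) (fun i => a (u - i) * y i)
    (fun i _ => (ha (u - i)).mul hp (hy i))
  rw [Finset.card_univ, ZMod.card] at h
  exact h

theorem alg_qt (hp : 2 ≤ p) {B m m' : ℕ} [NeZero m] (a : ZMod m → ℝ)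
    (ha : ∀ t, Alg p k B (a t)) (t : ZMod m') : Alg p k (B + m) (qt m' a t) := by
  unfold qt
  have h := Alg.sum (k := k) hp (univ.filter (fun c : ZMod m => pr m' c = t)) a
    (fun i _ => ha i)
  refine h.mono hp ?_
  have h2 := Finset.card_le_univ (univ.filter (fun c : ZMod m => pr m' c = t))
  rw [ZMod.card] at h2
  omega

end Pool.Agent.Helper21.FD
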