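import Pool.Agent.Helper21.FC.P1
import Pool.Agent.Helper21.FD.L1

/-!
MP_0aa406_nt, project FD (helper21): Liouville's lower bound.
-/

set_option autoImplicit false

namespace Pool.Agent.Helper21.FD

open Finset Pool.Agent.Helper21.FC

/-- matrix of the multiplication by `v` -/
def L2mat (p : ℕ) {k : ℕ} [NeZero k] (v : ZMod k → ℤ) : Matrix (ZMod k) (ZMod k) ℤ :=
  Matrix.of (fun u i => v (u - i) * (p : ℤ) ^ (((u - i).val + i.val) / k))

theorem L2_mulVec (p : ℕ) {k : ℕ} [NeZero k] (v y : ZMod k → ℤ) :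
    (L2mat p v).mulVec y = tw p v y := by
  funext u
  unfold tw L2mat Matrix.mulVec dotProduct
  refine Finset.sum_congr rfl (fun i _ => ?_)
  change v (u - i) * (p : ℤ) ^ (((u - i).val + i.val) / k) * y i = _
  ring

theorem L2_entry (p : ℕ) (hp : 1 ≤ p) {k : ℕ} [NeZero k] (B : ℕ) (v : ZMod k → ℤ)
    (hv : ∀ t, |v t| ≤ (p : ℤ) ^ B) (u i : ZMod k) : |L2mat p v u i| ≤ (p : ℤ) ^ (B + 1) := by
  have hp1 : (1 : ℤ) ≤ p := by exact_mod_cast hp
  unfold L2mat
  rw [Matrix.of_apply, abs_mul, pow_add]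
  have h1 : ((u - i).val + i.val) / k ≤ 1 := by
    have h2 := ZMod.val_lt (u - i)
    have h3 := ZMod.val_lt i
    have h4 : (u - i).val + i.val < k * 2 := by omega
    have := Nat.div_lt_of_lt_mul h4
    omega
  have h2 : |(p : ℤ) ^ (((u - i).val + i.val) / k)| ≤ (p : ℤ) ^ 1 := by
    rw [abs_of_nonneg (by positivity)]
    exact pow_le_pow_right₀ hp1 h1
  exact mul_le_mul (hv _) h2 (abs_nonneg _) (by positivity)

/-- a nonzero `∑ v_t ρ ^ t` with integers `|v_t| ≤ p ^ B` is at least `p ^ (-B')` -/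
theorem liouville (k : ℕ) [NeZero k] (B : ℕ) : ∃ B' : ℕ, ∀ p : ℕ, p.Prime → ∀ x : ℝ,
    Alg p k B x → x ≠ 0 → ((p : ℝ) ^ B')⁻¹ ≤ |x| := by
  refine ⟨k + (k * k + (B + 1) * k) + 1, fun p hp x hx hx0 => ?_⟩
  obtain ⟨v, hv, hxv⟩ := hx
  have hk : 0 < k := Nat.pos_of_ne_zero (NeZero.ne k)
  have hp2 := hp.two_le
  have hp1 : 1 ≤ p := by omega
  have hpZ : (1 : ℤ) ≤ p := by exact_mod_cast hp1
  have hpR : (1 : ℝ) ≤ p := by exact_mod_cast hp1
  have hxr : x = rev p v := by
    rw [hxv]
    rfl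
  have hdet : (L2mat p v).det ≠ 0 := by
    intro h0
    obtain ⟨y, hy0, hy⟩ := Matrix.exists_mulVec_eq_zero_iff.2 h0
    apply hy0
    rw [L2_mulVec] at hy
    have h1 := toPoly_tw p k v y
    rw [hy] at h1
    have h2 : toPoly (0 : ZMod k → ℤ) = 0 := by
      unfold toPoly
      refine Finset.sum_eq_zero (fun c _ => ?_)
      rw [Pi.zero_apply, Polynomial.C_0, zero_mul]
    rw [h2] at h1
    have h3 : rev p v * rev p y = ((0 : ℤ) : ℝ) :=
      rev_mul p k v y 0 (by rw [Polynomial.C_0]; exact h1)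
    rw [← hxr, Int.cast_zero] at h3
    exact rev_eq_zero p k hp y ((mul_eq_zero.1 h3).resolve_left hx0)
  -- the column of the adjugate
  let w : ZMod k → ℤ := fun t => (L2mat p v).adjugate t 0
  have hw : tw p v w = Pi.single 0 (L2mat p v).det := by
    rw [← L2_mulVec]
    funext u
    have h1 : ((L2mat p v) * (L2mat p v).adjugate) u 0 = ((L2mat p v).det • (1 : Matrix (ZMod k) (ZMod k) ℤ)) u 0 := by
      rw [Matrix.mul_adjugate]
    rw [Matrix.mul_apply, Matrix.smul_apply, Matrix.one_apply] at h1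
    change ∑ t, L2mat p v u t * (L2mat p v).adjugate t 0 = _
    rw [h1]
    by_cases hu : u = 0
    · subst hu
      rw [if_pos rfl, Pi.single_eq_same, smul_eq_mul, mul_one]
    · rw [if_neg hu, Pi.single_eq_of_ne hu, smul_zero]
  have hwb : ∀ t, |w t| ≤ (p : ℤ) ^ (k * k + (B + 1) * k) := by
    intro t
    have h1 : w t = ((L2mat p v).updateRow 0 (Pi.single t 1)).det := Matrix.adjugate_apply _ _ _
    have h2 := Matrix.det_le (A := (L2mat p v).updateRow 0 (Pi.single t 1))
      (abv := AbsoluteValue.abs) (x := (p : ℤ) ^ (B + 1)) (fun a b => by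
        rw [AbsoluteValue.abs_apply, Matrix.updateRow_apply]
        split_ifs with h3
        · by_cases hb : b = t
          · subst hb
            rw [Pi.single_eq_same, abs_one]
            exact one_le_pow₀ hpZ
          · rw [Pi.single_eq_of_ne hb, abs_zero]
            positivity
        · exact L2_entry p hp1 B v hv a b)
    rw [AbsoluteValue.abs_apply, ← h1, ZMod.card] at h2
    refine h2.trans ?_
    rw [nsmul_eq_mul, ← pow_mul, pow_add (p : ℤ) (k * k) ((B + 1) * k)]
    refine mul_le_mul_of_nonneg_right ?_ (by positivity)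
    have h3 : Nat.factorial k ≤ p ^ (k * k) := by
      calc Nat.factorial k ≤ k ^ k := Nat.factorial_le_pow k
        _ ≤ (p ^ k) ^ k := Nat.pow_le_pow_left ((Nat.lt_pow_self (by omega)).le) k
        _ = p ^ (k * k) := by rw [← pow_mul]
    exact_mod_cast h3
  have h1 : rev p v * rev p w = (((L2mat p v).det : ℤ) : ℝ) := by
    refine rev_mul p k v w _ ?_
    have h2 := toPoly_tw p k v w
    rw [hw] at h2
    have h3 : toPoly (Pi.single (0 : ZMod k) (L2mat p v).det : ZMod k → ℤ) =
        Polynomial.C (L2mat p v).det := by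
      unfold toPoly
      rw [Finset.sum_eq_single (0 : ZMod k)]
      · rw [Pi.single_eq_same, ZMod.val_zero, pow_zero, mul_one]
      · intro b _ hb
        rw [Pi.single_eq_of_ne hb, Polynomial.C_0, zero_mul]
      · intro h
        exact absurd (Finset.mem_univ _) h
    rw [h3] at h2
    exact h2
  have hρ0 : 0 < rho p k := by
    unfold rho
    positivity
  have hρp : ∀ t : ZMod k, rho p k ^ t.val ≤ p := by
    intro t
    have hρk : rho p k ^ k = p := by
      unfold rho
      rw [← Real.rpow_natCast, ← Real.rpow_mul (Nat.cast_nonneg p), one_div,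
        inv_mul_cancel₀ (Nat.cast_ne_zero.mpr hk.ne'), Real.rpow_one]
    have hρ1 : 1 ≤ rho p k := by
      unfold rho
      exact Real.one_le_rpow hpR (by positivity)
    calc rho p k ^ t.val ≤ rho p k ^ k := pow_le_pow_right₀ hρ1 (ZMod.val_lt t).le
      _ = p := hρk
  have hrw : |rev p w| ≤ (p : ℝ) ^ (k + (k * k + (B + 1) * k) + 1) := by
    unfold rev
    refine (Finset.abs_sum_le_sum_abs _ _).trans ?_
    refine (Finset.sum_le_card_nsmul _ _ ((p : ℝ) ^ (k * k + (B + 1) * k) * p) (fun t _ => ?_)).trans ?_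
    · rw [abs_mul]
      refine mul_le_mul ?_ ?_ (abs_nonneg _) (by positivity)
      · have h3 := hwb t
        exact_mod_cast h3
      · rw [abs_of_nonneg (by positivity)]
        exact hρp t
    · rw [Finset.card_univ, ZMod.card, nsmul_eq_mul]
      have h3 : (k : ℝ) ≤ (p : ℝ) ^ k := by
        exact_mod_cast (Nat.lt_pow_self (by omega : 1 < p)).le
      calc (k : ℝ) * ((p : ℝ) ^ (k * k + (B + 1) * k) * p)
          ≤ (p : ℝ) ^ k * ((p : ℝ) ^ (k * k + (B + 1) * k) * p) :=
            mul_le_mul_of_nonneg_right h3 (by positivity)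
        _ = (p : ℝ) ^ (k + (k * k + (B + 1) * k) + 1) := by
            rw [pow_succ _ (k + (k * k + (B + 1) * k)), pow_add (p : ℝ) k]
            ring
  have h2 : (1 : ℝ) ≤ |x| * |rev p w| := by
    rw [hxr, ← abs_mul, h1, ← Int.cast_abs]
    exact_mod_cast Int.one_le_abs hdet
  have h3 : |x| * |rev p w| ≤ |x| * (p : ℝ) ^ (k + (k * k + (B + 1) * k) + 1) :=
    mul_le_mul_of_nonneg_left hrw (abs_nonneg _)
  rw [inv_le_iff_one_le_mul₀ (by positivity)]
  exact h2.trans h3

end Pool.Agent.Helper21.FD
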