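import Pool.Agent.Helper21.FD.G3
import Pool.Agent.Helper21.FD.L2

/-!
MP_0aa406_nt, project FD (helper21): circulants with two positive entries, odd order.
-/

set_option autoImplicit false

namespace Pool.Agent.Helper21.FD

open Finset Pool.Agent.Helper21.FC

theorem G4_act {m : ℕ} [NeZero m] (a y : ZMod m → ℝ) (t₀ t₁ : ZMod m) (hne : t₀ ≠ t₁)
    (h0 : ∀ t, t ≠ t₀ → t ≠ t₁ → a t = 0) (i : ZMod m) :
    act a y (i + t₁) = a t₀ * y (i + (t₁ - t₀)) + a t₁ * y i := by
  rw [act, ← Finset.sum_subset (Finset.subset_univ {i + (t₁ - t₀), i})]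
  · rw [Finset.sum_pair]
    · congr 2
      · congr 1; abel
      · congr 1; abel
    · intro h
      apply hne
      have : t₁ - t₀ = 0 := by simpa using h
      exact (sub_eq_zero.1 this).symm
  · intro j _ hj
    simp only [Finset.mem_insert, Finset.mem_singleton, not_or] at hj
    rw [h0, zero_mul]
    · intro h
      apply hj.1
      rw [← h]; abel
    · intro h
      apply hj.2
      have : i + t₁ - j - t₁ = 0 := by rw [h]; abel
      have h2 : i - j = 0 := by rw [← this]; abel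
      exact (sub_eq_zero.1 h2).symm

theorem G4_sg_pos {x : ℝ} (h : 0 < x) : sg x = 1 := by rw [sg, if_pos h]

theorem G4_sg_neg {x : ℝ} (h : x < 0) : sg x = -1 := by rw [sg, if_neg (not_lt.2 h.le), if_pos h]

theorem two_pos (k B m : ℕ) [NeZero k] [NeZero m] (hodd : Odd m) : ∃ B1 : ℕ, ∀ p : ℕ, p.Prime →
    ∀ a : ZMod m → ℝ, (∀ t, Alg p k B (a t)) → ∀ t₀ t₁ : ZMod m, t₀ ≠ t₁ → 0 < a t₀ → 0 < a t₁ →
    (∀ t, t ≠ t₀ → t ≠ t₁ → a t = 0) → ∀ l : ℕ, 1 ≤ l → (∀ q : ℕ, q.Prime → q ∣ m → l ≤ q) →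
      AVal p k B1 a (m - m / l) := by
  obtain ⟨B', hB'⟩ := liouville k B
  refine ⟨B' + B + k + 2, fun p hp a ha t₀ t₁ hne h0 h1 hz l hl1 hl => ?_⟩
  have hp2 : 2 ≤ p := hp.two_le
  have hpR : (2 : ℝ) ≤ p := by exact_mod_cast hp2
  have hp0 : (0 : ℝ) < p := by linarith
  set E := B' + B + k + 2 with hE
  set L : ℝ := (p : ℝ) ^ E with hL
  have hL1 : (1 : ℝ) ≤ L := one_le_pow₀ (by linarith)
  -- comparison
  have hcmp : ∀ t t' : ZMod m, 0 < a t → 0 < a t' → a t' < L * a t := by
    intro t t' ht ht'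
    have e1 : ((p : ℝ) ^ B')⁻¹ ≤ a t := by
      have := hB' p hp (a t) (ha t) ht.ne'
      rwa [abs_of_pos ht] at this
    have e2 : a t' ≤ (p : ℝ) ^ (B + k + 1) := by
      have := (ha t').abs_le hp2
      rwa [abs_of_pos ht'] at this
    have e3 : L = (p : ℝ) ^ B' * ((p : ℝ) ^ (B + k + 1) * p) := by
      rw [hL, hE, ← pow_succ, ← pow_add]
      congr 1
      ring
    have e4 : (0 : ℝ) < (p : ℝ) ^ B' := pow_pos hp0 _
    have e5 : (0 : ℝ) < (p : ℝ) ^ (B + k + 1) := pow_pos hp0 _
    calc a t' ≤ (p : ℝ) ^ (B + k + 1) := e2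
      _ < (p : ℝ) ^ (B + k + 1) * p := by nlinarith
      _ = L * ((p : ℝ) ^ B')⁻¹ := by rw [e3]; field_simp
      _ ≤ L * a t := by
        refine mul_le_mul_of_nonneg_left e1 (by linarith)
  set s := t₁ - t₀ with hs
  have hs0 : s ≠ 0 := fun h => hne (sub_eq_zero.1 h).symm
  obtain ⟨J, hJ1, hJ2, hJ3, hJ4⟩ := chain_coord s
  set o := addOrderOf s with ho
  have hlo : l ≤ o := le_order hl s hs0
  have hodv : o ∣ m := by
    have := addOrderOf_dvd_card (x := s)
    rwa [ZMod.card] at this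
  have hoodd : Odd o := Odd.of_dvd_nat hodd hodv
  have hopos : 0 < o := hoodd.pos
  let y : ZMod m → ℝ := fun i => if Odd (J i) then -L else 1
  have hyo : ∀ i, Odd (J i) → y i = -L := fun i h => if_pos h
  have hye : ∀ i, ¬ Odd (J i) → y i = 1 := fun i h => if_neg h
  have hrow : ∀ i, act a y (i + t₁) = a t₀ * y (i + s) + a t₁ * y i := fun i => G4_act a y t₀ t₁ hne hz i
  -- the sign of the rows
  have hpos : ∀ i, J i + 1 = o → 0 < act a y (i + t₁) ∧ y i = 1 ∧ y (i + s) = 1 := by
    intro i hi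
    have e1 : ¬ Odd (J i) := by
      intro h
      have h2 : Even o := by rw [← hi]; exact h.add_one
      exact (Nat.not_even_iff_odd.2 hoodd) h2
    have e2 : ¬ Odd (J (i + s)) := by rw [hJ3 i hi]; decide
    refine ⟨?_, hye i e1, hye _ e2⟩
    rw [hrow, hye i e1, hye _ e2]
    linarith
  have hneg : ∀ i, J i + 1 ≠ o → act a y (i + t₁) < 0 ∧ ((y i = 1 ∧ y (i + s) = -L) ∨ (y i = -L ∧ y (i + s) = 1)) := by
    intro i hi
    have hlt : J i + 1 < o := lt_of_le_of_ne (hJ1 i) hi
    have e := hJ2 i hlt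
    by_cases h : Odd (J i)
    · have e2 : ¬ Odd (J (i + s)) := by
        rw [e, Nat.not_odd_iff_even]; exact h.add_one
      refine ⟨?_, Or.inr ⟨hyo i h, hye _ e2⟩⟩
      rw [hrow, hyo i h, hye _ e2]
      have := hcmp t₁ t₀ h1 h0
      linarith
    · have e2 : Odd (J (i + s)) := by
        rw [e]
        rw [Nat.not_odd_iff_even] at h
        exact h.add_one
      refine ⟨?_, Or.inl ⟨hye i h, hyo _ e2⟩⟩
      rw [hrow, hye i h, hyo _ e2]
      have := hcmp t₀ t₁ h0 h1
      linarith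
  set S := univ.filter (fun i => J i + 1 = o) with hS
  have hScard : S.card * o = m := by
    have := hJ4 (o - 1) (by omega)
    have e : S = univ.filter (fun i => J i = o - 1) := by
      rw [hS]
      refine Finset.filter_congr (fun i _ => ?_)
      omega
    rw [e]; exact this
  -- the sum of the signs of y
  have hsy : ∑ i, sg (y i) = S.card := by
    have e1 : ∑ i, sg (y (i + s)) = ∑ i, sg (y i) := Equiv.sum_comp (Equiv.addRight s) (fun i => sg (y i))
    have e2 : ∑ i, (sg (y i) + sg (y (i + s))) = ∑ i, (if J i + 1 = o then (2 : ℤ) else 0) := by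
      refine Finset.sum_congr rfl (fun i _ => ?_)
      by_cases h : J i + 1 = o
      · obtain ⟨_, h2, h3⟩ := hpos i h
        rw [if_pos h, h2, h3, G4_sg_pos one_pos]
        norm_num
      · rw [if_neg h]
        obtain ⟨_, ⟨h2, h3⟩ | ⟨h2, h3⟩⟩ := hneg i h
        · rw [h2, h3, G4_sg_pos one_pos, G4_sg_neg (by linarith)]
          norm_num
        · rw [h2, h3, G4_sg_pos one_pos, G4_sg_neg (by linarith)]
          norm_num
    rw [Finset.sum_add_distrib, e1, ← Finset.sum_filter, Finset.sum_const, nsmul_eq_mul] at e2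
    have : (S.card : ℤ) * 2 = ∑ i, sg (y i) + ∑ i, sg (y i) := by
      rw [e2]
    omega
  have hsr : ∑ u, sg (act a y u) = 2 * S.card - m := by
    rw [← Equiv.sum_comp (Equiv.addRight t₁) (fun u => sg (act a y u))]
    have e2 : ∑ i, sg (act a y (Equiv.addRight t₁ i)) = ∑ i, (if J i + 1 = o then (2 : ℤ) else 0) - ∑ _i : ZMod m, (1 : ℤ) := by
      rw [← Finset.sum_sub_distrib]
      refine Finset.sum_congr rfl (fun i _ => ?_)
      show sg (act a y (i + t₁)) = _
      by_cases h : J i + 1 = o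
      · rw [if_pos h, G4_sg_pos (hpos i h).1]
        norm_num
      · rw [if_neg h, G4_sg_neg (hneg i h).1]
        norm_num
    rw [e2, ← Finset.sum_filter, Finset.sum_const, Finset.sum_const, Finset.card_univ, ZMod.card]
    simp [hS, mul_comm]
  refine ⟨y, fun i => ?_, fun i => ?_, fun u => ?_, ?_⟩
  · by_cases h : Odd (J i)
    · rw [hyo i h]
      have : (-L : ℝ) = ((-(p : ℤ) ^ E : ℤ) : ℝ) := by rw [hL]; push_cast; ring
      rw [this]
      exact alg_int E _ (by rw [abs_neg, abs_of_nonneg (by positivity)])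
    · rw [hye i h]
      have : (1 : ℝ) = ((1 : ℤ) : ℝ) := by norm_num
      rw [this]
      refine alg_int E _ ?_
      rw [abs_one]
      exact one_le_pow₀ (by exact_mod_cast hp.one_le)
  · by_cases h : Odd (J i)
    · rw [hyo i h]; linarith
    · rw [hye i h]; exact one_ne_zero
  · have e : u = (u - t₁) + t₁ := by abel
    rw [e]
    by_cases h : J (u - t₁) + 1 = o
    · exact (hpos _ h).1.ne'
    · exact (hneg _ h).1.ne
  · rw [hsy, hsr]
    push_cast
    have e1 : (S.card : ℝ) * o = m := by exact_mod_cast hScard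
    have hoR : (0 : ℝ) < o := by exact_mod_cast hopos
    have hlR : (0 : ℝ) < l := by exact_mod_cast hl1
    have hloR : (l : ℝ) ≤ o := by exact_mod_cast hlo
    have e2 : (S.card : ℝ) ≤ m / l := by
      rw [le_div_iff₀ hlR, ← e1]
      exact mul_le_mul_of_nonneg_left hloR (by positivity)
    linarith

end Pool.Agent.Helper21.FD
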