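import Pool.Agent.Helper21.FD.G1
import Pool.Agent.Helper21.FD.G2
import Pool.Agent.Helper21.FD.G4

/-!
MP_0aa406_nt, project FD (helper21): circulants of odd order with at least two entries.
-/

set_option autoImplicit false

namespace Pool.Agent.Helper21.FD

open Finset Pool.Agent.Helper21.FC

private theorem G5_alg_mono {p k : ℕ} [NeZero k] (hp : p.Prime) {B B' : ℕ} (h : B ≤ B') {x : ℝ}
    (hx : Alg p k B x) : Alg p k B' x := by
  obtain ⟨v, h1, h2⟩ := hx
  refine ⟨v, fun t => (h1 t).trans ?_, h2⟩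
  exact_mod_cast Nat.pow_le_pow_right hp.pos h

private theorem G5_mono {p k : ℕ} [NeZero k] (hp : p.Prime) {B B' : ℕ} (h : B ≤ B') {m : ℕ}
    [NeZero m] {a : ZMod m → ℝ} {c c' : ℝ} (hc : c' ≤ c) (ha : AVal p k B a c) :
    AVal p k B' a c' := by
  obtain ⟨y, h1, h2, h3, h4⟩ := ha
  exact ⟨y, fun i => G5_alg_mono hp h (h1 i), h2, h3, hc.trans h4⟩

private theorem G5_pos {x : ℝ} (h : 0 < x) : sg x = 1 := by
  unfold sg
  rw [if_pos h]

private theorem G5_neg {x : ℝ} (h : x < 0) : sg x = -1 := by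
  unfold sg
  rw [if_neg (not_lt.2 h.le), if_pos h]

private theorem G5_zero : sg (0 : ℝ) = 0 := by
  unfold sg
  rw [if_neg (lt_irrefl _), if_neg (lt_irrefl _)]

private theorem G5_ne {x : ℝ} (h : x ≠ 0) : sg x ≠ 0 := by
  rcases lt_or_gt_of_ne h with h1 | h1
  · rw [G5_neg h1]; norm_num
  · rw [G5_pos h1]; norm_num

theorem game_thm (k B m : ℕ) [NeZero k] [NeZero m] (hodd : Odd m) : ∃ B1 : ℕ, ∀ p : ℕ, p.Prime →
    ∀ a : ZMod m → ℝ, (∀ t, Alg p k B (a t)) → Two a →
    ∀ l : ℕ, 1 ≤ l → (∀ q : ℕ, q.Prime → q ∣ m → l ≤ q) →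
      AVal p k B1 a (m - m / l) := by
  obtain ⟨B2, hB2⟩ := aval_of_val k B m
  obtain ⟨B4, hB4⟩ := two_pos k B m hodd
  refine ⟨max B2 B4, fun p hp a ha htwo l hl1 hl => ?_⟩
  obtain ⟨t0, t1, hne, ht0, ht1⟩ := htwo
  have hm : m ≠ 1 := by
    intro h
    subst h
    exact hne (Subsingleton.elim _ _)
  set g : ZMod m → ℤ := fun t => sg (a (-t)) with hg
  have hsign : Helper77.KZ.IsSign g := by
    intro i
    rcases lt_trichotomy (a (-i)) 0 with h | h | h
    · right; right
      exact G5_neg h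
    · left
      change sg (a (-i)) = 0
      rw [h, G5_zero]
    · right; left
      exact G5_pos h
  have hmem : ∀ t, a t ≠ 0 → -t ∈ univ.filter (fun i => g i ≠ 0) := by
    intro t ht
    rw [Finset.mem_filter]
    refine ⟨mem_univ _, ?_⟩
    change sg (a (- -t)) ≠ 0
    rw [neg_neg]
    exact G5_ne ht
  have hcard2 : 2 ≤ (univ.filter (fun i => g i ≠ 0)).card := by
    have h1 : ({-t0, -t1} : Finset (ZMod m)) ⊆ univ.filter (fun i => g i ≠ 0) := by
      intro x hx
      rw [Finset.mem_insert, Finset.mem_singleton] at hx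
      rcases hx with rfl | rfl
      · exact hmem t0 ht0
      · exact hmem t1 ht1
    have h2 := Finset.card_le_card h1
    rwa [Finset.card_pair (fun h => hne (neg_injective h))] at h2
  by_cases hcase : (∃ i, g i = -1) ∨ 3 ≤ (univ.filter (fun i => g i ≠ 0)).card
  · obtain ⟨q, hq1, hq2⟩ := game_odd hodd hm g hsign hcard2 hcase
    refine G5_mono hp (le_max_left _ _) ?_ (hB2 p hp a ha (-(q : ℤ)) hq1)
    have h1 : l * q ≤ m :=
      (Nat.mul_le_mul_right q (hl m.minFac (Nat.minFac_prime hm) (Nat.minFac_dvd m))).trans hq2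
    have hl0 : (0 : ℝ) < l := by exact_mod_cast hl1
    have h2 : (q : ℝ) ≤ m / l := by
      rw [le_div_iff₀ hl0]
      have : ((l * q : ℕ) : ℝ) ≤ m := by exact_mod_cast h1
      push_cast at this
      linarith
    push_cast
    linarith
  · push Not at hcase
    obtain ⟨hno, hlt⟩ := hcase
    have hpos : ∀ t, a t ≠ 0 → 0 < a t := by
      intro t ht
      rcases lt_or_gt_of_ne ht with h | h
      · exfalso
        apply hno (-t)
        change sg (a (- -t)) = -1
        rw [neg_neg]
        exact G5_neg h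
      · exact h
    refine G5_mono hp (le_max_right _ _) le_rfl
      (hB4 p hp a ha t0 t1 hne (hpos t0 ht0) (hpos t1 ht1) ?_ l hl1 hl)
    intro t h0 h1
    by_contra ht
    have h3 : ({-t, -t0, -t1} : Finset (ZMod m)) ⊆ univ.filter (fun i => g i ≠ 0) := by
      intro x hx
      simp only [Finset.mem_insert, Finset.mem_singleton] at hx
      rcases hx with rfl | rfl | rfl
      · exact hmem t ht
      · exact hmem t0 ht0
      · exact hmem t1 ht1
    have h4 := Finset.card_le_card h3
    have h5 : ({-t, -t0, -t1} : Finset (ZMod m)).card = 3 :=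
      Finset.card_eq_three.2 ⟨-t, -t0, -t1, fun h => h0 (neg_injective h),
        fun h => h1 (neg_injective h), fun h => hne (neg_injective h), rfl⟩
    omega

end Pool.Agent.Helper21.FD
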