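import Pool.Agent.Helper21.FD.L1

/-!
MP_0aa406_nt, project FD (helper21): fibre sums and lifting of directions.
-/

set_option autoImplicit false

namespace Pool.Agent.Helper21.FD

open Finset Pool.Agent.Helper21.FC

private theorem G8_pr_eq {m k : ℕ} [NeZero k] (h : m ∣ k) (a : ZMod k) :
    pr m a = ZMod.castHom h (ZMod m) a := by
  unfold pr
  rw [ZMod.natCast_val, ZMod.castHom_apply]

theorem pr_add {m k : ℕ} [NeZero k] (h : m ∣ k) (a b : ZMod k) :
    pr m (a + b) = pr m a + pr m b := by
  rw [G8_pr_eq h, G8_pr_eq h, G8_pr_eq h, map_add]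

theorem pr_sub {m k : ℕ} [NeZero k] (h : m ∣ k) (a b : ZMod k) :
    pr m (a - b) = pr m a - pr m b := by
  rw [G8_pr_eq h, G8_pr_eq h, G8_pr_eq h, map_sub]

private theorem G8_surj {m k : ℕ} [NeZero k] (h : m ∣ k) (t : ZMod m) :
    ∃ c : ZMod k, pr m c = t := by
  obtain ⟨c, hc⟩ := ZMod.ringHom_surjective (ZMod.castHom h (ZMod m)) t
  exact ⟨c, by rw [G8_pr_eq h, hc]⟩

private theorem G8_card_eq {m k : ℕ} [NeZero k] (h : m ∣ k) (t : ZMod m) :
    (univ.filter (fun c : ZMod k => pr m c = t)).card =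
      (univ.filter (fun c : ZMod k => pr m c = 0)).card := by
  obtain ⟨d, hd⟩ := G8_surj h t
  refine Finset.card_bij' (fun c _ => c - d) (fun c _ => c + d) ?_ ?_ ?_ ?_
  · intro c hc
    simp only [mem_filter, mem_univ, true_and] at hc ⊢
    rw [pr_sub h, hc, hd, sub_self]
  · intro c hc
    simp only [mem_filter, mem_univ, true_and] at hc ⊢
    rw [pr_add h, hc, hd, zero_add]
  · intro c _
    exact sub_add_cancel c d
  · intro c _
    exact add_sub_cancel_right c d

/-- the fibres have `k / m` elements -/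
theorem card_fibre {m k : ℕ} [NeZero m] [NeZero k] (h : m ∣ k) (t : ZMod m) :
    (univ.filter (fun c : ZMod k => pr m c = t)).card = k / m := by
  have h1 : (univ : Finset (ZMod k)).card =
      ∑ t : ZMod m, (univ.filter (fun c : ZMod k => pr m c = t)).card :=
    Finset.card_eq_sum_card_fiberwise (fun c _ => mem_univ (pr m c))
  have h2 : ∑ t' : ZMod m, (univ.filter (fun c : ZMod k => pr m c = t')).card =
      ∑ _t' : ZMod m, (univ.filter (fun c : ZMod k => pr m c = t)).card :=
    Finset.sum_congr rfl (fun t' _ => by rw [G8_card_eq h t', G8_card_eq h t])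
  rw [h2, Finset.sum_const, smul_eq_mul, Finset.card_univ, Finset.card_univ, ZMod.card,
    ZMod.card] at h1
  exact (Nat.div_eq_of_eq_mul_right (Nat.pos_of_ne_zero (NeZero.ne m)) h1).symm

theorem pr_pr {l m k : ℕ} [NeZero m] [NeZero k] (h : l ∣ m) (h' : m ∣ k) (c : ZMod k) :
    pr l (pr m c) = pr l c := by
  unfold pr
  rw [ZMod.val_natCast]
  exact (ZMod.natCast_eq_natCast_iff' _ _ _).2 (by rw [Nat.mod_mod_of_dvd _ h])

/-- fibre sums of fibre sums -/
theorem qt_qt {l m k : ℕ} [NeZero m] [NeZero k] (h : l ∣ m) (h' : m ∣ k) (a : ZMod k → ℝ) :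
    qt l (qt m a) = qt l a := by
  funext t
  unfold qt
  have h1 : (univ.filter (fun c : ZMod k => pr l c = t)) =
      (univ.filter (fun d : ZMod m => pr l d = t)).biUnion
        (fun d => univ.filter (fun c : ZMod k => pr m c = d)) := by
    ext c
    simp only [mem_filter, mem_univ, true_and, mem_biUnion]
    constructor
    · intro hc
      exact ⟨pr m c, by rw [pr_pr h h', hc], rfl⟩
    · rintro ⟨d, hd, hc⟩
      rw [← hd, ← hc, pr_pr h h']
  rw [h1, Finset.sum_biUnion]
  intro d _ d' _ hdd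
  rw [Function.onFun, Finset.disjoint_left]
  intro c hc hc'
  simp only [mem_filter, mem_univ, true_and] at hc hc'
  exact hdd (hc.symm.trans hc')

theorem qt_self {k : ℕ} [NeZero k] (a : ZMod k → ℝ) : qt k a = a := by
  funext t
  unfold qt
  have h1 : (univ.filter (fun c : ZMod k => pr k c = t)) = {t} := by
    ext c
    simp only [mem_filter, mem_univ, true_and, mem_singleton]
    unfold pr
    rw [ZMod.natCast_zmod_val]
  rw [h1, Finset.sum_singleton]

/-- rows at a direction which is constant on the fibres -/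
theorem act_lift {m k : ℕ} [NeZero m] [NeZero k] (h : m ∣ k) (a : ZMod k → ℝ) (y : ZMod m → ℝ)
    (u : ZMod k) : act a (fun i => y (pr m i)) u = act (qt m a) y (pr m u) := by
  unfold act qt
  have h1 : ∀ i : ZMod m,
      (∑ c ∈ univ.filter (fun c : ZMod k => pr m c = pr m u - i), a c) * y i =
        ∑ c ∈ univ.filter (fun c : ZMod k => pr m c = i), a (u - c) * y (pr m c) := by
    intro i
    rw [Finset.sum_mul]
    refine Finset.sum_bij' (fun c _ => u - c) (fun c _ => u - c) ?_ ?_ ?_ ?_ ?_
    · intro c hc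
      simp only [mem_filter, mem_univ, true_and] at hc ⊢
      rw [pr_sub h, hc, sub_sub_cancel]
    · intro c hc
      simp only [mem_filter, mem_univ, true_and] at hc ⊢
      rw [pr_sub h, hc]
    · intro c _
      exact sub_sub_cancel u c
    · intro c _
      exact sub_sub_cancel u c
    · intro c hc
      simp only [mem_filter, mem_univ, true_and] at hc
      rw [sub_sub_cancel, pr_sub h, hc, sub_sub_cancel]
  rw [Finset.sum_congr rfl (fun i _ => h1 i)]
  exact (Finset.sum_fiberwise_of_maps_to (fun c _ => mem_univ (pr m c))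
    (fun c => a (u - c) * y (pr m c))).symm

private theorem G8_sum_int {m k : ℕ} [NeZero m] [NeZero k] (h : m ∣ k) (f : ZMod m → ℤ) :
    ∑ c : ZMod k, f (pr m c) = ((k / m : ℕ) : ℤ) * ∑ t : ZMod m, f t := by
  rw [← Finset.sum_fiberwise_of_maps_to (g := fun c : ZMod k => pr m c)
    (fun c _ => mem_univ (pr m c)) (fun c => f (pr m c)), Finset.mul_sum]
  refine Finset.sum_congr rfl (fun t _ => ?_)
  rw [Finset.sum_congr rfl (g := fun _ => f t)
    (fun c hc => by rw [(mem_filter.1 hc).2]), Finset.sum_const, card_fibre h t, nsmul_eq_mul]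

/-- a direction for the fibre sums gives a direction -/
theorem aval_lift {p K B m k : ℕ} [NeZero K] [NeZero m] [NeZero k] (h : m ∣ k) (a : ZMod k → ℝ)
    (c : ℝ) (ha : AVal p K B (qt m a) c) : AVal p K B a (((k / m : ℕ) : ℝ) * c) := by
  obtain ⟨y, h1, h2, h3, h4⟩ := ha
  refine ⟨fun i => y (pr m i), fun i => h1 _, fun i => h2 _, fun u => ?_, ?_⟩
  · rw [act_lift h]
    exact h3 _
  · have e1 : (∑ i : ZMod k, sg (y (pr m i))) = ((k / m : ℕ) : ℤ) * ∑ t : ZMod m, sg (y t) :=
      G8_sum_int h (fun t => sg (y t))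
    have e2 : (∑ u : ZMod k, sg (act a (fun i => y (pr m i)) u)) =
        ((k / m : ℕ) : ℤ) * ∑ t : ZMod m, sg (act (qt m a) y t) := by
      rw [Finset.sum_congr rfl (fun u _ => by rw [act_lift h])]
      exact G8_sum_int h (fun t => sg (act (qt m a) y t))
    rw [e1, e2, ← mul_sub, Int.cast_mul, Int.cast_natCast]
    exact mul_le_mul_of_nonneg_left h4 (Nat.cast_nonneg _)

end Pool.Agent.Helper21.FD
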