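import Pool.Agent.Helper21.FD.Defs

/-!
MP_0aa406_nt, project FD (helper21): a generic point `(s ^ 0, s ^ 1, ...)`.
-/

set_option autoImplicit false

namespace Pool.Agent.Helper21.FD

open Finset Pool.Agent.Helper21.FC

/-- finitely many nonzero linear functionals are nonzero at some `(s ^ i)` with a small integer `s` -/
theorem generic {k : ℕ} [NeZero k] {F : Type} [Fintype F] (φ : F → ZMod k → ℝ)
    (hφ : ∀ f, ∃ i, φ f i ≠ 0) :
    ∃ s : ℕ, 1 ≤ s ∧ s ≤ Fintype.card F * k + 1 ∧
      ∀ f, ∑ i : ZMod k, φ f i * (s : ℝ) ^ i.val ≠ 0 := by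
  classical
  let P : F → Polynomial ℝ := fun f => ∑ i : ZMod k, Polynomial.C (φ f i) * Polynomial.X ^ i.val
  have hPe : ∀ f (s : ℝ), (P f).eval s = ∑ i : ZMod k, φ f i * s ^ i.val := by
    intro f s
    simp only [P]
    rw [Polynomial.eval_finsetSum]
    refine Finset.sum_congr rfl (fun i _ => ?_)
    rw [Polynomial.eval_mul, Polynomial.eval_C, Polynomial.eval_pow, Polynomial.eval_X]
  have hP0 : ∀ f, P f ≠ 0 := by
    intro f h0
    obtain ⟨i, hi⟩ := hφ f
    apply hi
    have h1 : (P f).coeff i.val = φ f i := by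
      simp only [P]
      rw [Polynomial.finsetSum_coeff, Finset.sum_eq_single i]
      · rw [Polynomial.coeff_C_mul_X_pow, if_pos rfl]
      · intro j _ hj
        rw [Polynomial.coeff_C_mul_X_pow, if_neg]
        intro h2
        exact hj (ZMod.val_injective k h2.symm)
      · intro h2
        exact absurd (Finset.mem_univ i) h2
    rw [← h1, h0, Polynomial.coeff_zero]
  have hPd : ∀ f, (P f).natDegree ≤ k := by
    intro f
    refine Polynomial.natDegree_sum_le_of_forall_le _ _ (fun i _ => ?_)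
    exact (Polynomial.natDegree_C_mul_X_pow_le _ _).trans (ZMod.val_lt i).le
  let Q : Polynomial ℝ := ∏ f : F, P f
  have hQ0 : Q ≠ 0 := Finset.prod_ne_zero_iff.2 (fun f _ => hP0 f)
  have hQd : Q.natDegree ≤ Fintype.card F * k := by
    refine (Polynomial.natDegree_prod_le _ _).trans ?_
    refine (Finset.sum_le_card_nsmul _ _ k (fun f _ => hPd f)).trans ?_
    rw [Finset.card_univ, smul_eq_mul]
  have hroots : Q.roots.toFinset.card ≤ Fintype.card F * k :=
    (Multiset.toFinset_card_le _).trans ((Polynomial.card_roots' _).trans hQd)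
  obtain ⟨s, hs1, hs2⟩ : ∃ s ∈ Finset.Icc 1 (Fintype.card F * k + 1), (s : ℝ) ∉ Q.roots.toFinset := by
    by_contra hcon
    push Not at hcon
    have h1 : ((Finset.Icc 1 (Fintype.card F * k + 1)).image (fun s : ℕ => (s : ℝ))).card ≤
        Q.roots.toFinset.card := Finset.card_le_card (fun x hx => by
      obtain ⟨s, hs, rfl⟩ := Finset.mem_image.1 hx
      exact hcon s hs)
    rw [Finset.card_image_of_injective _ Nat.cast_injective, Nat.card_Icc] at h1
    omega
  rw [Finset.mem_Icc] at hs1
  refine ⟨s, hs1.1, hs1.2, fun f h0 => hs2 ?_⟩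
  rw [Multiset.mem_toFinset, Polynomial.mem_roots hQ0, Polynomial.IsRoot.def]
  simp only [Q]
  rw [Polynomial.eval_prod]
  exact Finset.prod_eq_zero (Finset.mem_univ f) (by rw [hPe]; exact h0)

end Pool.Agent.Helper21.FD
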