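import Pool.Agent.Helper21.FD.G3
import Pool.Agent.Helper21.FD.G8
import Pool.Agent.Helper21.FD.G9
import Pool.Agent.Helper21.FD.L2

/-!
MP_0aa406_nt, project FD (helper21): chain domination.
-/

set_option autoImplicit false

namespace Pool.Agent.Helper21.FD

open Finset Pool.Agent.Helper21.FC

/-! ### signs -/

theorem G6_sg_le (x : ℝ) : sg x ≤ 1 := by
  unfold sg
  split_ifs <;> norm_num

theorem G6_sg_pos {x : ℝ} (h : 0 < x) : sg x = 1 := by
  unfold sg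
  rw [if_pos h]

theorem G6_sg_neg {x : ℝ} (h : x < 0) : sg x = -1 := by
  unfold sg
  rw [if_neg (not_lt.2 h.le), if_pos h]

theorem G6_sg_cancel {P S : ℝ} (h : |P| < |S|) : sg (P + S) + sg (P - S) = 0 := by
  have hP := abs_lt.1 h
  rcases lt_or_ge 0 S with hS | hS
  · rw [abs_of_pos hS] at hP
    rw [G6_sg_pos (by linarith [hP.1] : 0 < P + S), G6_sg_neg (by linarith [hP.2] : P - S < 0)]
    norm_num
  · rw [abs_of_nonpos hS] at hP
    rw [G6_sg_neg (by linarith [hP.2] : P + S < 0), G6_sg_pos (by linarith [hP.1] : 0 < P - S)]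
    norm_num

theorem G6_ne {P S : ℝ} (h : |P| ≠ |S|) : P + S ≠ 0 ∧ P - S ≠ 0 := by
  refine ⟨fun h0 => h ?_, fun h0 => h ?_⟩
  · rw [show P = -S by linarith, abs_neg]
  · rw [show P = S by linarith]

/-! ### the leading term of a sum -/

theorem G6_lower {ι : Type} [Fintype ι] [DecidableEq ι] (b : ι → ℝ) (rk : ι → ℕ)
    (hrk : Function.Injective rk) (L β M : ℝ) (R : ℕ) (hL : 1 ≤ L) (hM : ∀ g, |b g| ≤ M)
    (g0 : ι) (hR : rk g0 < R) (hb : β ≤ |b g0|) (hmin : ∀ g, b g ≠ 0 → rk g0 ≤ rk g) :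
    L ^ (R - rk g0 - 1) * (L * β - Fintype.card ι * M) ≤ |∑ g, L ^ (R - rk g) * b g| := by
  have hL0 : 0 < L := lt_of_lt_of_le one_pos hL
  have hM0 : 0 ≤ M := le_trans (abs_nonneg _) (hM g0)
  have hT : 0 < L ^ (R - rk g0 - 1) := pow_pos hL0 _
  have hterm : ∀ g ∈ univ.erase g0, |L ^ (R - rk g) * b g| ≤ L ^ (R - rk g0 - 1) * M := by
    intro g hg
    have hne : g ≠ g0 := (Finset.mem_erase.1 hg).1
    by_cases hbg : b g = 0
    · rw [hbg, mul_zero, abs_zero]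
      exact mul_nonneg hT.le hM0
    · have h1 : rk g0 ≤ rk g := hmin g hbg
      have h2 : rk g0 ≠ rk g := fun h => hne (hrk h.symm)
      rw [abs_mul, abs_of_pos (pow_pos hL0 _)]
      exact mul_le_mul (pow_le_pow_right₀ hL (by omega)) (hM g) (abs_nonneg _) hT.le
  have hrest : |∑ g ∈ univ.erase g0, L ^ (R - rk g) * b g| ≤
      L ^ (R - rk g0 - 1) * (Fintype.card ι * M) := by
    refine le_trans (Finset.abs_sum_le_sum_abs _ _) (le_trans (Finset.sum_le_sum hterm) ?_)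
    rw [Finset.sum_const, nsmul_eq_mul]
    have hc : (((univ.erase g0).card : ℕ) : ℝ) ≤ Fintype.card ι := by
      exact_mod_cast (Finset.card_le_card (Finset.erase_subset _ _))
    have hTM : 0 ≤ L ^ (R - rk g0 - 1) * M := mul_nonneg hT.le hM0
    calc ((univ.erase g0).card : ℝ) * (L ^ (R - rk g0 - 1) * M)
        ≤ (Fintype.card ι : ℝ) * (L ^ (R - rk g0 - 1) * M) := mul_le_mul_of_nonneg_right hc hTM
      _ = _ := by ring
  have hsum : ∑ g, L ^ (R - rk g) * b g = L ^ (R - rk g0) * b g0 +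
      ∑ g ∈ univ.erase g0, L ^ (R - rk g) * b g :=
    (Finset.add_sum_erase univ _ (Finset.mem_univ g0)).symm
  have hlead : L ^ (R - rk g0 - 1) * (L * β) ≤ |L ^ (R - rk g0) * b g0| := by
    rw [abs_mul, abs_of_pos (pow_pos hL0 _)]
    have : L ^ (R - rk g0) = L ^ (R - rk g0 - 1) * L := by
      rw [← pow_succ]
      congr 1
      omega
    rw [this, mul_assoc]
    exact mul_le_mul_of_nonneg_left (mul_le_mul_of_nonneg_left hb hL0.le) hT.le
  rw [hsum]
  have h3 := abs_sub_abs_le_abs_sub (L ^ (R - rk g0) * b g0)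
    (-∑ g ∈ univ.erase g0, L ^ (R - rk g) * b g)
  rw [abs_neg, sub_neg_eq_add] at h3
  calc L ^ (R - rk g0 - 1) * (L * β - Fintype.card ι * M)
      = L ^ (R - rk g0 - 1) * (L * β) - L ^ (R - rk g0 - 1) * (Fintype.card ι * M) := by ring
    _ ≤ |L ^ (R - rk g0) * b g0| - |∑ g ∈ univ.erase g0, L ^ (R - rk g) * b g| := by linarith
    _ ≤ _ := h3

theorem G6_upper {ι : Type} [Fintype ι] (b : ι → ℝ) (rk : ι → ℕ)
    (L M : ℝ) (R : ℕ) (hL : 1 ≤ L) (hM : ∀ g, |b g| ≤ M)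
    (g0 : ι) (hmin : ∀ g, b g ≠ 0 → rk g0 ≤ rk g) :
    |∑ g, L ^ (R - rk g) * b g| ≤ L ^ (R - rk g0) * (Fintype.card ι * M) := by
  have hL0 : 0 < L := lt_of_lt_of_le one_pos hL
  have hM0 : 0 ≤ M := le_trans (abs_nonneg _) (hM g0)
  have hterm : ∀ g ∈ (univ : Finset ι), |L ^ (R - rk g) * b g| ≤ L ^ (R - rk g0) * M := by
    intro g _
    by_cases hbg : b g = 0
    · rw [hbg, mul_zero, abs_zero]
      exact mul_nonneg (pow_pos hL0 _).le hM0
    · have h1 : rk g0 ≤ rk g := hmin g hbg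
      rw [abs_mul, abs_of_pos (pow_pos hL0 _)]
      exact mul_le_mul (pow_le_pow_right₀ hL (by omega)) (hM g) (abs_nonneg _)
        (pow_pos hL0 _).le
  refine le_trans (Finset.abs_sum_le_sum_abs _ _) (le_trans (Finset.sum_le_sum hterm) ?_)
  rw [Finset.sum_const, nsmul_eq_mul, Finset.card_univ]
  exact le_of_eq (by ring)

/-! ### rows -/

/-- fibrewise part of a row -/
noncomputable def G6_b (m : ℕ) {k : ℕ} [NeZero k] (a v : ZMod k → ℝ) (u : ZMod k)
    (g : ZMod m) : ℝ :=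
  ∑ i : ZMod k, (if pr m i = g then a (u - i) else 0) * v i

theorem G6_fibre {m k : ℕ} [NeZero m] [NeZero k] (h : m ∣ k) (a : ZMod k → ℝ) (u : ZMod k)
    (g : ZMod m) :
    ∑ i : ZMod k, (if pr m i = g then a (u - i) else 0) = qt m a (pr m u - g) := by
  unfold qt
  rw [Finset.sum_filter]
  refine Fintype.sum_equiv (Equiv.subLeft u) _ _ fun i => ?_
  simp only [Equiv.subLeft_apply]
  have : pr m (u - i) = pr m u - g ↔ pr m i = g := by
    rw [pr_sub h]
    constructor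
    · intro h1
      exact sub_right_injective h1
    · intro h1
      rw [h1]
  by_cases hi : pr m i = g
  · rw [if_pos hi, if_pos (this.2 hi)]
  · rw [if_neg hi, if_neg (fun h1 => hi (this.1 h1))]

theorem G6_row {m k : ℕ} [NeZero m] [NeZero k] (h : m ∣ k) (a v : ZMod k → ℝ) (w : ZMod m → ℝ)
    (Δ ε : ℝ) (t0 : ZMod m) (h0 : ∀ t, t ≠ t0 → qt m a t = 0) (u : ZMod k) :
    act a (fun i => w (pr m i) * (Δ + ε * v i)) u =
      Δ * (w (pr m u - t0) * qt m a t0) + ε * ∑ g, w g * G6_b m a v u g := by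
  have h1 : act a (fun i => w (pr m i) * (Δ + ε * v i)) u =
      ∑ i : ZMod k, ∑ g : ZMod m,
        (if pr m i = g then a (u - i) else 0) * (w g * (Δ + ε * v i)) := by
    unfold act
    refine Finset.sum_congr rfl fun i _ => ?_
    rw [Finset.sum_eq_single (pr m i)]
    · rw [if_pos rfl]
    · intro g _ hg
      rw [if_neg (Ne.symm hg), zero_mul]
    · intro h2
      exact absurd (Finset.mem_univ _) h2
  have h2 : Δ * (w (pr m u - t0) * qt m a t0) = ∑ g : ZMod m, w g * Δ * qt m a (pr m u - g) := by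
    rw [Finset.sum_eq_single (pr m u - t0)]
    · rw [sub_sub_cancel]
      ring
    · intro g _ hg
      rw [h0, mul_zero]
      intro h3
      apply hg
      rw [← h3, sub_sub_cancel]
    · intro h2
      exact absurd (Finset.mem_univ _) h2
  rw [h1, Finset.sum_comm, h2, Finset.mul_sum, ← Finset.sum_add_distrib]
  refine Finset.sum_congr rfl fun g _ => ?_
  rw [← G6_fibre h a u g]
  unfold G6_b
  rw [Finset.mul_sum, Finset.mul_sum, Finset.mul_sum, ← Finset.sum_add_distrib]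
  refine Finset.sum_congr rfl fun i _ => ?_
  ring

/-! ### the number of exceptional rows -/

theorem G6_count {m k : ℕ} [NeZero m] [NeZero k] (h : m ∣ k) (J : ZMod m → ℕ) (o : ℕ)
    (hJ : (univ.filter (fun i => J i = 0)).card * o = m) (t0 : ZMod m) :
    (univ.filter (fun u : ZMod k => J (pr m u - t0) = 0)).card * o = k := by
  have h1 : (univ.filter (fun u : ZMod k => J (pr m u - t0) = 0)).card =
      ∑ g ∈ univ.filter (fun i => J i = 0),
        ((univ.filter (fun u : ZMod k => J (pr m u - t0) = 0)).filter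
          (fun u => pr m u - t0 = g)).card := by
    refine Finset.card_eq_sum_card_fiberwise fun u hu => ?_
    simpa using hu
  have h2 : ∀ g ∈ univ.filter (fun i : ZMod m => J i = 0),
      ((univ.filter (fun u : ZMod k => J (pr m u - t0) = 0)).filter
          (fun u => pr m u - t0 = g)).card = k / m := by
    intro g hg
    rw [← card_fibre h (g + t0)]
    congr 1
    ext u
    simp only [Finset.mem_filter, Finset.mem_univ, true_and] at hg ⊢
    constructor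
    · rintro ⟨_, h4⟩
      rw [← h4, sub_add_cancel]
    · intro h4
      rw [h4, add_sub_cancel_right]
      exact ⟨hg, rfl⟩
  rw [h1, Finset.sum_congr rfl h2, Finset.sum_const, smul_eq_mul, mul_right_comm, hJ]
  exact Nat.mul_div_cancel' h

/-! ### the real core -/

theorem G6_core {m k : ℕ} [NeZero m] [NeZero k] (hmk : m ∣ k) (a v : ZMod k → ℝ)
    (t0 t1 : ZMod m) (h0 : ∀ t, t ≠ t0 → qt m a t = 0) (J : ZMod m → ℕ) (o : ℕ)
    (hJ1 : ∀ i, J i < o)
    (hJ2 : ∀ i, J i + 1 < o → J (i + (t1 - t0)) = J i + 1)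
    (hJ3 : ∀ i, J i + 1 = o → J (i + (t1 - t0)) = 0)
    (hJ4 : (univ.filter (fun i => J i = 0)).card * o = m)
    (hc0 : ∃ c, a c ≠ 0 ∧ pr m c = t0) (hc1 : ∃ c, a c ≠ 0 ∧ pr m c = t1)
    (hv : ∀ i, 0 < v i)
    (hgen : ∀ u : ZMod k, ∀ i : ZMod k, a (u - i) ≠ 0 → G6_b m a v u (pr m i) ≠ 0)
    (β M Δ L : ℝ) (hL : 1 ≤ L)
    (hbM : ∀ u g, |G6_b m a v u g| ≤ M) (hbβ : ∀ u g, G6_b m a v u g ≠ 0 → β ≤ |G6_b m a v u g|)
    (hAM : |qt m a t0| ≤ M) (hAβ : qt m a t0 ≠ 0 → β ≤ |qt m a t0|)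
    (hΔ : m * M < Δ * β) (hΔv : ∀ i, v i < Δ) (hLΔ : (m + Δ) * M < L * β)
    (l : ℕ) (hl : 1 ≤ l) (hlo : l ≤ o) :
    ∃ ε : ℝ, (ε = 1 ∨ ε = -1) ∧
      (∀ i, 0 < L ^ (m * m + m - (J (pr m i) * m + (pr m i).val)) * (Δ + ε * v i)) ∧
      (∀ u, act a (fun i => L ^ (m * m + m - (J (pr m i) * m + (pr m i).val)) *
        (Δ + ε * v i)) u ≠ 0) ∧
      (k : ℝ) - k / l ≤
        ((∑ i : ZMod k, sg (L ^ (m * m + m - (J (pr m i) * m + (pr m i).val)) * (Δ + ε * v i)) -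
          ∑ u, sg (act a (fun i => L ^ (m * m + m - (J (pr m i) * m + (pr m i).val)) *
            (Δ + ε * v i)) u) : ℤ) : ℝ) := by
  classical
  have hL0 : 0 < L := lt_of_lt_of_le one_pos hL
  have hm : 0 < m := Nat.pos_of_ne_zero (NeZero.ne m)
  have hM0 : 0 ≤ M := le_trans (abs_nonneg _) hAM
  have hΔ0 : 0 < Δ := lt_trans (hv 0) (hΔv 0)
  have hom : o ≤ m := by
    refine Nat.le_of_dvd hm ⟨(univ.filter (fun i => J i = 0)).card, ?_⟩
    rw [mul_comm]
    exact hJ4.symm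
  obtain ⟨rk, hrk⟩ : ∃ rk : ZMod m → ℕ, ∀ g, rk g = J g * m + g.val := ⟨_, fun _ => rfl⟩
  have hval : ∀ g : ZMod m, g.val < m := fun g => ZMod.val_lt g
  have hinj : Function.Injective rk := by
    intro g g' hg
    rw [hrk, hrk] at hg
    have h1 : (J g * m + g.val) % m = (J g' * m + g'.val) % m := by rw [hg]
    rw [Nat.mul_add_mod', Nat.mul_add_mod', Nat.mod_eq_of_lt (hval g),
      Nat.mod_eq_of_lt (hval g')] at h1
    exact ZMod.val_injective m h1
  have hrkR : ∀ g, rk g < m * m + m := by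
    intro g
    rw [hrk]
    have h1 : J g < m := lt_of_lt_of_le (hJ1 g) hom
    have h2 : J g * m ≤ m * m := Nat.mul_le_mul_right m h1.le
    have h3 := hval g
    omega
  simp only [← hrk]
  obtain ⟨R, hR⟩ : ∃ R, R = m * m + m := ⟨_, rfl⟩
  rw [← hR] at hrkR ⊢
  have hstep : ∀ x : ZMod m, J x ≠ 0 → rk (x - (t1 - t0)) < rk x := by
    intro x hx
    have hz := hJ1 (x - (t1 - t0))
    have h1 : J x = J (x - (t1 - t0)) + 1 := by
      rcases Nat.lt_or_ge (J (x - (t1 - t0)) + 1) o with h2 | h2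
      · have := hJ2 _ h2
        rwa [sub_add_cancel] at this
      · have := hJ3 (x - (t1 - t0)) (by omega)
        rw [sub_add_cancel] at this
        exact absurd this hx
    rw [hrk, hrk, h1]
    have h3 := hval (x - (t1 - t0))
    have h4 := hval x
    rw [Nat.add_mul, one_mul]
    omega
  obtain ⟨y, hy⟩ : ∃ y : ℝ → ZMod k → ℝ, ∀ ε i, y ε i = L ^ (R - rk (pr m i)) * (Δ + ε * v i) :=
    ⟨_, fun _ _ => rfl⟩
  have hy' : ∀ ε, (fun i => L ^ (R - rk (pr m i)) * (Δ + ε * v i)) = y ε := by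
    intro ε
    funext i
    rw [hy]
  simp only [hy']
  simp only [← hy]
  obtain ⟨P, hP⟩ : ∃ P : ZMod k → ℝ, ∀ u, P u =
    Δ * (L ^ (R - rk (pr m u - t0)) * qt m a t0) := ⟨_, fun _ => rfl⟩
  obtain ⟨S, hS⟩ : ∃ S : ZMod k → ℝ, ∀ u, S u =
    ∑ g, L ^ (R - rk g) * G6_b m a v u g := ⟨_, fun _ => rfl⟩
  have hrow : ∀ ε u, act a (y ε) u = P u + ε * S u := by
    intro ε u
    rw [← hy', G6_row hmk a v (fun g => L ^ (R - rk g)) Δ ε t0 h0 u, hP, hS]
  -- the two elements of the support of a row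
  have hmem0 : ∀ u, G6_b m a v u (pr m u - t0) ≠ 0 := by
    intro u
    obtain ⟨c, hc, hct⟩ := hc0
    have h1 := hgen u (u - c) (by rwa [sub_sub_cancel])
    rwa [pr_sub hmk, hct] at h1
  have hmem1 : ∀ u, G6_b m a v u (pr m u - t0 - (t1 - t0)) ≠ 0 := by
    intro u
    obtain ⟨c, hc, hct⟩ := hc1
    have h1 := hgen u (u - c) (by rwa [sub_sub_cancel])
    rw [pr_sub hmk, hct] at h1
    rwa [show pr m u - t0 - (t1 - t0) = pr m u - t1 by ring]
  have hlead : ∀ u, ∃ g0, G6_b m a v u g0 ≠ 0 ∧ ∀ g, G6_b m a v u g ≠ 0 → rk g0 ≤ rk g := by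
    intro u
    obtain ⟨g0, hg0, hmin⟩ := Finset.exists_min_image
      (univ.filter (fun g => G6_b m a v u g ≠ 0)) rk ⟨pr m u - t0, by simpa using hmem0 u⟩
    refine ⟨g0, by simpa using hg0, fun g hg => hmin g (by simpa using hg)⟩
  have hcard : (Fintype.card (ZMod m) : ℝ) = m := by rw [ZMod.card]
  have hPabs : ∀ u, |P u| = Δ * (L ^ (R - rk (pr m u - t0)) * |qt m a t0|) := by
    intro u
    rw [hP, abs_mul, abs_mul, abs_of_pos hΔ0, abs_of_pos (pow_pos hL0 _)]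
  -- domination by the second part
  have hdom : ∀ u, ∀ g0, G6_b m a v u g0 ≠ 0 → (∀ g, G6_b m a v u g ≠ 0 → rk g0 ≤ rk g) →
      rk g0 < rk (pr m u - t0) → |P u| < |S u| := by
    intro u g0 hg0 hmin hlt
    have h1 := G6_lower (G6_b m a v u) rk hinj L β M R hL (hbM u) g0 (hrkR g0) (hbβ u g0 hg0) hmin
    rw [hcard, ← hS] at h1
    refine lt_of_lt_of_le ?_ h1
    have hT : 0 < L ^ (R - rk g0 - 1) := pow_pos hL0 _
    rw [hPabs]
    calc Δ * (L ^ (R - rk (pr m u - t0)) * |qt m a t0|)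
        ≤ Δ * (L ^ (R - rk g0 - 1) * M) := by
          refine mul_le_mul_of_nonneg_left ?_ hΔ0.le
          exact mul_le_mul (pow_le_pow_right₀ hL (by omega)) hAM (abs_nonneg _) hT.le
      _ = L ^ (R - rk g0 - 1) * (Δ * M) := by ring
      _ < L ^ (R - rk g0 - 1) * (L * β - m * M) := by
          refine mul_lt_mul_of_pos_left ?_ hT
          linarith
  have hone : ∀ u, J (pr m u - t0) ≠ 0 → |P u| < |S u| := by
    intro u hu
    obtain ⟨g0, hg0, hmin⟩ := hlead u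
    exact hdom u g0 hg0 hmin (lt_of_le_of_lt (hmin _ (hmem1 u)) (hstep _ hu))
  have hne : ∀ u, |P u| ≠ |S u| := by
    intro u
    obtain ⟨g0, hg0, hmin⟩ := hlead u
    rcases lt_or_eq_of_le (hmin _ (hmem0 u)) with h1 | h1
    · exact (hdom u g0 hg0 hmin h1).ne
    · by_cases hA : qt m a t0 = 0
      · have h2 := G6_lower (G6_b m a v u) rk hinj L β M R hL (hbM u) g0 (hrkR g0)
          (hbβ u g0 hg0) hmin
        rw [hcard, ← hS] at h2
        have hT : 0 < L ^ (R - rk g0 - 1) := pow_pos hL0 _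
        have h3 : 0 < L * β - m * M := by
          have : 0 ≤ Δ * M := mul_nonneg hΔ0.le hM0
          linarith
        rw [hPabs, hA, abs_zero, mul_zero, mul_zero]
        exact (lt_of_lt_of_le (mul_pos hT h3) h2).ne
      · have h2 := G6_upper (G6_b m a v u) rk L M R hL (hbM u) g0 hmin
        rw [hcard, ← hS, h1] at h2
        have hT : 0 < L ^ (R - rk (pr m u - t0)) := pow_pos hL0 _
        refine (lt_of_le_of_lt h2 ?_).ne'
        rw [hPabs]
        calc L ^ (R - rk (pr m u - t0)) * (m * M)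
            < L ^ (R - rk (pr m u - t0)) * (Δ * β) := mul_lt_mul_of_pos_left hΔ hT
          _ ≤ L ^ (R - rk (pr m u - t0)) * (Δ * |qt m a t0|) :=
              mul_le_mul_of_nonneg_left (mul_le_mul_of_nonneg_left (hAβ hA) hΔ0.le) hT.le
          _ = Δ * (L ^ (R - rk (pr m u - t0)) * |qt m a t0|) := by ring
  have hpos : ∀ ε : ℝ, (ε = 1 ∨ ε = -1) → ∀ i, 0 < y ε i := by
    intro ε hε i
    rw [hy]
    refine mul_pos (pow_pos hL0 _) ?_
    have h1 := hv i
    have h2 := hΔv i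
    rcases hε with h | h <;> rw [h] <;> linarith
  have hrow1 : ∀ u, act a (y 1) u = P u + S u := fun u => by rw [hrow, one_mul]
  have hrow2 : ∀ u, act a (y (-1)) u = P u - S u := fun u => by rw [hrow]; ring
  have hsgy : ∀ ε : ℝ, (ε = 1 ∨ ε = -1) → ∑ i, sg (y ε i) = (k : ℤ) := by
    intro ε hε
    rw [Finset.sum_congr rfl fun i _ => G6_sg_pos (hpos ε hε i), Finset.sum_const, Finset.card_univ,
      ZMod.card]
    simp
  have hsum : ∑ u, sg (act a (y 1) u) + ∑ u, sg (act a (y (-1)) u) ≤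
      2 * ((univ.filter (fun u : ZMod k => J (pr m u - t0) = 0)).card : ℤ) := by
    rw [← Finset.sum_add_distrib]
    calc ∑ u, (sg (act a (y 1) u) + sg (act a (y (-1)) u))
        ≤ ∑ u : ZMod k, (if J (pr m u - t0) = 0 then (2 : ℤ) else 0) := by
          refine Finset.sum_le_sum fun u _ => ?_
          rw [hrow1, hrow2]
          by_cases hu : J (pr m u - t0) = 0
          · rw [if_pos hu]
            have h1 := G6_sg_le (P u + S u)
            have h2 := G6_sg_le (P u - S u)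
            linarith
          · rw [if_neg hu, G6_sg_cancel (hone u hu)]
      _ = _ := by
          rw [← Finset.sum_filter, Finset.sum_const, nsmul_eq_mul, mul_comm]
  have hN : ((univ.filter (fun u : ZMod k => J (pr m u - t0) = 0)).card : ℝ) ≤ k / l := by
    have hl0 : (0 : ℝ) < l := by exact_mod_cast hl
    rw [le_div_iff₀ hl0]
    have h1 := G6_count hmk J o hJ4 t0
    have h2 : (univ.filter (fun u : ZMod k => J (pr m u - t0) = 0)).card * l ≤ k := by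
      calc _ ≤ (univ.filter (fun u : ZMod k => J (pr m u - t0) = 0)).card * o :=
            Nat.mul_le_mul_left _ hlo
        _ = k := h1
    exact_mod_cast h2
  have hsumR : ((∑ u, sg (act a (y 1) u) : ℤ) : ℝ) + ((∑ u, sg (act a (y (-1)) u) : ℤ) : ℝ) ≤
      2 * ((univ.filter (fun u : ZMod k => J (pr m u - t0) = 0)).card : ℝ) := by
    exact_mod_cast hsum
  by_cases hV : (k : ℝ) - k / l ≤ ((∑ i, sg (y 1 i) - ∑ u, sg (act a (y 1) u) : ℤ) : ℝ)
  · exact ⟨1, Or.inl rfl, hpos 1 (Or.inl rfl), fun u => by rw [hrow1]; exact (G6_ne (hne u)).1, hV⟩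
  · refine ⟨-1, Or.inr rfl, hpos (-1) (Or.inr rfl),
      fun u => by rw [hrow2]; exact (G6_ne (hne u)).2, ?_⟩
    rw [hsgy 1 (Or.inl rfl), Int.cast_sub, Int.cast_natCast] at hV
    rw [hsgy (-1) (Or.inr rfl), Int.cast_sub, Int.cast_natCast]
    push Not at hV
    linarith

/-- size of the integral entries -/
theorem G6_size {p E1 E2 R e : ℕ} (hp : 2 ≤ p) (he : e ≤ R) (w : ℤ) (hw : |w| ≤ (p : ℤ) ^ E1) :
    |((p : ℤ) ^ E2) ^ e * ((p : ℤ) ^ E1 + w)| ≤ (p : ℤ) ^ (E2 * R + E1 + 1) := by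
  have hp1 : (1 : ℤ) ≤ p := by exact_mod_cast (by omega : 1 ≤ p)
  have hp2 : (2 : ℤ) ≤ p := by exact_mod_cast hp
  have hp0 : (0 : ℤ) < p := by linarith
  have h1 : (((p : ℤ) ^ E2) ^ e) ≤ (p : ℤ) ^ (E2 * R) := by
    rw [← pow_mul]
    exact pow_le_pow_right₀ hp1 (Nat.mul_le_mul_left _ he)
  have h2 : |(p : ℤ) ^ E1 + w| ≤ (p : ℤ) ^ (E1 + 1) := by
    calc |(p : ℤ) ^ E1 + w| ≤ |(p : ℤ) ^ E1| + |w| := abs_add_le _ _
      _ ≤ (p : ℤ) ^ E1 + (p : ℤ) ^ E1 := by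
          rw [abs_of_pos (pow_pos hp0 _)]
          linarith
      _ = (p : ℤ) ^ E1 * 2 := by ring
      _ ≤ (p : ℤ) ^ E1 * p := mul_le_mul_of_nonneg_left hp2 (pow_pos hp0 _).le
      _ = (p : ℤ) ^ (E1 + 1) := (pow_succ _ _).symm
  rw [abs_mul, abs_of_pos (pow_pos (pow_pos hp0 _) _), add_assoc, pow_add]
  exact mul_le_mul h1 h2 (abs_nonneg _) (pow_pos hp0 _).le

/-- the fibre sums over `ZMod m` have at most one nonzero entry, but the support of `a` meets at least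
two fibres -/
theorem chain_dom (k B m : ℕ) [NeZero k] [NeZero m] (hmk : m ∣ k) : ∃ B1 : ℕ, ∀ p : ℕ, p.Prime →
    ∀ a : ZMod k → ℝ, (∀ t, Alg p k B (a t)) → ¬ Two (qt m a) →
    (∃ c c', a c ≠ 0 ∧ a c' ≠ 0 ∧ pr m c ≠ pr m c') →
    ∀ l : ℕ, 1 ≤ l → (∀ q : ℕ, q.Prime → q ∣ m → l ≤ q) →
      AVal p k B1 a (k - k / l) := by
  classical
  obtain ⟨Bv, hBv⟩ : ∃ Bv : ℕ, Bv = (k * m * k + 1) * k := ⟨_, rfl⟩
  obtain ⟨b0, hb0⟩ := liouville k (B + Bv + k + 1 + k)
  obtain ⟨b1, hb1⟩ : ∃ b1 : ℕ, b1 = B + Bv + k + 1 + k + k + 1 := ⟨_, rfl⟩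
  obtain ⟨E1, hE1⟩ : ∃ E1 : ℕ, E1 = m + (b1 + b0) + (Bv + 1) := ⟨_, rfl⟩
  obtain ⟨E2, hE2⟩ : ∃ E2 : ℕ, E2 = (E1 + 1) + (b1 + b0) := ⟨_, rfl⟩
  refine ⟨E2 * (m * m + m) + E1 + 1, fun p hp a ha hTwo hcc l hl hlq => ?_⟩
  have hp2 : 2 ≤ p := hp.two_le
  have hpR1 : (1 : ℝ) ≤ p := by exact_mod_cast (by omega : 1 ≤ p)
  have hpR2 : (2 : ℝ) ≤ p := by exact_mod_cast hp2
  have hpR0 : (0 : ℝ) < p := by linarith
  obtain ⟨c, c', hc, hc', hcc'⟩ := hcc
  obtain ⟨t0, h0, hc0⟩ : ∃ t0, (∀ t, t ≠ t0 → qt m a t = 0) ∧ ∃ c, a c ≠ 0 ∧ pr m c = t0 := by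
    by_cases hA : ∃ t, qt m a t ≠ 0
    · obtain ⟨t, ht⟩ := hA
      refine ⟨t, fun t' ht' => ?_, ?_⟩
      · by_contra h
        exact hTwo ⟨t', t, ht', h, ht⟩
      · unfold qt at ht
        obtain ⟨d, hd, hd1⟩ := Finset.exists_ne_zero_of_sum_ne_zero ht
        exact ⟨d, hd1, by simpa using hd⟩
    · push Not at hA
      exact ⟨pr m c, fun t _ => hA t, c, hc, rfl⟩
  obtain ⟨t1, ht1, hc1⟩ : ∃ t1, t1 ≠ t0 ∧ ∃ c, a c ≠ 0 ∧ pr m c = t1 := by
    by_cases h : pr m c = t0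
    · exact ⟨pr m c', fun h' => hcc' (h.trans h'.symm), c', hc', rfl⟩
    · exact ⟨pr m c, h, c, hc, rfl⟩
  obtain ⟨J, hJ1, hJ2, hJ3, hJ4⟩ := chain_coord (t1 - t0)
  have hlo := le_order hlq (t1 - t0) (sub_ne_zero.2 ht1)
  have ho : 0 < addOrderOf (t1 - t0) := by omega
  -- a generic point
  obtain ⟨s0, hs1, hs2, hs3⟩ :=
    generic (F := {f : ZMod k × ZMod m // ∃ i, pr m i = f.2 ∧ a (f.1 - i) ≠ 0})
      (fun f i => if pr m i = f.1.2 then a (f.1.1 - i) else 0) (fun f => by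
        obtain ⟨i, hi, hi'⟩ := f.2
        exact ⟨i, by rw [if_pos hi]; exact hi'⟩)
  have hcardF : Fintype.card {f : ZMod k × ZMod m // ∃ i, pr m i = f.2 ∧ a (f.1 - i) ≠ 0} ≤
      k * m := by
    refine le_trans (Fintype.card_subtype_le _) ?_
    rw [Fintype.card_prod, ZMod.card, ZMod.card]
  have hs4 : s0 ≤ k * m * k + 1 :=
    le_trans hs2 (Nat.add_le_add_right (Nat.mul_le_mul_right k hcardF) 1)
  have hvN : ∀ i : ZMod k, s0 ^ i.val ≤ p ^ Bv := by
    intro i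
    have h1 : s0 ≤ p ^ (k * m * k + 1) :=
      le_trans hs4 (le_trans Nat.lt_two_pow_self.le (Nat.pow_le_pow_left hp2 _))
    calc s0 ^ i.val ≤ (p ^ (k * m * k + 1)) ^ i.val := Nat.pow_le_pow_left h1 _
      _ = p ^ ((k * m * k + 1) * i.val) := (pow_mul _ _ _).symm
      _ ≤ p ^ Bv := by
          refine Nat.pow_le_pow_right (by omega) ?_
          rw [hBv]
          exact Nat.mul_le_mul_left _ (ZMod.val_lt i).le
  obtain ⟨v, hv⟩ : ∃ v : ZMod k → ℝ, ∀ i, v i = (s0 : ℝ) ^ i.val := ⟨_, fun _ => rfl⟩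
  have hvpos : ∀ i, 0 < v i := by
    intro i
    rw [hv]
    exact pow_pos (by exact_mod_cast hs1) _
  have hvle : ∀ i, v i ≤ (p : ℝ) ^ Bv := by
    intro i
    rw [hv]
    exact_mod_cast hvN i
  have hgen : ∀ u : ZMod k, ∀ i : ZMod k, a (u - i) ≠ 0 → G6_b m a v u (pr m i) ≠ 0 := by
    intro u i hi
    have h1 := hs3 ⟨(u, pr m i), i, rfl, hi⟩
    unfold G6_b
    simp only [hv]
    exact h1
  have hbAlg : ∀ u g, Alg p k (B + Bv + k + 1 + k) (G6_b m a v u g) := by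
    intro u g
    have h1 : ∀ i ∈ (univ : Finset (ZMod k)),
        Alg p k (B + Bv + k + 1) ((if pr m i = g then a (u - i) else 0) * v i) := by
      intro i _
      refine Alg.mul hp2 ?_ ?_
      · by_cases hi : pr m i = g
        · rw [if_pos hi]
          exact ha _
        · rw [if_neg hi]
          exact Alg.mono hp2 (Nat.zero_le B) alg_zero
      · have h2 : v i = (((s0 : ℤ) ^ i.val : ℤ) : ℝ) := by
          rw [hv]
          push_cast
          rfl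
        rw [h2]
        refine alg_int Bv _ ?_
        rw [abs_of_nonneg (by positivity)]
        exact_mod_cast hvN i
    have h2 := Alg.sum hp2 univ (fun i => (if pr m i = g then a (u - i) else 0) * v i) h1
    rw [Finset.card_univ, ZMod.card] at h2
    exact h2
  have hAAlg : Alg p k (B + Bv + k + 1 + k) (qt m a t0) :=
    Alg.mono hp2 (by omega) (alg_qt hp2 a ha t0)
  have hmp : (m : ℝ) < (p : ℝ) ^ m := by
    have : m < p ^ m := Nat.lt_pow_self (by omega)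
    exact_mod_cast this
  have hmE : (m : ℝ) < (p : ℝ) ^ E1 :=
    lt_of_lt_of_le hmp (pow_le_pow_right₀ hpR1 (by omega))
  obtain ⟨ε, hε, hpos, hne, hval⟩ := G6_core hmk a v t0 t1 h0 J (addOrderOf (t1 - t0)) hJ1 hJ2 hJ3
    (hJ4 0 ho) hc0 hc1 hvpos hgen (((p : ℝ) ^ b0)⁻¹) ((p : ℝ) ^ b1) ((p : ℝ) ^ E1) ((p : ℝ) ^ E2)
    (one_le_pow₀ hpR1)
    (fun u g => by rw [hb1]; exact Alg.abs_le hp2 (hbAlg u g))
    (fun u g h => hb0 p hp _ (hbAlg u g) h)
    (by rw [hb1]; exact Alg.abs_le hp2 hAAlg)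
    (fun h => hb0 p hp _ hAAlg h)
    (by
      rw [lt_mul_inv_iff₀ (pow_pos hpR0 _), mul_assoc, ← pow_add]
      calc (m : ℝ) * (p : ℝ) ^ (b1 + b0) < (p : ℝ) ^ m * (p : ℝ) ^ (b1 + b0) :=
            mul_lt_mul_of_pos_right hmp (pow_pos hpR0 _)
        _ = (p : ℝ) ^ (m + (b1 + b0)) := (pow_add _ _ _).symm
        _ ≤ (p : ℝ) ^ E1 := pow_le_pow_right₀ hpR1 (by omega))
    (fun i => lt_of_le_of_lt (hvle i) (pow_lt_pow_right₀ (by linarith) (by omega)))
    (by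
      rw [lt_mul_inv_iff₀ (pow_pos hpR0 _), mul_assoc, ← pow_add]
      calc ((m : ℝ) + (p : ℝ) ^ E1) * (p : ℝ) ^ (b1 + b0)
          < ((p : ℝ) ^ E1 * 2) * (p : ℝ) ^ (b1 + b0) :=
            mul_lt_mul_of_pos_right (by linarith) (pow_pos hpR0 _)
        _ ≤ ((p : ℝ) ^ E1 * p) * (p : ℝ) ^ (b1 + b0) :=
            mul_le_mul_of_nonneg_right (mul_le_mul_of_nonneg_left hpR2 (pow_pos hpR0 _).le)
              (pow_pos hpR0 _).le
        _ = (p : ℝ) ^ E2 := by rw [← pow_succ, ← pow_add, hE2])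
    l hl hlo
  refine ⟨fun i => ((p : ℝ) ^ E2) ^ (m * m + m - (J (pr m i) * m + (pr m i).val)) *
    ((p : ℝ) ^ E1 + ε * v i), fun i => ?_, fun i => (hpos i).ne', hne, hval⟩
  have hw : ∃ w : ℤ, |w| ≤ (p : ℤ) ^ E1 ∧ ε * v i = (w : ℝ) := by
    have h1 : |((s0 : ℤ) ^ i.val)| ≤ (p : ℤ) ^ E1 := by
      rw [abs_of_nonneg (by positivity)]
      exact_mod_cast le_trans (hvN i) (Nat.pow_le_pow_right (by omega) (by omega))
    rcases hε with h | h
    · exact ⟨(s0 : ℤ) ^ i.val, h1, by rw [h, hv, one_mul]; push_cast; rfl⟩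
    · exact ⟨-((s0 : ℤ) ^ i.val), by rwa [abs_neg], by rw [h, hv, neg_one_mul]; push_cast; rfl⟩
  obtain ⟨w, hw1, hw2⟩ := hw
  have h2 : ((p : ℝ) ^ E2) ^ (m * m + m - (J (pr m i) * m + (pr m i).val)) *
      ((p : ℝ) ^ E1 + ε * v i) =
      ((((p : ℤ) ^ E2) ^ (m * m + m - (J (pr m i) * m + (pr m i).val)) *
        ((p : ℤ) ^ E1 + w) : ℤ) : ℝ) := by
    rw [hw2]
    push_cast
    rfl
  beta_reduce
  rw [h2]
  exact alg_int _ _ (G6_size hp2 (Nat.sub_le _ _) w hw1)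

end Pool.Agent.Helper21.FD
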