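import Pool.Agent.Helper21.FD.G8
import Pool.Agent.Helper21.FD.G9
import Pool.Agent.Helper21.FD.L2

/-!
MP_0aa406_nt, project FD (helper21): the antisymmetric case (helper77's Niho trick).
-/

set_option autoImplicit false
set_option linter.unusedSectionVars false

namespace Pool.Agent.Helper21.FD

open Finset Pool.Agent.Helper21.FC

private theorem G7_sg_pos {x : ℝ} (h : 0 < x) : sg x = 1 := by unfold sg; rw [if_pos h]

private theorem G7_sg_neg {x : ℝ} (h : x < 0) : sg x = -1 := by
  unfold sg; rw [if_neg (not_lt.2 h.le), if_pos h]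

private theorem G7_sg_neg' (x : ℝ) : sg (-x) = - sg x := by
  rcases lt_trichotomy x 0 with h | h | h
  · rw [G7_sg_neg h, G7_sg_pos (neg_pos.2 h)]; rfl
  · subst h; simp [sg]
  · rw [G7_sg_pos h, G7_sg_neg (neg_neg_of_pos h)]

section half

variable {m : ℕ} [NeZero m] [NeZero (m * 2)]

private theorem G7_mpos : 0 < m := Nat.pos_of_ne_zero (NeZero.ne m)

private theorem G7_MM : ((m : ℕ) : ZMod (m * 2)) + ((m : ℕ) : ZMod (m * 2)) = 0 := by
  have h : ((m * 2 : ℕ) : ZMod (m * 2)) = 0 := ZMod.natCast_self _
  rw [← h]
  push_cast
  ring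

private theorem G7_Mval : ((m : ℕ) : ZMod (m * 2)).val = m := by
  apply ZMod.val_natCast_of_lt
  have := G7_mpos (m := m)
  omega

private theorem G7_prM (c : ZMod (m * 2)) :
    pr m (c + ((m : ℕ) : ZMod (m * 2))) = pr m c := by
  rw [pr_add (Dvd.intro 2 rfl)]
  have : pr m ((m : ℕ) : ZMod (m * 2)) = 0 := by
    unfold pr
    rw [G7_Mval, ZMod.natCast_self]
  rw [this, add_zero]

private theorem G7_M_ne : ((m : ℕ) : ZMod (m * 2)) ≠ 0 := by
  intro h
  have h1 := G7_Mval (m := m)
  rw [h, ZMod.val_zero] at h1
  have := G7_mpos (m := m)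
  omega

private theorem G7_ker {d : ZMod (m * 2)} (h : pr m d = 0) :
    d = 0 ∨ d = ((m : ℕ) : ZMod (m * 2)) := by
  unfold pr at h
  rw [ZMod.natCast_eq_zero_iff] at h
  obtain ⟨q, hq⟩ := h
  have h1 := ZMod.val_lt d
  have h2 := G7_mpos (m := m)
  have h3 : q < 2 := by
    rw [hq] at h1
    exact lt_of_mul_lt_mul_left h1 (Nat.zero_le m)
  have h4 : d = ((d.val : ℕ) : ZMod (m * 2)) := (ZMod.natCast_zmod_val d).symm
  interval_cases q
  · left
    rw [h4, hq, Nat.mul_zero, Nat.cast_zero]
  · right
    rw [h4, hq, Nat.mul_one]

private theorem G7_fib (c : ZMod (m * 2)) :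
    univ.filter (fun d : ZMod (m * 2) => pr m d = pr m c) =
      {c, c + ((m : ℕ) : ZMod (m * 2))} := by
  ext d
  simp only [mem_filter, mem_univ, true_and, mem_insert, mem_singleton]
  constructor
  · intro h
    have h1 : pr m (d - c) = 0 := by
      rw [pr_sub (Dvd.intro 2 rfl), h, sub_self]
    rcases G7_ker h1 with h2 | h2
    · left; exact sub_eq_zero.1 h2
    · right
      rw [← h2]
      ring
  · rintro (rfl | rfl)
    · rfl
    · exact G7_prM c

private theorem G7_qt (a : ZMod (m * 2) → ℝ) (c : ZMod (m * 2)) :
    qt m a (pr m c) = a c + a (c + ((m : ℕ) : ZMod (m * 2))) := by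
  unfold qt
  rw [G7_fib, Finset.sum_pair]
  intro h
  exact G7_M_ne (m := m) (by simpa using h.symm)

private theorem G7_shift {E : Type} [AddCommMonoid E] (f : ZMod (m * 2) → E)
    (d : ZMod (m * 2)) : ∑ i, f (i + d) = ∑ i, f i :=
  Equiv.sum_comp (Equiv.addRight d) f

private theorem G7_half (f : ZMod (m * 2) → ℤ) (c : ℤ)
    (h : ∀ i, f i + f (i + ((m : ℕ) : ZMod (m * 2))) = c) : ∑ i, f i = m * c := by
  have h1 : ∑ i, (f i + f (i + ((m : ℕ) : ZMod (m * 2)))) = ∑ i, f i + ∑ i, f i := by
    rw [Finset.sum_add_distrib, G7_shift f]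
  rw [Finset.sum_congr rfl (fun i _ => h i), Finset.sum_const, Finset.card_univ, ZMod.card,
    nsmul_eq_mul] at h1
  push_cast at h1
  linarith

/-- pair sums over the fibres -/
private theorem G7_pair (f : ZMod (m * 2) → ℝ) :
    ∑ j, f j = ∑ t : ZMod m, (f ((t.val : ℕ) : ZMod (m * 2)) +
      f (((t.val : ℕ) : ZMod (m * 2)) + ((m : ℕ) : ZMod (m * 2)))) := by
  rw [← Finset.sum_fiberwise_of_maps_to (g := fun c : ZMod (m * 2) => pr m c)
    (fun c _ => mem_univ (pr m c)) f]
  refine Finset.sum_congr rfl (fun t _ => ?_)
  have h1 : pr m ((t.val : ℕ) : ZMod (m * 2)) = t := by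
    unfold pr
    rw [ZMod.val_natCast_of_lt (lt_of_lt_of_le (ZMod.val_lt t) (by omega)),
      ZMod.natCast_zmod_val]
  have h2 := G7_qt f ((t.val : ℕ) : ZMod (m * 2))
  rw [h1] at h2
  exact h2

end half

/-- the antisymmetric direction -/
private noncomputable def G7_al (m : ℕ) (s : ℤ) (j : ZMod (m * 2)) : ℤ :=
  if j.val < m then s ^ j.val else - s ^ (j.val - m)

section al

variable {m : ℕ} [NeZero m] [NeZero (m * 2)]

private theorem G7_val_add (j : ZMod (m * 2)) :
    (j + ((m : ℕ) : ZMod (m * 2))).val = if j.val < m then j.val + m else j.val - m := by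
  have h1 := ZMod.val_lt j
  rw [ZMod.val_add, G7_Mval]
  split_ifs with h
  · exact Nat.mod_eq_of_lt (by omega)
  · have : j.val + m = (j.val - m) + m * 2 := by omega
    rw [this, Nat.add_mod_right, Nat.mod_eq_of_lt (by omega)]

private theorem G7_al_anti (s : ℤ) (j : ZMod (m * 2)) :
    G7_al m s (j + ((m : ℕ) : ZMod (m * 2))) = - G7_al m s j := by
  have h1 := ZMod.val_lt j
  unfold G7_al
  rw [G7_val_add]
  by_cases h : j.val < m
  · rw [if_pos h, if_pos h, if_neg (by omega), Nat.add_sub_cancel]
  · rw [if_neg h, if_neg h, if_pos (by omega), neg_neg]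

private theorem G7_al_ne {s : ℤ} (hs : 1 ≤ s) (j : ZMod (m * 2)) : G7_al m s j ≠ 0 := by
  have h : ∀ n : ℕ, s ^ n ≠ 0 := fun n => pow_ne_zero n (by omega)
  unfold G7_al
  split_ifs
  · exact h _
  · exact neg_ne_zero.2 (h _)

private theorem G7_al_le {s : ℤ} (hs : 1 ≤ s) (j : ZMod (m * 2)) : |G7_al m s j| ≤ s ^ m := by
  have h1 := ZMod.val_lt j
  have h : ∀ n : ℕ, n ≤ m → s ^ n ≤ s ^ m := fun n hn => pow_le_pow_right₀ hs hn
  have h0 : ∀ n : ℕ, 0 ≤ s ^ n := fun n => pow_nonneg (by omega) n
  unfold G7_al
  split_ifs with h2
  · rw [abs_of_nonneg (h0 _)]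
    exact h _ h2.le
  · rw [abs_neg, abs_of_nonneg (h0 _)]
    exact h _ (by omega)

private theorem G7_al_cast (s : ℤ) (t : ZMod m) :
    G7_al m s ((t.val : ℕ) : ZMod (m * 2)) = s ^ t.val := by
  have h1 := ZMod.val_lt t
  unfold G7_al
  rw [ZMod.val_natCast_of_lt (by omega), if_pos h1]

/-- a linear functional at the antisymmetric direction -/
private theorem G7_al_sum (b : ZMod (m * 2) → ℝ) (s : ℤ) :
    ∑ j, b j * (G7_al m s j : ℝ) = ∑ t : ZMod m, (b ((t.val : ℕ) : ZMod (m * 2)) -
      b (((t.val : ℕ) : ZMod (m * 2)) + ((m : ℕ) : ZMod (m * 2)))) * (s : ℝ) ^ t.val := by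
  rw [G7_pair]
  refine Finset.sum_congr rfl (fun t _ => ?_)
  rw [G7_al_anti, G7_al_cast]
  push_cast
  ring

end al

/-- `a` has at least two entries, the sums `a t + a (t + m)` at most one -/
theorem antisym (k B m : ℕ) [NeZero k] [NeZero m] [NeZero (m * 2)] : ∃ B1 : ℕ, ∀ p : ℕ, p.Prime →
    ∀ a : ZMod (m * 2) → ℝ, (∀ t, Alg p k B (a t)) → Two a → ¬ Two (qt m a) →
      AVal p k B1 a ((m * 2 : ℕ) : ℝ) := by
  classical
  -- sizes
  set M : ZMod (m * 2) := ((m : ℕ) : ZMod (m * 2)) with hM
  set N0 : ℕ := (Fintype.card (ZMod (m * 2)) * (m * 2) + 1) ^ (m * 2) with hN0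
  set N1 : ℕ := (Fintype.card (ZMod (m * 2) × Bool) * m + 1) ^ m with hN1
  refine ⟨N0 + (B + 1 + 1 + (1 + N1 + k + 1) + k + 1 + ((B + N1 + k + 1 + m * 2) +
    (B + 1 + N1 + k + 1) + 1) + 1), ?_⟩
  intro p hp a ha hTwo hq
  have hp2 := hp.two_le
  -- the support of the fibre sums
  obtain ⟨c0, R, hR0, hRz⟩ : ∃ (c0 : ZMod (m * 2)) (R : ℝ), a c0 + a (c0 + M) = R ∧
      ∀ t, pr m t ≠ pr m c0 → a t + a (t + M) = 0 := by
    by_cases h : ∃ c, a c + a (c + M) ≠ 0
    · obtain ⟨c, hc⟩ := h
      refine ⟨c, _, rfl, fun t ht => ?_⟩
      by_contra hne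
      apply hq
      refine ⟨pr m t, pr m c, ht, ?_, ?_⟩
      · rw [G7_qt]; exact hne
      · rw [G7_qt]; exact hc
    · push Not at h
      exact ⟨0, _, rfl, fun t _ => h t⟩
  have hsum : ∑ i, a i = R := by
    have h1 : ∑ i, (a i + a (i + M)) = ∑ i, a i + ∑ i, a i := by
      rw [Finset.sum_add_distrib, G7_shift a]
    have h2 : ∑ i, (a i + a (i + M)) = R + R := by
      rw [← Finset.sum_filter_add_sum_filter_not univ (fun t => pr m t = pr m c0)]
      rw [Finset.sum_eq_zero (s := univ.filter (fun t => ¬ pr m t = pr m c0)), add_zero, G7_fib,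
        Finset.sum_pair]
      · rw [hR0, ← hM, add_assoc c0 M M, G7_MM, add_zero, add_comm (a (c0 + M)), hR0]
      · intro h
        exact G7_M_ne (m := m) (by simpa using h.symm)
      · intro t ht
        exact hRz t (mem_filter.1 ht).2
    linarith
  rcases lt_trichotomy R 0 with hR | hR | hR
  · -- R < 0
    refine ⟨fun _ => 1, fun i => ?_, fun i => one_ne_zero, fun u => ?_, ?_⟩
    · have h := alg_int (p := p) (k := k) 0 1 (by simp)
      have h' : Alg p k 0 (1 : ℝ) := by simpa using h
      exact h'.mono hp2 (Nat.zero_le _)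
    · have : act a (fun _ => (1 : ℝ)) u = R := by
        unfold act
        simp only [mul_one]
        rw [← hsum]
        exact Equiv.sum_comp (Equiv.subLeft u) a
      rw [this]
      exact hR.ne
    · have hrow : ∀ u, act a (fun _ => (1 : ℝ)) u = R := by
        intro u
        unfold act
        simp only [mul_one]
        rw [← hsum]
        exact Equiv.sum_comp (Equiv.subLeft u) a
      simp only [hrow, G7_sg_neg hR, G7_sg_pos one_pos, Finset.sum_const, Finset.card_univ,
        ZMod.card, nsmul_eq_mul]
      push_cast
      have : (0 : ℝ) ≤ m := Nat.cast_nonneg m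
      linarith
  · -- R = 0
    have hanti : ∀ t, a (t + M) = - a t := by
      intro t
      by_cases h : pr m t = pr m c0
      · have h1 : pr m (t - c0) = 0 := by rw [pr_sub (Dvd.intro 2 rfl), h, sub_self]
        rcases G7_ker h1 with h2 | h2
        · have h3 : t = c0 := sub_eq_zero.1 h2
          rw [h3]
          linarith
        · have h3 : t = c0 + M := by rw [hM, ← h2]; ring
          rw [h3, add_assoc, hM, G7_MM, add_zero, ← hM]
          linarith
      · linarith [hRz t h]
    obtain ⟨s, hs1, hs2, hs⟩ := generic (k := m * 2) (F := ZMod (m * 2))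
      (fun u i => a (u - i)) (fun u => by
        obtain ⟨t, -, -, ht, -⟩ := hTwo
        exact ⟨u - t, by rw [sub_sub_cancel]; exact ht⟩)
    have hspos : (0 : ℝ) < s := by exact_mod_cast hs1
    have hrow : ∀ u, act a (fun i => (s : ℝ) ^ i.val) (u + M) =
        - act a (fun i => (s : ℝ) ^ i.val) u := by
      intro u
      unfold act
      rw [← Finset.sum_neg_distrib]
      refine Finset.sum_congr rfl (fun i _ => ?_)
      rw [show u + M - i = (u - i) + M by ring, hanti]
      ring
    refine ⟨fun i => (s : ℝ) ^ i.val, fun i => ?_, fun i => ?_, fun u => ?_, ?_⟩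
    · have h1 : |((s ^ i.val : ℕ) : ℤ)| ≤ (p : ℤ) ^ N0 := by
        rw [abs_of_nonneg (Int.natCast_nonneg _)]
        refine le_trans ?_ (L1_card_le hp2 N0)
        exact_mod_cast le_trans (Nat.pow_le_pow_left hs2 _)
          (Nat.pow_le_pow_right (by omega) (ZMod.val_lt i).le)
      have h2 := (alg_int (p := p) (k := k) N0 _ h1).mono hp2
        (Nat.le_add_right N0 _ : N0 ≤ N0 + (B + 1 + 1 + (1 + N1 + k + 1) + k + 1 +
          ((B + N1 + k + 1 + m * 2) + (B + 1 + N1 + k + 1) + 1) + 1))
      push_cast at h2
      exact h2
    · positivity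
    · exact hs u
    · have h1 : (∑ u, sg (act a (fun i => (s : ℝ) ^ i.val) u)) = m * 0 := by
        apply G7_half
        intro i
        rw [← hM, hrow, G7_sg_neg']
        ring
      have h2 : (∑ i : ZMod (m * 2), sg ((s : ℝ) ^ i.val)) = ((m * 2 : ℕ) : ℤ) := by
        rw [Finset.sum_congr rfl (fun i _ => G7_sg_pos (by positivity : (0 : ℝ) < (s : ℝ) ^ i.val)),
          Finset.sum_const, Finset.card_univ, ZMod.card, nsmul_eq_mul, mul_one]
      rw [h1, h2]
      push_cast
      simp
  · -- 0 < R
    -- functionals
    set b : ZMod (m * 2) × Bool → ZMod (m * 2) → ℝ := fun f j =>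
      a (f.1 + c0 - j) + (if f.2 then R else -R) * (if j = f.1 then 1 else 0) with hb
    have hgen : ∀ f : ZMod (m * 2) × Bool, ∃ t : ZMod m,
        b f ((t.val : ℕ) : ZMod (m * 2)) - b f (((t.val : ℕ) : ZMod (m * 2)) + M) ≠ 0 := by
      intro f
      by_contra hc
      push Not at hc
      -- the difference vanishes everywhere
      have hall : ∀ j, b f j - b f (j + M) = 0 := by
        intro j
        have h1 : pr m (((pr m j).val : ℕ) : ZMod (m * 2)) = pr m j := by
          unfold pr
          rw [ZMod.val_natCast_of_lt (lt_of_lt_of_le (ZMod.val_lt _) (by omega)),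
            ZMod.natCast_zmod_val]
        have h2 : pr m (j - (((pr m j).val : ℕ) : ZMod (m * 2))) = 0 := by
          rw [pr_sub (Dvd.intro 2 rfl), h1, sub_self]
        have h3 := hc (pr m j)
        rcases G7_ker h2 with h4 | h4
        · rw [← sub_eq_zero.1 h4] at h3
          exact h3
        · have h5 : j = (((pr m j).val : ℕ) : ZMod (m * 2)) + M := by rw [hM, ← h4]; ring
          have h6 : j + M = (((pr m j).val : ℕ) : ZMod (m * 2)) := by
            rw [h5, add_assoc, hM, G7_MM, add_zero, ← hM, ← h5]
          rw [h6]
          rw [← h5] at h3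
          linarith
      -- entries outside the fibre vanish
      have hz : ∀ t, pr m t ≠ pr m c0 → a t = 0 := by
        intro t ht
        have h1 := hall (f.1 + c0 - t)
        have h2 := hRz t ht
        simp only [hb] at h1
        have h3 : f.1 + c0 - t ≠ f.1 := by
          intro h
          apply ht
          have : t = c0 := by
            have h5 : f.1 + c0 - t - f.1 = 0 := by rw [h, sub_self]
            have h6 : c0 - t = 0 := by rw [← h5]; ring
            exact (sub_eq_zero.1 h6).symm
          rw [this]
        have h4 : f.1 + c0 - t + M ≠ f.1 := by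
          intro h
          apply ht
          have : t = c0 + M := by
            have h5 : f.1 + c0 - t + M - f.1 = 0 := by rw [h, sub_self]
            have h6 : (c0 + M) - t = 0 := by rw [← h5]; ring
            exact (sub_eq_zero.1 h6).symm
          rw [this, hM, G7_prM]
        rw [if_neg h3, if_neg h4, sub_sub_cancel] at h1
        have h5 : f.1 + c0 - (f.1 + c0 - t + M) = t - M := by ring
        have h6 : t - M = t + M := by
          have : M + M = 0 := by rw [hM]; exact G7_MM
          calc t - M = t - M + (M + M) := by rw [this, add_zero]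
            _ = t + M := by ring
        rw [h5, h6] at h1
        linarith
      have h1 := hall f.1
      simp only [hb] at h1
      have h2 : f.1 + M ≠ f.1 := by
        intro h
        exact G7_M_ne (m := m) (by simpa [hM] using h)
      rw [if_pos trivial, if_neg h2] at h1
      have h3 : f.1 + c0 - f.1 = c0 := by ring
      have h5 : f.1 + c0 - (f.1 + M) = c0 + M := by
        have : M + M = 0 := by rw [hM]; exact G7_MM
        calc f.1 + c0 - (f.1 + M) = c0 - M + (M + M) := by rw [this]; ring
          _ = c0 + M := by ring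
      rw [h3, h5] at h1
      -- support in the fibre
      obtain ⟨t, t', htt, ht, ht'⟩ := hTwo
      have key : a c0 = 0 ∨ a (c0 + M) = 0 := by
        by_cases hf : f.2 = true
        · left
          rw [if_pos hf] at h1
          linarith
        · right
          rw [if_neg hf] at h1
          linarith
      have hmem : ∀ t, a t ≠ 0 → t = c0 ∨ t = c0 + M := by
        intro t ht
        have h6 : pr m t = pr m c0 := by
          by_contra hne
          exact ht (hz t hne)
        have h7 : t ∈ univ.filter (fun d : ZMod (m * 2) => pr m d = pr m c0) := by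
          simp [h6]
        rw [G7_fib] at h7
        simpa using h7
      rcases key with h6 | h6
      · rcases hmem t ht with h7 | h7
        · exact ht (h7 ▸ h6)
        · rcases hmem t' ht' with h8 | h8
          · exact ht' (h8 ▸ h6)
          · exact htt (h7.trans h8.symm)
      · rcases hmem t ht with h7 | h7
        · rcases hmem t' ht' with h8 | h8
          · exact htt (h7.trans h8.symm)
          · exact ht' (h8 ▸ h6)
        · exact ht (h7 ▸ h6)
    obtain ⟨s, hs1, hs2, hs⟩ := generic (k := m) (F := ZMod (m * 2) × Bool)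
      (fun f t => b f ((t.val : ℕ) : ZMod (m * 2)) - b f (((t.val : ℕ) : ZMod (m * 2)) + M)) hgen
    have hs1' : (1 : ℤ) ≤ (s : ℤ) := by exact_mod_cast hs1
    set al : ZMod (m * 2) → ℝ := fun j => (G7_al m (s : ℤ) j : ℝ) with hal
    have hal_anti : ∀ j, al (j + M) = - al j := by
      intro j
      simp only [hal, hM]
      rw [G7_al_anti]
      push_cast
      ring
    have hal_ne : ∀ j, al j ≠ 0 := by
      intro j
      simp only [hal]
      exact_mod_cast G7_al_ne hs1' j
    set A : ZMod (m * 2) → ℝ := fun u => act a al u with hA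
    have hA_anti : ∀ u, A (u + M) = - A u := by
      intro u
      simp only [hA]
      unfold act
      rw [← G7_shift (fun i => a (u + M - i) * al i) M, ← Finset.sum_neg_distrib]
      refine Finset.sum_congr rfl (fun i _ => ?_)
      rw [hal_anti, show u + M - (i + M) = u - i by ring]
      ring
    -- genericity
    have hne : ∀ (i : ZMod (m * 2)) (e : Bool), A (i + c0) + (if e then R else -R) * al i ≠ 0 := by
      intro i e
      have h1 := hs (i, e)
      rw [show (∑ t : ZMod m, (b (i, e) ((t.val : ℕ) : ZMod (m * 2)) -
        b (i, e) (((t.val : ℕ) : ZMod (m * 2)) + M)) * (s : ℝ) ^ t.val) =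
        ∑ j, b (i, e) j * al j by
          rw [hal]
          simp only []
          rw [G7_al_sum (b (i, e)) (s : ℤ)]
          simp [hM]] at h1
      have h2 : ∑ j, b (i, e) j * al j = A (i + c0) + (if e then R else -R) * al i := by
        simp only [hb, add_mul, Finset.sum_add_distrib]
        congr 1
        rw [Finset.sum_eq_single i]
        · rw [if_pos rfl, mul_one]
        · intro j _ hj
          rw [if_neg hj]
          ring
        · intro h
          exact absurd (mem_univ _) h
      rwa [h2] at h1
    have hne' : ∀ i, |A (i + c0)| ≠ R * |al i| := by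
      intro i h
      have h1 := hne i true
      have h2 := hne i false
      rw [if_pos rfl] at h1
      rw [if_neg (by simp)] at h2
      rcases abs_choice (A (i + c0)) with h3 | h3 <;> rcases abs_choice (al i) with h4 | h4 <;>
        rw [h3, h4] at h
      · exact h2 (by linarith)
      · exact h1 (by linarith)
      · exact h1 (by linarith)
      · exact h2 (by linarith)
    set sv : ZMod (m * 2) → ℝ := fun i =>
      (if R * |al i| < |A (i + c0)| then 1 else -1) * (|A (i + c0)| + R * |al i|) with hsv
    have hsv_sym : ∀ i, sv (i + M) = sv i := by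
      intro i
      simp only [hsv]
      rw [show i + M + c0 = (i + c0) + M by ring, hA_anti, hal_anti, abs_neg, abs_neg]
    have hrow : ∀ i, act a (fun j => 2 * R * al j + sv j) (i + c0) =
        R * (2 * A (i + c0) + sv i) := by
      intro i
      have h1 : act a (fun j => 2 * R * al j + sv j) (i + c0) =
          2 * R * A (i + c0) + act a sv (i + c0) := by
        simp only [hA]
        unfold act
        rw [Finset.mul_sum, ← Finset.sum_add_distrib]
        refine Finset.sum_congr rfl (fun j _ => ?_)
        ring
      have h2 : act a sv (i + c0) = R * sv i := by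
        have h3 : act a sv (i + c0) + act a sv (i + c0) = R * sv i + R * sv i := by
          have h4 : act a sv (i + c0) = ∑ j, a (i + c0 - j + M) * sv j := by
            unfold act
            rw [← G7_shift (fun j => a (i + c0 - j) * sv j) M]
            refine Finset.sum_congr rfl (fun j _ => ?_)
            rw [hsv_sym]
            congr 2
            have : M + M = 0 := by rw [hM]; exact G7_MM
            calc i + c0 - (j + M) = i + c0 - j - M + (M + M) := by rw [this]; ring
              _ = i + c0 - j + M := by ring
          conv_lhs => rw [h4]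
          conv_lhs => lhs; rw [← h4]
          unfold act
          rw [← Finset.sum_add_distrib]
          rw [← Finset.sum_filter_add_sum_filter_not univ
            (fun j : ZMod (m * 2) => pr m j = pr m i)]
          rw [Finset.sum_eq_zero (s := univ.filter (fun j => ¬ pr m j = pr m i)), add_zero,
            G7_fib, Finset.sum_pair]
          · rw [← hM, hsv_sym, show i + c0 - i = c0 by ring]
            have h5 : i + c0 - (i + M) = c0 + M := by
              have : M + M = 0 := by rw [hM]; exact G7_MM
              calc i + c0 - (i + M) = c0 - M + (M + M) := by rw [this]; ring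
                _ = c0 + M := by ring
            rw [h5, add_assoc c0 M M, hM, G7_MM, add_zero, ← hM, ← hR0]
            ring
          · intro h
            exact G7_M_ne (m := m) (by simpa using h.symm)
          · intro j hj
            have h6 : pr m (i + c0 - j) ≠ pr m c0 := by
              intro h
              apply (mem_filter.1 hj).2
              rw [pr_sub (Dvd.intro 2 rfl), pr_add (Dvd.intro 2 rfl)] at h
              have h7 : pr m i - pr m j = 0 := by
                have : pr m i + pr m c0 - pr m j - pr m c0 = 0 := by rw [h, sub_self]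
                rw [← this]
                ring
              exact (sub_eq_zero.1 h7).symm
            have h8 := hRz _ h6
            rw [← add_mul, h8, zero_mul]
        linarith
      rw [h1, h2]
      ring
    -- signs
    have hpair : ∀ i, ((0 < 2 * R * al i + sv i ∨ 2 * R * al i + sv i < 0) ∧
        (2 * A (i + c0) + sv i ≠ 0)) := by
      intro i
      have h0 := abs_pos.2 (hal_ne i)
      have h1 := hne' i
      have h3 := neg_abs_le (al i)
      have h4 := le_abs_self (al i)
      have h5 := neg_abs_le (A (i + c0))
      have h6 := le_abs_self (A (i + c0))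
      have h7 := mul_pos hR h0
      have h8 : R * al i ≤ R * |al i| := mul_le_mul_of_nonneg_left h4 hR.le
      have h9 : R * (-|al i|) ≤ R * al i := mul_le_mul_of_nonneg_left h3 hR.le
      simp only [hsv]
      by_cases hlt : R * |al i| < |A (i + c0)|
      · rw [if_pos hlt]
        refine ⟨Or.inl (by linarith), ?_⟩
        rcases abs_choice (A (i + c0)) with h10 | h10
        · have : 0 < A (i + c0) := by rw [← h10]; linarith
          intro h
          rw [h10] at h
          linarith
        · intro h
          rw [h10] at h hlt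
          linarith
      · rw [if_neg hlt]
        have hlt' : |A (i + c0)| < R * |al i| := lt_of_le_of_ne (not_lt.1 hlt) h1
        refine ⟨?_, ?_⟩
        · rcases abs_choice (al i) with h10 | h10
          · left
            rw [h10] at hlt' ⊢
            linarith
          · right
            have h11 : R * al i < 0 := by
              rw [h10] at h7
              linarith
            rw [h10] at hlt' ⊢
            linarith
        · intro h
          linarith
    have hval : ∀ i, (sg (2 * R * al i + sv i) - sg (R * (2 * A (i + c0) + sv i))) +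
        (sg (2 * R * al (i + M) + sv (i + M)) -
          sg (R * (2 * A (i + M + c0) + sv (i + M)))) = 2 := by
      intro i
      have h0 := abs_pos.2 (hal_ne i)
      have h1 := hne' i
      have h3 := neg_abs_le (al i)
      have h4 := le_abs_self (al i)
      have h5 := neg_abs_le (A (i + c0))
      have h6 := le_abs_self (A (i + c0))
      have h7 := mul_pos hR h0
      have h8 : R * al i ≤ R * |al i| := mul_le_mul_of_nonneg_left h4 hR.le
      have h9 : R * (-|al i|) ≤ R * al i := mul_le_mul_of_nonneg_left h3 hR.le
      rw [hsv_sym, hal_anti, show i + M + c0 = (i + c0) + M by ring, hA_anti]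
      simp only [hsv]
      by_cases hlt : R * |al i| < |A (i + c0)|
      · rw [if_pos hlt]
        rw [G7_sg_pos (show 0 < 2 * R * al i + 1 * (|A (i + c0)| + R * |al i|) by linarith),
          G7_sg_pos (show 0 < 2 * R * -al i + 1 * (|A (i + c0)| + R * |al i|) by linarith)]
        rcases abs_choice (A (i + c0)) with h10 | h10
        · rw [h10] at hlt ⊢
          rw [G7_sg_pos (mul_pos hR
            (show 0 < 2 * A (i + c0) + 1 * (A (i + c0) + R * |al i|) by linarith)),
            G7_sg_neg (mul_neg_of_pos_of_neg hR
            (show 2 * -A (i + c0) + 1 * (A (i + c0) + R * |al i|) < 0 by linarith))]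
          norm_num
        · rw [h10] at hlt ⊢
          rw [G7_sg_neg (mul_neg_of_pos_of_neg hR
            (show 2 * A (i + c0) + 1 * (-A (i + c0) + R * |al i|) < 0 by linarith)),
            G7_sg_pos (mul_pos hR
            (show 0 < 2 * -A (i + c0) + 1 * (-A (i + c0) + R * |al i|) by linarith))]
          norm_num
      · rw [if_neg hlt]
        have hlt' : |A (i + c0)| < R * |al i| := lt_of_le_of_ne (not_lt.1 hlt) h1
        rw [G7_sg_neg (mul_neg_of_pos_of_neg hR
            (show 2 * A (i + c0) + -1 * (|A (i + c0)| + R * |al i|) < 0 by linarith)),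
          G7_sg_neg (mul_neg_of_pos_of_neg hR
            (show 2 * -A (i + c0) + -1 * (|A (i + c0)| + R * |al i|) < 0 by linarith))]
        rcases abs_choice (al i) with h10 | h10
        · rw [h10] at hlt' h7 ⊢
          rw [G7_sg_pos (show 0 < 2 * R * al i + -1 * (|A (i + c0)| + R * al i) by linarith),
            G7_sg_neg (show 2 * R * -al i + -1 * (|A (i + c0)| + R * al i) < 0 by linarith)]
          norm_num
        · rw [h10] at hlt' h7 ⊢
          rw [G7_sg_neg (show 2 * R * al i + -1 * (|A (i + c0)| + R * -al i) < 0 by linarith),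
            G7_sg_pos (show 0 < 2 * R * -al i + -1 * (|A (i + c0)| + R * -al i) by linarith)]
          norm_num
    refine ⟨fun j => 2 * R * al j + sv j, fun i => ?_, fun i => ?_, fun u => ?_, ?_⟩
    · -- size
      have e1 : Alg p k (B + 1) R := by
        have := (ha c0).add hp2 (ha (c0 + M))
        rw [hR0, max_self] at this
        exact this
      have e2 : ∀ j, Alg p k N1 (al j) := by
        intro j
        refine alg_int N1 _ (le_trans (G7_al_le hs1' j) (le_trans ?_ (L1_card_le hp2 N1)))
        exact_mod_cast Nat.pow_le_pow_left hs2 m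
      have e3 : Alg p k (B + N1 + k + 1 + m * 2) (A (i + c0)) := by
        have := Alg.sum (p := p) (k := k) hp2 (B := B + N1 + k + 1) univ
          (fun j => a (i + c0 - j) * al j) (fun j _ => (ha _).mul hp2 (e2 j))
        rw [Finset.card_univ, ZMod.card] at this
        exact this
      have e4 : Alg p k (B + 1 + N1 + k + 1) (R * |al i|) := e1.mul hp2 (e2 i).abs
      have e5 := e3.abs.add hp2 e4
      have e6 : Alg p k (max (B + N1 + k + 1 + m * 2) (B + 1 + N1 + k + 1) + 1) (sv i) := by
        simp only [hsv]
        split_ifs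
        · rw [one_mul]; exact e5
        · rw [neg_one_mul]; exact e5.neg
      have e7 : Alg p k (B + 1 + 1) (R + R) := by
        have := e1.add hp2 e1
        rwa [max_self] at this
      have e8 := (e7.mul hp2 (e2 i)).add hp2 e6
      rw [show (R + R) * al i = 2 * R * al i by ring] at e8
      refine e8.mono hp2 ?_
      have h1 := le_max_left (B + N1 + k + 1 + m * 2) (B + 1 + N1 + k + 1)
      omega
    · rcases (hpair i).1 with h | h
      · exact h.ne'
      · exact h.ne
    · have h1 := hrow (u - c0)
      rw [sub_add_cancel] at h1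
      rw [h1]
      refine mul_ne_zero hR.ne' ?_
      have h2 := (hpair (u - c0)).2
      rwa [sub_add_cancel] at h2
    · have h1 : (∑ i, sg (2 * R * al i + sv i) -
          ∑ u, sg (act a (fun j => 2 * R * al j + sv j) u)) = m * 2 := by
        rw [← G7_shift (fun u => sg (act a (fun j => 2 * R * al j + sv j) u)) c0,
          ← Finset.sum_sub_distrib]
        rw [Finset.sum_congr rfl (fun i _ => by rw [hrow i])]
        exact G7_half (fun i => sg (2 * R * al i + sv i) - sg (R * (2 * A (i + c0) + sv i))) 2
          hval
      rw [h1]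
      push_cast
      exact le_refl _

end Pool.Agent.Helper21.FD
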