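import Pool.Agent.Helper21.FD.L1

/-!
MP_0aa406_nt, project FD (helper21): from real to integral directions.
-/

set_option autoImplicit false

namespace Pool.Agent.Helper21.FD

open Finset Pool.Agent.Helper21.FC

private theorem R1_round (x r p : ℝ) (h1 : 1 ≤ r) (h2 : r ≤ p) :
    ∃ w : ℤ, |(w : ℝ) * r - x| ≤ p ∧ |(w : ℝ)| ≤ |x| + 1 ∧ (0 < x → 0 < w) ∧ (x < 0 → w < 0) := by
  have hr : 0 < r := lt_of_lt_of_le one_pos h1
  -- the nonnegative case
  have key : ∀ z : ℝ, 0 ≤ z → |((⌈z / r⌉ : ℤ) : ℝ) * r - z| ≤ p ∧ |((⌈z / r⌉ : ℤ) : ℝ)| ≤ |z| + 1 ∧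
      (0 < z → 0 < ⌈z / r⌉) := by
    intro z hz
    have a1 : z / r ≤ ((⌈z / r⌉ : ℤ) : ℝ) := Int.le_ceil _
    have a2 : ((⌈z / r⌉ : ℤ) : ℝ) < z / r + 1 := Int.ceil_lt_add_one _
    have a0 : (0 : ℝ) ≤ ((⌈z / r⌉ : ℤ) : ℝ) := le_trans (div_nonneg hz hr.le) a1
    have a3 : z ≤ ((⌈z / r⌉ : ℤ) : ℝ) * r := by rwa [div_le_iff₀ hr] at a1
    have a4 : ((⌈z / r⌉ : ℤ) : ℝ) * r ≤ z + r := by
      have := mul_le_mul_of_nonneg_right a2.le hr.le
      rwa [add_mul, div_mul_cancel₀ _ hr.ne', one_mul] at this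
    have a5 : z / r ≤ z := div_le_self hz h1
    refine ⟨?_, ?_, fun h => Int.ceil_pos.mpr (div_pos h hr)⟩
    · rw [abs_of_nonneg (by linarith)]
      linarith
    · rw [abs_of_nonneg a0, abs_of_nonneg hz]
      linarith
  rcases le_total 0 x with hx | hx
  · obtain ⟨b1, b2, b3⟩ := key x hx
    exact ⟨⌈x / r⌉, b1, b2, b3, fun h => absurd h (not_lt.mpr hx)⟩
  · obtain ⟨b1, b2, b3⟩ := key (-x) (by linarith)
    refine ⟨-⌈-x / r⌉, ?_, ?_, fun h => absurd h (not_lt.mpr hx), fun h => ?_⟩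
    · have e : ((-⌈-x / r⌉ : ℤ) : ℝ) * r - x = -(((⌈-x / r⌉ : ℤ) : ℝ) * r - -x) := by
        push_cast
        ring
      rw [e, abs_neg]
      exact b1
    · push_cast
      rw [abs_neg]
      rwa [abs_neg] at b2
    · have := b3 (by linarith)
      omega

/-- rounding a real direction, for finitely many `μ_a` at the same time -/
theorem rounding (k : ℕ) [NeZero k] (B B3 : ℕ) : ∃ B1 : ℕ, ∀ p : ℕ, 2 ≤ p → ∀ (n : ℕ)
    (y : ZMod k → ℝ), (∀ i, ((p : ℝ) ^ B3)⁻¹ ≤ |y i| ∧ |y i| ≤ (p : ℝ) ^ B3) →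
    ∃ w : ZMod k → ℤ, (∀ i, |w i| ≤ (p : ℤ) ^ B1) ∧
      (∀ i, (0 < y i → 0 < w i) ∧ (y i < 0 → w i < 0)) ∧
      ∀ μ : ZMod k → ℤ, (∀ t, |μ t| ≤ (p : ℤ) ^ B) → ∀ u,
        ((p : ℝ) ^ B3)⁻¹ ≤ |act (ci p n μ) y u| →
          (0 < act (ci p n μ) y u → 0 < rmul p n μ w u) ∧
          (act (ci p n μ) y u < 0 → rmul p n μ w u < 0) := by
  refine ⟨(B3 + (B + 3 + k)) + B3 + 1, fun p hp n y hy => ?_⟩
  have hp0 : (0 : ℝ) < p := by exact_mod_cast (by omega : 0 < p)
  have hp2 : (2 : ℝ) ≤ p := by exact_mod_cast hp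
  have hk : 0 < k := NeZero.pos k
  set R : ℝ := (p : ℝ) ^ (B3 + (B + 3 + k)) with hR
  have hR0 : 0 < R := by positivity
  have hρ : ∀ i : ZMod k, 1 ≤ rho p k ^ tn n i ∧ rho p k ^ tn n i ≤ p := fun i =>
    rho_bounds p k hp hk _ (tn_lt n i).le
  have hch : ∀ i : ZMod k, ∃ w : ℤ, |(w : ℝ) * rho p k ^ tn n i - R * y i| ≤ p ∧
      |(w : ℝ)| ≤ |R * y i| + 1 ∧ (0 < R * y i → 0 < w) ∧ (R * y i < 0 → w < 0) := fun i =>
    R1_round (R * y i) (rho p k ^ tn n i) p (hρ i).1 (hρ i).2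
  choose w hw1 hw2 hw3 hw4 using hch
  refine ⟨w, fun i => ?_, fun i => ⟨fun h => hw3 i (mul_pos hR0 h),
    fun h => hw4 i (mul_neg_of_pos_of_neg hR0 h)⟩, fun μ hμ u hu => ?_⟩
  · -- size
    have h1 := hw2 i
    rw [abs_mul, abs_of_pos hR0] at h1
    have h2 : R * |y i| ≤ R * (p : ℝ) ^ B3 := mul_le_mul_of_nonneg_left (hy i).2 hR0.le
    have h3 : (1 : ℝ) ≤ R * (p : ℝ) ^ B3 := by
      rw [hR, ← pow_add]
      exact one_le_pow₀ (by linarith)
    have h4 : |(w i : ℝ)| ≤ (p : ℝ) ^ ((B3 + (B + 3 + k)) + B3 + 1) := by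
      rw [pow_succ, pow_add, ← hR]
      nlinarith
    exact_mod_cast h4
  · -- comparison
    have hact := act_ci p n μ w u
    have hdiff : act (ci p n μ) (fun i => (w i : ℝ) * rho p k ^ tn n i) u
        = R * act (ci p n μ) y u
          + ∑ i, ci p n μ (u - i) * ((w i : ℝ) * rho p k ^ tn n i - R * y i) := by
      unfold act
      rw [Finset.mul_sum, ← Finset.sum_add_distrib]
      apply Finset.sum_congr rfl
      intro i _
      ring
    have herr : |∑ i, ci p n μ (u - i) * ((w i : ℝ) * rho p k ^ tn n i - R * y i)|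
        < (p : ℝ) ^ (B + 3 + k) := by
      calc |∑ i, ci p n μ (u - i) * ((w i : ℝ) * rho p k ^ tn n i - R * y i)|
          ≤ ∑ i, |ci p n μ (u - i) * ((w i : ℝ) * rho p k ^ tn n i - R * y i)| :=
            Finset.abs_sum_le_sum_abs _ _
        _ ≤ ∑ _i : ZMod k, (p : ℝ) ^ (B + 1) * p := by
            apply Finset.sum_le_sum
            intro i _
            rw [abs_mul]
            exact mul_le_mul (ci_bound p n hp B μ hμ (u - i)) (hw1 i) (abs_nonneg _)
              (by positivity)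
        _ = (k : ℝ) * (p : ℝ) ^ (B + 2) := by
            rw [Finset.sum_const, Finset.card_univ, ZMod.card, nsmul_eq_mul, ← pow_succ]
        _ < (p : ℝ) ^ (k + 1) * (p : ℝ) ^ (B + 2) := by
            apply mul_lt_mul_of_pos_right _ (by positivity)
            have h1 : (k : ℝ) < 2 ^ k := by exact_mod_cast Nat.lt_two_pow_self
            calc (k : ℝ) < 2 ^ k := h1
              _ ≤ (p : ℝ) ^ k := pow_le_pow_left₀ (by norm_num) hp2 k
              _ ≤ (p : ℝ) ^ (k + 1) := pow_le_pow_right₀ (by linarith) (by omega)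
        _ = (p : ℝ) ^ (B + 3 + k) := by
            rw [← pow_add]
            congr 1
            omega
    have hbig : (p : ℝ) ^ (B + 3 + k) ≤ R * |act (ci p n μ) y u| := by
      have h1 := mul_le_mul_of_nonneg_left hu hR0.le
      have h2 : R * ((p : ℝ) ^ B3)⁻¹ = (p : ℝ) ^ (B + 3 + k) := by
        rw [hR, pow_add]
        field_simp
      rw [h2] at h1
      exact h1
    have hE := abs_lt.mp herr
    have hfac : 0 < rho p k ^ tn n u := lt_of_lt_of_le one_pos (hρ u).1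
    rw [hdiff] at hact
    constructor
    · intro hpos
      rw [abs_of_pos hpos] at hbig
      have h1 : 0 < (rmul p n μ w u : ℝ) * rho p k ^ tn n u := by
        rw [← hact]
        linarith [hE.1]
      have h2 : 0 < (rmul p n μ w u : ℝ) := by
        by_contra hcon
        push Not at hcon
        exact absurd (mul_nonpos_of_nonpos_of_nonneg hcon hfac.le) (not_le.mpr h1)
      exact_mod_cast h2
    · intro hneg
      rw [abs_of_neg hneg] at hbig
      have h1 : (rmul p n μ w u : ℝ) * rho p k ^ tn n u < 0 := by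
        rw [← hact]
        linarith [hE.2]
      have h2 : (rmul p n μ w u : ℝ) < 0 := by
        by_contra hcon
        push Not at hcon
        exact absurd (mul_nonneg hcon hfac.le) (not_le.mpr h1)
      exact_mod_cast h2

end Pool.Agent.Helper21.FD
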