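import Pool.Agent.Helper21.FD.L2
import Pool.Agent.Helper21.FD.R1

/-!
MP_0aa406_nt, project FD (helper21): directions with entries in `ℤ[ρ]` give integral directions.
-/

set_option autoImplicit false

namespace Pool.Agent.Helper21.FD

open Finset Pool.Agent.Helper21.FC

theorem DVal.mono {p n B B' : ℕ} (hp : 2 ≤ p) (hB : B ≤ B') {k : ℕ} [NeZero k] {μ : ZMod k → ℤ}
    {c c' : ℝ} (hc : c' ≤ c) (h : DVal p n B μ c) : DVal p n B' μ c' := by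
  obtain ⟨w, h1, h2, h3, h4⟩ := h
  refine ⟨w, fun i => (h1 i).trans ?_, h2, h3, hc.trans h4⟩
  exact pow_le_pow_right₀ (by exact_mod_cast (by omega : 1 ≤ p)) hB

theorem AVal.mono {p k B B' : ℕ} [NeZero k] (hp : 2 ≤ p) (hB : B ≤ B') {m : ℕ} [NeZero m]
    {a : ZMod m → ℝ} {c c' : ℝ} (hc : c' ≤ c) (h : AVal p k B a c) : AVal p k B' a c' := by
  obtain ⟨y, h1, h2, h3, h4⟩ := h
  exact ⟨y, fun i => (h1 i).mono hp hB, h2, h3, hc.trans h4⟩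

theorem R2_sg (x : ℝ) (w : ℤ) (hx : x ≠ 0) (h1 : 0 < x → 0 < w) (h2 : x < 0 → w < 0) :
    sg x = Int.sign w ∧ w ≠ 0 := by
  rcases lt_or_gt_of_ne hx with h | h
  · have h3 := h2 h
    refine ⟨?_, ne_of_lt h3⟩
    unfold sg
    rw [if_neg (by linarith), if_pos h, Int.sign_eq_neg_one_of_neg h3]
  · have h3 := h1 h
    refine ⟨?_, ne_of_gt h3⟩
    unfold sg
    rw [if_pos h, Int.sign_eq_one_of_pos h3]

theorem dval_of_aval (k : ℕ) [NeZero k] (B B1 : ℕ) : ∃ B2 : ℕ, ∀ p : ℕ, p.Prime → ∀ (n : ℕ)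
    (μ : ZMod k → ℤ), (∀ t, |μ t| ≤ (p : ℤ) ^ B) → ∀ c : ℝ, AVal p k B1 (ci p n μ) c →
      DVal p n B2 μ c := by
  obtain ⟨C1, hC1⟩ := liouville k B1
  obtain ⟨C2, hC2⟩ := liouville k (B + B1 + k + 1 + k)
  obtain ⟨B2, hB2⟩ := rounding k B (max (max C1 C2) (B1 + k + 1))
  refine ⟨B2, fun p hp n μ hμ c hc => ?_⟩
  obtain ⟨y, h1, h2, h3, h4⟩ := hc
  have hp2 := hp.two_le
  have hp1 : (1 : ℝ) ≤ p := by exact_mod_cast hp.one_le
  have hinv : ∀ {D : ℕ}, D ≤ max (max C1 C2) (B1 + k + 1) →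
      ((p : ℝ) ^ max (max C1 C2) (B1 + k + 1))⁻¹ ≤ ((p : ℝ) ^ D)⁻¹ := by
    intro D hD
    have h5 : (0 : ℝ) < (p : ℝ) ^ D := by positivity
    exact inv_anti₀ h5 (pow_le_pow_right₀ hp1 hD)
  obtain ⟨w, hw1, hw2, hw3⟩ := hB2 p hp2 n y (fun i =>
    ⟨(hinv (by simp)).trans (hC1 p hp _ (h1 i) (h2 i)),
      ((h1 i).abs_le hp2).trans (pow_le_pow_right₀ hp1 (le_max_right _ _))⟩)
  have hact : ∀ u, Alg p k (B + B1 + k + 1 + k) (act (ci p n μ) y u) := fun u =>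
    alg_act hp2 _ _ (fun t => alg_ci n B μ hμ t) h1 u
  have hr : ∀ u, sg (act (ci p n μ) y u) = Int.sign (rmul p n μ w u) ∧ rmul p n μ w u ≠ 0 := by
    intro u
    have h6 := hw3 μ hμ u ((hinv (by simp)).trans (hC2 p hp _ (hact u) (h3 u)))
    exact R2_sg _ _ (h3 u) h6.1 h6.2
  have hy : ∀ i, sg (y i) = Int.sign (w i) ∧ w i ≠ 0 := fun i =>
    R2_sg _ _ (h2 i) (hw2 i).1 (hw2 i).2
  refine ⟨w, hw1, fun i => (hy i).2, fun u => (hr u).2, ?_⟩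
  rw [← Finset.sum_congr rfl (fun i _ => (hy i).1), ← Finset.sum_congr rfl (fun u _ => (hr u).1)]
  exact h4

end Pool.Agent.Helper21.FD
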