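import Pool.Agent.Helper21.FD.G5
import Pool.Agent.Helper21.FD.G6
import Pool.Agent.Helper21.FD.R2

/-!
MP_0aa406_nt, project FD (helper21): the local theorem with loss `k / l`.
-/

set_option autoImplicit false

namespace Pool.Agent.Helper21.FD

open Finset Pool.Agent.Helper21.FC

/-- `m ∣ k` is odd with all prime factors at least `l` and the support of `μ` meets at least two
fibres of `ZMod k → ZMod m` -/
theorem loc_one (k : ℕ) [NeZero k] (B : ℕ) : ∃ B1 : ℕ, ∀ p : ℕ, p.Prime → ∀ (n : ℕ)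
    (μ : ZMod k → ℤ), (∀ t, |μ t| ≤ (p : ℤ) ^ B) → ∀ m : ℕ, m ∣ k → Odd m →
    (∃ c c', μ c ≠ 0 ∧ μ c' ≠ 0 ∧ pr m c ≠ pr m c') →
    ∀ l : ℕ, 1 ≤ l → (∀ q : ℕ, q.Prime → q ∣ m → l ≤ q) →
      DVal p n B1 μ (k - k / l) := by
  have key : ∀ m : ℕ, ∃ B1 : ℕ, m ∣ k → Odd m → ∀ p : ℕ, p.Prime → ∀ a : ZMod k → ℝ,
      (∀ t, Alg p k B (a t)) → (∃ c c', a c ≠ 0 ∧ a c' ≠ 0 ∧ pr m c ≠ pr m c') →
      ∀ l : ℕ, 1 ≤ l → (∀ q : ℕ, q.Prime → q ∣ m → l ≤ q) → AVal p k B1 a (k - k / l) := by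
    intro m
    by_cases hm : m ∣ k ∧ Odd m
    · obtain ⟨hmk, hodd⟩ := hm
      have hm0 : m ≠ 0 := by
        rintro rfl
        exact (Nat.not_odd_zero hodd)
      have : NeZero m := ⟨hm0⟩
      obtain ⟨B1, hB1⟩ := game_thm k (B + k) m hodd
      obtain ⟨B2, hB2⟩ := chain_dom k B m hmk
      refine ⟨max B1 B2, fun _ _ p hp a ha h2 l hl hlq => ?_⟩
      by_cases h3 : Two (qt m a)
      · have h4 := hB1 p hp (qt m a) (fun t => alg_qt hp.two_le a ha t) h3 l hl hlq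
        have h5 := aval_lift hmk a _ h4
        refine h5.mono hp.two_le (le_max_left _ _) (le_of_eq ?_)
        have h6 : (((k / m : ℕ) : ℝ)) * (m : ℝ) = k := by
          exact_mod_cast Nat.div_mul_cancel hmk
        rw [mul_sub, h6, ← mul_div_assoc, h6]
      · exact (hB2 p hp a ha h3 h2 l hl hlq).mono hp.two_le (le_max_right _ _) le_rfl
    · exact ⟨0, fun h1 h2 => absurd ⟨h1, h2⟩ hm⟩
  choose B1 hB1 using key
  obtain ⟨B2, hB2⟩ := dval_of_aval k B ((range (k + 1)).sup B1)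
  refine ⟨B2, fun p hp n μ hμ m hmk hodd h2 l hl hlq => hB2 p hp n μ hμ _ ?_⟩
  obtain ⟨c, c', h4, h5, h6⟩ := h2
  have h7 : m ∈ range (k + 1) := by
    rw [mem_range]
    have h8 := Nat.le_of_dvd (Nat.pos_of_ne_zero (NeZero.ne k)) hmk
    omega
  refine (hB1 m hmk hodd p hp (ci p n μ) (fun t => alg_ci n B μ hμ t)
    ⟨c, c', ?_, ?_, h6⟩ l hl hlq).mono hp.two_le (Finset.le_sup h7) le_rfl
  · exact (ci_ne_zero p n hp.two_le μ c).2 h4
  · exact (ci_ne_zero p n hp.two_le μ c').2 h5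

end Pool.Agent.Helper21.FD
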