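import Pool.Agent.Helper21.FD.G7
import Pool.Agent.Helper21.FD.R2

/-!
MP_0aa406_nt, project FD (helper21): the local theorem for two-power quotients.
-/

set_option autoImplicit false

namespace Pool.Agent.Helper21.FD

open Finset Pool.Agent.Helper21.FC

theorem two_tower (k B b : ℕ) [NeZero k] : ∀ m f : ℕ, ∀ [NeZero m] [NeZero f], f = m * 2 ^ b →
    ∃ B1 : ℕ, ∀ p : ℕ, p.Prime →
    ∀ a : ZMod f → ℝ, (∀ t, Alg p k B (a t)) → Two a → ¬ Two (qt m a) → AVal p k B1 a f := by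
  induction b generalizing B with
  | zero =>
    intro m f _ _ hf
    have h1 : f = m := by rw [hf, pow_zero, mul_one]
    subst h1
    refine ⟨0, fun p _ a _ h2 h3 => ?_⟩
    rw [qt_self] at h3
    exact absurd h2 h3
  | succ b ih =>
    intro m f _ _ hf
    have h0 : m * 2 ^ b ≠ 0 := mul_ne_zero (NeZero.ne m) (by positivity)
    have : NeZero (m * 2 ^ b) := ⟨h0⟩
    have h1 : f = m * 2 ^ b * 2 := by rw [hf, pow_succ, mul_assoc]
    subst h1
    obtain ⟨B1, hB1⟩ := antisym k B (m * 2 ^ b)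
    obtain ⟨B2, hB2⟩ := ih (B + m * 2 ^ b * 2) m (m * 2 ^ b) rfl
    refine ⟨max B1 B2, fun p hp a ha h2 h3 => ?_⟩
    by_cases h4 : Two (qt (m * 2 ^ b) a)
    · have h5 : m * 2 ^ b ∣ m * 2 ^ b * 2 := Dvd.intro _ rfl
      have h6 := hB2 p hp (qt (m * 2 ^ b) a) (fun t => alg_qt hp.two_le a ha t) h4
        (by rw [qt_qt (Dvd.intro _ rfl) h5]; exact h3)
      have h7 := aval_lift h5 a _ h6
      refine h7.mono hp.two_le (le_max_right _ _) (le_of_eq ?_)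
      rw [Nat.mul_div_cancel_left 2 (Nat.pos_of_ne_zero h0)]
      push_cast
      ring
    · exact (hB1 p hp a ha h2 h4).mono hp.two_le (le_max_left _ _) le_rfl

/-- at least two entries, but at most one after summation over the cosets of the subgroup of order
`2 ^ b` -/
theorem loc_two (f : ℕ) [NeZero f] (B : ℕ) : ∃ B1 : ℕ, ∀ p : ℕ, p.Prime → ∀ (n : ℕ)
    (μ : ZMod f → ℤ), (∀ t, |μ t| ≤ (p : ℤ) ^ B) → ∀ b : ℕ, 2 ^ b ∣ f →
    (∃ c c', c ≠ c' ∧ μ c ≠ 0 ∧ μ c' ≠ 0) → ¬ Two (qt (f / 2 ^ b) (ci p n μ)) →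
      DVal p n B1 μ f := by
  have key : ∀ b : ℕ, ∃ B1 : ℕ, 2 ^ b ∣ f → ∀ p : ℕ, p.Prime → ∀ a : ZMod f → ℝ,
      (∀ t, Alg p f B (a t)) → Two a → ¬ Two (qt (f / 2 ^ b) a) → AVal p f B1 a f := by
    intro b
    by_cases hb : 2 ^ b ∣ f
    · have h1 : f / 2 ^ b ≠ 0 := by
        intro h
        have h2 := Nat.div_mul_cancel hb
        rw [h, zero_mul] at h2
        exact NeZero.ne f h2.symm
      have : NeZero (f / 2 ^ b) := ⟨h1⟩
      obtain ⟨B1, hB1⟩ := two_tower f B b (f / 2 ^ b) f (Nat.div_mul_cancel hb).symm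
      exact ⟨B1, fun _ => hB1⟩
    · exact ⟨0, fun h => absurd h hb⟩
  choose B1 hB1 using key
  obtain ⟨B2, hB2⟩ := dval_of_aval f B ((range (f + 1)).sup B1)
  refine ⟨B2, fun p hp n μ hμ b hb h2 h3 => hB2 p hp n μ hμ _ ?_⟩
  obtain ⟨c, c', h4, h5, h6⟩ := h2
  have h7 : b ∈ range (f + 1) := by
    rw [mem_range]
    have h8 := Nat.le_of_dvd (Nat.pos_of_ne_zero (NeZero.ne f)) hb
    have h9 : b < 2 ^ b := Nat.lt_two_pow_self
    omega
  refine (hB1 b hb p hp (ci p n μ) (fun t => alg_ci n B μ hμ t)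
    ⟨c, c', h4, ?_, ?_⟩ h3).mono hp.two_le (Finset.le_sup h7) le_rfl
  · exact (ci_ne_zero p n hp.two_le μ c).2 h5
  · exact (ci_ne_zero p n hp.two_le μ c').2 h6

end Pool.Agent.Helper21.FD
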