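import Pool.Agent.Helper21.FC.A1

/-!
MP_0aa406_nt, project FD (helper21): gains lift from a subfield.
-/

set_option autoImplicit false

namespace Pool.Agent.Helper21.FD

open Finset Pool.Agent.Helper21.FC

theorem NN_dvd (p m g : ℕ) : NN p m ∣ NN p (m * g) := by
  unfold NN
  rw [pow_mul]
  have h := sub_dvd_pow_sub_pow ((p : ℤ) ^ m) 1 g
  rwa [one_pow] at h

theorem K1_sum_mul (m g : ℕ) (f : ℕ → ℝ) (hf : ∀ x, f (x + m) = f x) :
    ∑ x ∈ range (m * g), f x = g * ∑ x ∈ range m, f x := by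
  have hf' : ∀ j x, f (m * j + x) = f x := by
    intro j
    induction j with
    | zero => intro x; rw [mul_zero, zero_add]
    | succ j ih =>
      intro x
      rw [show m * (j + 1) + x = (m * j + x) + m by ring, hf, ih]
  induction g with
  | zero => simp
  | succ g ih =>
    rw [show m * (g + 1) = m * g + m by ring, Finset.sum_range_add, ih]
    rw [Finset.sum_congr rfl (fun x _ => hf' g x)]
    push_cast
    ring

theorem K1_W {p m g : ℕ} (hp : 2 ≤ p) (hm : 1 ≤ m) (hg : 1 ≤ g) (S : ℤ)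
    (hS : NN p (m * g) = NN p m * S) (a : ℤ) : W p (m * g) (a * S) = g * W p m a := by
  have h1 := A1_pos hp hm
  have h2 := A1_pos (p := p) (n := m * g) hp (Nat.mul_pos hm hg)
  have h3 : ((p : ℝ) ^ (m * g) - 1) = ((p : ℝ) ^ m - 1) * (S : ℝ) := by
    have h4 := congrArg (fun z : ℤ => (z : ℝ)) hS
    simp only [NN] at h4
    push_cast at h4
    exact h4
  have hS0 : (S : ℝ) ≠ 0 := by
    intro h0
    rw [h3, h0, mul_zero] at h2
    exact lt_irrefl _ h2
  unfold W
  rw [← K1_sum_mul m g (fun x => Int.fract ((p : ℝ) ^ x * (a : ℝ) / ((p : ℝ) ^ m - 1)))]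
  · refine Finset.sum_congr rfl (fun x _ => ?_)
    rw [h3]
    push_cast
    rw [← mul_assoc, mul_div_mul_right _ _ hS0]
  · intro x
    have h4 : (p : ℝ) ^ (x + m) * (a : ℝ) / ((p : ℝ) ^ m - 1) =
        (p : ℝ) ^ x * (a : ℝ) / ((p : ℝ) ^ m - 1) + (((p : ℤ) ^ x * a : ℤ) : ℝ) := by
      push_cast
      rw [pow_add]
      field_simp
      ring
    change Int.fract _ = Int.fract _
    rw [h4, Int.fract_add_intCast]

/-- repeat the digits -/
theorem gain_lift {p m g : ℕ} (hp : 2 ≤ p) (hm : 1 ≤ m) (hg : 1 ≤ g) (d : ℤ) (c : ℝ)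
    (h : Gain p m d c) : Gain p (m * g) d (g * c) := by
  obtain ⟨a, ha, hc⟩ := h
  obtain ⟨S, hS⟩ := NN_dvd p m g
  have hS0 : S ≠ 0 := by
    rintro rfl
    have h2 := A1_pos (p := p) (n := m * g) hp (Nat.mul_pos hm hg)
    have h4 := congrArg (fun z : ℤ => (z : ℝ)) hS
    simp only [NN] at h4
    push_cast at h4
    rw [mul_zero] at h4
    linarith
  refine ⟨a * S, fun hdvd => ha ?_, ?_⟩
  · rw [hS] at hdvd
    exact Int.dvd_of_mul_dvd_mul_right hS0 hdvd
  · rw [← mul_assoc, K1_W hp hm hg S hS, K1_W hp hm hg S hS, ← mul_sub]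
    exact mul_le_mul_of_nonneg_left hc (by positivity)

end Pool.Agent.Helper21.FD
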