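import Pool.Agent.Helper21.FD.Q2

/-!
MP_0aa406_nt, project FD (helper21): the homomorphism from `R_k` to the integers modulo `p ^ n - 1`.
-/

set_option autoImplicit false

namespace Pool.Agent.Helper21.FD

open Finset Pool.Agent.Helper21.FC

theorem Q3_pow_add (p n b e : ℕ) : NN p n ∣ (p : ℤ) ^ (b + n * e) - (p : ℤ) ^ b := by
  unfold NN
  have h := sub_dvd_pow_sub_pow ((p : ℤ) ^ n) 1 e
  rw [one_pow, ← pow_mul] at h
  have h2 : (p : ℤ) ^ (b + n * e) - (p : ℤ) ^ b = (p : ℤ) ^ b * ((p : ℤ) ^ (n * e) - 1) := by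
    rw [pow_add]
    ring
  rw [h2]
  exact Dvd.dvd.mul_left h _

/-- `p ^ a ≡ p ^ b` for `a ≡ b` modulo `n` -/
theorem pow_congr (p n a b : ℕ) (h : (n : ℤ) ∣ (a : ℤ) - b) :
    NN p n ∣ (p : ℤ) ^ a - (p : ℤ) ^ b := by
  rcases Nat.le_total b a with hab | hab
  · have h1 : n ∣ a - b := by
      rw [← Int.natCast_dvd_natCast, Nat.cast_sub hab]
      exact h
    obtain ⟨e, he⟩ := h1
    have h2 : a = b + n * e := by omega
    rw [h2]
    exact Q3_pow_add p n b e
  · have h1 : n ∣ b - a := by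
      rw [← Int.natCast_dvd_natCast, Nat.cast_sub hab, ← neg_sub, dvd_neg]
      exact h
    obtain ⟨e, he⟩ := h1
    have h2 : b = a + n * e := by omega
    rw [h2, ← dvd_neg, neg_sub]
    exact Q3_pow_add p n a e

theorem ev_zero (p n : ℕ) {k : ℕ} [NeZero k] : ev p n (0 : ZMod k → ℤ) = 0 := by
  simp [ev]

theorem ev_add (p n : ℕ) {k : ℕ} [NeZero k] (μ x : ZMod k → ℤ) :
    ev p n (μ + x) = ev p n μ + ev p n x := by
  simp only [ev, Pi.add_apply]
  rw [← Finset.sum_add_distrib]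
  exact Finset.sum_congr rfl (fun i _ => by ring)

theorem ev_smul (p n : ℕ) {k : ℕ} [NeZero k] (μ : ZMod k → ℤ) (m : ℤ) :
    ev p n (m • μ) = m * ev p n μ := by
  simp only [ev, Pi.smul_apply, smul_eq_mul]
  rw [Finset.mul_sum]
  exact Finset.sum_congr rfl (fun i _ => by ring)

theorem ev_sum (p n : ℕ) {k : ℕ} [NeZero k] {ι : Type} (s : Finset ι) (x : ι → ZMod k → ℤ) :
    ev p n (∑ i ∈ s, x i) = ∑ i ∈ s, ev p n (x i) := by
  classical
  induction s using Finset.induction_on with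
  | empty => rw [Finset.sum_empty, Finset.sum_empty, ev_zero]
  | insert a s ha ih => rw [Finset.sum_insert ha, Finset.sum_insert ha, ev_add, ih]

theorem ev_single (p n : ℕ) {k : ℕ} [NeZero k] (a : ZMod k) (m : ℤ) :
    ev p n (Pi.single a m) = m * (p : ℤ) ^ ps n a := by
  unfold ev
  rw [Finset.sum_eq_single a]
  · rw [Pi.single_eq_same]
  · intro b _ hb
    rw [Pi.single_eq_of_ne hb, zero_mul]
  · intro h
    exact absurd (Finset.mem_univ a) h

theorem ev_rmul (p n : ℕ) {k : ℕ} [NeZero k] (μ x : ZMod k → ℤ) :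
    NN p n ∣ ev p n μ * ev p n x - ev p n (rmul p n μ x) := by
  have h1 : ev p n μ * ev p n x = ∑ i : ZMod k, ∑ u : ZMod k,
      μ (u - i) * x i * ((p : ℤ) ^ ps n (u - i) * (p : ℤ) ^ ps n i) := by
    unfold ev
    rw [Finset.sum_mul_sum, Finset.sum_comm]
    refine Finset.sum_congr rfl (fun i _ => ?_)
    refine (Fintype.sum_equiv (Equiv.subRight i) _ _ (fun u => ?_)).symm
    simp only [Equiv.subRight_apply]
    ring
  have h2 : ev p n (rmul p n μ x) = ∑ i : ZMod k, ∑ u : ZMod k,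
      μ (u - i) * x i * ((p : ℤ) ^ cy n (u - i) i * (p : ℤ) ^ ps n u) := by
    unfold ev rmul
    rw [Finset.sum_comm]
    refine Finset.sum_congr rfl (fun u _ => ?_)
    rw [Finset.sum_mul]
    exact Finset.sum_congr rfl (fun i _ => by ring)
  rw [h1, h2, ← Finset.sum_sub_distrib]
  refine Finset.dvd_sum (fun i _ => ?_)
  rw [← Finset.sum_sub_distrib]
  refine Finset.dvd_sum (fun u _ => ?_)
  rw [← mul_sub]
  refine Dvd.dvd.mul_left ?_ _
  obtain ⟨e, _, he⟩ := ps_add n (u - i) i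
  rw [sub_add_cancel] at he
  rw [← pow_add, ← pow_add, he, add_comm (cy n (u - i) i) (ps n u)]
  exact Q3_pow_add p n _ e

end Pool.Agent.Helper21.FD
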