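import Pool.Agent.Helper21.FC.F2b
import Pool.Agent.Helper21.FD.K1
import Pool.Agent.Helper21.FD.Q3

/-!
MP_0aa406_nt, project FD (helper21): reduction of a sparse relation modulo `p ^ (n / g) - 1`,
`g = gcd k n`, to a polynomial in `P`, `P ^ (k / g) = p`.
-/

set_option autoImplicit false

namespace Pool.Agent.Helper21.FD

open Finset Polynomial Pool.Agent.Helper21.FC

/-- the polynomial `∑ μ_c X ^ (tn n c / g)` -/
noncomputable def qpoly (n g : ℕ) {k : ℕ} [NeZero k] (μ : ZMod k → ℤ) : ℤ[X] :=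
  ∑ c : ZMod k, C (μ c) * X ^ (tn n c / g)

theorem dvd_tn (n g : ℕ) {k : ℕ} [NeZero k] (hgk : g ∣ k) (hgn : g ∣ n) (c : ZMod k) :
    g ∣ tn n c := by
  have h1 := ps_mul n c
  have h2 : g ∣ c.val * n + tn n c := by
    rw [← h1]
    exact Dvd.dvd.mul_right hgk _
  exact (Nat.dvd_add_right (Dvd.dvd.mul_left hgn _)).1 h2

theorem qpoly_degree (n g : ℕ) {k : ℕ} [NeZero k] (μ : ZMod k → ℤ) :
    (qpoly n g μ).natDegree ≤ k := by
  unfold qpoly
  refine Polynomial.natDegree_sum_le_of_forall_le _ _ (fun c _ => ?_)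
  refine (Polynomial.natDegree_C_mul_X_pow_le _ _).trans ?_
  exact (Nat.div_le_self _ _).trans (tn_lt n c).le

theorem qpoly_coeff (p n g B : ℕ) (hp : 2 ≤ p) {k : ℕ} [NeZero k] (μ : ZMod k → ℤ)
    (hμ : ∀ t, |μ t| ≤ (p : ℤ) ^ B) (m : ℕ) : |(qpoly n g μ).coeff m| ≤ (p : ℤ) ^ (B + k) := by
  have h1 : (qpoly n g μ).coeff m = ∑ c : ZMod k, if m = tn n c / g then μ c else 0 := by
    unfold qpoly
    rw [Polynomial.finsetSum_coeff]
    refine Finset.sum_congr rfl (fun c _ => ?_)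
    rw [Polynomial.coeff_C_mul_X_pow]
  have hp0 : (0 : ℤ) < (p : ℤ) ^ B := by positivity
  rw [h1]
  calc |∑ c : ZMod k, if m = tn n c / g then μ c else 0|
      ≤ ∑ c : ZMod k, |if m = tn n c / g then μ c else 0| := Finset.abs_sum_le_sum_abs _ _
    _ ≤ ∑ _c : ZMod k, (p : ℤ) ^ B := by
        refine Finset.sum_le_sum (fun c _ => ?_)
        split_ifs
        · exact hμ c
        · rw [abs_zero]
          exact hp0.le
    _ = (p : ℤ) ^ B * k := by
        rw [Finset.sum_const, Finset.card_univ, ZMod.card, nsmul_eq_mul, mul_comm]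
    _ ≤ (p : ℤ) ^ B * (p : ℤ) ^ k := by
        refine mul_le_mul_of_nonneg_left ?_ hp0.le
        have h2 : k < p ^ k := Nat.lt_pow_self (by omega)
        exact_mod_cast h2.le
    _ = (p : ℤ) ^ (B + k) := (pow_add _ _ _).symm

/-- the value at `P = p ^ κ` -/
theorem qpoly_eval (p n m g κ : ℕ) {k k' : ℕ} [NeZero k] (hg : 0 < g) (hk : k = k' * g)
    (hn : n = m * g) (hκ : (m : ℤ) ∣ (k' : ℤ) * κ - 1) (μ : ZMod k → ℤ) :
    NN p m ∣ ev p n μ - (qpoly n g μ).eval ((p : ℤ) ^ κ) := by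
  have h1 : (qpoly n g μ).eval ((p : ℤ) ^ κ) =
      ∑ c : ZMod k, μ c * (p : ℤ) ^ (κ * (tn n c / g)) := by
    unfold qpoly
    rw [Polynomial.eval_finsetSum]
    refine Finset.sum_congr rfl (fun c _ => ?_)
    rw [Polynomial.eval_mul, Polynomial.eval_C, Polynomial.eval_pow, Polynomial.eval_X, pow_mul]
  rw [h1]
  unfold ev
  rw [← Finset.sum_sub_distrib]
  refine Finset.dvd_sum (fun c _ => ?_)
  rw [← mul_sub]
  refine Dvd.dvd.mul_left (pow_congr p m _ _ ?_) _
  obtain ⟨t, ht⟩ := dvd_tn n g (k := k) ⟨k', by rw [hk, mul_comm]⟩ ⟨m, by rw [hn, mul_comm]⟩ c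
  have h2 : tn n c / g = t := by rw [ht]; exact Nat.mul_div_cancel_left t hg
  rw [h2]
  have h3 : k' * ps n c = c.val * m + t := by
    apply Nat.eq_of_mul_eq_mul_left hg
    have h4 := ps_mul n c
    rw [ht] at h4
    calc g * (k' * ps n c) = (k' * g) * ps n c := by ring
      _ = k * ps n c := by rw [← hk]
      _ = c.val * n + g * t := h4
      _ = c.val * (m * g) + g * t := by rw [← hn]
      _ = g * (c.val * m + t) := by ring
  have h4 : (k' : ℤ) * (ps n c : ℤ) = (c.val : ℤ) * m + t := by exact_mod_cast h3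
  obtain ⟨a, ha⟩ := hκ
  refine ⟨(κ : ℤ) * c.val - a * ps n c, ?_⟩
  push_cast
  linear_combination (κ : ℤ) * h4 - (ps n c : ℤ) * ha

/-- the product -/
theorem qpoly_rmul (p n m g : ℕ) {k k' : ℕ} [NeZero k] (hg : 0 < g) (hk : k = k' * g)
    (hn : n = m * g) (μ x : ZMod k → ℤ) :
    ((X : ℤ[X]) ^ k' - C (p : ℤ)) ∣ qpoly n g μ * qpoly n g x - qpoly n g (rmul p n μ x) := by
  have h1 : qpoly n g μ * qpoly n g x =
      ∑ u : ZMod k, ∑ i : ZMod k, C (μ (u - i) * x i) * X ^ (tn n (u - i) / g + tn n i / g) := by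
    unfold qpoly
    rw [Finset.sum_mul_sum, Finset.sum_comm, Finset.sum_comm (s := (univ : Finset (ZMod k)))
      (t := (univ : Finset (ZMod k))) (f := fun u i => C (μ (u - i) * x i) *
        X ^ (tn n (u - i) / g + tn n i / g))]
    refine Finset.sum_congr rfl (fun i _ => ?_)
    refine (Fintype.sum_equiv (Equiv.subRight i) _ _ (fun u => ?_)).symm
    rw [Equiv.subRight_apply, C_mul, pow_add]
    ring
  have h2 : qpoly n g (rmul p n μ x) =
      ∑ u : ZMod k, ∑ i : ZMod k, C (μ (u - i) * x i) * (C (p : ℤ) ^ cy n (u - i) i *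
        X ^ (tn n u / g)) := by
    unfold qpoly rmul
    refine Finset.sum_congr rfl (fun u _ => ?_)
    rw [map_sum, Finset.sum_mul]
    refine Finset.sum_congr rfl (fun i _ => ?_)
    rw [C_mul, C_pow]
    ring
  rw [h1, h2, ← Finset.sum_sub_distrib]
  refine Finset.dvd_sum (fun u _ => ?_)
  rw [← Finset.sum_sub_distrib]
  refine Finset.dvd_sum (fun i _ => ?_)
  rw [← mul_sub]
  refine Dvd.dvd.mul_left ?_ _
  have hd := fun c : ZMod k =>
    dvd_tn n g (k := k) ⟨k', by rw [hk, mul_comm]⟩ ⟨m, by rw [hn, mul_comm]⟩ c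
  obtain ⟨t1, ht1⟩ := hd (u - i)
  obtain ⟨t2, ht2⟩ := hd i
  obtain ⟨t3, ht3⟩ := hd u
  have e1 : tn n (u - i) / g = t1 := by rw [ht1]; exact Nat.mul_div_cancel_left t1 hg
  have e2 : tn n i / g = t2 := by rw [ht2]; exact Nat.mul_div_cancel_left t2 hg
  have e3 : tn n u / g = t3 := by rw [ht3]; exact Nat.mul_div_cancel_left t3 hg
  rw [e1, e2, e3]
  have h3 : t1 + t2 = t3 + k' * cy n (u - i) i := by
    apply Nat.eq_of_mul_eq_mul_left hg
    have h4 := tn_add n (u - i) i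
    rw [sub_add_cancel, ht1, ht2, ht3] at h4
    calc g * (t1 + t2) = g * t1 + g * t2 := by ring
      _ = g * t3 + k * cy n (u - i) i := h4
      _ = g * t3 + (k' * g) * cy n (u - i) i := by rw [← hk]
      _ = g * (t3 + k' * cy n (u - i) i) := by ring
  rw [h3, pow_add, pow_mul]
  have h5 : (X : ℤ[X]) ^ t3 * (X ^ k') ^ cy n (u - i) i - C (p : ℤ) ^ cy n (u - i) i * X ^ t3 =
      ((X ^ k') ^ cy n (u - i) i - C (p : ℤ) ^ cy n (u - i) i) * X ^ t3 := by ring
  rw [h5]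
  exact Dvd.dvd.mul_right (sub_dvd_pow_sub_pow _ _ _) _

theorem qpoly_single (n g : ℕ) {k : ℕ} [NeZero k] (c : ZMod k) (m : ℤ) :
    qpoly n g (Pi.single c m) = C m * X ^ (tn n c / g) := by
  unfold qpoly
  rw [Finset.sum_eq_single c]
  · rw [Pi.single_eq_same]
  · intro b _ hb
    rw [Pi.single_eq_of_ne hb, C_0, zero_mul]
  · intro h
    exact absurd (Finset.mem_univ c) h

end Pool.Agent.Helper21.FD
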