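import Pool.Agent.Helper21.FD.K2

/-!
MP_0aa406_nt, project FD (helper21): one class, `d` nondegenerate modulo `p ^ (n / gcd k n) - 1`.
-/

set_option autoImplicit false

namespace Pool.Agent.Helper21.FD

open Finset Polynomial Pool.Agent.Helper21.FC

/-- the polynomial identity -/
theorem K3_dvd (p n m g k' α β H : ℕ) {k : ℕ} [NeZero k] (hg : 0 < g) (hk : k = k' * g)
    (hn : n = m * g) (μ μ' : ZMod k → ℤ) (c : ZMod k)
    (h : ∀ u, (p : ℤ) ^ α * rmul p n μ μ' u =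
      (Pi.single c ((H : ℤ) * (p : ℤ) ^ β) : ZMod k → ℤ) u) :
    ((X : ℤ[X]) ^ k' - C (p : ℤ)) ∣
      X ^ (k' * α) * qpoly n g μ * qpoly n g μ' - C (H : ℤ) * X ^ (k' * β + tn n c / g) := by
  set P : ℤ[X] := (X : ℤ[X]) ^ k' - C (p : ℤ) with hP
  have h1 := qpoly_rmul p n m g hg hk hn μ μ'
  have hpow : ∀ e : ℕ, P ∣ (X : ℤ[X]) ^ (k' * e) - C ((p : ℤ) ^ e) := by
    intro e
    rw [pow_mul, C_pow]
    exact sub_dvd_pow_sub_pow _ _ _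
  have h2 : C ((p : ℤ) ^ α) * qpoly n g (rmul p n μ μ') =
      C ((H : ℤ) * (p : ℤ) ^ β) * X ^ (tn n c / g) := by
    rw [← qpoly_single n g c]
    unfold qpoly
    rw [Finset.mul_sum]
    refine Finset.sum_congr rfl (fun u _ => ?_)
    rw [← h u, C_mul]
    ring
  have h3 : X ^ (k' * α) * qpoly n g μ * qpoly n g μ' - C (H : ℤ) * X ^ (k' * β + tn n c / g) =
      (X ^ (k' * α) - C ((p : ℤ) ^ α)) * (qpoly n g μ * qpoly n g μ') +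
      C ((p : ℤ) ^ α) * (qpoly n g μ * qpoly n g μ' - qpoly n g (rmul p n μ μ')) +
      (C ((p : ℤ) ^ α) * qpoly n g (rmul p n μ μ') -
        C ((H : ℤ) * (p : ℤ) ^ β) * X ^ (tn n c / g)) -
      C (H : ℤ) * X ^ (tn n c / g) * (X ^ (k' * β) - C ((p : ℤ) ^ β)) := by
    rw [C_mul, pow_add]
    ring
  rw [h3, h2, sub_self, add_zero]
  exact dvd_sub (dvd_add (Dvd.dvd.mul_right (hpow α) _) (Dvd.dvd.mul_left h1 _))
    (Dvd.dvd.mul_left (hpow β) _)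

theorem domain_case (k : ℕ) [NeZero k] (h h' B : ℕ) (hh : 0 < h) (hh' : 0 < h') :
    ∃ (C : ℝ) (N1 : ℕ), ∀ p : ℕ, p.Prime → ∀ n : ℕ, N1 ≤ n →
    ∀ μ μ' : ZMod k → ℤ, (∀ t, |μ t| ≤ (p : ℤ) ^ B) → (∀ t, |μ' t| ≤ (p : ℤ) ^ B) →
    ∀ (α β : ℕ) (c : ZMod k), α ≤ B → β ≤ B →
    (∀ u, (p : ℤ) ^ α * rmul p n μ μ' u =
      (Pi.single c (((h * h' : ℕ) : ℤ) * (p : ℤ) ^ β) : ZMod k → ℤ) u) →
    ∀ (d d' : ℤ) (r r' : ℕ), NN p n ∣ d * d' - 1 →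
    (∀ j : ℕ, ¬ NN p (n / Nat.gcd k n) ∣ d - (p : ℤ) ^ j) →
    NN p n ∣ h * d - (p : ℤ) ^ r * ev p n μ → NN p n ∣ h' * d' - (p : ℤ) ^ r' * ev p n μ' →
      Gain p n d ((n : ℝ) / 2 - C) := by
  have hkpos : 0 < k := Nat.pos_of_ne_zero (NeZero.ne k)
  have key : ∀ (i : ℕ × ℕ × ℕ), ∃ (C2 : ℝ) (N1 : ℕ), i.1 ≠ 0 → ∀ p : ℕ, p.Prime →
      ∀ n κ : ℕ, N1 ≤ n → 1 ≤ n → Nat.Coprime i.1 n → (n : ℤ) ∣ (i.1 : ℤ) * κ - 1 →
      ∀ M M' : ℤ[X], M.natDegree ≤ k → M'.natDegree ≤ k →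
      (∀ m, |M.coeff m| ≤ (p : ℤ) ^ (B + k)) → (∀ m, |M'.coeff m| ≤ (p : ℤ) ^ (B + k)) →
      ((X : ℤ[X]) ^ i.1 - C (p : ℤ)) ∣ X ^ i.2.1 * M * M' - C ((h * h' : ℕ) : ℤ) * X ^ i.2.2 →
      ∀ (d d' : ℤ) (r r' : ℕ), NN p n ∣ d * d' - 1 → (∀ j : ℕ, ¬ NN p n ∣ d - (p : ℤ) ^ j) →
      NN p n ∣ h * d - (p : ℤ) ^ r * M.eval ((p : ℤ) ^ κ) →
      NN p n ∣ h' * d' - (p : ℤ) ^ r' * M'.eval ((p : ℤ) ^ κ) →
        Gain p n d ((n : ℝ) / 2 - C2) := by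
    rintro ⟨k', t1, t2⟩
    by_cases hk' : k' = 0
    · exact ⟨0, 0, fun h1 => absurd hk' h1⟩
    · have : NeZero k' := ⟨hk'⟩
      obtain ⟨C2, N1, h1⟩ := one_class_raw k' k (B + k) t1 t2 h h' hh hh'
      exact ⟨C2, N1, fun _ => h1⟩
  choose C2 N2 hkey using key
  let S : Finset (ℕ × ℕ × ℕ) := range (k + 1) ×ˢ range (k * B + 1) ×ˢ range (k * B + k + 1)
  refine ⟨k * ∑ i ∈ S, |C2 i|, k * (1 + ∑ i ∈ S, N2 i), fun p hp n hn μ μ' hμ hμ' α β c hα hβ hmul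
    d d' r r' hdd hnd h1 h2 => ?_⟩
  obtain ⟨g, hgdef⟩ : ∃ g : ℕ, g = Nat.gcd k n := ⟨_, rfl⟩
  have hgpos : 0 < g := by rw [hgdef]; exact Nat.gcd_pos_of_pos_left _ hkpos
  obtain ⟨k', hk'⟩ : g ∣ k := by rw [hgdef]; exact Nat.gcd_dvd_left _ _
  obtain ⟨m, hm⟩ : g ∣ n := by rw [hgdef]; exact Nat.gcd_dvd_right _ _
  rw [mul_comm] at hk' hm
  have hgk : g ≤ k := by rw [hgdef]; exact Nat.gcd_le_left _ hkpos
  have hk'0 : k' ≠ 0 := by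
    rintro rfl
    rw [zero_mul] at hk'
    omega
  have hnm : n / Nat.gcd k n = m := by
    rw [← hgdef, hm, Nat.mul_div_cancel _ hgpos]
  have hco : Nat.Coprime k' m := by
    have h3 : Nat.gcd (k' * g) (m * g) = g := by rw [← hk', ← hm, hgdef]
    rw [Nat.gcd_mul_right] at h3
    have h4 : Nat.gcd k' m * g = 1 * g := by rw [h3, one_mul]
    exact Nat.eq_of_mul_eq_mul_right hgpos h4
  -- size of `m`
  have hmN : 1 + ∑ i ∈ S, N2 i ≤ m := by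
    have h3 : k * (1 + ∑ i ∈ S, N2 i) ≤ k * m := by
      refine hn.trans ?_
      rw [hm, mul_comm m g]
      exact Nat.mul_le_mul_right _ hgk
    exact Nat.le_of_mul_le_mul_left h3 hkpos
  have hm1 : 1 ≤ m := by omega
  -- `κ`
  obtain ⟨κ, hκ⟩ : ∃ κ : ℕ, (m : ℤ) ∣ (k' : ℤ) * κ - 1 := by
    obtain ⟨κ, hκ⟩ := Nat.exists_mul_mod_eq_of_coprime 1 hco (by omega : m ≠ 0)
    refine ⟨κ, ?_⟩
    have h3 : ((k' * κ : ℕ) : ℤ) ≡ ((1 : ℕ) : ℤ) [ZMOD m] := by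
      rw [Int.natCast_modEq_iff]
      exact hκ.2
    have h4 := h3.symm.dvd
    push_cast at h4
    exact h4
  have hnn : NN p m ∣ NN p n := by rw [hm]; exact NN_dvd p m g
  have htn : tn n c / g ≤ k := (Nat.div_le_self _ _).trans (tn_lt n c).le
  have hk'k : k' ≤ k := by
    rw [hk']
    exact Nat.le_mul_of_pos_right _ hgpos
  obtain ⟨i, hi⟩ : ∃ i : ℕ × ℕ × ℕ, i = (k', k' * α, k' * β + tn n c / g) := ⟨_, rfl⟩
  have hiS : i ∈ S := by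
    rw [hi, mem_product, mem_product, mem_range, mem_range, mem_range]
    have h3 : k' * α ≤ k * B := Nat.mul_le_mul hk'k hα
    have h4 : k' * β ≤ k * B := Nat.mul_le_mul hk'k hβ
    refine ⟨by simp only; omega, by simp only; omega, by simp only; omega⟩
  have hN2 : N2 i ≤ m := by
    have h3 : N2 i ≤ ∑ i ∈ S, N2 i := Finset.single_le_sum (fun _ _ => Nat.zero_le _) hiS
    omega
  have hC2 : |C2 i| ≤ ∑ i ∈ S, |C2 i| := Finset.single_le_sum (f := fun i => |C2 i|)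
    (fun _ _ => abs_nonneg _) hiS
  have hi1 : i.1 = k' := by rw [hi]
  have hi2 : i.2.1 = k' * α := by rw [hi]
  have hi3 : i.2.2 = k' * β + tn n c / g := by rw [hi]
  have hg1 : Gain p m d ((m : ℝ) / 2 - C2 i) := by
    refine hkey i (by rw [hi1]; exact hk'0) p hp m κ hN2 hm1 (by rw [hi1]; exact hco)
      (by rw [hi1]; exact hκ) (qpoly n g μ) (qpoly n g μ') (qpoly_degree n g μ)
      (qpoly_degree n g μ') (qpoly_coeff p n g B hp.two_le μ hμ)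
      (qpoly_coeff p n g B hp.two_le μ' hμ') ?_ d d' r r' (hnn.trans hdd) ?_ ?_ ?_
    · rw [hi1, hi2, hi3]
      exact K3_dvd p n m g k' α β (h * h') hgpos hk' hm μ μ' c hmul
    · rw [← hnm]
      exact hnd
    · have h3 : (h : ℤ) * d - (p : ℤ) ^ r * (qpoly n g μ).eval ((p : ℤ) ^ κ) =
          (h * d - (p : ℤ) ^ r * ev p n μ) +
            (p : ℤ) ^ r * (ev p n μ - (qpoly n g μ).eval ((p : ℤ) ^ κ)) := by ring
      rw [h3]
      exact dvd_add (hnn.trans h1) (Dvd.dvd.mul_left (qpoly_eval p n m g κ hgpos hk' hm hκ μ) _)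
    · have h3 : (h' : ℤ) * d' - (p : ℤ) ^ r' * (qpoly n g μ').eval ((p : ℤ) ^ κ) =
          (h' * d' - (p : ℤ) ^ r' * ev p n μ') +
            (p : ℤ) ^ r' * (ev p n μ' - (qpoly n g μ').eval ((p : ℤ) ^ κ)) := by ring
      rw [h3]
      exact dvd_add (hnn.trans h2) (Dvd.dvd.mul_left (qpoly_eval p n m g κ hgpos hk' hm hκ μ') _)
  have hg2 := gain_lift hp.two_le hm1 hgpos d _ hg1
  rw [← hm] at hg2
  refine gain_mono ?_ hg2
  have h3 : (g : ℝ) * |C2 i| ≤ k * ∑ i ∈ S, |C2 i| :=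
    mul_le_mul (by exact_mod_cast hgk) hC2 (abs_nonneg _) (by positivity)
  have h4 : (g : ℝ) * C2 i ≤ (g : ℝ) * |C2 i| :=
    mul_le_mul_of_nonneg_left (le_abs_self _) (by positivity)
  have h5 : (n : ℝ) = g * m := by
    rw [hm]
    push_cast
    ring
  rw [h5, mul_sub]
  linarith

end Pool.Agent.Helper21.FD
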