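import Pool.Agent.Helper21.FC.C1
import Pool.Agent.Helper21.FD.G8
import Pool.Agent.Helper21.FD.K1
import Pool.Agent.Helper21.FD.Q3

/-!
MP_0aa406_nt, project FD (helper21): nondegeneracy over the subfield.
-/

set_option autoImplicit false

namespace Pool.Agent.Helper21.FD

open Finset Pool.Agent.Helper21.FC

/-- positions and shifts modulo the quotient -/
private theorem K4_key {n m k k' g : ℕ} [NeZero k] [NeZero k'] (hk : k = k' * g)
    (hn : n = m * g) (c : ZMod k) :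
    (∃ s : ℕ, ps n c = ps m (pr k' c) + s * m) ∧ tn n c = g * tn m (pr k' c) := by
  have h1 := ps_mul n c
  have h2 := ps_mul m (pr k' c)
  have h3 := tn_lt n c
  have h4 := tn_lt m (pr k' c)
  have h5 : (pr k' c).val = c.val % k' := by unfold pr; rw [ZMod.val_natCast]
  have hkpos : 0 < k := Nat.pos_of_ne_zero (NeZero.ne k)
  have hg : 0 < g := by
    rcases Nat.eq_zero_or_pos g with h | h
    · rw [h, mul_zero] at hk; omega
    · exact h
  have h6 : c.val = k' * (c.val / k') + (pr k' c).val := by rw [h5]; exact (Nat.div_add_mod _ _).symm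
  generalize tn n c = a at *
  generalize tn m (pr k' c) = b at *
  generalize ps n c = P at *
  generalize ps m (pr k' c) = Q at *
  generalize (pr k' c).val = T at *
  generalize c.val / k' = s at *
  generalize c.val = C at *
  have e1 : (k : ℤ) * ((P : ℤ) - Q - s * m) = (a : ℤ) - g * b := by
    have h1' : (k : ℤ) * P = C * n + a := by exact_mod_cast h1
    have h2' : (k' : ℤ) * Q = T * m + b := by exact_mod_cast h2
    have h6' : (C : ℤ) = k' * s + T := by exact_mod_cast h6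
    have hk' : (k : ℤ) = k' * g := by exact_mod_cast hk
    have hn' : (n : ℤ) = m * g := by exact_mod_cast hn
    rw [h6', hn'] at h1'
    have : (k : ℤ) * Q = g * (T * m + b) := by rw [hk', ← h2']; ring
    have h7 : (k : ℤ) * (s * m) = k' * s * (m * g) := by rw [hk']; ring
    linear_combination h1' - this - h7
  have hgb : g * b < k := by
    rw [hk, mul_comm k' g]
    exact Nat.mul_lt_mul_of_pos_left h4 hg
  have e2 : (a : ℤ) - g * b = 0 := by
    refine Int.eq_zero_of_abs_lt_dvd (Dvd.intro _ e1) ?_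
    have h3' : (a : ℤ) < k := by exact_mod_cast h3
    have h4' : (g : ℤ) * b < k := by exact_mod_cast hgb
    have h0 : (0 : ℤ) ≤ a := Int.natCast_nonneg a
    have h0' : (0 : ℤ) ≤ (g : ℤ) * b := by positivity
    rw [abs_lt]
    constructor <;> linarith
  refine ⟨⟨s, ?_⟩, by exact_mod_cast (sub_eq_zero.1 e2)⟩
  rw [e2] at e1
  have e3 := (mul_eq_zero.1 e1).resolve_left (by exact_mod_cast hkpos.ne')
  have e4 : (P : ℤ) = Q + s * m := by linarith
  exact_mod_cast e4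

/-- sums over the fibres, integral version -/
private def K4_mb (k' : ℕ) {k : ℕ} [NeZero k] (μ : ZMod k → ℤ) (t : ZMod k') : ℤ :=
  ∑ c ∈ univ.filter (fun c : ZMod k => pr k' c = t), μ c

private theorem K4_qt {n m k k' g : ℕ} [NeZero k] [NeZero k'] (hk : k = k' * g)
    (hn : n = m * g) (p : ℕ) (μ : ZMod k → ℤ) (t : ZMod k') (h : qt k' (ci p n μ) t ≠ 0) :
    K4_mb k' μ t ≠ 0 := by
  intro h0
  apply h
  have : qt k' (ci p n μ) t = (K4_mb k' μ t : ℝ) * rho p k ^ (g * tn m t) := by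
    unfold qt K4_mb ci
    rw [Int.cast_sum, Finset.sum_mul]
    refine Finset.sum_congr rfl (fun c hc => ?_)
    rw [(K4_key hk hn c).2, (mem_filter.1 hc).2]
  rw [this, h0, Int.cast_zero, zero_mul]

private theorem K4_ev {n m k k' g : ℕ} [NeZero k] [NeZero k'] (hk : k = k' * g)
    (hn : n = m * g) (p : ℕ) (μ : ZMod k → ℤ) :
    NN p m ∣ ev p n μ - ∑ t : ZMod k', K4_mb k' μ t * (p : ℤ) ^ ps m t := by
  have h1 : ∑ t : ZMod k', K4_mb k' μ t * (p : ℤ) ^ ps m t =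
      ∑ c : ZMod k, μ c * (p : ℤ) ^ ps m (pr k' c) := by
    rw [← Finset.sum_fiberwise_of_maps_to (g := fun c : ZMod k => pr k' c)
      (fun c _ => mem_univ (pr k' c)) (fun c => μ c * (p : ℤ) ^ ps m (pr k' c))]
    refine Finset.sum_congr rfl (fun t _ => ?_)
    unfold K4_mb
    rw [Finset.sum_mul]
    refine Finset.sum_congr rfl (fun c hc => ?_)
    rw [(mem_filter.1 hc).2]
  rw [h1]
  unfold ev
  rw [← Finset.sum_sub_distrib]
  refine Finset.dvd_sum (fun c _ => ?_)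
  rw [← mul_sub]
  refine Dvd.dvd.mul_left (pow_congr p m _ _ ?_) _
  obtain ⟨s, hs⟩ := (K4_key hk hn c).1
  refine ⟨s, ?_⟩
  rw [hs]
  push_cast
  ring

private theorem K4_sum_le {k k' : ℕ} [NeZero k] [NeZero k'] (μ : ZMod k → ℤ) (M : ℤ)
    (hμ : ∀ t, |μ t| ≤ M) : ∑ t : ZMod k', |K4_mb k' μ t| ≤ k * M := by
  calc ∑ t : ZMod k', |K4_mb k' μ t|
      ≤ ∑ t : ZMod k', ∑ c ∈ univ.filter (fun c : ZMod k => pr k' c = t), |μ c| :=
        Finset.sum_le_sum (fun t _ => Finset.abs_sum_le_sum_abs _ _)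
    _ = ∑ c : ZMod k, |μ c| :=
        Finset.sum_fiberwise_of_maps_to (g := fun c : ZMod k => pr k' c)
          (fun c _ => mem_univ (pr k' c)) (fun c => |μ c|)
    _ ≤ ∑ _c : ZMod k, M := Finset.sum_le_sum (fun c _ => hμ c)
    _ = k * M := by rw [Finset.sum_const, Finset.card_univ, ZMod.card, nsmul_eq_mul]

/-- distinct positions are far apart modulo `m` -/
private theorem K4_far {m k' D : ℕ} [NeZero k'] (hm : k' * (2 * D + 1) ≤ m) (t t' : ZMod k')
    (ht : t ≠ t') (z : ℤ) : (2 * D : ℤ) ≤ |(ps m t : ℤ) - ps m t' + m * z| := by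
  have h1 := ps_mul m t
  have h2 := ps_mul m t'
  have h3 := tn_lt m t
  have h4 := tn_lt m t'
  have h5 : t.val < k' := ZMod.val_lt t
  have h6 : t'.val < k' := ZMod.val_lt t'
  have h7 : t.val ≠ t'.val := fun h => ht (ZMod.val_injective k' h)
  generalize tn m t = a at *
  generalize tn m t' = b at *
  generalize ps m t = P at *
  generalize ps m t' = Q at *
  generalize t.val = T at *
  generalize t'.val = T' at *
  have hk : 0 < k' := Nat.pos_of_ne_zero (NeZero.ne k')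
  have e1 : (k' : ℤ) * ((P : ℤ) - Q + m * z) = ((T : ℤ) - T' + k' * z) * m + (a - b) := by
    have h1' : (k' : ℤ) * P = T * m + a := by exact_mod_cast h1
    have h2' : (k' : ℤ) * Q = T' * m + b := by exact_mod_cast h2
    linear_combination h1' - h2'
  have hne : (T : ℤ) - T' + k' * z ≠ 0 := by
    intro h0
    have h8 : (T : ℤ) - T' = 0 := by
      refine Int.eq_zero_of_abs_lt_dvd (m := (k' : ℤ)) ⟨-z, by linarith⟩ ?_
      rw [abs_lt]
      constructor <;> omega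
    omega
  have e2 : (m : ℤ) ≤ |((T : ℤ) - T' + k' * z) * m| := by
    rw [abs_mul, abs_of_nonneg (Int.natCast_nonneg m)]
    exact le_mul_of_one_le_left (Int.natCast_nonneg m) (Int.one_le_abs hne)
  have e3 : |(a : ℤ) - b| ≤ k' := by
    rw [abs_le]
    constructor <;> omega
  have e4 : (m : ℤ) - k' ≤ (k' : ℤ) * |(P : ℤ) - Q + m * z| := by
    have : (k' : ℤ) * |(P : ℤ) - Q + m * z| = |((T : ℤ) - T' + k' * z) * m + (a - b)| := by
      rw [← e1, abs_mul, abs_of_nonneg (Int.natCast_nonneg k')]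
    rw [this]
    have h9 := abs_sub_abs_le_abs_add (((T : ℤ) - T' + k' * z) * m) ((a : ℤ) - b)
    linarith
  have hm' : (k' : ℤ) * (2 * D + 1) ≤ m := by exact_mod_cast hm
  have e5 : (k' : ℤ) * (2 * D) ≤ (k' : ℤ) * |(P : ℤ) - Q + m * z| := by linarith
  exact le_of_mul_le_mul_left e5 (by exact_mod_cast hk)

/-- from all translates to residues -/
private theorem K4_red {m D : ℕ} (hm : 0 < m) (x y : ℕ)
    (h : ∀ z : ℤ, (D : ℤ) ≤ |(x : ℤ) - y + m * z|) :
    (D : ℤ) ≤ |((x % m : ℕ) : ℤ) - ((y % m : ℕ) : ℤ)| ∧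
      |((x % m : ℕ) : ℤ) - ((y % m : ℕ) : ℤ)| ≤ (m : ℤ) - D := by
  have hx : (x : ℤ) = ((x % m : ℕ) : ℤ) + m * ((x / m : ℕ) : ℤ) := by
    exact_mod_cast (Nat.mod_add_div x m).symm
  have hy : (y : ℤ) = ((y % m : ℕ) : ℤ) + m * ((y / m : ℕ) : ℤ) := by
    exact_mod_cast (Nat.mod_add_div y m).symm
  have hxl : x % m < m := Nat.mod_lt _ hm
  have hyl : y % m < m := Nat.mod_lt _ hm
  have key : ∀ z : ℤ, (D : ℤ) ≤ |((x % m : ℕ) : ℤ) - ((y % m : ℕ) : ℤ) + m * z| := by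
    intro z
    have := h (z - ((x / m : ℕ) : ℤ) + ((y / m : ℕ) : ℤ))
    have e : (x : ℤ) - y + m * (z - ((x / m : ℕ) : ℤ) + ((y / m : ℕ) : ℤ)) =
        ((x % m : ℕ) : ℤ) - ((y % m : ℕ) : ℤ) + m * z := by
      linear_combination hx - hy
    rwa [e] at this
  generalize x % m = X at *
  generalize y % m = Y at *
  have k0 := key 0
  have k1 := key 1
  have k2 := key (-1)
  rw [mul_zero, add_zero] at k0
  refine ⟨k0, ?_⟩
  rcases le_total ((Y : ℤ)) X with hle | hle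
  · rw [abs_of_nonneg (by linarith)]
    rw [abs_of_neg (by omega)] at k2
    linarith
  · rw [abs_of_nonpos (by linarith)]
    rw [abs_of_pos (by omega)] at k1
    linarith

private theorem K4_mod (p m a : ℕ) : NN p m ∣ (p : ℤ) ^ a - (p : ℤ) ^ (a % m) := by
  refine pow_congr p m _ _ ⟨((a / m : ℕ) : ℤ), ?_⟩
  have hx : (a : ℤ) = ((a % m : ℕ) : ℤ) + m * ((a / m : ℕ) : ℤ) := by
    exact_mod_cast (Nat.mod_add_div a m).symm
  linarith

/-- if the sums of `μ` over the cosets of the subgroup of order `g` have at least two nonzero values,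
`d` is nondegenerate modulo `p ^ (n / g) - 1` -/
theorem nondegenerate (k : ℕ) [NeZero k] (h B : ℕ) (hh : 0 < h) : ∃ N1 : ℕ, ∀ p : ℕ, p.Prime →
    ∀ n : ℕ, N1 ≤ n → ∀ g : ℕ, g ∣ k → g ∣ n → ∀ μ : ZMod k → ℤ, (∀ t, |μ t| ≤ (p : ℤ) ^ B) →
    Two (qt (k / g) (ci p n μ)) → ∀ (d : ℤ) (r : ℕ), NN p n ∣ h * d - (p : ℤ) ^ r * ev p n μ →
      ∀ j : ℕ, ¬ NN p (n / g) ∣ d - (p : ℤ) ^ j := by
  classical
  obtain ⟨D, hD⟩ : ∃ D : ℕ, D = B + h + k + 2 := ⟨_, rfl⟩
  refine ⟨k * (2 * D + 1), ?_⟩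
  intro p hp n hn g hgk hgn μ hμ htwo d r hd j hj
  have hkpos : 0 < k := Nat.pos_of_ne_zero (NeZero.ne k)
  have hgpos : 0 < g := Nat.pos_of_dvd_of_pos hgk hkpos
  obtain ⟨k', hk'⟩ : ∃ k' : ℕ, k' = k / g := ⟨_, rfl⟩
  obtain ⟨m, hm⟩ : ∃ m : ℕ, m = n / g := ⟨_, rfl⟩
  rw [← hk'] at htwo
  rw [← hm] at hj
  have hk : k = k' * g := by rw [hk']; exact (Nat.div_mul_cancel hgk).symm
  have hn' : n = m * g := by rw [hm]; exact (Nat.div_mul_cancel hgn).symm
  have hk'pos : 0 < k' := by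
    rcases Nat.eq_zero_or_pos k' with h0 | h0
    · rw [h0, zero_mul] at hk; omega
    · exact h0
  have : NeZero k' := ⟨hk'pos.ne'⟩
  have hmk : k' * (2 * D + 1) ≤ m := by
    have h1 : k' * (2 * D + 1) * g ≤ m * g := by
      calc k' * (2 * D + 1) * g = k * (2 * D + 1) := by rw [hk]; ring
        _ ≤ n := hn
        _ = m * g := hn'
    exact Nat.le_of_mul_le_mul_right h1 hgpos
  have hDm : 2 * D + 1 ≤ m := le_trans (Nat.le_mul_of_pos_left _ hk'pos) hmk
  have hmpos : 0 < m := by omega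
  have hp2 : 2 ≤ p := hp.two_le
  obtain ⟨t1, t2, ht, h1, h2⟩ := htwo
  have g1 := K4_qt hk hn' p μ t1 h1
  have g2 := K4_qt hk hn' p μ t2 h2
  -- choose the far one
  obtain ⟨t0, ht0, hfar0⟩ : ∃ t0 : ZMod k', K4_mb k' μ t0 ≠ 0 ∧
      ∀ z : ℤ, (D : ℤ) ≤ |((j : ℕ) : ℤ) - ((r + ps m t0 : ℕ) : ℤ) + m * z| := by
    by_contra hcon
    push Not at hcon
    obtain ⟨z1, hz1⟩ := hcon t1 g1
    obtain ⟨z2, hz2⟩ := hcon t2 g2
    have hf := K4_far hmk t1 t2 ht (z2 - z1)
    have e : (ps m t1 : ℤ) - ps m t2 + m * (z2 - z1) =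
        (((j : ℕ) : ℤ) - ((r + ps m t2 : ℕ) : ℤ) + m * z2) -
          (((j : ℕ) : ℤ) - ((r + ps m t1 : ℕ) : ℤ) + m * z1) := by
      push_cast
      ring
    rw [e] at hf
    have := abs_sub (((j : ℕ) : ℤ) - ((r + ps m t2 : ℕ) : ℤ) + m * z2)
      (((j : ℕ) : ℤ) - ((r + ps m t1 : ℕ) : ℤ) + m * z1)
    linarith
  -- the isolated term
  obtain ⟨e, he⟩ : ∃ e : Option (ZMod k') → ℕ, ∀ i, e i =
      i.elim (j % m) (fun t => (r + ps m t) % m) := ⟨_, fun _ => rfl⟩
  obtain ⟨b, hb⟩ : ∃ b : Option (ZMod k') → ℤ, ∀ i, b i =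
      i.elim (-(h : ℤ)) (fun t => K4_mb k' μ t) := ⟨_, fun _ => rfl⟩
  have hbj := isolated (p := p) (n := m) (D := D) hp2 (by omega) (by omega) e
    (fun i => by
      rw [he]
      cases i with
      | none => exact Nat.mod_lt _ hmpos
      | some t => exact Nat.mod_lt _ hmpos) b ?_ (some t0) ?_ ?_
  · rw [hb] at hbj
    exact ht0 hbj
  · rw [Fintype.sum_option]
    simp only [hb, Option.elim]
    have hs := K4_sum_le (k' := k') μ ((p : ℤ) ^ B) hμ
    rw [abs_neg, abs_of_nonneg (Int.natCast_nonneg h)]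
    have hp1 : (1 : ℤ) ≤ (p : ℤ) ^ B := one_le_pow₀ (by exact_mod_cast (by omega : 1 ≤ p))
    have h3 : ((h : ℤ) + k) < (p : ℤ) ^ (h + k) := by
      exact_mod_cast (Nat.lt_two_pow_self (n := h + k)).trans_le (Nat.pow_le_pow_left hp2 _)
    have hh0 : (0 : ℤ) ≤ (h : ℤ) := Int.natCast_nonneg h
    calc (h : ℤ) + ∑ t : ZMod k', |K4_mb k' μ t| ≤ h + k * (p : ℤ) ^ B := by linarith
      _ ≤ h * (p : ℤ) ^ B + k * (p : ℤ) ^ B := by nlinarith
      _ = ((h : ℤ) + k) * (p : ℤ) ^ B := by ring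
      _ < (p : ℤ) ^ (h + k) * (p : ℤ) ^ B :=
          mul_lt_mul_of_pos_right h3 (by linarith)
      _ = (p : ℤ) ^ (h + k + B) := (pow_add _ _ _).symm
      _ ≤ (p : ℤ) ^ (D - 1) :=
          pow_le_pow_right₀ (by exact_mod_cast (by omega : 1 ≤ p)) (by omega)
  · intro i hi
    rw [he, he]
    cases i with
    | none =>
      simp only [Option.elim]
      exact K4_red hmpos _ _ hfar0
    | some t =>
      simp only [Option.elim]
      have htt : t ≠ t0 := fun h0 => hi (by rw [h0])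
      refine K4_red hmpos _ _ (fun z => ?_)
      have hf := K4_far hmk t t0 htt z
      have e' : ((r + ps m t : ℕ) : ℤ) - ((r + ps m t0 : ℕ) : ℤ) + m * z =
          (ps m t : ℤ) - ps m t0 + m * z := by
        push_cast
        ring
      rw [e']
      have : (0 : ℤ) ≤ D := Int.natCast_nonneg D
      linarith
  · rw [Fintype.sum_option]
    simp only [he, hb, Option.elim]
    -- all congruences modulo `NN p m`
    have c1 : NN p m ∣ (p : ℤ) ^ j - (p : ℤ) ^ (j % m) := K4_mod p m j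
    have c2 : NN p m ∣ ∑ t : ZMod k', (K4_mb k' μ t * (p : ℤ) ^ (r + ps m t) -
        K4_mb k' μ t * (p : ℤ) ^ ((r + ps m t) % m)) := by
      refine Finset.dvd_sum (fun t _ => ?_)
      rw [← mul_sub]
      exact Dvd.dvd.mul_left (K4_mod p m _) _
    have c3 : NN p m ∣ h * d - (p : ℤ) ^ r * ev p n μ := by
      refine dvd_trans ?_ hd
      rw [hn']
      exact NN_dvd p m g
    have c4 := K4_ev hk hn' p μ
    have e5 : ∑ t : ZMod k', K4_mb k' μ t * (p : ℤ) ^ (r + ps m t) =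
        (p : ℤ) ^ r * ∑ t : ZMod k', K4_mb k' μ t * (p : ℤ) ^ ps m t := by
      rw [Finset.mul_sum]
      refine Finset.sum_congr rfl (fun t _ => ?_)
      rw [pow_add]
      ring
    rw [Finset.sum_sub_distrib, e5] at c2
    have c6 := Dvd.dvd.mul_left c1 (h : ℤ)
    have c7 := Dvd.dvd.mul_left hj (h : ℤ)
    have c8 := Dvd.dvd.mul_left c4 ((p : ℤ) ^ r)
    have c9 := (dvd_add (dvd_sub (dvd_sub c6 c2) c8) (dvd_sub c7 c3))
    have e6 : -(h : ℤ) * (p : ℤ) ^ (j % m) +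
        ∑ t : ZMod k', K4_mb k' μ t * (p : ℤ) ^ ((r + ps m t) % m) =
        (h : ℤ) * ((p : ℤ) ^ j - (p : ℤ) ^ (j % m)) -
          ((p : ℤ) ^ r * ∑ t : ZMod k', K4_mb k' μ t * (p : ℤ) ^ ps m t -
            ∑ t : ZMod k', K4_mb k' μ t * (p : ℤ) ^ ((r + ps m t) % m)) -
          (p : ℤ) ^ r * (ev p n μ - ∑ t : ZMod k', K4_mb k' μ t * (p : ℤ) ^ ps m t) +
        ((h : ℤ) * (d - (p : ℤ) ^ j) - (h * d - (p : ℤ) ^ r * ev p n μ)) := by
      ring
    rw [e6]
    exact c9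

end Pool.Agent.Helper21.FD
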