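import Pool.Agent.Helper21.FD.Q2

/-!
MP_0aa406_nt, project FD (helper21): the real place of `R_k` and the real circulant.
-/

set_option autoImplicit false

namespace Pool.Agent.Helper21.FD

open Finset Pool.Agent.Helper21.FC

theorem rho_pow (p k : ℕ) (hk : 0 < k) : rho p k ^ k = p := by
  unfold rho
  rw [← Real.rpow_natCast, ← Real.rpow_mul (Nat.cast_nonneg p), one_div,
    inv_mul_cancel₀ (Nat.cast_ne_zero.2 hk.ne'), Real.rpow_one]

private theorem Q4_one_le (p k : ℕ) (hp : 1 ≤ p) : 1 ≤ rho p k := by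
  unfold rho
  exact Real.one_le_rpow (by exact_mod_cast hp) (by positivity)

private theorem Q4_pos (p k : ℕ) (hp : 1 ≤ p) : 0 < rho p k :=
  lt_of_lt_of_le one_pos (Q4_one_le p k hp)

theorem rho_bounds (p k : ℕ) (hp : 2 ≤ p) (hk : 0 < k) (j : ℕ) (hj : j ≤ k) :
    1 ≤ rho p k ^ j ∧ rho p k ^ j ≤ p := by
  have h1 := Q4_one_le p k (by omega)
  refine ⟨one_le_pow₀ h1, ?_⟩
  calc rho p k ^ j ≤ rho p k ^ k := pow_le_pow_right₀ h1 hj
    _ = p := rho_pow p k hk

theorem Sr_add (p n : ℕ) {k : ℕ} [NeZero k] (μ x : ZMod k → ℤ) :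
    Sr p n (μ + x) = Sr p n μ + Sr p n x := by
  unfold Sr
  rw [← Finset.sum_add_distrib]
  refine Finset.sum_congr rfl fun c _ => ?_
  rw [Pi.add_apply]
  push_cast
  ring

theorem Sr_smul (p n : ℕ) {k : ℕ} [NeZero k] (μ : ZMod k → ℤ) (m : ℤ) :
    Sr p n (m • μ) = m * Sr p n μ := by
  unfold Sr
  rw [Finset.mul_sum]
  refine Finset.sum_congr rfl fun c _ => ?_
  rw [Pi.smul_apply, smul_eq_mul]
  push_cast
  ring

theorem Sr_sum (p n : ℕ) {k : ℕ} [NeZero k] {ι : Type} (s : Finset ι) (x : ι → ZMod k → ℤ) :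
    Sr p n (∑ i ∈ s, x i) = ∑ i ∈ s, Sr p n (x i) := by
  classical
  induction s using Finset.induction_on with
  | empty => simp [Sr]
  | insert a s ha ih => rw [Finset.sum_insert ha, Sr_add, ih, Finset.sum_insert ha]

theorem Sr_single (p n : ℕ) {k : ℕ} [NeZero k] (a : ZMod k) (m : ℤ) :
    Sr p n (Pi.single a m) = m * rho p k ^ tn n a := by
  unfold Sr
  rw [Finset.sum_eq_single a]
  · rw [Pi.single_eq_same]
  · intro b _ hb
    rw [Pi.single_eq_of_ne hb]
    simp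
  · intro h
    exact absurd (Finset.mem_univ a) h

private theorem Q4_rho_add (p n : ℕ) {k : ℕ} [NeZero k] (a b : ZMod k) :
    rho p k ^ tn n a * rho p k ^ tn n b = rho p k ^ tn n (a + b) * (p : ℝ) ^ cy n a b := by
  rw [← pow_add, tn_add, pow_add, pow_mul, rho_pow p k (Nat.pos_of_ne_zero (NeZero.ne k))]

/-- the real circulant acts like multiplication, after scaling the coordinates -/
theorem act_ci (p n : ℕ) {k : ℕ} [NeZero k] (μ w : ZMod k → ℤ) (u : ZMod k) :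
    act (ci p n μ) (fun i => (w i : ℝ) * rho p k ^ tn n i) u =
      (rmul p n μ w u : ℝ) * rho p k ^ tn n u := by
  unfold act ci rmul
  push_cast
  rw [Finset.sum_mul]
  refine Finset.sum_congr rfl fun i _ => ?_
  have h := Q4_rho_add p n (u - i) i
  rw [sub_add_cancel] at h
  calc (μ (u - i) : ℝ) * rho p k ^ tn n (u - i) * ((w i : ℝ) * rho p k ^ tn n i)
      = (μ (u - i) : ℝ) * w i * (rho p k ^ tn n (u - i) * rho p k ^ tn n i) := by ring
    _ = (μ (u - i) : ℝ) * w i * (p : ℝ) ^ cy n (u - i) i * rho p k ^ tn n u := by rw [h]; ring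

theorem sum_ci (p n : ℕ) {k : ℕ} [NeZero k] (μ : ZMod k → ℤ) : ∑ t, ci p n μ t = Sr p n μ := rfl

theorem act_const {k : ℕ} [NeZero k] (a : ZMod k → ℝ) (x : ℝ) (u : ZMod k) :
    act a (fun _ => x) u = (∑ t, a t) * x := by
  unfold act
  rw [← Finset.sum_mul]
  congr 1
  exact (Equiv.subLeft u).sum_comp a

theorem Sr_rmul (p n : ℕ) {k : ℕ} [NeZero k] (μ x : ZMod k → ℤ) :
    Sr p n (rmul p n μ x) = Sr p n μ * Sr p n x := by
  have h1 : Sr p n (rmul p n μ x) =
      ∑ u : ZMod k, ∑ i : ZMod k, ci p n μ (u - i) * ((x i : ℝ) * rho p k ^ tn n i) := by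
    unfold Sr
    refine Finset.sum_congr rfl fun u _ => ?_
    rw [← act_ci]
    rfl
  rw [h1, Finset.sum_comm]
  have h2 : ∀ i : ZMod k, ∑ u : ZMod k, ci p n μ (u - i) * ((x i : ℝ) * rho p k ^ tn n i) =
      Sr p n μ * ((x i : ℝ) * rho p k ^ tn n i) := by
    intro i
    rw [← Finset.sum_mul, ← sum_ci]
    congr 1
    exact (Equiv.subRight i).sum_comp (ci p n μ)
  simp only [h2]
  rw [← Finset.mul_sum]
  rfl

theorem act_add {k : ℕ} [NeZero k] (a y z : ZMod k → ℝ) (u : ZMod k) :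
    act a (fun i => y i + z i) u = act a y u + act a z u := by
  unfold act
  rw [← Finset.sum_add_distrib]
  exact Finset.sum_congr rfl fun i _ => mul_add _ _ _

theorem act_smul {k : ℕ} [NeZero k] (a y : ZMod k → ℝ) (x : ℝ) (u : ZMod k) :
    act a (fun i => x * y i) u = x * act a y u := by
  unfold act
  rw [Finset.mul_sum]
  exact Finset.sum_congr rfl fun i _ => mul_left_comm _ _ _

theorem ci_bound (p n : ℕ) (hp : 2 ≤ p) {k : ℕ} [NeZero k] (B : ℕ) (μ : ZMod k → ℤ)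
    (hμ : ∀ t, |μ t| ≤ (p : ℤ) ^ B) (t : ZMod k) : |ci p n μ t| ≤ (p : ℝ) ^ (B + 1) := by
  have hk : 0 < k := Nat.pos_of_ne_zero (NeZero.ne k)
  have h1 := rho_bounds p k hp hk (tn n t) (tn_lt n t).le
  have h2 : |(μ t : ℝ)| ≤ (p : ℝ) ^ B := by
    have := hμ t
    exact_mod_cast this
  unfold ci
  rw [abs_mul, abs_of_nonneg (a := rho p k ^ tn n t) (by linarith [h1.1]), pow_succ]
  exact mul_le_mul h2 h1.2 (by linarith [h1.1]) (by positivity)

theorem ci_ne_zero (p n : ℕ) (hp : 2 ≤ p) {k : ℕ} [NeZero k] (μ : ZMod k → ℤ) (t : ZMod k) :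
    ci p n μ t ≠ 0 ↔ μ t ≠ 0 := by
  have h1 : rho p k ^ tn n t ≠ 0 := pow_ne_zero _ (Q4_pos p k (by omega)).ne'
  unfold ci
  constructor
  · intro h h2
    apply h
    rw [h2]
    simp
  · intro h
    exact mul_ne_zero (by exact_mod_cast h) h1

end Pool.Agent.Helper21.FD
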