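import Pool.Agent.Helper21.FD.Q3
import Pool.Agent.Helper21.FD.Q4

/-!
MP_0aa406_nt, project FD (helper21): base change from `R_k` to `R_(kq)`.
-/

set_option autoImplicit false

namespace Pool.Agent.Helper21.FD

open Finset Pool.Agent.Helper21.FC

/-- the point `q c` -/
def mulq (q : ℕ) {k : ℕ} (c : ZMod k) : ZMod (k * q) := ((q * c.val : ℕ) : ZMod (k * q))

private theorem Q5_kpos (k : ℕ) [NeZero k] : 0 < k := Nat.pos_of_ne_zero (NeZero.ne k)

private theorem Q5_qpos (k q : ℕ) [NeZero (k * q)] : 0 < q :=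
  Nat.pos_of_ne_zero (fun h => NeZero.ne (k * q) (by rw [h, Nat.mul_zero]))

theorem mulq_val (q : ℕ) {k : ℕ} [NeZero k] [NeZero (k * q)] (c : ZMod k) :
    (mulq q c).val = q * c.val := by
  unfold mulq
  rw [ZMod.val_natCast, Nat.mod_eq_of_lt]
  have h := ZMod.val_lt c
  calc q * c.val < q * k := Nat.mul_lt_mul_of_pos_left h (Q5_qpos k q)
    _ = k * q := Nat.mul_comm _ _

private theorem Q5_inj (q : ℕ) {k : ℕ} [NeZero k] [NeZero (k * q)] {a b : ZMod k}
    (h : mulq q a = mulq q b) : a = b := by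
  have h1 := congrArg ZMod.val h
  rw [mulq_val, mulq_val] at h1
  exact ZMod.val_injective k (Nat.eq_of_mul_eq_mul_left (Q5_qpos k q) h1)

/-- the points divisible by `q` are the points `mulq q c` -/
private theorem Q5_of_dvd (q : ℕ) {k : ℕ} [NeZero k] [NeZero (k * q)] (c : ZMod (k * q))
    (h : q ∣ c.val) : mulq q ((c.val / q : ℕ) : ZMod k) = c := by
  have hq := Q5_qpos k q
  apply ZMod.val_injective
  rw [mulq_val, ZMod.val_natCast, Nat.mod_eq_of_lt, Nat.mul_div_cancel' h]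
  rw [Nat.div_lt_iff_lt_mul hq]
  exact ZMod.val_lt c

theorem mulq_add (q : ℕ) {k : ℕ} [NeZero k] [NeZero (k * q)] (a b : ZMod k) :
    mulq q (a + b) = mulq q a + mulq q b := by
  have h1 : a.val + b.val = (a + b).val + k * ((a.val + b.val) / k) := by
    rw [ZMod.val_add]
    exact (Nat.mod_add_div _ _).symm
  unfold mulq
  rw [← Nat.cast_add, ← Nat.mul_add, h1, Nat.mul_add, Nat.cast_add]
  have h2 : ((q * (k * ((a.val + b.val) / k)) : ℕ) : ZMod (k * q)) = 0 := by
    rw [ZMod.natCast_eq_zero_iff]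
    exact ⟨(a.val + b.val) / k, by ring⟩
  rw [h2, add_zero]

private theorem Q5_sub (q : ℕ) {k : ℕ} [NeZero k] [NeZero (k * q)] (a b : ZMod k) :
    mulq q (a - b) = mulq q a - mulq q b := by
  have h := mulq_add q (a - b) b
  rw [sub_add_cancel] at h
  exact eq_sub_of_add_eq h.symm

private theorem Q5_div_unique {a x y P P' : ℕ} (hx : x < a) (hy : y < a)
    (h : a * P + x = a * P' + y) : P = P' ∧ x = y := by
  have h1 : x = y := by
    have e := congrArg (· % a) h
    simpa [Nat.mul_add_mod, Nat.mod_eq_of_lt hx, Nat.mod_eq_of_lt hy] using e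
  refine ⟨?_, h1⟩
  subst h1
  exact Nat.eq_of_mul_eq_mul_left (by omega) (Nat.add_right_cancel h)

private theorem Q5_both (n q : ℕ) {k : ℕ} [NeZero k] [NeZero (k * q)] (c : ZMod k) :
    ps n (mulq q c) = ps n c ∧ tn n (mulq q c) = q * tn n c := by
  have hq := Q5_qpos k q
  have h1 := ps_mul n (mulq q c)
  have h2 := ps_mul n c
  rw [mulq_val] at h1
  have h3 := tn_lt n (mulq q c)
  have h4 : q * tn n c < k * q := by
    rw [Nat.mul_comm k q]
    exact Nat.mul_lt_mul_of_pos_left (tn_lt n c) hq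
  have h5 : k * q * ps n (mulq q c) + q * tn n c = k * q * ps n c + tn n (mulq q c) := by
    rw [h1]
    calc q * c.val * n + tn n (mulq q c) + q * tn n c
        = q * (c.val * n + tn n c) + tn n (mulq q c) := by ring
      _ = k * q * ps n c + tn n (mulq q c) := by rw [← h2]; ring
  obtain ⟨h6, h7⟩ := Q5_div_unique h4 h3 h5
  exact ⟨h6, h7.symm⟩

theorem tn_mulq (n q : ℕ) {k : ℕ} [NeZero k] [NeZero (k * q)] (c : ZMod k) :
    tn n (mulq q c) = q * tn n c := (Q5_both n q c).2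

theorem ps_mulq (n q : ℕ) {k : ℕ} [NeZero k] [NeZero (k * q)] (c : ZMod k) :
    ps n (mulq q c) = ps n c := (Q5_both n q c).1

theorem cy_mulq (n q : ℕ) {k : ℕ} [NeZero k] [NeZero (k * q)] (a b : ZMod k) :
    cy n (mulq q a) (mulq q b) = cy n a b := by
  unfold cy
  rw [tn_mulq, tn_mulq, ← Nat.mul_add, Nat.mul_comm k q,
    Nat.mul_div_mul_left _ _ (Q5_qpos k q)]

theorem bc_mulq (q : ℕ) {k : ℕ} [NeZero k] [NeZero (k * q)] (μ : ZMod k → ℤ) (c : ZMod k) :
    bc q μ (mulq q c) = μ c := by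
  unfold bc
  rw [mulq_val, if_pos (Nat.dvd_mul_right q c.val), Nat.mul_div_cancel_left _ (Q5_qpos k q),
    ZMod.natCast_zmod_val]

/-- every function supported on the multiples of `q` is a base change -/
theorem exists_bc (q : ℕ) {k : ℕ} [NeZero k] [NeZero (k * q)] (μ : ZMod (k * q) → ℤ)
    (h : ∀ c, ¬ q ∣ c.val → μ c = 0) : μ = bc q (fun c => μ (mulq q c)) := by
  funext c
  unfold bc
  by_cases hc : q ∣ c.val
  · rw [if_pos hc]
    exact congrArg μ (Q5_of_dvd q c hc).symm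
  · rw [if_neg hc, h c hc]

private theorem Q5_sum {M : Type} [AddCommMonoid M] (q : ℕ) {k : ℕ} [NeZero k] [NeZero (k * q)]
    (μ : ZMod k → ℤ) (f : ℤ → ZMod (k * q) → M) (hf : ∀ c, f 0 c = 0) :
    ∑ c, f (bc q μ c) c = ∑ c, f (μ c) (mulq q c) := by
  symm
  refine Finset.sum_of_injOn (mulq q) (fun a _ b _ h => Q5_inj q h) (fun a _ => by simp) ?_ ?_
  · intro c _ hc
    have h1 : ¬ q ∣ c.val := by
      intro hd
      exact hc ⟨((c.val / q : ℕ) : ZMod k), by simp, Q5_of_dvd q c hd⟩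
    have h2 : bc q μ c = 0 := by
      unfold bc
      rw [if_neg h1]
    rw [h2, hf]
  · intro c _
    rw [bc_mulq]

theorem sum_bc (q : ℕ) {k : ℕ} [NeZero k] [NeZero (k * q)] (μ : ZMod k → ℤ)
    (f : ℤ → ZMod (k * q) → ℝ) (hf : ∀ c, f 0 c = 0) :
    ∑ c, f (bc q μ c) c = ∑ c, f (μ c) (mulq q c) := Q5_sum q μ f hf

theorem ev_bc (p n q : ℕ) {k : ℕ} [NeZero k] [NeZero (k * q)] (μ : ZMod k → ℤ) :
    ev p n (bc q μ) = ev p n μ := by
  unfold ev
  rw [Q5_sum q μ (fun m c => m * (p : ℤ) ^ ps n c) (fun c => by simp)]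
  refine Finset.sum_congr rfl (fun c _ => ?_)
  rw [ps_mulq]

private theorem Q5_rho (p k q : ℕ) (hk : 0 < k) (hq : 0 < q) : rho p (k * q) ^ q = rho p k := by
  unfold rho
  rw [← Real.rpow_natCast, ← Real.rpow_mul (Nat.cast_nonneg p)]
  congr 1
  have h1 : (k : ℝ) ≠ 0 := by exact_mod_cast hk.ne'
  have h2 : (q : ℝ) ≠ 0 := by exact_mod_cast hq.ne'
  push_cast
  field_simp

theorem Sr_bc (p n q : ℕ) (hp : 0 < p) {k : ℕ} [NeZero k] [NeZero (k * q)] (μ : ZMod k → ℤ) :
    Sr p n (bc q μ) = Sr p n μ := by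
  have _ := hp
  unfold Sr
  rw [Q5_sum q μ (fun m c => (m : ℝ) * rho p (k * q) ^ tn n c) (fun c => by simp)]
  refine Finset.sum_congr rfl (fun c _ => ?_)
  rw [tn_mulq, pow_mul, Q5_rho p k q (Q5_kpos k) (Q5_qpos k q)]

theorem bc_bound (p q B : ℕ) {k : ℕ} [NeZero k] [NeZero (k * q)] (μ : ZMod k → ℤ)
    (hμ : ∀ t, |μ t| ≤ (p : ℤ) ^ B) (t : ZMod (k * q)) : |bc q μ t| ≤ (p : ℤ) ^ B := by
  unfold bc
  split_ifs
  · exact hμ _
  · rw [abs_zero]
    positivity

theorem bc_rmul (p n q : ℕ) {k : ℕ} [NeZero k] [NeZero (k * q)] (μ x : ZMod k → ℤ) :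
    bc q (rmul p n μ x) = rmul p n (bc q μ) (bc q x) := by
  funext u
  have hR : rmul p n (bc q μ) (bc q x) u
      = ∑ i : ZMod k, bc q μ (u - mulq q i) * x i * (p : ℤ) ^ cy n (u - mulq q i) (mulq q i) := by
    unfold rmul
    exact Q5_sum q x (fun m i => bc q μ (u - i) * m * (p : ℤ) ^ cy n (u - i) i)
      (fun c => by simp)
  rw [hR]
  by_cases hu : q ∣ u.val
  · obtain ⟨v, hv⟩ : ∃ v : ZMod k, mulq q v = u := ⟨_, Q5_of_dvd q u hu⟩
    subst hv
    rw [bc_mulq]
    unfold rmul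
    refine Finset.sum_congr rfl (fun i _ => ?_)
    rw [← Q5_sub, bc_mulq, cy_mulq]
  · have hL : bc q (rmul p n μ x) u = 0 := by
      unfold bc
      rw [if_neg hu]
    rw [hL]
    symm
    apply Finset.sum_eq_zero
    intro i _
    have h1 : ¬ q ∣ (u - mulq q i).val := by
      intro hd
      apply hu
      have h2 := Q5_of_dvd q (u - mulq q i) hd
      have h3 : u = mulq q (((u - mulq q i).val / q : ℕ) + i : ZMod k) := by
        rw [mulq_add, h2, sub_add_cancel]
      rw [h3, mulq_val]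
      exact Nat.dvd_mul_right _ _
    have h4 : bc q μ (u - mulq q i) = 0 := by
      unfold bc
      rw [if_neg h1]
    rw [h4, zero_mul, zero_mul]

end Pool.Agent.Helper21.FD
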