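import Pool.Agent.Helper21.FC.C1
import Pool.Agent.Helper21.FD.G8
import Pool.Agent.Helper21.FD.Q5

/-!
MP_0aa406_nt, project FD (helper21): reduction to a subgroup of positions.
-/

set_option autoImplicit false

namespace Pool.Agent.Helper21.FD

open Finset Pool.Agent.Helper21.FC

private theorem K5_pr_eq {q k : ℕ} [NeZero k] (h : q ∣ k) (a b : ZMod k) :
    pr q (a - b) = 0 → pr q a = pr q b := by
  intro h1
  rw [pr_sub h] at h1
  exact sub_eq_zero.1 h1

private theorem K5_smul_rmul (p n : ℕ) {k : ℕ} [NeZero k] (m : ℤ) (x y : ZMod k → ℤ) :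
    rmul p n (m • x) y = m • rmul p n x y := by
  rw [rmul_comm, rmul_smul, rmul_comm]

private theorem K5_single_single (p n : ℕ) {k : ℕ} [NeZero k] (a b : ZMod k) (m m' : ℤ) :
    rmul p n (Pi.single a m) (Pi.single b m') =
      (Pi.single (a + b) (m * m' * (p : ℤ) ^ cy n a b) : ZMod k → ℤ) := by
  funext u
  rw [single_rmul]
  by_cases h : u = a + b
  · subst h
    rw [add_sub_cancel_left, Pi.single_eq_same, Pi.single_eq_same]
  · have h1 : u - a ≠ b := by
      intro h2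
      exact h (by rw [← h2]; ring)
    rw [Pi.single_eq_of_ne h1, Pi.single_eq_of_ne h, mul_zero, zero_mul]

/-- the factor `μ'` of a monomial `μ μ'` is supported on one coset if `μ` is -/
theorem coset_support (p n : ℕ) (hp : 2 ≤ p) (f q : ℕ) [NeZero (f * q)] (μ μ' : ZMod (f * q) → ℤ)
    (α : ℕ) (c : ZMod (f * q)) (m : ℤ) (hm : m ≠ 0)
    (hrel : ∀ u, (p : ℤ) ^ α * rmul p n μ μ' u = (Pi.single c m : ZMod (f * q) → ℤ) u)
    (c0 : ZMod (f * q)) (hsup : ∀ t, μ t ≠ 0 → pr q t = pr q c0) :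
    ∀ t, μ' t ≠ 0 → pr q t = pr q (c - c0) := by
  classical
  have hq : q ∣ f * q := Dvd.intro_left f rfl
  have hp0 : (p : ℤ) ≠ 0 := by exact_mod_cast (show p ≠ 0 by omega)
  obtain ⟨μ1, hμ1⟩ : ∃ μ1 : ZMod (f * q) → ℤ, ∀ t, μ1 t = if pr q t = pr q (c - c0) then 0
      else μ' t := ⟨_, fun t => rfl⟩
  have h1 : rmul p n μ μ1 = 0 := by
    funext u
    rw [Pi.zero_apply]
    by_cases hu : pr q u = pr q c
    · refine Finset.sum_eq_zero (fun i _ => ?_)
      by_cases h2 : μ (u - i) = 0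
      · rw [h2, zero_mul, zero_mul]
      · have h3 := hsup _ h2
        rw [pr_sub hq, hu] at h3
        have h4 : pr q i = pr q (c - c0) := by
          rw [pr_sub hq, ← h3]
          ring
        rw [hμ1 i, if_pos h4, mul_zero, zero_mul]
    · have h2 : rmul p n μ μ1 u = rmul p n μ μ' u := by
        refine Finset.sum_congr rfl (fun i _ => ?_)
        by_cases h2 : μ (u - i) = 0
        · rw [h2, zero_mul, zero_mul, zero_mul, zero_mul]
        · have h3 := hsup _ h2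
          rw [pr_sub hq] at h3
          have h4 : pr q i ≠ pr q (c - c0) := by
            intro h5
            apply hu
            rw [h5, pr_sub hq] at h3
            rw [← sub_eq_zero]
            rw [← sub_eq_zero] at h3
            rw [← h3]
            ring
          rw [hμ1 i, if_neg h4]
      have h3 := hrel u
      have h4 : u ≠ c := by
        rintro rfl
        exact hu rfl
      rw [Pi.single_eq_of_ne h4] at h3
      rw [h2]
      exact (mul_eq_zero.1 h3).resolve_left (pow_ne_zero _ hp0)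
  have h2 : (p : ℤ) ^ α • rmul p n μ μ' = (Pi.single c m : ZMod (f * q) → ℤ) := by
    funext u
    rw [Pi.smul_apply, smul_eq_mul]
    exact hrel u
  have h3 : rmul p n (Pi.single c m) μ1 = 0 := by
    rw [← h2, K5_smul_rmul, rmul_comm p n μ μ', rmul_assoc, h1, rmul_zero, smul_zero]
  have h4 := single_rmul_eq_zero p n (by omega) c m hm μ1 h3
  intro t ht
  by_contra h5
  have h6 := hμ1 t
  rw [if_neg h5, h4, Pi.zero_apply] at h6
  exact ht h6.symm

/-- the relations for a factor supported on one coset -/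
theorem descend_one (p n : ℕ) (hp : 2 ≤ p) (f q B : ℕ) [NeZero f] [NeZero (f * q)] (hn : f * q ≤ n)
    (μ : ZMod (f * q) → ℤ) (hμ : ∀ t, |μ t| ≤ (p : ℤ) ^ B) (c0 : ZMod (f * q))
    (hsup : ∀ t, μ t ≠ 0 → pr q t = pr q c0) :
    ∃ ν : ZMod f → ℤ, (∀ t, |ν t| ≤ (p : ℤ) ^ (B + 1)) ∧
      bc q ν = rmul p n (Pi.single (-c0) 1) μ ∧
      ∀ (x : ℤ) (r : ℕ), NN p n ∣ x - (p : ℤ) ^ r * ev p n μ →
        ∃ r' : ℕ, NN p n ∣ x - (p : ℤ) ^ r' * ev p n ν := by
  have hq : q ∣ f * q := Dvd.intro_left f rfl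
  have hf : 0 < f := Nat.pos_of_ne_zero (NeZero.ne f)
  have hfq : 0 < f * q := Nat.pos_of_ne_zero (NeZero.ne (f * q))
  have hn0 : 0 < n := lt_of_lt_of_le hfq hn
  have hp1 : (1 : ℤ) ≤ p := by exact_mod_cast (show 1 ≤ p by omega)
  have hbc := exists_bc q (rmul p n (Pi.single (-c0) 1) μ) (by
    intro c hc
    rw [single_rmul]
    by_cases h2 : μ (c - -c0) = 0
    · rw [h2, mul_zero, zero_mul]
    · exfalso
      apply hc
      have h3 := hsup _ h2
      rw [sub_neg_eq_add, pr_add hq] at h3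
      have h4 : pr q c = 0 := by
        rw [← sub_eq_zero] at h3
        rw [← h3]
        ring
      unfold pr at h4
      exact (ZMod.natCast_eq_zero_iff _ _).1 h4)
  refine ⟨fun c => rmul p n (Pi.single (-c0) 1) μ (mulq q c), ?_, hbc.symm, ?_⟩
  · intro t
    show |rmul p n (Pi.single (-c0) 1) μ (mulq q t)| ≤ _
    have hp0 : (0 : ℤ) ≤ p := by linarith
    rw [single_rmul, one_mul, abs_mul, abs_of_nonneg (pow_nonneg hp0 _), pow_succ]
    refine mul_le_mul (hμ _) ?_ (by positivity) (by positivity)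
    calc (p : ℤ) ^ cy n (-c0) (mulq q t - -c0) ≤ (p : ℤ) ^ 1 :=
          pow_le_pow_right₀ hp1 (cy_le n _ _)
      _ = p := pow_one _
  · intro x r hx
    refine ⟨r + (n - 1) * ps n (-c0), ?_⟩
    have h1 : ev p n (fun c => rmul p n (Pi.single (-c0) 1) μ (mulq q c) : ZMod f → ℤ) =
        ev p n (rmul p n (Pi.single (-c0) 1) μ) := by
      rw [hbc, ev_bc]
      rw [← hbc]
    rw [h1]
    have h2 := ev_rmul p n (Pi.single (-c0) 1) μ
    rw [ev_single, one_mul] at h2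
    have h3 : NN p n ∣ (p : ℤ) ^ r - (p : ℤ) ^ (r + n * ps n (-c0)) := by
      apply pow_congr
      refine ⟨-(ps n (-c0) : ℤ), ?_⟩
      push_cast
      ring
    have h4 : (p : ℤ) ^ (r + n * ps n (-c0)) =
        (p : ℤ) ^ (r + (n - 1) * ps n (-c0)) * (p : ℤ) ^ ps n (-c0) := by
      rw [← pow_add]
      congr 1
      obtain ⟨k, rfl⟩ : ∃ k, n = k + 1 := ⟨n - 1, by omega⟩
      rw [Nat.add_sub_cancel]
      ring
    have h5 : x - (p : ℤ) ^ (r + (n - 1) * ps n (-c0)) *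
        ev p n (rmul p n (Pi.single (-c0) 1) μ) =
        (x - (p : ℤ) ^ r * ev p n μ) +
        ((p : ℤ) ^ r - (p : ℤ) ^ (r + n * ps n (-c0))) * ev p n μ +
        (p : ℤ) ^ (r + (n - 1) * ps n (-c0)) * ((p : ℤ) ^ ps n (-c0) * ev p n μ -
          ev p n (rmul p n (Pi.single (-c0) 1) μ)) := by
      rw [h4]
      ring
    rw [h5]
    exact dvd_add (dvd_add hx (Dvd.dvd.mul_right h3 _)) (Dvd.dvd.mul_left h2 _)

/-- reduction of a one class relation from `K = f q` to `f` -/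
theorem descend (p n : ℕ) (hp : 2 ≤ p) (K f q B : ℕ) [NeZero K] [NeZero f] (hK : K = f * q)
    (hn : K ≤ n) (μ μ' : ZMod K → ℤ) (hμ : ∀ t, |μ t| ≤ (p : ℤ) ^ B)
    (hμ' : ∀ t, |μ' t| ≤ (p : ℤ) ^ B) (m : ℕ) (hm : 0 < m) (α β : ℕ) (c : ZMod K) (hβ : β ≤ B)
    (hrel : ∀ u, (p : ℤ) ^ α * rmul p n μ μ' u =
      (Pi.single c ((m : ℤ) * (p : ℤ) ^ β) : ZMod K → ℤ) u)
    (c0 : ZMod K) (hsup : ∀ t, μ t ≠ 0 → pr q t = pr q c0) :
    ∃ (ν ν' : ZMod f → ℤ) (β' : ℕ) (c' : ZMod f), (∀ t, |ν t| ≤ (p : ℤ) ^ (B + 4)) ∧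
      (∀ t, |ν' t| ≤ (p : ℤ) ^ (B + 4)) ∧ β' ≤ B + 4 ∧
      (∀ u, (p : ℤ) ^ α * rmul p n ν ν' u = (Pi.single c' ((m : ℤ) * (p : ℤ) ^ β') : ZMod f → ℤ) u) ∧
      (∀ (x : ℤ) (r : ℕ), NN p n ∣ x - (p : ℤ) ^ r * ev p n μ →
        ∃ r' : ℕ, NN p n ∣ x - (p : ℤ) ^ r' * ev p n ν) ∧
      (∀ (x : ℤ) (r : ℕ), NN p n ∣ x - (p : ℤ) ^ r * ev p n μ' →
        ∃ r' : ℕ, NN p n ∣ x - (p : ℤ) ^ r' * ev p n ν') := by
  subst hK
  have hp0 : (p : ℤ) ≠ 0 := by exact_mod_cast (show p ≠ 0 by omega)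
  have hp1 : (1 : ℤ) ≤ p := by exact_mod_cast (show 1 ≤ p by omega)
  have hfq : 0 < f * q := Nat.pos_of_ne_zero (NeZero.ne (f * q))
  have hq0 : 0 < q := Nat.pos_of_mul_pos_left hfq
  have hm0 : ((m : ℤ) * (p : ℤ) ^ β) ≠ 0 :=
    mul_ne_zero (by exact_mod_cast hm.ne') (pow_ne_zero _ hp0)
  have hsup' := coset_support p n hp f q μ μ' α c _ hm0 hrel c0 hsup
  obtain ⟨ν, h1, h2, h3⟩ := descend_one p n hp f q B hn μ hμ c0 hsup
  obtain ⟨ν', h1', h2', h3'⟩ := descend_one p n hp f q B hn μ' hμ' (c - c0) hsup'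
  have e1 : (p : ℤ) ^ α • rmul p n μ μ' =
      (Pi.single c ((m : ℤ) * (p : ℤ) ^ β) : ZMod (f * q) → ℤ) := by
    funext u
    rw [Pi.smul_apply, smul_eq_mul]
    exact hrel u
  have e2 : (p : ℤ) ^ α • bc q (rmul p n ν ν') =
      (Pi.single 0 ((m : ℤ) * (p : ℤ) ^ (β + cy n (-c0) (-(c - c0)) +
        cy n (-c0 + -(c - c0)) c)) : ZMod (f * q) → ℤ) := by
    have e3 : bc q (rmul p n ν ν') =
        rmul p n (rmul p n (Pi.single (-c0) 1) (Pi.single (-(c - c0)) 1)) (rmul p n μ μ') := by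
      rw [bc_rmul, h2, h2', rmul_assoc, rmul_assoc]
      congr 1
      rw [← rmul_assoc p n μ, rmul_comm p n μ (Pi.single (-(c - c0)) 1), rmul_assoc]
    rw [e3, ← rmul_smul, e1, K5_single_single, K5_single_single]
    congr 1
    · ring
    · rw [pow_add, pow_add]
      ring
  refine ⟨ν, ν', β + cy n (-c0) (-(c - c0)) + cy n (-c0 + -(c - c0)) c, 0, ?_, ?_, ?_, ?_, h3, h3'⟩
  · exact fun t => (h1 t).trans (pow_le_pow_right₀ hp1 (by omega))
  · exact fun t => (h1' t).trans (pow_le_pow_right₀ hp1 (by omega))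
  · have := cy_le n (-c0) (-(c - c0))
    have := cy_le n (-c0 + -(c - c0)) c
    omega
  · intro u
    have e4 := congrFun e2 (mulq q u)
    rw [Pi.smul_apply, smul_eq_mul, bc_mulq] at e4
    rw [e4]
    by_cases hu : u = 0
    · subst hu
      have e5 : mulq q (0 : ZMod f) = 0 := by
        unfold mulq
        rw [ZMod.val_zero, mul_zero, Nat.cast_zero]
      rw [e5, Pi.single_eq_same, Pi.single_eq_same]
    · have e5 : mulq q u ≠ 0 := by
        intro h
        have e6 := mulq_val q u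
        rw [h, ZMod.val_zero] at e6
        have e7 : u.val = 0 := by
          rcases Nat.mul_eq_zero.1 e6.symm with e8 | e8
          · omega
          · exact e8
        exact hu ((ZMod.val_eq_zero u).1 e7)
      rw [Pi.single_eq_of_ne e5, Pi.single_eq_of_ne hu]

end Pool.Agent.Helper21.FD
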