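import Pool.Agent.Helper21.FD.Defs

/-!
MP_0aa406_nt, project FD (helper21): the odd part of `k` built from primes dividing `n`.
-/

set_option autoImplicit false

namespace Pool.Agent.Helper21.FD

open Finset Pool.Agent.Helper21.FC

theorem split_odd (k n : ℕ) (hk : 0 < k) (hn : 0 < n) : ∃ f m : ℕ, k = f * m ∧ Odd m ∧
    (∀ q : ℕ, q.Prime → q ∣ m → q ≠ 2 ∧ q ∣ n) ∧ ∃ b : ℕ, Nat.gcd f n = 2 ^ b := by
  induction k using Nat.strong_induction_on with
  | _ k ih =>
    by_cases h : ∃ p : ℕ, p.Prime ∧ p ≠ 2 ∧ p ∣ k ∧ p ∣ n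
    · obtain ⟨p, hp, hp2, ⟨k', rfl⟩, hpn⟩ := h
      have hk' : 0 < k' := Nat.pos_of_mul_pos_left hk
      have hlt : k' < p * k' := by
        have := hp.two_le
        nlinarith
      obtain ⟨f, m, h1, h2, h3, h4⟩ := ih k' hlt hk'
      refine ⟨f, p * m, by rw [h1]; ring, (hp.odd_of_ne_two hp2).mul h2, ?_, h4⟩
      intro q hq hqm
      rcases (hq.dvd_mul).1 hqm with h5 | h5
      · rw [(Nat.prime_dvd_prime_iff_eq hq hp).1 h5]
        exact ⟨hp2, hpn⟩
      · exact h3 q hq h5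
    · push Not at h
      refine ⟨k, 1, (mul_one k).symm, odd_one, ?_, ?_⟩
      · intro q hq hq1
        exact absurd (Nat.dvd_one.1 hq1) hq.one_lt.ne'
      · refine ⟨(Nat.gcd k n).primeFactorsList.length, ?_⟩
        refine Nat.eq_prime_pow_of_unique_prime_dvd (Nat.gcd_pos_of_pos_left n hk).ne' ?_
        intro d hd hdg
        by_contra hd2
        exact h d hd hd2 (hdg.trans (Nat.gcd_dvd_left k n)) (hdg.trans (Nat.gcd_dvd_right k n))

end Pool.Agent.Helper21.FD
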