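import Pool.Agent.Helper21.FD.Defs

/-!
MP_0aa406_nt, project FD (helper21): fractional part of a sparse sum of powers of `p`.
-/

set_option autoImplicit false

namespace Pool.Agent.Helper21.FD

open Finset Pool.Agent.Helper21.FC

/-- the lower terms are small: `2 |sum over i ≠ i₀| < p ^ e i₀` -/
private theorem S1_low {p B : ℕ} (hp : 2 ≤ p) {ι : Type} [Fintype ι] [DecidableEq ι] (e : ι → ℕ)
    (b : ι → ℤ) (i₀ : ι) (hinj : Function.Injective e)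
    (hlow : ∀ i, i ≠ i₀ → e i + B + 2 ≤ e i₀) (hb : ∀ i, |b i| ≤ (p : ℤ) ^ B) :
    2 * |∑ i ∈ univ.erase i₀, b i * (p : ℤ) ^ e i| < (p : ℤ) ^ e i₀ := by
  have hp0 : (0 : ℤ) ≤ p := by positivity
  have h1 : |∑ i ∈ univ.erase i₀, b i * (p : ℤ) ^ e i| ≤
      ∑ i ∈ univ.erase i₀, (p : ℤ) ^ (e i + B) := by
    refine (Finset.abs_sum_le_sum_abs _ _).trans (Finset.sum_le_sum fun i _ => ?_)
    rw [abs_mul, abs_of_nonneg (pow_nonneg hp0 (e i)), pow_add, mul_comm]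
    exact mul_le_mul_of_nonneg_left (hb i) (pow_nonneg hp0 _)
  have h2 : ∑ i ∈ univ.erase i₀, p ^ (e i + B + 1) < p ^ e i₀ := by
    have hinj' : Set.InjOn (fun i => e i + B + 1) (univ.erase i₀ : Finset ι) := by
      intro i _ j _ hij
      apply hinj
      simp only at hij
      omega
    rw [← Finset.sum_image (f := fun k => p ^ k) (g := fun i => e i + B + 1)
      (s := univ.erase i₀) hinj']
    refine Nat.geomSum_lt hp fun k hk => ?_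
    obtain ⟨i, hi, rfl⟩ := Finset.mem_image.1 hk
    have := hlow i (Finset.ne_of_mem_erase hi)
    omega
  have h3 : (∑ i ∈ univ.erase i₀, (p : ℤ) ^ (e i + B + 1)) < (p : ℤ) ^ e i₀ := by
    exact_mod_cast h2
  have h4 : ∑ i ∈ univ.erase i₀, (p : ℤ) ^ (e i + B + 1) =
      p * ∑ i ∈ univ.erase i₀, (p : ℤ) ^ (e i + B) := by
    rw [Finset.mul_sum]
    exact Finset.sum_congr rfl fun i _ => by rw [pow_succ, mul_comm]
  rw [h4] at h3
  have hp2 : (2 : ℤ) ≤ p := by exact_mod_cast hp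
  have h5 : 0 ≤ ∑ i ∈ univ.erase i₀, (p : ℤ) ^ (e i + B) :=
    Finset.sum_nonneg fun i _ => pow_nonneg hp0 _
  calc 2 * |∑ i ∈ univ.erase i₀, b i * (p : ℤ) ^ e i|
      ≤ 2 * ∑ i ∈ univ.erase i₀, (p : ℤ) ^ (e i + B) := by linarith
    _ ≤ p * ∑ i ∈ univ.erase i₀, (p : ℤ) ^ (e i + B) := mul_le_mul_of_nonneg_right hp2 h5
    _ < _ := h3

/-- a positive integer below `2 p ^ (B + e)` -/
private theorem S1_pos {p n B : ℕ} (hp : 2 ≤ p) (e0 : ℕ) (hn : e0 + B + 2 ≤ n) (S : ℤ)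
    (h1 : 0 < S) (h2 : S < 2 * (p : ℤ) ^ (B + e0)) :
    0 < (S : ℝ) / ((p : ℝ) ^ n - 1) ∧ (S : ℝ) / ((p : ℝ) ^ n - 1) < 1 ∧
      (S : ℝ) / ((p : ℝ) ^ n - 1) ≤ (p : ℝ) ^ (B + 2 + e0) / (p : ℝ) ^ n := by
  have hp2 : (2 : ℝ) ≤ p := by exact_mod_cast hp
  have hp0 : (0 : ℝ) < p := by linarith
  have hn2 : (4 : ℝ) ≤ (p : ℝ) ^ n := by
    calc (4 : ℝ) = 2 ^ 2 := by norm_num
      _ ≤ (p : ℝ) ^ 2 := pow_le_pow_left₀ (by norm_num) hp2 2
      _ ≤ (p : ℝ) ^ n := pow_le_pow_right₀ (by linarith) (by omega)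
  have hS1 : (0 : ℝ) < S := by exact_mod_cast h1
  have hS2 : (S : ℝ) < 2 * (p : ℝ) ^ (B + e0) := by exact_mod_cast h2
  have hN : (0 : ℝ) < (p : ℝ) ^ n - 1 := by linarith
  have hX : (0 : ℝ) < (p : ℝ) ^ (B + e0) := by positivity
  have h4 : (4 : ℝ) * (p : ℝ) ^ (B + e0) ≤ (p : ℝ) ^ (B + 2 + e0) := by
    have : (p : ℝ) ^ (B + 2 + e0) = (p : ℝ) ^ 2 * (p : ℝ) ^ (B + e0) := by
      rw [← pow_add]; congr 1; omega
    rw [this]
    exact mul_le_mul_of_nonneg_right (by nlinarith) hX.le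
  have h5 : (p : ℝ) ^ (B + 2 + e0) ≤ (p : ℝ) ^ n :=
    pow_le_pow_right₀ (by linarith) (by omega)
  refine ⟨div_pos hS1 hN, ?_, ?_⟩
  · rw [div_lt_one hN]
    nlinarith
  · rw [div_le_div_iff₀ hN (by linarith)]
    nlinarith

/-- The exponents are distinct, one of them (`e i₀`) is larger than all others by at least `B + 2` and
at most `n - B - 2`: then the sum is a small number with the sign of `b i₀`. -/
theorem fract_sparse {p n B : ℕ} (hp : 2 ≤ p) {ι : Type} [Fintype ι] [DecidableEq ι] (e : ι → ℕ)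
    (b : ι → ℤ) (i₀ : ι) (hn : e i₀ + B + 2 ≤ n) (hinj : Function.Injective e)
    (hlow : ∀ i, i ≠ i₀ → e i + B + 2 ≤ e i₀) (hb0 : b i₀ ≠ 0) (hb : ∀ i, |b i| ≤ (p : ℤ) ^ B) :
    (0 < b i₀ → Int.fract (((∑ i, b i * (p : ℤ) ^ e i : ℤ) : ℝ) / ((p : ℝ) ^ n - 1)) ≤
      (p : ℝ) ^ (B + 2 + e i₀) / (p : ℝ) ^ n) ∧
    (b i₀ < 0 → 1 - (p : ℝ) ^ (B + 2 + e i₀) / (p : ℝ) ^ n ≤
      Int.fract (((∑ i, b i * (p : ℤ) ^ e i : ℤ) : ℝ) / ((p : ℝ) ^ n - 1))) := by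
  have hl := S1_low hp e b i₀ hinj hlow hb
  set T : ℤ := ∑ i ∈ univ.erase i₀, b i * (p : ℤ) ^ e i with hT
  have hS : ∑ i, b i * (p : ℤ) ^ e i = b i₀ * (p : ℤ) ^ e i₀ + T := by
    rw [hT]; exact (Finset.add_sum_erase _ _ (Finset.mem_univ i₀)).symm
  have hX : (0 : ℤ) < (p : ℤ) ^ e i₀ := by positivity
  have hbX : |b i₀| * (p : ℤ) ^ e i₀ ≤ (p : ℤ) ^ (B + e i₀) := by
    rw [pow_add]; exact mul_le_mul_of_nonneg_right (hb i₀) hX.le
  have hXX : (p : ℤ) ^ e i₀ ≤ (p : ℤ) ^ (B + e i₀) :=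
    pow_le_pow_right₀ (by exact_mod_cast (by omega : 1 ≤ p)) (by omega)
  have hT1 := abs_le.1 (le_refl |T|)
  constructor
  · intro hpos
    have h1 : (p : ℤ) ^ e i₀ ≤ b i₀ * (p : ℤ) ^ e i₀ := by nlinarith
    rw [abs_of_pos hpos] at hbX
    obtain ⟨ha, hb', hc⟩ := S1_pos (n := n) hp (e i₀) hn (b i₀ * (p : ℤ) ^ e i₀ + T)
      (by linarith [hT1.1]) (by linarith [hT1.2])
    rw [hS, Int.fract_eq_self.2 ⟨ha.le, hb'⟩]
    exact hc
  · intro hneg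
    have h1 : (p : ℤ) ^ e i₀ ≤ -b i₀ * (p : ℤ) ^ e i₀ := by nlinarith
    rw [abs_of_neg hneg] at hbX
    obtain ⟨ha, hb', hc⟩ := S1_pos (n := n) hp (e i₀) hn (-(b i₀ * (p : ℤ) ^ e i₀ + T))
      (by linarith [hT1.2]) (by linarith [hT1.1])
    set N : ℝ := (p : ℝ) ^ n - 1 with hN
    set S : ℤ := b i₀ * (p : ℤ) ^ e i₀ + T with hSdef
    have e1 : ((-S : ℤ) : ℝ) / N = -((S : ℝ) / N) := by push_cast; ring
    rw [e1] at ha hb' hc
    have h3 : Int.fract ((S : ℝ) / N) = (S : ℝ) / N + 1 := by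
      rw [Int.fract_eq_iff]
      refine ⟨by linarith, by linarith, -1, by push_cast; ring⟩
    rw [hS, h3]
    linarith

end Pool.Agent.Helper21.FD
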