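import Pool.Agent.Helper21.FC.A1
import Pool.Agent.Helper21.FD.S1

/-!
MP_0aa406_nt, project FD (helper21): the weight of a sparse sum of powers of `p`.
-/

set_option autoImplicit false

namespace Pool.Agent.Helper21.FD

open Finset Pool.Agent.Helper21.FC

/-- `i` is the top index at `x` -/
private def S2_Top (n : ℕ) {ι : Type} (q : ι → ℕ) (x : ℕ) (i : ι) : Prop :=
  ∀ j, j ≠ i → (q j + x) % n < (q i + x) % n

private theorem S2_mod_inj {n a b x : ℕ} (ha : a < n) (hb : b < n)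
    (h : (a + x) % n = (b + x) % n) : a = b := by
  have h1 : a + x ≡ b + x [MOD n] := h
  exact (Nat.ModEq.add_right_cancel' x h1).eq_of_lt_of_lt ha hb

private theorem S2_exists_top {n : ℕ} {ι : Type} [Fintype ι] [DecidableEq ι] [Nonempty ι]
    (q : ι → ℕ) (hq : ∀ i, q i < n) (hinj : Function.Injective q) (x : ℕ) :
    ∃ i, S2_Top n q x i := by
  obtain ⟨i, -, hi⟩ := Finset.exists_max_image univ (fun i => (q i + x) % n) univ_nonempty
  refine ⟨i, fun j hj => lt_of_le_of_ne (hi j (mem_univ _)) fun h => hj ?_⟩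
  exact hinj (S2_mod_inj (hq j) (hq i) h)

private theorem S2_top_unique {n : ℕ} {ι : Type} {q : ι → ℕ} {x : ℕ} {i j : ι}
    (hi : S2_Top n q x i) (hj : S2_Top n q x j) : i = j := by
  by_contra h
  have h1 := hi j (fun h2 => h h2.symm)
  have h2 := hj i h
  omega

open Classical in
private theorem S2_gp_eq (n : ℕ) {ι : Type} [Fintype ι] [DecidableEq ι] (q : ι → ℕ) (i : ι) :
    (gp n q i : ℝ) = ∑ x ∈ range n, if S2_Top n q x i then (1 : ℝ) else 0 := by
  rw [Finset.sum_ite, Finset.sum_const_zero, add_zero, Finset.sum_const, nsmul_eq_mul, mul_one]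
  unfold gp
  congr 2
  ext x
  simp only [Finset.mem_filter]
  rfl

open Classical in
private theorem S2_sum_top (n : ℕ) {ι : Type} [Fintype ι] [DecidableEq ι] (q : ι → ℕ)
    (s : Finset ι) (x : ℕ) (i₀ : ι) (h : S2_Top n q x i₀) :
    ∑ i ∈ s, (if S2_Top n q x i then (1 : ℝ) else 0) = if i₀ ∈ s then 1 else 0 := by
  have h1 : ∀ i, (if S2_Top n q x i then (1 : ℝ) else 0) = if i = i₀ then 1 else 0 := by
    intro i
    by_cases hi : i = i₀
    · subst hi
      rw [if_pos h, if_pos rfl]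
    · rw [if_neg fun h2 => hi (S2_top_unique h2 h), if_neg hi]
  simp only [h1]
  rw [Finset.sum_ite_eq']

/-- the sets counted by `gp` partition `range n` -/
theorem sum_gp (n : ℕ) (hn : 0 < n) {ι : Type} [Fintype ι] [DecidableEq ι] [Nonempty ι]
    (q : ι → ℕ) (hq : ∀ i, q i < n) (hinj : Function.Injective q) :
    ∑ i, gp n q i = n := by
  classical
  have h1 : ((∑ i, gp n q i : ℕ) : ℝ) = (n : ℝ) := by
    push_cast
    rw [Finset.sum_congr rfl fun i _ => S2_gp_eq n q i, Finset.sum_comm]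
    have h2 : ∀ x ∈ range n, ∑ i, (if S2_Top n q x i then (1 : ℝ) else 0) = 1 := by
      intro x _
      obtain ⟨i₀, h0⟩ := S2_exists_top q hq hinj x
      rw [S2_sum_top n q univ x i₀ h0, if_pos (Finset.mem_univ _)]
    rw [Finset.sum_congr rfl h2]
    simp
  exact_mod_cast h1

/-- the error function -/
private noncomputable def S2_g (B j : ℕ) : ℝ := if j < B + 2 then 1 else (1 / 2) ^ (j - (B + 2))

private theorem S2_g_nonneg (B j : ℕ) : 0 ≤ S2_g B j := by
  unfold S2_g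
  split_ifs
  · norm_num
  · positivity

private theorem S2_sum_g (B M : ℕ) : ∑ j ∈ range M, S2_g B j ≤ (B : ℝ) + 4 := by
  have h1 : ∑ j ∈ range M, S2_g B j ≤ ∑ j ∈ range (B + 2 + M), S2_g B j :=
    Finset.sum_le_sum_of_subset_of_nonneg
      (fun x hx => Finset.mem_range.2 (by have := Finset.mem_range.1 hx; omega))
      (fun i _ _ => S2_g_nonneg B i)
  refine h1.trans ?_
  rw [Finset.sum_range_add]
  have h2 : ∑ j ∈ range (B + 2), S2_g B j = (B : ℝ) + 2 := by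
    have : ∀ j ∈ range (B + 2), S2_g B j = 1 := by
      intro j hj
      unfold S2_g
      rw [if_pos (Finset.mem_range.1 hj)]
    rw [Finset.sum_congr rfl this]
    simp
  have h3 : ∑ j ∈ range M, S2_g B (B + 2 + j) ≤ 2 := by
    have h4 : ∀ j ∈ range M, S2_g B (B + 2 + j) = (1 / 2 : ℝ) ^ j := by
      intro j _
      unfold S2_g
      rw [if_neg (by omega)]
      congr 1
      omega
    rw [Finset.sum_congr rfl h4]
    have h5 := geom_sum_eq (by norm_num : (1 / 2 : ℝ) ≠ 1) M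
    rw [h5]
    have h6 : (0 : ℝ) ≤ (1 / 2) ^ M := by positivity
    rw [div_le_iff_of_neg (by norm_num)]
    linarith
  rw [h2]
  linarith

private theorem S2_sum_shift {n : ℕ} (hn : 0 < n) (q : ℕ) (f : ℕ → ℝ) :
    ∑ x ∈ range n, f ((q + x) % n) = ∑ e ∈ range n, f e := by
  have hinj : Set.InjOn (fun x => (q + x) % n) (range n : Finset ℕ) := by
    intro x hx y hy hxy
    have hx' : x < n := by simpa using hx
    have hy' : y < n := by simpa using hy
    simp only at hxy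
    rw [add_comm q x, add_comm q y] at hxy
    exact S2_mod_inj hx' hy' hxy
  have himg : (range n).image (fun x => (q + x) % n) = range n := by
    apply Finset.eq_of_subset_of_card_le
    · intro y hy
      obtain ⟨x, -, rfl⟩ := Finset.mem_image.1 hy
      exact Finset.mem_range.2 (Nat.mod_lt _ hn)
    · rw [Finset.card_image_of_injOn hinj]
  conv_rhs => rw [← himg]
  rw [Finset.sum_image hinj]

private theorem S2_sum_err {n : ℕ} (hn : 0 < n) (B q : ℕ) :
    ∑ x ∈ range n, S2_g B (n - (q + x) % n) ≤ (B : ℝ) + 4 := by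
  rw [S2_sum_shift hn q (fun e => S2_g B (n - e))]
  have h1 : ∑ e ∈ range n, S2_g B (n - e) = ∑ e ∈ range n, S2_g B (e + 1) := by
    rw [← Finset.sum_range_reflect (fun e => S2_g B (e + 1)) n]
    refine Finset.sum_congr rfl fun e he => ?_
    have := Finset.mem_range.1 he
    congr 1
    omega
  have h2 := Finset.sum_range_succ' (S2_g B) n
  have h3 := S2_sum_g B (n + 1)
  have h4 := S2_g_nonneg B 0
  rw [h1]
  linarith

private theorem S2_pow_congr (p n m : ℕ) : NN p n ∣ (p : ℤ) ^ m - (p : ℤ) ^ (m % n) := by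
  have h1 : (p : ℤ) ^ m - (p : ℤ) ^ (m % n) =
      (((p : ℤ) ^ n) ^ (m / n) - 1 ^ (m / n)) * (p : ℤ) ^ (m % n) := by
    rw [one_pow, sub_mul, one_mul, ← pow_mul, ← pow_add, Nat.div_add_mod]
  rw [h1]
  exact (sub_dvd_pow_sub_pow _ _ _).mul_right _

private theorem S2_fract {p n : ℕ} (hp : 2 ≤ p) (hn : 1 ≤ n) {ι : Type} [Fintype ι]
    (q : ι → ℕ) (b : ι → ℤ) (a : ℤ) (ha : NN p n ∣ a - ∑ i, b i * (p : ℤ) ^ q i) (x : ℕ) :
    Int.fract ((p : ℝ) ^ x * (a : ℝ) / ((p : ℝ) ^ n - 1)) =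
      Int.fract (((∑ i, b i * (p : ℤ) ^ ((q i + x) % n) : ℤ) : ℝ) / ((p : ℝ) ^ n - 1)) := by
  have h0 := (A1_pos hp hn).ne'
  have h1 : NN p n ∣ (p : ℤ) ^ x * a - ∑ i, b i * (p : ℤ) ^ ((q i + x) % n) := by
    have h2 : (p : ℤ) ^ x * a - ∑ i, b i * (p : ℤ) ^ ((q i + x) % n) =
        (p : ℤ) ^ x * (a - ∑ i, b i * (p : ℤ) ^ q i) +
          ∑ i, b i * ((p : ℤ) ^ (q i + x) - (p : ℤ) ^ ((q i + x) % n)) := by
      have h3 : ∑ i, b i * ((p : ℤ) ^ (q i + x) - (p : ℤ) ^ ((q i + x) % n)) =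
          (p : ℤ) ^ x * (∑ i, b i * (p : ℤ) ^ q i) - ∑ i, b i * (p : ℤ) ^ ((q i + x) % n) := by
        rw [Finset.mul_sum, ← Finset.sum_sub_distrib]
        refine Finset.sum_congr rfl fun i _ => ?_
        rw [pow_add]
        ring
      rw [h3]
      ring
    rw [h2]
    exact dvd_add (ha.mul_left _) (Finset.dvd_sum fun i _ => (S2_pow_congr p n _).mul_left _)
  obtain ⟨t, ht⟩ := h1
  have h2 : (p : ℤ) ^ x * a = (∑ i, b i * (p : ℤ) ^ ((q i + x) % n)) + NN p n * t := by linarith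
  have h3 : (p : ℝ) ^ x * (a : ℝ) =
      ((∑ i, b i * (p : ℤ) ^ ((q i + x) % n) : ℤ) : ℝ) + ((p : ℝ) ^ n - 1) * (t : ℝ) := by
    have h4 : (((p : ℤ) ^ x * a : ℤ) : ℝ) =
        (((∑ i, b i * (p : ℤ) ^ ((q i + x) % n)) + NN p n * t : ℤ) : ℝ) := by rw [h2]
    unfold NN at h4
    rw [Int.cast_add, Int.cast_mul ((p : ℤ) ^ n - 1) t] at h4
    rw [show ((((p : ℤ) ^ n - 1 : ℤ)) : ℝ) = (p : ℝ) ^ n - 1 by push_cast; ring] at h4
    rw [← h4]
    push_cast
    ring
  rw [h3, add_div, mul_div_cancel_left₀ _ h0, Int.fract_add_intCast]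

private theorem S2_low {n B qi qj x : ℕ} (hi : qi < n) (hj : qj < n)
    (h1 : ((B + 2 : ℕ) : ℤ) ≤ |(qi : ℤ) - qj|)
    (h2 : |(qi : ℤ) - qj| ≤ (n : ℤ) - ((B + 2 : ℕ) : ℤ))
    (h3 : (qj + x) % n < (qi + x) % n) : (qj + x) % n + B + 2 ≤ (qi + x) % n := by
  have hn : 0 < n := by omega
  have hi1 := Nat.div_add_mod (qi + x) n
  have hj1 := Nat.div_add_mod (qj + x) n
  have hi2 := Nat.mod_lt (qi + x) hn
  have hj2 := Nat.mod_lt (qj + x) hn
  obtain ⟨ui, hui⟩ : ∃ ui, ui = (qi + x) / n := ⟨_, rfl⟩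
  obtain ⟨uj, huj⟩ : ∃ uj, uj = (qj + x) / n := ⟨_, rfl⟩
  obtain ⟨vi, hvi⟩ : ∃ vi, vi = (qi + x) % n := ⟨_, rfl⟩
  obtain ⟨vj, hvj⟩ : ∃ vj, vj = (qj + x) % n := ⟨_, rfl⟩
  rw [← hui, ← hvi] at hi1
  rw [← huj, ← hvj] at hj1
  rw [← hvi] at hi2 h3 ⊢
  rw [← hvj] at hj2 h3 ⊢
  -- `ui - uj` is `0`, `1` or `-1`
  have h5 : ui ≤ uj + 1 := by
    by_contra h
    have : n * (uj + 2) ≤ n * ui := Nat.mul_le_mul_left n (by omega)
    have h6 : n * (uj + 2) = n * uj + 2 * n := by ring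
    omega
  have h6 : uj ≤ ui + 1 := by
    by_contra h
    have : n * (ui + 2) ≤ n * uj := Nat.mul_le_mul_left n (by omega)
    have h6 : n * (ui + 2) = n * ui + 2 * n := by ring
    omega
  rcases abs_cases ((qi : ℤ) - qj) with ⟨h7, h8⟩ | ⟨h7, h8⟩
  · rw [h7] at h1 h2
    rcases (show ui = uj ∨ ui = uj + 1 ∨ uj = ui + 1 by omega) with h | h | h
    · subst h
      omega
    · subst h
      have h9 : n * (uj + 1) = n * uj + n := by ring
      omega
    · subst h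
      have h9 : n * (ui + 1) = n * ui + n := by ring
      omega
  · rw [h7] at h1 h2
    rcases (show ui = uj ∨ ui = uj + 1 ∨ uj = ui + 1 by omega) with h | h | h
    · subst h
      omega
    · subst h
      have h9 : n * (uj + 1) = n * uj + n := by ring
      omega
    · subst h
      have h9 : n * (ui + 1) = n * ui + n := by ring
      omega

private theorem S2_pow_le {p n B e : ℕ} (hp : 2 ≤ p) (h : e + B + 2 ≤ n) :
    (p : ℝ) ^ (B + 2 + e) / (p : ℝ) ^ n ≤ S2_g B (n - e) := by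
  have hp2 : (2 : ℝ) ≤ p := by exact_mod_cast hp
  have hp0 : (0 : ℝ) < p := by linarith
  have h1 : (p : ℝ) ^ n = (p : ℝ) ^ (B + 2 + e) * (p : ℝ) ^ (n - e - (B + 2)) := by
    rw [← pow_add]
    congr 1
    omega
  have h2 : (0 : ℝ) < (p : ℝ) ^ (B + 2 + e) := by positivity
  rw [h1, div_mul_eq_div_div, div_self h2.ne']
  unfold S2_g
  rw [if_neg (by omega), one_div, one_div, inv_pow]
  apply inv_anti₀ (by positivity)
  exact pow_le_pow_left₀ (by norm_num) hp2 _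

/-- the error at `x` -/
private theorem S2_err {p n B : ℕ} (hp : 2 ≤ p) (hn : 1 ≤ n) {ι : Type} [Fintype ι]
    [DecidableEq ι] (q : ι → ℕ) (b : ι → ℤ)
    (hq : ∀ i, q i < n) (hb0 : ∀ i, b i ≠ 0) (hb : ∀ i, |b i| ≤ (p : ℤ) ^ B)
    (hd : ∀ i j, i ≠ j → ((B + 2 : ℕ) : ℤ) ≤ |(q i : ℤ) - q j| ∧
      |(q i : ℤ) - q j| ≤ (n : ℤ) - ((B + 2 : ℕ) : ℤ)) (hinj : Function.Injective q)
    (a : ℤ) (ha : NN p n ∣ a - ∑ i, b i * (p : ℤ) ^ q i) (x : ℕ) (i₀ : ι)
    (ht : S2_Top n q x i₀) :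
    |Int.fract ((p : ℝ) ^ x * (a : ℝ) / ((p : ℝ) ^ n - 1)) - (if b i₀ < 0 then 1 else 0)| ≤
      S2_g B (n - (q i₀ + x) % n) := by
  rw [S2_fract hp hn q b a ha x]
  have hf0 := Int.fract_nonneg
    (((∑ i, b i * (p : ℤ) ^ ((q i + x) % n) : ℤ) : ℝ) / ((p : ℝ) ^ n - 1))
  have hf1 := Int.fract_lt_one
    (((∑ i, b i * (p : ℤ) ^ ((q i + x) % n) : ℤ) : ℝ) / ((p : ℝ) ^ n - 1))
  by_cases h : (q i₀ + x) % n + B + 2 ≤ n
  · have h1 := fract_sparse hp (fun i => (q i + x) % n) b i₀ h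
      (fun i j hij => hinj (S2_mod_inj (hq i) (hq j) hij))
      (fun i hi => S2_low (hq i₀) (hq i) (hd i₀ i (Ne.symm hi)).1 (hd i₀ i (Ne.symm hi)).2
        (ht i hi)) (hb0 i₀) hb
    have h2 := S2_pow_le (n := n) (B := B) hp h
    by_cases h3 : b i₀ < 0
    · rw [if_pos h3]
      have h4 := h1.2 h3
      rw [abs_sub_comm, abs_of_nonneg (by linarith)]
      linarith
    · rw [if_neg h3, sub_zero, abs_of_nonneg hf0]
      have h4 := h1.1 (lt_of_le_of_ne (not_lt.1 h3) (hb0 i₀).symm)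
      linarith
  · have h1 : S2_g B (n - (q i₀ + x) % n) = 1 := by
      unfold S2_g
      rw [if_pos (by omega)]
    rw [h1]
    split_ifs
    · rw [abs_sub_comm, abs_of_nonneg (by linarith)]
      linarith
    · rw [sub_zero, abs_of_nonneg hf0]
      exact hf1.le

/-- The weight of `∑ b_i p ^ (q_i)` is the number of `x < n` for which the highest term of the sum
multiplied by `p ^ x` is negative, up to an error bounded by a constant per term. -/
theorem sparse_weight (B : ℕ) : ∃ C : ℝ, 0 ≤ C ∧ ∀ p n : ℕ, 2 ≤ p → 1 ≤ n →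
    ∀ {ι : Type} [Fintype ι] [DecidableEq ι] [Nonempty ι] (q : ι → ℕ) (b : ι → ℤ),
    (∀ i, q i < n) → (∀ i, b i ≠ 0) → (∀ i, |b i| ≤ (p : ℤ) ^ B) →
    (∀ i j, i ≠ j → ((B + 2 : ℕ) : ℤ) ≤ |(q i : ℤ) - q j| ∧
      |(q i : ℤ) - q j| ≤ (n : ℤ) - ((B + 2 : ℕ) : ℤ)) →
    ∀ a : ℤ, NN p n ∣ a - ∑ i, b i * (p : ℤ) ^ q i →
      |W p n a - ∑ i ∈ univ.filter (fun i => b i < 0), (gp n q i : ℝ)| ≤
        C * Fintype.card ι := by
  refine ⟨(B : ℝ) + 4, by positivity, ?_⟩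
  intro p n hp hn ι _ _ _ q b hq hb0 hb hd a ha
  classical
  have hinj : Function.Injective q := by
    intro i j hij
    by_contra h
    have h1 := (hd i j h).1
    rw [hij, sub_self, abs_zero] at h1
    have : (0 : ℤ) < ((B + 2 : ℕ) : ℤ) := by positivity
    omega
  have hex : ∀ x, ∃ i, S2_Top n q x i := S2_exists_top q hq hinj
  choose T hT using hex
  have h1 : ∑ i ∈ univ.filter (fun i => b i < 0), (gp n q i : ℝ) =
      ∑ x ∈ range n, (if b (T x) < 0 then (1 : ℝ) else 0) := by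
    rw [Finset.sum_congr rfl fun i _ => S2_gp_eq n q i, Finset.sum_comm]
    refine Finset.sum_congr rfl fun x _ => ?_
    rw [S2_sum_top n q _ x (T x) (hT x)]
    simp
  rw [h1]
  unfold W
  rw [← Finset.sum_sub_distrib]
  refine (Finset.abs_sum_le_sum_abs _ _).trans ?_
  have h2 : ∀ x ∈ range n,
      |Int.fract ((p : ℝ) ^ x * (a : ℝ) / ((p : ℝ) ^ n - 1)) - (if b (T x) < 0 then 1 else 0)| ≤
        ∑ i, S2_g B (n - (q i + x) % n) := by
    intro x _
    refine (S2_err hp hn q b hq hb0 hb hd hinj a ha x (T x) (hT x)).trans ?_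
    exact Finset.single_le_sum (f := fun i => S2_g B (n - (q i + x) % n))
      (fun i _ => S2_g_nonneg B _) (Finset.mem_univ (T x))
  refine (Finset.sum_le_sum h2).trans ?_
  rw [Finset.sum_comm]
  refine (Finset.sum_le_sum fun i _ => S2_sum_err (by omega) B (q i)).trans ?_
  rw [Finset.sum_const, nsmul_eq_mul, Finset.card_univ, mul_comm]

end Pool.Agent.Helper21.FD
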