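import Pool.Agent.Helper21.FD.Q1
import Pool.Agent.Helper21.FD.S2

/-!
MP_0aa406_nt, project FD (helper21): the gaps between the positions `ps n c + o j`.
-/

set_option autoImplicit false

namespace Pool.Agent.Helper21.FD

open Finset Pool.Agent.Helper21.FC

private theorem S3_mod (n a b : ℕ) (ha : a < n) (hb : b < n) :
    (a + n - b) % n = if b ≤ a then a - b else a + n - b := by
  split_ifs with h
  · have h1 : a + n - b = (a - b) + n := by omega
    rw [h1, Nat.add_mod_right]
    exact Nat.mod_eq_of_lt (by omega)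
  · exact Nat.mod_eq_of_lt (by omega)

private theorem S3_add (n a b : ℕ) (ha : a < n) (hb : b < n) :
    (a + b) % n = if a + b < n then a + b else a + b - n := by
  split_ifs with h
  · exact Nat.mod_eq_of_lt h
  · rw [Nat.mod_eq_sub_mod (by omega)]
    exact Nat.mod_eq_of_lt (by omega)

/-- the gap is at most the cyclic distance to any other position -/
theorem gp_le (n : ℕ) {ι : Type} [Fintype ι] [DecidableEq ι] (q : ι → ℕ) (hq : ∀ i, q i < n)
    (i j : ι) (hij : q i ≠ q j) : gp n q i ≤ (q j + n - q i) % n := by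
  have hi := hq i
  have hj := hq j
  have hne : j ≠ i := fun h => hij (by rw [h])
  have hd := S3_mod n (q j) (q i) hj hi
  generalize (q j + n - q i) % n = d at hd ⊢
  have hcard : (Finset.Ico (n - d) n).card ≤ d := by
    rw [Nat.card_Ico]
    omega
  refine le_trans ?_ hcard
  unfold gp
  refine Finset.card_le_card_of_injOn (fun x => (q i + x) % n) ?_ ?_
  · intro x hx
    simp only [Finset.coe_filter, Finset.mem_range, Set.mem_ofPred_eq] at hx
    obtain ⟨hx1, hx2⟩ := hx
    have h := hx2 j hne
    have e1 := S3_add n (q i) x hi hx1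
    have e2 := S3_add n (q j) x hj hx1
    simp only [Finset.coe_Ico, Set.mem_Ico]
    generalize (q i + x) % n = u at *
    generalize (q j + x) % n = v at *
    split_ifs at hd e1 e2 <;> omega
  · intro x hx y hy hxy
    simp only [Finset.coe_filter, Finset.mem_range, Set.mem_ofPred_eq] at hx hy
    have e1 := S3_add n (q i) x hi hx.1
    have e2 := S3_add n (q i) y hi hy.1
    simp only at hxy
    have hx1 := hx.1
    have hy1 := hy.1
    generalize (q i + x) % n = u at *
    generalize (q i + y) % n = v at *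
    split_ifs at e1 e2 <;> omega

/-- the gap is at least `g` if all positions are at cyclic distance at least `g` -/
theorem le_gp (n g : ℕ) {ι : Type} [Fintype ι] [DecidableEq ι] (q : ι → ℕ) (hq : ∀ i, q i < n)
    (i : ι) (hg : g ≤ n) (h : ∀ j, j ≠ i → g ≤ (q j + n - q i) % n) : g ≤ gp n q i := by
  have hi := hq i
  have hcard : g ≤ (Finset.Ico (n - g) n).card := by
    rw [Nat.card_Ico]
    omega
  refine le_trans hcard ?_
  unfold gp
  refine Finset.card_le_card_of_injOn (fun y => (y + n - q i) % n) ?_ ?_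
  · intro y hy
    simp only [Finset.coe_Ico, Set.mem_Ico] at hy
    simp only [Finset.coe_filter, Finset.mem_range, Set.mem_ofPred_eq]
    obtain ⟨hy1, hy2⟩ := hy
    have e0 := S3_mod n y (q i) hy2 hi
    have e0' : (y + n - q i) % n < n := Nat.mod_lt _ (by omega)
    refine ⟨e0', ?_⟩
    intro j hj
    have hjn := hq j
    have hd := h j hj
    have ed := S3_mod n (q j) (q i) hjn hi
    generalize (y + n - q i) % n = x at *
    have e1 := S3_add n (q i) x hi e0'
    have e2 := S3_add n (q j) x hjn e0'
    generalize (q j + n - q i) % n = d at *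
    generalize (q i + x) % n = u at *
    generalize (q j + x) % n = v at *
    split_ifs at ed e0 e1 e2 <;> omega
  · intro x hx y hy hxy
    simp only [Finset.coe_Ico, Set.mem_Ico] at hx hy
    simp only at hxy
    have e1 := S3_mod n x (q i) hx.2 hi
    have e2 := S3_mod n y (q i) hy.2 hi
    have hx1 := hx.2
    have hy1 := hy.2
    generalize (x + n - q i) % n = u at *
    generalize (y + n - q i) % n = v at *
    split_ifs at e1 e2 <;> omega

private theorem S3_gp_le_n (n : ℕ) {ι : Type} [Fintype ι] [DecidableEq ι] (q : ι → ℕ) (i : ι) :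
    gp n q i ≤ n := by
  unfold gp
  exact le_trans (Finset.card_filter_le _ _) (by rw [Finset.card_range])

variable {K : ℕ} [NeZero K] {J : Type} [Fintype J] [DecidableEq J]

/-- the positions of the blocks -/
def bp (n : ℕ) (o : J → ℕ) (x : J × ZMod K) : ℕ := ps n x.2 + o x.1

theorem bp_lt (n D : ℕ) (hD : 1 ≤ D) (o : J → ℕ) (hmax : ∀ j, o j + D ≤ n / K) (x : J × ZMod K) :
    bp n o x < n := by
  have h1 := ps_le n x.2
  have h2 := hmax x.1
  unfold bp
  omega

private theorem S3_mono (n : ℕ) (c c' : ZMod K) (h : c.val < c'.val) :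
    ps n c + n / K ≤ ps n c' := by
  have h1 := ps_mono n c c' h
  have h2 : 1 ≤ c'.val - c.val := by omega
  have h3 : 1 * (n / K) ≤ (c'.val - c.val) * (n / K) := Nat.mul_le_mul_right _ h2
  rw [Nat.one_mul] at h3
  omega

theorem bp_far (n D : ℕ) (hD : 1 ≤ D) (o : J → ℕ) (hsep : ∀ i j, i ≠ j → (D : ℤ) ≤ |(o i : ℤ) - o j|)
    (hmax : ∀ j, o j + D ≤ n / K) (x y : J × ZMod K) (hxy : x ≠ y) :
    (D : ℤ) ≤ |(bp n o x : ℤ) - bp n o y| ∧ |(bp n o x : ℤ) - bp n o y| ≤ (n : ℤ) - D := by
  have hx1 := ps_le n x.2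
  have hy1 := ps_le n y.2
  have hx2 := hmax x.1
  have hy2 := hmax y.1
  unfold bp
  by_cases h : x.2 = y.2
  · have h1 : x.1 ≠ y.1 := fun h' => hxy (Prod.ext h' h)
    have h2 := hsep _ _ h1
    rw [h] at hx1 ⊢
    have h3 : ((ps n y.2 + o x.1 : ℕ) : ℤ) - ((ps n y.2 + o y.1 : ℕ) : ℤ) = (o x.1 : ℤ) - o y.1 := by
      push_cast
      ring
    rw [h3]
    refine ⟨h2, ?_⟩
    rw [abs_le]
    constructor <;> omega
  · rcases lt_trichotomy x.2.val y.2.val with hlt | heq | hlt
    · have h1 := S3_mono n _ _ hlt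
      rw [le_abs, abs_le]
      refine ⟨Or.inr ?_, ?_, ?_⟩ <;> omega
    · exact absurd (ZMod.val_injective K heq) h
    · have h1 := S3_mono n _ _ hlt
      rw [le_abs, abs_le]
      refine ⟨Or.inl ?_, ?_, ?_⟩ <;> omega

/-- the gap is at most the distance to a higher block -/
theorem gp_up (n D : ℕ) (hD : 1 ≤ D) (o : J → ℕ) (hmax : ∀ j, o j + D ≤ n / K) (j j' : J)
    (c : ZMod K) (h : o j < o j') : gp n (bp (K := K) n o) (j, c) ≤ o j' - o j := by
  have hlt := bp_lt (K := K) n D hD o hmax
  have h1 := hlt (j, c)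
  have h2 := hlt (j', c)
  have h3 := gp_le n (bp (K := K) n o) hlt (j, c) (j', c) (by unfold bp; simp only; omega)
  rw [S3_mod n _ _ h2 h1] at h3
  unfold bp at h3
  simp only at h3
  unfold bp
  split_ifs at h3 <;> omega

/-- the gap is at most the distance to the next translate of a block -/
theorem gp_next (n D : ℕ) (hD : 1 ≤ D) (o : J → ℕ) (hmax : ∀ j, o j + D ≤ n / K) (j j' : J)
    (c : ZMod K) : gp n (bp (K := K) n o) (j, c) + o j ≤ n / K + 1 + o j' := by
  have hlt := bp_lt (K := K) n D hD o hmax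
  have hmj := hmax j
  have hmj' := hmax j'
  have hcK : c.val < K := ZMod.val_lt c
  have hKpos : 0 < K := Nat.pos_of_ne_zero (NeZero.ne K)
  have h1 := hlt (j, c)
  by_cases hc : c.val + 1 = K
  · have hlast := ps_last n c hc
    by_cases hne : bp (K := K) n o (j, c) = bp (K := K) n o (j', 0)
    · have h4 := S3_gp_le_n n (bp (K := K) n o) (j, c)
      unfold bp at hne
      simp only [ps_zero] at hne
      generalize gp n (bp (K := K) n o) (j, c) = g at h4 ⊢
      omega
    · have h2 := hlt (j', 0)
      have h3 := gp_le n (bp (K := K) n o) hlt (j, c) (j', 0) hne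
      have h4 := S3_gp_le_n n (bp (K := K) n o) (j, c)
      rw [S3_mod n _ _ h2 h1] at h3
      generalize gp n (bp (K := K) n o) (j, c) = g at h3 h4 ⊢
      unfold bp at h1 h2 h3 hne
      simp only [ps_zero] at h1 h2 h3 hne
      split_ifs at h3 with hs
      · -- then `c = 0`
        by_cases hc0 : c.val = 0
        · omega
        · exfalso
          have h5 : (0 : ZMod K).val < c.val := by
            rw [ZMod.val_zero]
            omega
          have h6 := S3_mono n _ _ h5
          rw [ps_zero] at h6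
          omega
      · omega
  · have hcv : (c + 1).val = c.val + 1 := by
      have : (1 : ZMod K).val = 1 := by
        rw [ZMod.val_one_eq_one_mod]
        exact Nat.mod_eq_of_lt (by omega)
      rw [ZMod.val_add, this]
      exact Nat.mod_eq_of_lt (by omega)
    have h2 := hlt (j', c + 1)
    have h5 := S3_mono n c (c + 1) (by omega)
    have h6 := ps_succ n c (c + 1) hcv
    have hne : bp (K := K) n o (j, c) ≠ bp (K := K) n o (j', c + 1) := by
      unfold bp
      simp only
      omega
    have h3 := gp_le n (bp (K := K) n o) hlt (j, c) (j', c + 1) hne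
    rw [S3_mod n _ _ h2 h1] at h3
    generalize gp n (bp (K := K) n o) (j, c) = g at h3 ⊢
    unfold bp at h1 h2 h3
    simp only at h1 h2 h3
    split_ifs at h3 <;> omega

/-- one block: the gaps are at least `n / K` -/
theorem gp_one (n : ℕ) (hn : K ≤ n) (o : J → ℕ) (ho : ∀ j, o j = 0) (hJ : ∀ j j' : J, j = j')
    (x : J × ZMod K) : n / K ≤ gp n (bp n o) x := by
  have hKpos : 0 < K := Nat.pos_of_ne_zero (NeZero.ne K)
  have hnK : 1 ≤ n / K := (Nat.one_le_div_iff hKpos).2 hn
  have hlt := bp_lt (K := K) n 1 le_rfl o (fun j => by rw [ho j]; omega)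
  refine le_gp n (n / K) (bp n o) hlt x (Nat.div_le_self n K) ?_
  intro y hy
  have h1 := hlt x
  have h2 := hlt y
  rw [S3_mod n _ _ h2 h1]
  unfold bp at h1 h2 ⊢
  rw [ho, ho] at *
  have hx1 := ps_le n x.2
  have hy1 := ps_le n y.2
  rcases lt_trichotomy x.2.val y.2.val with hl | heq | hl
  · have h3 := S3_mono n _ _ hl
    split_ifs <;> omega
  · exact absurd (Prod.ext (hJ _ _) (ZMod.val_injective K heq.symm)) hy
  · have h3 := S3_mono n _ _ hl
    split_ifs <;> omega

end Pool.Agent.Helper21.FD
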