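import Pool.Agent.Helper21.FD.Q3
import Pool.Agent.Helper21.FD.S3

/-!
MP_0aa406_nt, project FD (helper21): the weight of sums of blocks, and the gain from one direction.
-/

set_option autoImplicit false

namespace Pool.Agent.Helper21.FD

open Finset Pool.Agent.Helper21.FC

/-- the weight of `∑_j p ^ (o j) ev (z j)` -/
theorem block_weight (K : ℕ) [NeZero K] (B : ℕ) : ∃ C : ℝ, 0 ≤ C ∧ ∀ p n : ℕ, 2 ≤ p → K ≤ n →
    ∀ {J : Type} [Fintype J] [DecidableEq J] [Nonempty J] (o : J → ℕ) (z : J → ZMod K → ℤ),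
    (∀ i j, i ≠ j → ((B + 2 : ℕ) : ℤ) ≤ |(o i : ℤ) - o j|) → (∀ j, o j + (B + 2) ≤ n / K) →
    (∀ j c, z j c ≠ 0) → (∀ j c, |z j c| ≤ (p : ℤ) ^ B) →
    ∀ (a : ℤ) (s : ℕ), NN p n ∣ a - (p : ℤ) ^ s * ∑ j, (p : ℤ) ^ o j * ev p n (z j) →
      |W p n a - ∑ x ∈ univ.filter (fun x : J × ZMod K => z x.1 x.2 < 0),
        (gp n (bp n o) x : ℝ)| ≤ C * Fintype.card J := by
  obtain ⟨C0, hC0, H⟩ := sparse_weight B
  refine ⟨C0 * K, by positivity, ?_⟩
  intro p n hp hKn J _ _ _ o z hsep hmax hz0 hzB a s hdvd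
  have hK : 1 ≤ K := Nat.one_le_iff_ne_zero.mpr (NeZero.ne K)
  have hn : 1 ≤ n := hK.trans hKn
  have h1 : W p n a = W p n (∑ x : J × ZMod K, z x.1 x.2 * (p : ℤ) ^ bp n o x) := by
    rw [W_congr hp hn hdvd, W_pow_mul hp hn]
    congr 1
    rw [Fintype.sum_prod_type]
    refine Finset.sum_congr rfl fun j _ => ?_
    unfold ev
    rw [Finset.mul_sum]
    refine Finset.sum_congr rfl fun c _ => ?_
    simp only [bp]
    rw [pow_add]
    ring
  have h2 := H p n hp hn (ι := J × ZMod K) (bp n o) (fun x => z x.1 x.2)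
    (fun x => bp_lt n (B + 2) (by omega) o hmax x) (fun x => hz0 x.1 x.2)
    (fun x => hzB x.1 x.2)
    (fun x y hxy => bp_far n (B + 2) (by omega) o hsep hmax x y hxy)
    (∑ x : J × ZMod K, z x.1 x.2 * (p : ℤ) ^ bp n o x) (by simp)
  rw [h1]
  refine h2.trans (le_of_eq ?_)
  rw [Fintype.card_prod, ZMod.card]
  push_cast
  ring

theorem S4_sign {x : ℤ} (hx : x ≠ 0) : ((Int.sign x : ℤ) : ℝ) = 1 - 2 * (if x < 0 then 1 else 0) := by
  rcases lt_or_gt_of_ne hx with h | h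
  · rw [Int.sign_eq_neg_one_of_neg h, if_pos h]
    norm_num
  · rw [Int.sign_eq_one_of_pos h, if_neg (not_lt.mpr h.le)]
    norm_num

/-- a direction of value `c` gives the gain `c n / (2 k) - C` -/
theorem gain_of_dval (k : ℕ) [NeZero k] (h B : ℕ) (hh : 0 < h) : ∃ (C : ℝ) (N1 : ℕ), ∀ p : ℕ,
    2 ≤ p → ∀ n : ℕ, N1 ≤ n → ∀ μ : ZMod k → ℤ, (∀ t, |μ t| ≤ (p : ℤ) ^ B) → ∀ c : ℝ, 1 ≤ c →
    DVal p n B μ c → ∀ (d : ℤ) (r : ℕ), NN p n ∣ h * d - (p : ℤ) ^ r * ev p n μ →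
      Gain p n d (c * n / (2 * k) - C) := by
  obtain ⟨E, hE⟩ : ∃ E : ℕ, E = B + B + k + 1 + h := ⟨_, rfl⟩
  obtain ⟨C0, hC0, H⟩ := block_weight k E
  have hk : 1 ≤ k := Nat.one_le_iff_ne_zero.mpr (NeZero.ne k)
  have hk0 : (0 : ℝ) < k := by exact_mod_cast hk
  refine ⟨k + 2 * C0, k * (E + 2) + ⌈2 * (k : ℝ) * (k + 2 * C0)⌉₊ + 1, ?_⟩
  intro p hp n hn μ hμ c hc hD d r hd
  obtain ⟨w, hwB, hw0, hz0, hcs⟩ := hD
  have hp1 : (1 : ℤ) ≤ p := by exact_mod_cast (by omega : 1 ≤ p)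
  have hEn : k * (E + 2) ≤ n := by omega
  have hdiv : E + 2 ≤ n / k := (Nat.le_div_iff_mul_le (by omega)).mpr (by linarith [mul_comm k (E + 2)])
  have hkn : k ≤ n := by nlinarith
  have hn1 : 1 ≤ n := hk.trans hkn
  have hnC : 2 * (k : ℝ) * (k + 2 * C0) < n := by
    have h1 := Nat.le_ceil (2 * (k : ℝ) * (k + 2 * C0))
    have h2 : (⌈2 * (k : ℝ) * (k + 2 * C0)⌉₊ : ℝ) + 1 ≤ n := by
      exact_mod_cast (by omega : ⌈2 * (k : ℝ) * (k + 2 * C0)⌉₊ + 1 ≤ n)
    linarith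
  obtain ⟨z, hz⟩ : ∃ z, z = rmul p n μ w := ⟨_, rfl⟩
  rw [← hz] at hz0 hcs
  obtain ⟨a, ha⟩ : ∃ a : ℤ, a = (h : ℤ) * ev p n w := ⟨_, rfl⟩
  have hzB : ∀ u, |z u| ≤ (p : ℤ) ^ E := by
    intro u
    rw [hz]
    refine (rmul_bound p n hp B B μ w hμ hwB u).trans ?_
    exact pow_le_pow_right₀ hp1 (by omega)
  have hhp : (h : ℤ) ≤ (p : ℤ) ^ h := by
    have h1 : h < 2 ^ h := Nat.lt_two_pow_self
    have h2 : 2 ^ h ≤ p ^ h := Nat.pow_le_pow_left hp h
    exact_mod_cast (h1.trans_le h2).le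
  have hwE : ∀ u, |(h : ℤ) * w u| ≤ (p : ℤ) ^ E := by
    intro u
    rw [abs_mul, abs_of_nonneg (by positivity : (0 : ℤ) ≤ (h : ℤ))]
    calc (h : ℤ) * |w u| ≤ (p : ℤ) ^ h * (p : ℤ) ^ B :=
          mul_le_mul hhp (hwB u) (abs_nonneg _) (by positivity)
      _ = (p : ℤ) ^ (h + B) := by rw [pow_add]
      _ ≤ (p : ℤ) ^ E := pow_le_pow_right₀ hp1 (by omega)
  obtain ⟨o, ho⟩ : ∃ o : Unit → ℕ, o = fun _ => 0 := ⟨_, rfl⟩
  have hsep : ∀ i j : Unit, i ≠ j → ((E + 2 : ℕ) : ℤ) ≤ |(o i : ℤ) - o j| :=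
    fun i j hij => absurd (Subsingleton.elim i j) hij
  have hmax : ∀ j, o j + (E + 2) ≤ n / k := by
    intro j
    rw [ho]
    simpa using hdiv
  have hev : ev p n (fun c => (h : ℤ) * w c) = (h : ℤ) * ev p n w := by
    unfold ev
    rw [Finset.mul_sum]
    exact Finset.sum_congr rfl fun c _ => by ring
  have Ha := H p n hp hkn o (fun _ c => (h : ℤ) * w c) hsep hmax
    (fun _ c => mul_ne_zero (by exact_mod_cast hh.ne') (hw0 c)) (fun _ c => hwE c) a 0 (by
      rw [ho, ha]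
      simp [hev])
  have Hda := H p n hp hkn o (fun _ => z) hsep hmax (fun _ c => hz0 c) (fun _ c => hzB c)
    (d * a) r (by
      have h1 : NN p n ∣ (h * d - (p : ℤ) ^ r * ev p n μ) * ev p n w := hd.mul_right _
      have h2 : NN p n ∣ (p : ℤ) ^ r * (ev p n μ * ev p n w - ev p n (rmul p n μ w)) :=
        (ev_rmul p n μ w).mul_left _
      have h3 := h1.add h2
      rw [ho, ha]
      simp only [Finset.univ_unique, Finset.sum_singleton, pow_zero, one_mul]
      rw [hz]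
      have h4 : d * ((h : ℤ) * ev p n w) - (p : ℤ) ^ r * ev p n (rmul p n μ w) =
          (h * d - (p : ℤ) ^ r * ev p n μ) * ev p n w +
          (p : ℤ) ^ r * (ev p n μ * ev p n w - ev p n (rmul p n μ w)) := by ring
      rw [h4]
      exact h3)
  obtain ⟨f, hf⟩ : ∃ f : Unit × ZMod k → ℝ, f = fun x => (gp n (bp n o) x : ℝ) := ⟨_, rfl⟩
  have hf1 : ∀ x, |f x - n / k| ≤ 1 := by
    intro x
    have h1 := gp_one n hkn o (fun j => by rw [ho]) (fun j j' => Subsingleton.elim j j') x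
    have h2 := gp_next n (E + 2) (by omega) o hmax x.1 x.1 x.2
    have h2' : gp n (bp n o) x ≤ n / k + 1 := by
      have h3 : ((x.1, x.2) : Unit × ZMod k) = x := rfl
      rw [h3] at h2
      omega
    have h4 : (n : ℝ) / k < ((n / k : ℕ) : ℝ) + 1 := by
      rw [div_lt_iff₀ hk0]
      have h5 := Nat.lt_div_mul_add (a := n) (b := k) (by omega)
      have h6 : (n : ℝ) < ((n / k : ℕ) : ℝ) * k + k := by exact_mod_cast h5
      linarith
    have h7 : ((n / k : ℕ) : ℝ) ≤ (n : ℝ) / k := Nat.cast_div_le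
    have h8 : ((n / k : ℕ) : ℝ) ≤ f x := by
      have h8' : ((n / k : ℕ) : ℝ) ≤ (gp n (bp n o) x : ℝ) := by exact_mod_cast h1
      rw [hf]
      exact h8'
    have h9 : f x ≤ ((n / k : ℕ) : ℝ) + 1 := by
      have h9' : (gp n (bp n o) x : ℝ) ≤ ((n / k : ℕ) : ℝ) + 1 := by exact_mod_cast h2'
      rw [hf]
      exact h9'
    rw [abs_le]
    constructor <;> linarith
  have hWa : W p n a ≤ (∑ x : Unit × ZMod k, f x * (if w x.2 < 0 then 1 else 0)) + C0 := by
    have h1 := (abs_le.mp Ha).2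
    have h2 : ∑ x ∈ univ.filter (fun x : Unit × ZMod k => (h : ℤ) * w x.2 < 0),
        (gp n (bp n o) x : ℝ) = ∑ x : Unit × ZMod k, f x * (if w x.2 < 0 then 1 else 0) := by
      rw [Finset.sum_filter]
      refine Finset.sum_congr rfl fun x _ => ?_
      have h3 : ((h : ℤ) * w x.2 < 0) ↔ w x.2 < 0 := by
        constructor
        · intro h4
          by_contra h5
          have : 0 ≤ (h : ℤ) * w x.2 := mul_nonneg (by positivity) (not_lt.mp h5)
          omega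
        · intro h4
          exact mul_neg_of_pos_of_neg (by exact_mod_cast hh) h4
      by_cases h4 : w x.2 < 0
      · rw [if_pos (h3.mpr h4), if_pos h4, hf]
        simp
      · rw [if_neg (fun h5 => h4 (h3.mp h5)), if_neg h4]
        simp
    rw [h2] at h1
    simp only [Fintype.card_unit, Nat.cast_one, mul_one] at h1
    linarith
  have hWda : (∑ x : Unit × ZMod k, f x * (if z x.2 < 0 then 1 else 0)) - C0 ≤ W p n (d * a) := by
    have h1 := (abs_le.mp Hda).1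
    have h2 : ∑ x ∈ univ.filter (fun x : Unit × ZMod k => z x.2 < 0),
        (gp n (bp n o) x : ℝ) = ∑ x : Unit × ZMod k, f x * (if z x.2 < 0 then 1 else 0) := by
      rw [Finset.sum_filter]
      refine Finset.sum_congr rfl fun x _ => ?_
      by_cases h4 : z x.2 < 0
      · rw [if_pos h4, if_pos h4, hf]
        simp
      · rw [if_neg h4, if_neg h4]
        simp
    rw [h2] at h1
    simp only [Fintype.card_unit, Nat.cast_one, mul_one] at h1
    linarith
  have hsum : (n : ℝ) / k * (c / 2) - k ≤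
      (∑ x : Unit × ZMod k, f x * (if z x.2 < 0 then 1 else 0)) -
      ∑ x : Unit × ZMod k, f x * (if w x.2 < 0 then 1 else 0) := by
    rw [← Finset.sum_sub_distrib]
    have h1 : ∀ x ∈ (univ : Finset (Unit × ZMod k)),
        (n : ℝ) / k * ((if z x.2 < 0 then (1 : ℝ) else 0) - (if w x.2 < 0 then 1 else 0)) - 1 ≤
        f x * (if z x.2 < 0 then 1 else 0) - f x * (if w x.2 < 0 then 1 else 0) := by
      intro x _
      have h2 := abs_le.mp (hf1 x)
      split_ifs <;> linarith [h2.1, h2.2]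
    refine le_trans ?_ (Finset.sum_le_sum h1)
    rw [Finset.sum_sub_distrib, ← Finset.mul_sum]
    have h3 : (∑ x : Unit × ZMod k,
        ((if z x.2 < 0 then (1 : ℝ) else 0) - (if w x.2 < 0 then 1 else 0))) =
        (((∑ i, Int.sign (w i) - ∑ u, Int.sign (z u) : ℤ) : ℝ)) / 2 := by
      rw [Fintype.sum_prod_type]
      simp only [Finset.univ_unique, Finset.sum_singleton]
      rw [← Finset.sum_sub_distrib]
      push_cast
      rw [Finset.sum_div]
      refine Finset.sum_congr rfl fun i _ => ?_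
      rw [S4_sign (hw0 i), S4_sign (hz0 i)]
      ring
    rw [h3]
    have h4 : (∑ _x : Unit × ZMod k, (1 : ℝ)) = k := by
      simp [ZMod.card]
    rw [h4]
    have h5 : (0 : ℝ) ≤ (n : ℝ) / k := by positivity
    have h6 := mul_le_mul_of_nonneg_left (div_le_div_of_nonneg_right hcs (by norm_num : (0 : ℝ) ≤ 2)) h5
    linarith
  have hgain : c * n / (2 * k) - (k + 2 * C0) ≤ W p n (d * a) - W p n a := by
    have h1 : c * n / (2 * k) = (n : ℝ) / k * (c / 2) := by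
      field_simp
    rw [h1]
    linarith
  refine ⟨a, ?_, hgain⟩
  intro hdvd
  have h1 : W p n a = 0 := W_zero hp hn1 hdvd
  have h2 : W p n (d * a) = 0 := W_zero hp hn1 (hdvd.mul_left d)
  rw [h1, h2] at hgain
  have h3 : (k + 2 * C0) < c * n / (2 * k) := by
    rw [lt_div_iff₀ (by positivity)]
    have h4 : (n : ℝ) ≤ c * n := by
      have : (0 : ℝ) ≤ n := by positivity
      nlinarith
    nlinarith
  linarith

end Pool.Agent.Helper21.FD
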