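import Pool.Agent.Helper21.FD.H2
import Pool.Agent.Helper21.FD.K3
import Pool.Agent.Helper21.FD.K4
import Pool.Agent.Helper21.FD.K5
import Pool.Agent.Helper21.FD.S4

/-!
MP_0aa406_nt, project FD (helper21): one class, `gcd k n` a power of two.
-/

set_option autoImplicit false

namespace Pool.Agent.Helper21.FD

open Finset Polynomial Pool.Agent.Helper21.FC

/-- the data of a single class: `h d ≡ p ^ r ev μ`, `h' d' ≡ p ^ r' ev μ'`, `d d' ≡ 1`,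
`p ^ α μ μ' = h h' p ^ β e_c` -/
def OneClass (p n B h h' : ℕ) {k : ℕ} [NeZero k] (μ μ' : ZMod k → ℤ) (d d' : ℤ) : Prop :=
  (∀ t, |μ t| ≤ (p : ℤ) ^ B) ∧ (∀ t, |μ' t| ≤ (p : ℤ) ^ B) ∧
  (∃ (α β : ℕ) (c : ZMod k), α ≤ B ∧ β ≤ B ∧ ∀ u, (p : ℤ) ^ α * rmul p n μ μ' u =
    (Pi.single c (((h * h' : ℕ) : ℤ) * (p : ℤ) ^ β) : ZMod k → ℤ) u) ∧
  NN p n ∣ d * d' - 1 ∧
  (∃ r : ℕ, NN p n ∣ h * d - (p : ℤ) ^ r * ev p n μ) ∧
  ∃ r' : ℕ, NN p n ∣ h' * d' - (p : ℤ) ^ r' * ev p n μ'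

theorem K7_gain_mono {p n : ℕ} {d : ℤ} {c c' : ℝ} (hc : c' ≤ c) (h : Gain p n d c) :
    Gain p n d c' := by
  obtain ⟨a, ha, h⟩ := h
  exact ⟨a, ha, hc.trans h⟩

theorem K7_pow_mono {p : ℕ} (hp : 2 ≤ p) {B B' : ℕ} (hB : B ≤ B') {x : ℤ}
    (hx : |x| ≤ (p : ℤ) ^ B) : |x| ≤ (p : ℤ) ^ B' := by
  refine hx.trans ?_
  exact pow_le_pow_right₀ (by exact_mod_cast (le_trans (by norm_num) hp : 1 ≤ p)) hB

theorem K7_dval_mono {p n B B' : ℕ} (hp : 2 ≤ p) (hB : B ≤ B') {k : ℕ} [NeZero k]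
    {μ : ZMod k → ℤ} {c : ℝ} (h : DVal p n B μ c) : DVal p n B' μ c := by
  obtain ⟨w, hw, h⟩ := h
  exact ⟨w, fun i => K7_pow_mono hp hB (hw i), h⟩

/-- at most one entry: reduction to `k = 1` -/
theorem K7_one (k : ℕ) [NeZero k] (h h' B : ℕ) (hh : 0 < h) (hh' : 0 < h') :
    ∃ (C : ℝ) (N1 : ℕ), ∀ p : ℕ, p.Prime → ∀ n : ℕ, N1 ≤ n →
    ∀ (μ μ' : ZMod k → ℤ) (d d' : ℤ), OneClass p n B h h' μ μ' d d' →
    ¬ (∃ c c', c ≠ c' ∧ μ c ≠ 0 ∧ μ c' ≠ 0) →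
    (∀ j : ℕ, ¬ NN p n ∣ d - (p : ℤ) ^ j) → Gain p n d ((n : ℝ) / 2 - C) := by
  obtain ⟨C, N1, hC⟩ := domain_case 1 h h' (B + 4) hh hh'
  refine ⟨C, max N1 k, ?_⟩
  intro p hp n hn μ μ' d d' hone hno hnd
  obtain ⟨hμ, hμ', ⟨α, β, c, hα, hβ, hrel⟩, hdd, ⟨r, hr⟩, ⟨r', hr'⟩⟩ := hone
  have hn1 : N1 ≤ n := (le_max_left _ _).trans hn
  have hnk : k ≤ n := (le_max_right _ _).trans hn
  obtain ⟨c0, hc0⟩ : ∃ c0 : ZMod k, ∀ t, μ t ≠ 0 → pr k t = pr k c0 := by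
    by_cases hz : ∃ c0, μ c0 ≠ 0
    · obtain ⟨c0, hc0⟩ := hz
      refine ⟨c0, fun t ht => ?_⟩
      by_contra hne
      apply hno
      refine ⟨t, c0, ?_, ht, hc0⟩
      rintro rfl
      exact hne rfl
    · push Not at hz
      exact ⟨0, fun t ht => absurd (hz t) ht⟩
  obtain ⟨ν, ν', β', c', hν, hν', hβ', hrel', h1, h2⟩ :=
    descend p n hp.two_le k 1 k B (by ring) hnk μ μ' hμ hμ' (h * h') (Nat.mul_pos hh hh') α β c hβ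
      hrel c0 hc0
  obtain ⟨s, hs⟩ := h1 _ r hr
  obtain ⟨s', hs'⟩ := h2 _ r' hr'
  refine hC p hp n hn1 ν ν' hν hν' α β' c' (by omega) hβ' hrel' d d' s s' hdd ?_ hs hs'
  intro j
  rw [Nat.gcd_one_left, Nat.div_one]
  exact hnd j

/-- at least two entries, but at most one after summation: the two-power tower -/
theorem K7_tower (k : ℕ) [NeZero k] (h B : ℕ) (hh : 0 < h) :
    ∃ (C : ℝ) (N1 : ℕ), ∀ p : ℕ, p.Prime → ∀ n : ℕ, N1 ≤ n → ∀ b : ℕ, 2 ^ b ∣ k →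
    ∀ μ : ZMod k → ℤ, (∀ t, |μ t| ≤ (p : ℤ) ^ B) →
    (∃ c c', c ≠ c' ∧ μ c ≠ 0 ∧ μ c' ≠ 0) → ¬ Two (qt (k / 2 ^ b) (ci p n μ)) →
    ∀ (d : ℤ) (r : ℕ), NN p n ∣ h * d - (p : ℤ) ^ r * ev p n μ →
      Gain p n d ((n : ℝ) / 2 - C) := by
  obtain ⟨B1, hB1⟩ := loc_two k B
  obtain ⟨C, N1, hC⟩ := gain_of_dval k h (max B B1) hh
  refine ⟨C, N1, ?_⟩
  intro p hp n hn b hb μ hμ htwo hnot d r hr
  have hk : (1 : ℝ) ≤ (k : ℝ) := by exact_mod_cast Nat.one_le_iff_ne_zero.mpr (NeZero.ne k)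
  have hd : DVal p n (max B B1) μ k :=
    K7_dval_mono hp.two_le (le_max_right _ _) (hB1 p hp n μ hμ b hb htwo hnot)
  have := hC p hp.two_le n hn μ (fun t => K7_pow_mono hp.two_le (le_max_left _ _) (hμ t)) k hk hd
    d r hr
  refine K7_gain_mono (le_of_eq ?_) this
  have hk0 : (k : ℝ) ≠ 0 := by positivity
  field_simp

theorem single_two (k : ℕ) [NeZero k] (h h' B : ℕ) (hh : 0 < h) (hh' : 0 < h') :
    ∃ (C : ℝ) (N1 : ℕ), ∀ p : ℕ, p.Prime → ∀ n : ℕ, N1 ≤ n → ∀ b : ℕ, Nat.gcd k n = 2 ^ b →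
    ∀ (μ μ' : ZMod k → ℤ) (d d' : ℤ), OneClass p n B h h' μ μ' d d' →
    (∀ j : ℕ, ¬ NN p n ∣ d - (p : ℤ) ^ j) → Gain p n d ((n : ℝ) / 2 - C) := by
  obtain ⟨C1, N1, h1⟩ := K7_one k h h' B hh hh'
  obtain ⟨C2, N2, h2⟩ := K7_tower k h B hh
  obtain ⟨C3, N3, h3⟩ := domain_case k h h' B hh hh'
  obtain ⟨N4, h4⟩ := nondegenerate k h B hh
  refine ⟨max C1 (max C2 C3), max N1 (max N2 (max N3 N4)), ?_⟩
  intro p hp n hn b hg μ μ' d d' hone hnd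
  have e1 : N1 ≤ n := (le_max_left _ _).trans hn
  have e234 : max N2 (max N3 N4) ≤ n := (le_max_right _ _).trans hn
  have e2 : N2 ≤ n := (le_max_left _ _).trans e234
  have e34 : max N3 N4 ≤ n := (le_max_right _ _).trans e234
  have e3 : N3 ≤ n := (le_max_left _ _).trans e34
  have e4 : N4 ≤ n := (le_max_right _ _).trans e34
  have m1 : C1 ≤ max C1 (max C2 C3) := le_max_left _ _
  have m2 : C2 ≤ max C1 (max C2 C3) := (le_max_left _ _).trans (le_max_right _ _)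
  have m3 : C3 ≤ max C1 (max C2 C3) := (le_max_right _ _).trans (le_max_right _ _)
  by_cases hno : ∃ c c', c ≠ c' ∧ μ c ≠ 0 ∧ μ c' ≠ 0
  · have hone' := hone
    obtain ⟨hμ, hμ', ⟨α, β, c, hα, hβ, hrel⟩, hdd, ⟨r, hr⟩, ⟨r', hr'⟩⟩ := hone'
    by_cases htwo : Two (qt (k / Nat.gcd k n) (ci p n μ))
    · have hnd' := h4 p hp n e4 (Nat.gcd k n) (Nat.gcd_dvd_left k n) (Nat.gcd_dvd_right k n) μ hμ
        htwo d r hr
      exact K7_gain_mono (by linarith) (h3 p hp n e3 μ μ' hμ hμ' α β c hα hβ hrel d d' r r' hdd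
        hnd' hr hr')
    · have hb : 2 ^ b ∣ k := hg ▸ Nat.gcd_dvd_left k n
      rw [hg] at htwo
      exact K7_gain_mono (by linarith) (h2 p hp n e2 b hb μ hμ hno htwo d r hr)
  · exact K7_gain_mono (by linarith) (h1 p hp n e1 μ μ' d d' hone hno hnd)

end Pool.Agent.Helper21.FD
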