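import Pool.Agent.Helper21.FD.H1
import Pool.Agent.Helper21.FD.K6
import Pool.Agent.Helper21.FD.K7

/-!
MP_0aa406_nt, project FD (helper21): one class of positions.
-/

set_option autoImplicit false

namespace Pool.Agent.Helper21.FD

open Finset Pool.Agent.Helper21.FC

private theorem K8_dval_mono {p n B B' : ℕ} (hp : 2 ≤ p) (hB : B ≤ B') {k : ℕ} [NeZero k]
    {μ : ZMod k → ℤ} {c : ℝ} (h : DVal p n B μ c) : DVal p n B' μ c := by
  obtain ⟨w, h1, h2, h3, h4⟩ := h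
  refine ⟨w, fun i => (h1 i).trans ?_, h2, h3, h4⟩
  exact pow_le_pow_right₀ (by exact_mod_cast (by omega : 1 ≤ p)) hB

private theorem K8_trivial {p n : ℕ} (hp : 2 ≤ p) (hn : 2 ≤ n) (d : ℤ) : Gain p n d (-1) := by
  have hn1 : 1 ≤ n := by omega
  refine ⟨1, ?_, ?_⟩
  · intro h
    have h1 : NN p n ≤ 1 := Int.le_of_dvd one_pos h
    unfold NN at h1
    have h2 : (2 : ℤ) ^ 2 ≤ (p : ℤ) ^ n := by
      calc (2 : ℤ) ^ 2 ≤ (p : ℤ) ^ 2 := by
            apply pow_le_pow_left₀ (by norm_num)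
            exact_mod_cast hp
        _ ≤ (p : ℤ) ^ n := pow_le_pow_right₀ (by exact_mod_cast (by omega : 1 ≤ p)) hn
    norm_num at h2
    omega
  · have hW1 : W p n 1 ≤ 1 := by
      have h1 := W_le_self hp hn1 1
      push_cast at h1
      refine h1.trans ?_
      have : (2 : ℝ) ≤ p := by exact_mod_cast hp
      rw [div_le_one (by linarith)]
      linarith
    have := W_nonneg p n (d * 1)
    linarith

theorem single_class (k : ℕ) [NeZero k] (h h' B : ℕ) (hh : 0 < h) (hh' : 0 < h') :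
    ∃ (C : ℝ) (N1 : ℕ), ∀ p : ℕ, p.Prime → ∀ n : ℕ, N1 ≤ n → ∀ l : ℕ, 1 ≤ l →
    (∀ q : ℕ, q.Prime → q ≠ 2 → q ∣ n → l ≤ q) →
    ∀ (μ μ' : ZMod k → ℤ) (d d' : ℤ), OneClass p n B h h' μ μ' d d' →
    (∀ j : ℕ, ¬ NN p n ∣ d - (p : ℤ) ^ j) →
      Gain p n d ((1 / 2 - 1 / (2 * l)) * n - C) := by
  classical
  have hk : 0 < k := Nat.pos_of_ne_zero (NeZero.ne k)
  obtain ⟨B1, hloc⟩ := loc_one k B
  obtain ⟨C1, N1, hgain⟩ := gain_of_dval k h (max B B1) hh
  have hst : ∀ f : ℕ, ∃ (C : ℝ) (N1 : ℕ), ∀ _ : NeZero f, ∀ p : ℕ, p.Prime → ∀ n : ℕ, N1 ≤ n →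
      ∀ b : ℕ, Nat.gcd f n = 2 ^ b →
      ∀ (μ μ' : ZMod f → ℤ) (d d' : ℤ), OneClass p n (B + 4) h h' μ μ' d d' →
      (∀ j : ℕ, ¬ NN p n ∣ d - (p : ℤ) ^ j) → Gain p n d ((n : ℝ) / 2 - C) := by
    intro f
    rcases Nat.eq_zero_or_pos f with hf | hf
    · exact ⟨0, 0, fun hne => absurd hf hne.ne⟩
    · have : NeZero f := ⟨hf.ne'⟩
      obtain ⟨C, N, hC⟩ := single_two f h h' (B + 4) hh hh'
      exact ⟨C, N, fun _ => hC⟩
  choose Cf Nf hf2 using hst
  refine ⟨1 + |C1| + ∑ f ∈ range (k + 1), |Cf f|,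
    2 + k + N1 + ∑ f ∈ range (k + 1), Nf f, ?_⟩
  intro p hp n hn l hl hpr μ μ' d d' hone hnd
  have hp2 : 2 ≤ p := hp.two_le
  have hsumC : 0 ≤ ∑ f ∈ range (k + 1), |Cf f| := Finset.sum_nonneg (fun _ _ => abs_nonneg _)
  have hC1 : 0 ≤ |C1| := abs_nonneg _
  have hn2 : 2 ≤ n := by
    have : 0 ≤ ∑ f ∈ range (k + 1), Nf f := Nat.zero_le _
    omega
  have hnk : k ≤ n := by
    have : 0 ≤ ∑ f ∈ range (k + 1), Nf f := Nat.zero_le _
    omega
  have hnN1 : N1 ≤ n := by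
    have : 0 ≤ ∑ f ∈ range (k + 1), Nf f := Nat.zero_le _
    omega
  rcases Nat.lt_or_ge l 2 with hl2 | hl2
  · have hl1 : l = 1 := by omega
    subst hl1
    apply gain_mono _ (K8_trivial hp2 hn2 d)
    push_cast
    linarith
  have hlR : (2 : ℝ) ≤ l := by exact_mod_cast hl2
  obtain ⟨f, m, hkfm, hmodd, hmpr, b, hb⟩ := split_odd k n hk (by omega)
  have hf0 : 0 < f := by
    rcases Nat.eq_zero_or_pos f with h0 | h0
    · rw [h0, zero_mul] at hkfm; omega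
    · exact h0
  have hm0 : 0 < m := by
    rcases Nat.eq_zero_or_pos m with h0 | h0
    · rw [h0, mul_zero] at hkfm; omega
    · exact h0
  have hmk : m ∣ k := ⟨f, by rw [hkfm]; ring⟩
  have hmpr' : ∀ q : ℕ, q.Prime → q ∣ m → l ≤ q := fun q hq hqm =>
    hpr q hq (hmpr q hq hqm).1 (hmpr q hq hqm).2
  obtain ⟨hμ, hμ', ⟨α, β, c, hα, hβ, hrel⟩, hdd, ⟨r, hr⟩, ⟨r', hr'⟩⟩ := hone
  by_cases htwo : ∃ c c', μ c ≠ 0 ∧ μ c' ≠ 0 ∧ pr m c ≠ pr m c'
  · -- two fibres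
    have hdv := hloc p hp n μ hμ m hmk hmodd htwo l hl hmpr'
    have hdv' := K8_dval_mono hp2 (le_max_right B B1) hdv
    have hk2 : 2 ≤ k := by
      by_contra hlt
      have hk1 : k = 1 := by omega
      subst hk1
      obtain ⟨c, c', -, -, hne⟩ := htwo
      exact hne (by rw [Subsingleton.elim c c'])
    have hkR : (2 : ℝ) ≤ k := by exact_mod_cast hk2
    have hkl : (k : ℝ) / l ≤ k / 2 := by
      apply div_le_div_of_nonneg_left (by linarith) (by norm_num) hlR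
    have hc1 : (1 : ℝ) ≤ (k : ℝ) - k / l := by linarith
    have hg := hgain p hp2 n hnN1 μ (fun t => (hμ t).trans
      (pow_le_pow_right₀ (by exact_mod_cast (by omega : 1 ≤ p)) (le_max_left B B1))) _ hc1 hdv' d r hr
    refine gain_mono ?_ hg
    have hk0 : (k : ℝ) ≠ 0 := by linarith
    have hl0 : (l : ℝ) ≠ 0 := by linarith
    have e : ((k : ℝ) - k / l) * n / (2 * k) = (1 / 2 - 1 / (2 * l)) * n := by
      field_simp
    rw [e]
    have := le_abs_self C1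
    linarith
  · -- one fibre
    push Not at htwo
    have hne : ∃ c0, μ c0 ≠ 0 := by
      by_contra hall
      push Not at hall
      have h1 := hrel c
      have h2 : rmul p n μ μ' c = 0 := by
        unfold rmul
        apply Finset.sum_eq_zero
        intro i _
        rw [hall]
        ring
      rw [h2, mul_zero, Pi.single_eq_same] at h1
      have h3 : (0 : ℤ) < ((h * h' : ℕ) : ℤ) * (p : ℤ) ^ β := by
        have : 0 < h * h' := Nat.mul_pos hh hh'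
        have h4 : (0 : ℤ) < ((h * h' : ℕ) : ℤ) := by exact_mod_cast this
        have h5 : (0 : ℤ) < (p : ℤ) := by exact_mod_cast hp.pos
        positivity
      omega
    obtain ⟨c0, hc0⟩ := hne
    have : NeZero f := ⟨hf0.ne'⟩
    obtain ⟨ν, ν', β', c', hν, hν', hβ', hrel', hx, hx'⟩ := descend p n hp2 k f m B hkfm hnk μ μ'
      hμ hμ' (h * h') (Nat.mul_pos hh hh') α β c hβ hrel c0 (fun t ht => htwo t c0 ht hc0)
    obtain ⟨s, hs⟩ := hx _ r hr
    obtain ⟨s', hs'⟩ := hx' _ r' hr'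
    have hfk : f ∈ range (k + 1) := by
      rw [mem_range]
      have : f ≤ k := by rw [hkfm]; exact Nat.le_mul_of_pos_right _ hm0
      omega
    have hNf : Nf f ≤ n := by
      have : Nf f ≤ ∑ f ∈ range (k + 1), Nf f :=
        Finset.single_le_sum (f := Nf) (fun _ _ => Nat.zero_le _) hfk
      omega
    have hCf : |Cf f| ≤ ∑ f ∈ range (k + 1), |Cf f| :=
      Finset.single_le_sum (f := fun f => |Cf f|) (fun _ _ => abs_nonneg _) hfk
    have hg := hf2 f inferInstance p hp n hNf b hb ν ν' d d'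
      ⟨hν, hν', ⟨α, β', c', hα.trans (by omega), hβ', hrel'⟩, hdd, ⟨s, hs⟩, ⟨s', hs'⟩⟩ hnd
    refine gain_mono ?_ hg
    have h1 := le_abs_self (Cf f)
    have h2 : (0 : ℝ) ≤ 1 / (2 * l) * n := by positivity
    have h3 : (1 / 2 - 1 / (2 * (l : ℝ))) * n = n / 2 - 1 / (2 * l) * n := by ring
    rw [h3]
    linarith

end Pool.Agent.Helper21.FD
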