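import Mathlib

/-!
MP_0aa406_nt, project FD (helper21): simultaneous Dirichlet approximation.
-/

set_option autoImplicit false

namespace Pool.Agent.Helper21.FD

open Finset

private theorem M1_aux (I : Type) [DecidableEq I] (s : Finset I) : ∀ η : ℝ, 0 < η → ∃ Q : ℕ,
    ∀ ξ : I → ℝ, ∃ q : ℕ, 1 ≤ q ∧ q ≤ Q ∧ ∀ i ∈ s, ∃ m : ℤ, |(q : ℝ) * ξ i - m| ≤ η := by
  induction s using Finset.induction_on with
  | empty =>
    intro η _
    exact ⟨1, fun ξ => ⟨1, le_rfl, le_rfl, fun i hi => absurd hi (Finset.notMem_empty i)⟩⟩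
  | insert a s _ ih =>
    intro η hη
    obtain ⟨n, hn⟩ := exists_nat_gt (1 / η)
    have hn0 : 0 < n := by
      rcases Nat.eq_zero_or_pos n with h | h
      · subst h
        exact absurd hn (by push_cast; exact not_lt.2 (by positivity))
      · exact h
    have hn0' : (0 : ℝ) < n := by exact_mod_cast hn0
    have hn1 : 1 / ((n : ℝ) + 1) ≤ η := by
      rw [div_le_iff₀ (by positivity)]
      have h1 : 1 < n * η := by
        rw [div_lt_iff₀ hη] at hn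
        exact hn
      nlinarith
    obtain ⟨Q, hQ⟩ := ih (η / n) (by positivity)
    refine ⟨n * Q, fun ξ => ?_⟩
    obtain ⟨q, hq1, hqQ, hq⟩ := hQ ξ
    obtain ⟨k, hk0, hkn, hk⟩ := Real.exists_nat_abs_mul_sub_round_le ((q : ℝ) * ξ a) hn0
    refine ⟨k * q, Nat.mul_pos hk0 hq1, Nat.mul_le_mul hkn hqQ, fun i hi => ?_⟩
    rcases Finset.mem_insert.1 hi with rfl | hi
    · refine ⟨round ((k : ℝ) * ((q : ℝ) * ξ i)), ?_⟩
      have e : ((k * q : ℕ) : ℝ) * ξ i = (k : ℝ) * ((q : ℝ) * ξ i) := by push_cast; ring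
      rw [e]
      exact hk.trans hn1
    · obtain ⟨m, hm⟩ := hq i hi
      refine ⟨k * m, ?_⟩
      have e : ((k * q : ℕ) : ℝ) * ξ i - ((k * m : ℤ) : ℝ) = (k : ℝ) * ((q : ℝ) * ξ i - m) := by
        push_cast; ring
      rw [e, abs_mul, Nat.abs_cast]
      have hk' : (k : ℝ) ≤ n := by exact_mod_cast hkn
      calc (k : ℝ) * |(q : ℝ) * ξ i - m| ≤ n * (η / n) :=
            mul_le_mul hk' hm (abs_nonneg _) hn0'.le
        _ = η := by field_simp

theorem dirichlet (I : Type) [Fintype I] (η : ℝ) (hη : 0 < η) : ∃ Q : ℕ, ∀ ξ : I → ℝ,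
    ∃ q : ℕ, 1 ≤ q ∧ q ≤ Q ∧ ∀ i, ∃ m : ℤ, |(q : ℝ) * ξ i - m| ≤ η := by
  classical
  obtain ⟨Q, hQ⟩ := M1_aux I Finset.univ η hη
  refine ⟨Q, fun ξ => ?_⟩
  obtain ⟨q, h1, h2, h3⟩ := hQ ξ
  exact ⟨q, h1, h2, fun i => h3 i (Finset.mem_univ i)⟩

end Pool.Agent.Helper21.FD
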