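import Pool.Agent.Helper21.FD.M1
import Pool.Agent.Helper21.FD.Q5

/-!
MP_0aa406_nt, project FD (helper21): all classes of positions in a short window, after base change.
-/

set_option autoImplicit false

namespace Pool.Agent.Helper21.FD

open Finset Pool.Agent.Helper21.FC

/-- the position of one class: `m = c.val + K m1`, `g = r - ps c - n m1 + G` -/
theorem M2_pos (n : ℕ) {K : ℕ} [NeZero K] (r : ℕ) (m : ℤ) (G : ℕ) (x : ℝ) (hx : 0 ≤ x)
    (hm : |(K : ℝ) * r - m * n| ≤ x) (hG : x + K ≤ K * (G : ℝ)) :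
    ∃ (g : ℕ) (m1 : ℤ), (g : ℤ) = r - ps n (m : ZMod K) - n * m1 + G ∧
      (K : ℤ) * g = K * r - m * n - tn n (m : ZMod K) + K * G ∧
      (g : ℝ) * K ≤ x + K * G := by
  have hKpos : 0 < K := Nat.pos_of_ne_zero (NeZero.ne K)
  have hKR : (0 : ℝ) < K := by exact_mod_cast hKpos
  obtain ⟨m1, hm1⟩ : ∃ m1 : ℤ, m = ((m : ZMod K).val : ℤ) + K * m1 := by
    refine ⟨m / K, ?_⟩
    rw [ZMod.val_intCast]
    exact (Int.emod_add_mul_ediv m K).symm
  have hps : (K : ℤ) * ps n (m : ZMod K) = (m : ZMod K).val * n + tn n (m : ZMod K) := by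
    exact_mod_cast ps_mul n (m : ZMod K)
  have htn : tn n (m : ZMod K) < K := tn_lt n _
  have htnR : (tn n (m : ZMod K) : ℝ) < K := by exact_mod_cast htn
  set gi : ℤ := r - ps n (m : ZMod K) - n * m1 + G with hgi
  have hK : (K : ℤ) * gi = K * r - m * n - tn n (m : ZMod K) + K * G := by
    rw [hgi]
    have : (K : ℤ) * (r - ps n (m : ZMod K) - n * m1 + G) =
        K * r - K * ps n (m : ZMod K) - n * (K * m1) + K * G := by ring
    rw [this, hps]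
    have h2 : (K : ℤ) * m1 = m - (m : ZMod K).val := by linarith
    rw [h2]; ring
  have hKR2 : (K : ℝ) * gi = K * r - m * n - tn n (m : ZMod K) + K * G := by exact_mod_cast hK
  have habs := abs_le.mp hm
  have hnn : 0 ≤ gi := by
    by_contra hneg
    push Not at hneg
    have h1 : (gi : ℝ) ≤ -1 := by
      have : gi ≤ -1 := by omega
      exact_mod_cast this
    have h3 : (K : ℝ) * gi ≤ -K := by nlinarith
    nlinarith [habs.1]
  obtain ⟨g, hg⟩ := Int.eq_ofNat_of_zero_le hnn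
  refine ⟨g, m1, ?_, ?_, ?_⟩
  · rw [← hg]
  · rw [← hg]; exact hK
  · have h4 : ((g : ℕ) : ℝ) = (gi : ℝ) := by
      rw [hg]; simp
    rw [h4, mul_comm, hKR2]
    have h5 : (0 : ℝ) ≤ tn n (m : ZMod K) := Nat.cast_nonneg _
    linarith [habs.2]

theorem M2_single_bound (p : ℕ) {K : ℕ} [NeZero K] (c t : ZMod K) :
    |(Pi.single c 1 : ZMod K → ℤ) t| ≤ (p : ℤ) ^ 0 := by
  rw [pow_zero]
  by_cases h : t = c
  · subst h; simp
  · rw [Pi.single_eq_of_ne h]; simp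

theorem windows (k : ℕ) [NeZero k] (I : Type) [Fintype I] [DecidableEq I] (B : ℕ) (η : ℝ)
    (hη : 0 < η) : ∃ Q B' : ℕ, ∀ D : ℕ, ∃ D' N1 : ℕ, ∀ p : ℕ, 2 ≤ p → ∀ n : ℕ, N1 ≤ n →
    ∀ (A : Finset I) (r : I → ℕ) (M : I → ZMod k → ℤ), (∀ a ∈ A, ∀ c, |M a c| ≤ (p : ℤ) ^ B) →
    (∀ a ∈ A, ∀ a' ∈ A, a ≠ a' → ∀ q : ℕ, 1 ≤ q → q ≤ Q → ∀ t : ℤ, |t| ≤ D' →
      ¬ (n : ℤ) ∣ (q : ℤ) * ((r a : ℤ) - r a') - t) →
    ∃ K : ℕ, 1 ≤ K ∧ K ≤ Q ∧ ∃ (_ : NeZero K) (g : I → ℕ) (s : ℕ) (M' : I → ZMod K → ℤ),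
      (∀ a ∈ A, (g a : ℝ) * K ≤ η * n) ∧
      (∀ a ∈ A, ∀ a' ∈ A, a ≠ a' → (D : ℤ) ≤ |(g a : ℤ) - g a'|) ∧
      (∀ a ∈ A, ∀ c, |M' a c| ≤ (p : ℤ) ^ B') ∧
      (∀ a ∈ A, Sr p n (M' a) = 0 ↔ Sr p n (M a) = 0) ∧
      (∀ a ∈ A, M a ≠ 0 → M' a ≠ 0) ∧
      NN p n ∣ ∑ a ∈ A, (p : ℤ) ^ r a * ev p n (M a) -
        (p : ℤ) ^ s * ∑ a ∈ A, (p : ℤ) ^ g a * ev p n (M' a) := by
  have hη4 : 0 < η / 4 := by positivity
  obtain ⟨Q0, hQ0⟩ := dirichlet I (η / 4) hη4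
  refine ⟨k * Q0, B + k * Q0 + 1, fun D => ⟨k * Q0 * D + k * Q0, ⌈(k * Q0 : ℝ) / (η / 4)⌉₊ + 1,
    ?_⟩⟩
  intro p hp n hn A r M hM hfar
  have hn1 : 1 ≤ n := by omega
  have hnR : (0 : ℝ) < n := by exact_mod_cast hn1
  have hkpos : 0 < k := Nat.pos_of_ne_zero (NeZero.ne k)
  obtain ⟨q, hq1, hqQ, hq⟩ := hQ0 (fun a => (k : ℝ) * r a / n)
  choose m hm using hq
  have hKQ : k * q ≤ k * Q0 := Nat.mul_le_mul_left k hqQ
  have hKpos : 0 < k * q := Nat.mul_pos hkpos hq1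
  haveI : NeZero (k * q) := ⟨hKpos.ne'⟩
  have hKR : (0 : ℝ) < ((k * q : ℕ) : ℝ) := by exact_mod_cast hKpos
  set x : ℝ := η / 4 * n with hx
  have hx0 : 0 ≤ x := by positivity
  have hmx : ∀ a, |((k * q : ℕ) : ℝ) * r a - m a * n| ≤ x := by
    intro a
    have h1 := hm a
    have h2 : ((k * q : ℕ) : ℝ) * r a - m a * n = n * ((q : ℝ) * ((k : ℝ) * r a / n) - m a) := by
      push_cast
      field_simp
    rw [h2, abs_mul, abs_of_pos hnR, hx, mul_comm]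
    exact mul_le_mul_of_nonneg_right h1 hnR.le
  set G : ℕ := ⌈x / ((k * q : ℕ) : ℝ)⌉₊ + 1 with hG
  have hG1 : x + ((k * q : ℕ) : ℝ) ≤ ((k * q : ℕ) : ℝ) * (G : ℝ) := by
    have h1 : x / ((k * q : ℕ) : ℝ) ≤ (⌈x / ((k * q : ℕ) : ℝ)⌉₊ : ℝ) := Nat.le_ceil _
    have h2 : x ≤ ((k * q : ℕ) : ℝ) * (⌈x / ((k * q : ℕ) : ℝ)⌉₊ : ℝ) := by
      rw [div_le_iff₀ hKR] at h1
      linarith
    rw [hG]
    push_cast at h2 ⊢
    linarith
  have hG2 : ((k * q : ℕ) : ℝ) * (G : ℝ) ≤ x + 2 * ((k * q : ℕ) : ℝ) := by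
    have h1 : (⌈x / ((k * q : ℕ) : ℝ)⌉₊ : ℝ) < x / ((k * q : ℕ) : ℝ) + 1 :=
      Nat.ceil_lt_add_one (div_nonneg hx0 hKR.le)
    have h2 : ((k * q : ℕ) : ℝ) * (⌈x / ((k * q : ℕ) : ℝ)⌉₊ : ℝ) ≤ x + ((k * q : ℕ) : ℝ) := by
      have h3 := mul_le_mul_of_nonneg_left h1.le hKR.le
      rw [mul_add, mul_div_cancel₀ _ hKR.ne', mul_one] at h3
      exact h3
    rw [hG]
    push_cast at h2 ⊢
    linarith
  have hbig : (2 : ℝ) * ((k * q : ℕ) : ℝ) ≤ 2 * x := by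
    have h1 : ((k * Q0 : ℕ) : ℝ) / (η / 4) ≤ n := by
      have h2 : ((k : ℝ) * Q0) / (η / 4) ≤ (⌈((k : ℝ) * Q0) / (η / 4)⌉₊ : ℝ) := Nat.le_ceil _
      have h3 : ((⌈((k : ℝ) * Q0) / (η / 4)⌉₊ : ℕ) : ℝ) ≤ n := by
        have : ⌈((k : ℝ) * Q0) / (η / 4)⌉₊ ≤ n := by omega
        exact_mod_cast this
      push_cast
      linarith
    rw [div_le_iff₀ hη4] at h1
    have h4 : ((k * q : ℕ) : ℝ) ≤ ((k * Q0 : ℕ) : ℝ) := by exact_mod_cast hKQ
    rw [hx]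
    linarith
  choose g m1 hg1 hg2 hg3 using fun a => M2_pos n (K := k * q) (r a) (m a) G x hx0 (hmx a) hG1
  refine ⟨k * q, hKpos, hKQ, inferInstance, g, (n - 1) * G,
    fun a => rmul p n (Pi.single (m a : ZMod (k * q)) 1) (bc q (M a)), ?_, ?_, ?_, ?_, ?_, ?_⟩
  · intro a _
    have h1 := hg3 a
    have h2 : η * n = 4 * x := by rw [hx]; ring
    rw [h2]
    linarith
  · intro a ha a' ha' hne
    by_contra hlt
    push Not at hlt
    refine hfar a ha a' ha' hne (k * q) hKpos hKQ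
      (((k * q : ℕ) : ℤ) * ((g a : ℤ) - g a') + tn n (m a : ZMod (k * q)) -
        tn n (m a' : ZMod (k * q))) ?_ ?_
    · have h1 : |((k * q : ℕ) : ℤ) * ((g a : ℤ) - g a')| ≤ ((k * Q0 : ℕ) : ℤ) * D := by
        rw [abs_mul, abs_of_nonneg (Int.natCast_nonneg _)]
        exact mul_le_mul (by exact_mod_cast hKQ) hlt.le (abs_nonneg _) (Int.natCast_nonneg _)
      have h2 : tn n (m a : ZMod (k * q)) < k * q := tn_lt n _
      have h3 : tn n (m a' : ZMod (k * q)) < k * q := tn_lt n _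
      have h4 : |((tn n (m a : ZMod (k * q)) : ℕ) : ℤ) - tn n (m a' : ZMod (k * q))| ≤
          ((k * Q0 : ℕ) : ℤ) := by
        rw [abs_le]
        constructor <;> omega
      calc |((k * q : ℕ) : ℤ) * ((g a : ℤ) - g a') + tn n (m a : ZMod (k * q)) -
            tn n (m a' : ZMod (k * q))|
          = |((k * q : ℕ) : ℤ) * ((g a : ℤ) - g a') + (((tn n (m a : ZMod (k * q)) : ℕ) : ℤ) -
            tn n (m a' : ZMod (k * q)))| := by ring_nf
        _ ≤ _ := abs_add_le _ _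
        _ ≤ ((k * Q0 : ℕ) : ℤ) * D + ((k * Q0 : ℕ) : ℤ) := add_le_add h1 h4
        _ = ((k * Q0 * D + k * Q0 : ℕ) : ℤ) := by push_cast; ring
    · refine ⟨m a - m a', ?_⟩
      have h1 := hg2 a
      have h2 := hg2 a'
      linear_combination h2 - h1
  · intro a ha c
    have h1 := rmul_bound p n hp 0 B (Pi.single (m a : ZMod (k * q)) 1) (bc q (M a))
      (M2_single_bound p _) (bc_bound p q B (M a) (hM a ha)) c
    refine h1.trans ?_
    have hp1 : (1 : ℤ) ≤ p := by exact_mod_cast (by omega : 1 ≤ p)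
    exact pow_le_pow_right₀ hp1 (by omega)
  · intro a _
    have hr : rho p (k * q) ^ tn n (m a : ZMod (k * q)) ≠ 0 := by
      have := (rho_bounds p (k * q) hp hKpos (tn n (m a : ZMod (k * q))) (tn_lt n _).le).1
      linarith
    rw [Sr_rmul, Sr_single, Sr_bc p n q (by omega)]
    constructor
    · intro h
      rcases mul_eq_zero.mp h with h | h
      · exfalso
        rcases mul_eq_zero.mp h with h | h
        · norm_num at h
        · exact hr h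
      · exact h
    · intro h
      rw [h, mul_zero]
  · intro a _ hMa h0
    apply hMa
    have h1 : bc q (M a) = 0 := single_rmul_eq_zero p n (by omega) _ 1 one_ne_zero _ h0
    funext c
    rw [← bc_mulq q (M a) c, h1]
    rfl
  · rw [Finset.mul_sum, ← Finset.sum_sub_distrib]
    refine Finset.dvd_sum fun a _ => ?_
    have h1 := ev_rmul p n (Pi.single (m a : ZMod (k * q)) 1) (bc q (M a))
    rw [ev_single, one_mul, ev_bc] at h1
    have h2 : NN p n ∣ (p : ℤ) ^ (r a) -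
        (p : ℤ) ^ ((n - 1) * G + g a + ps n (m a : ZMod (k * q))) := by
      apply pow_congr
      refine ⟨m1 a - G, ?_⟩
      have h3 := hg1 a
      push_cast [Nat.cast_sub hn1]
      rw [h3]
      ring
    have h4 : (p : ℤ) ^ r a * ev p n (M a) - (p : ℤ) ^ ((n - 1) * G) * ((p : ℤ) ^ g a *
        ev p n (rmul p n (Pi.single (m a : ZMod (k * q)) 1) (bc q (M a)))) =
        ((p : ℤ) ^ (r a) - (p : ℤ) ^ ((n - 1) * G + g a + ps n (m a : ZMod (k * q)))) *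
          ev p n (M a) + (p : ℤ) ^ ((n - 1) * G + g a) *
          ((p : ℤ) ^ ps n (m a : ZMod (k * q)) * ev p n (M a) -
            ev p n (rmul p n (Pi.single (m a : ZMod (k * q)) 1) (bc q (M a)))) := by
      rw [pow_add, pow_add]
      ring
    rw [h4]
    exact dvd_add (dvd_mul_of_dvd_left h2 _) (dvd_mul_of_dvd_right h1 _)

end Pool.Agent.Helper21.FD
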