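import Pool.Agent.Helper21.FD.G9
import Pool.Agent.Helper21.FD.L2
import Pool.Agent.Helper21.FD.R1

/-!
MP_0aa406_nt, project FD (helper21): a positive direction and its reflection: all rows of the classes
with `Sr = 0` change their sign.
-/

set_option autoImplicit false

namespace Pool.Agent.Helper21.FD

open Finset Pool.Agent.Helper21.FC

private theorem M3_act_add {k : ℕ} [NeZero k] (a y z : ZMod k → ℝ) (u : ZMod k) :
    act a (fun i => y i + z i) u = act a y u + act a z u := by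
  unfold act
  rw [← Finset.sum_add_distrib]
  exact Finset.sum_congr rfl (fun i _ => by ring)

private theorem M3_act_neg {k : ℕ} [NeZero k] (a y : ZMod k → ℝ) (u : ZMod k) :
    act a (fun i => - y i) u = - act a y u := by
  unfold act
  rw [← Finset.sum_neg_distrib]
  exact Finset.sum_congr rfl (fun i _ => by ring)

/-- one half of the statement -/
private theorem M3_half (K : ℕ) [NeZero K] (B B3 : ℕ) : ∃ B1 : ℕ, ∀ p : ℕ, p.Prime → ∀ (n : ℕ)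
    (y : ZMod K → ℝ), (∀ i, 1 ≤ y i ∧ y i ≤ (p : ℝ) ^ B3) →
    ∃ w : ZMod K → ℤ, (∀ i, 0 < w i ∧ w i ≤ (p : ℤ) ^ B1) ∧
      ∀ μ : ZMod K → ℤ, (∀ t, |μ t| ≤ (p : ℤ) ^ B) → ∀ u,
        ((p : ℝ) ^ B3)⁻¹ ≤ |act (ci p n μ) y u| → rmul p n μ w u ≠ 0 ∧
          (act (ci p n μ) y u < 0 → rmul p n μ w u < 0) := by
  obtain ⟨B1, hB1⟩ := rounding K B B3
  refine ⟨B1, fun p hp n y hy => ?_⟩
  have hp2 := hp.two_le
  have hpR : (1 : ℝ) ≤ p := by exact_mod_cast (by omega : 1 ≤ p)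
  have hpos : (0 : ℝ) < (p : ℝ) ^ B3 := by positivity
  have hinv : ((p : ℝ) ^ B3)⁻¹ ≤ 1 := inv_le_one_of_one_le₀ (one_le_pow₀ hpR)
  obtain ⟨w, h1, h2, h3⟩ := hB1 p hp2 n y (fun i => by
    rw [abs_of_pos (by linarith [(hy i).1])]
    exact ⟨hinv.trans (hy i).1, (hy i).2⟩)
  refine ⟨w, fun i => ⟨(h2 i).1 (by linarith [(hy i).1]), (le_abs_self _).trans (h1 i)⟩,
    fun μ hμ u hu => ?_⟩
  obtain ⟨h4, h5⟩ := h3 μ hμ u hu
  refine ⟨?_, h5⟩
  have h6 : act (ci p n μ) y u ≠ 0 := by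
    intro h0
    rw [h0, abs_zero] at hu
    exact absurd hu (not_le.2 (inv_pos.2 hpos))
  rcases lt_or_gt_of_ne h6 with h7 | h7
  · exact (h5 h7).ne
  · exact (h4 h7).ne'

theorem flip_direction (K : ℕ) [NeZero K] (I : Type) [Fintype I] [DecidableEq I] (B : ℕ) :
    ∃ B1 : ℕ, ∀ p : ℕ, p.Prime → ∀ (n : ℕ) (A : Finset I) (a0 : I) (M : I → ZMod K → ℤ), a0 ∈ A →
    (∀ a ∈ A, ∀ c, |M a c| ≤ (p : ℤ) ^ B) → (∀ a ∈ A, M a ≠ 0) →
    (∀ a ∈ A, a ≠ a0 → Sr p n (M a) = 0) → Sr p n (M a0) ≠ 0 →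
    ∃ w w' : ZMod K → ℤ, (∀ c, 0 < w c ∧ w c ≤ (p : ℤ) ^ B1) ∧ (∀ c, 0 < w' c ∧ w' c ≤ (p : ℤ) ^ B1) ∧
      (∀ a ∈ A, ∀ u, rmul p n (M a) w u ≠ 0 ∧ rmul p n (M a) w' u ≠ 0) ∧
      ∀ a ∈ A, a ≠ a0 → ∀ u, rmul p n (M a) w u < 0 ∨ rmul p n (M a) w' u < 0 := by
  obtain ⟨S0, hS0⟩ : ∃ S0 : ℕ, S0 = Fintype.card I * K * K + 1 := ⟨_, rfl⟩
  obtain ⟨V, hV⟩ : ∃ V : ℕ, V = S0 * K := ⟨_, rfl⟩
  obtain ⟨A1, hA1⟩ : ∃ A1 : ℕ, A1 = B + V + K + 1 + K := ⟨_, rfl⟩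
  obtain ⟨A2, hA2⟩ : ∃ A2 : ℕ, A2 = B + 0 + K + 1 + K := ⟨_, rfl⟩
  obtain ⟨C1, hC1⟩ := liouville K A1
  obtain ⟨C2, hC2⟩ := liouville K A2
  obtain ⟨E, hE⟩ : ∃ E : ℕ, E = C2 + (A1 + K + 1 + V + 1) := ⟨_, rfl⟩
  obtain ⟨B3, hB3⟩ : ∃ B3 : ℕ, B3 = max C1 (E + 1) := ⟨_, rfl⟩
  obtain ⟨B1, hB1⟩ := M3_half K B B3
  refine ⟨B1, fun p hp n A a0 M ha0 hM hM0 hSr hSr0 => ?_⟩
  have hk : 0 < K := Nat.pos_of_ne_zero (NeZero.ne K)
  have hp2 := hp.two_le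
  have hpR : (1 : ℝ) ≤ p := by exact_mod_cast (by omega : 1 ≤ p)
  have hpR2 : (2 : ℝ) ≤ p := by exact_mod_cast hp2
  -- the generic point
  obtain ⟨s, hs1, hs2, hs3⟩ := generic (k := K) (F := {a // a ∈ A} × ZMod K)
    (fun f i => ci p n (M f.1.1) (f.2 - i)) (fun f => by
      obtain ⟨c, hc⟩ : ∃ c, M f.1.1 c ≠ 0 := by
        by_contra hcon
        push Not at hcon
        exact hM0 f.1.1 f.1.2 (funext hcon)
      refine ⟨f.2 - c, ?_⟩
      rw [sub_sub_cancel]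
      unfold ci
      have h1 := (rho_bounds p K hp2 hk (tn n c) (tn_lt n c).le).1
      exact mul_ne_zero (by exact_mod_cast hc) (by linarith))
  have hsS : s ≤ S0 := by
    rw [Fintype.card_prod, ZMod.card, Fintype.card_coe] at hs2
    have h1 : A.card ≤ Fintype.card I := Finset.card_le_univ A
    have h2 : A.card * K * K ≤ Fintype.card I * K * K :=
      Nat.mul_le_mul_right _ (Nat.mul_le_mul_right _ h1)
    omega
  let v : ZMod K → ℝ := fun i => (s : ℝ) ^ i.val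
  have hv1 : ∀ i, 1 ≤ v i := fun i => one_le_pow₀ (by exact_mod_cast hs1)
  have hvNat : ∀ i : ZMod K, s ^ i.val ≤ p ^ V := by
    intro i
    calc s ^ i.val ≤ (p ^ S0) ^ i.val := Nat.pow_le_pow_left
          (hsS.trans (Nat.lt_pow_self (by omega)).le) _
      _ ≤ (p ^ S0) ^ K := Nat.pow_le_pow_right (by positivity) (ZMod.val_lt i).le
      _ = p ^ V := by rw [← pow_mul, hV]
  have hv2 : ∀ i, v i ≤ (p : ℝ) ^ V := fun i => by
    simp only [v]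
    exact_mod_cast hvNat i
  have hvA : ∀ i, Alg p K V (v i) := by
    intro i
    have h1 := alg_int (p := p) (k := K) V ((s ^ i.val : ℕ) : ℤ) (by
      rw [abs_of_nonneg (by positivity)]
      exact_mod_cast hvNat i)
    have h2 : ((((s ^ i.val : ℕ) : ℤ)) : ℝ) = v i := by
      simp only [v]
      push_cast
      rfl
    rwa [h2] at h1
  have hact : ∀ a ∈ A, ∀ u, act (ci p n (M a)) v u ≠ 0 := fun a ha u => hs3 (⟨a, ha⟩, u)
  have hactA : ∀ a ∈ A, ∀ u, Alg p K A1 (act (ci p n (M a)) v u) := by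
    intro a ha u
    rw [hA1]
    exact alg_act hp2 _ _ (fun t => alg_ci n B (M a) (hM a ha) t) hvA u
  have hact1 : ∀ a ∈ A, ∀ u, ((p : ℝ) ^ C1)⁻¹ ≤ |act (ci p n (M a)) v u| := fun a ha u =>
    hC1 p hp _ (hactA a ha u) (hact a ha u)
  have hact2 : ∀ a ∈ A, ∀ u, |act (ci p n (M a)) v u| ≤ (p : ℝ) ^ (A1 + K + 1) := fun a ha u =>
    (hactA a ha u).abs_le hp2
  have hSrA : ((p : ℝ) ^ C2)⁻¹ ≤ |Sr p n (M a0)| := by
    refine hC2 p hp _ ?_ hSr0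
    have h1 := alg_act (k := K) hp2 (B := B) (B' := 0) (ci p n (M a0)) (fun _ => (1 : ℝ))
      (fun t => alg_ci n B (M a0) (hM a0 ha0) t) (fun _ => by
        have h2 := alg_int (p := p) (k := K) 0 1 (by simp)
        simpa using h2) 0
    rw [act_const, sum_ci, mul_one] at h1
    rw [hA2]
    exact h1
  -- rows of `Δ ± v`
  have hrow : ∀ (e : ℝ) (a : I) (u : ZMod K), act (ci p n (M a)) (fun i => (p : ℝ) ^ E + e * v i) u =
      Sr p n (M a) * (p : ℝ) ^ E + e * act (ci p n (M a)) v u := by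
    intro e a u
    rw [M3_act_add _ (fun _ => (p : ℝ) ^ E) (fun i => e * v i), act_const, sum_ci]
    congr 1
    unfold act
    rw [Finset.mul_sum]
    exact Finset.sum_congr rfl (fun i _ => by ring)
  have hEV : (p : ℝ) ^ (V + 1) ≤ (p : ℝ) ^ E := pow_le_pow_right₀ hpR (by omega)
  have hVV : 2 * (p : ℝ) ^ V ≤ (p : ℝ) ^ (V + 1) := by
    rw [pow_succ, mul_comm]
    exact mul_le_mul_of_nonneg_left hpR2 (by positivity)
  have hV1 : (1 : ℝ) ≤ (p : ℝ) ^ V := one_le_pow₀ hpR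
  have hE1 : 2 * (p : ℝ) ^ E ≤ (p : ℝ) ^ (E + 1) := by
    rw [pow_succ, mul_comm]
    exact mul_le_mul_of_nonneg_left hpR2 (by positivity)
  have hEB : (p : ℝ) ^ (E + 1) ≤ (p : ℝ) ^ B3 :=
    pow_le_pow_right₀ hpR (by rw [hB3]; exact le_max_right _ _)
  have hinvC : ((p : ℝ) ^ B3)⁻¹ ≤ ((p : ℝ) ^ C1)⁻¹ := by
    rw [inv_le_inv₀ (by positivity) (by positivity)]
    exact pow_le_pow_right₀ hpR (by rw [hB3]; exact le_max_left _ _)
  have hinv1 : ((p : ℝ) ^ B3)⁻¹ ≤ 1 := inv_le_one_of_one_le₀ (one_le_pow₀ hpR)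
  have key : ∀ e : ℝ, |e| = 1 → ∃ w : ZMod K → ℤ, (∀ c, 0 < w c ∧ w c ≤ (p : ℤ) ^ B1) ∧
      (∀ a ∈ A, ∀ u, rmul p n (M a) w u ≠ 0) ∧
      ∀ a ∈ A, a ≠ a0 → ∀ u, e * act (ci p n (M a)) v u < 0 → rmul p n (M a) w u < 0 := by
    intro e he
    have he1 : ∀ x : ℝ, |e * x| = |x| := fun x => by rw [abs_mul, he, one_mul]
    obtain ⟨w, h1, h2⟩ := hB1 p hp n (fun i => (p : ℝ) ^ E + e * v i) (fun i => by
      have h3 := he1 (v i)
      rw [abs_of_pos (by linarith [hv1 i] : 0 < v i)] at h3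
      have h4 := abs_le.1 h3.le
      have h5 := hv2 i
      constructor
      · linarith [h4.1]
      · linarith [h4.2])
    have hsmall : ∀ a ∈ A, ∀ u,
        ((p : ℝ) ^ B3)⁻¹ ≤ |act (ci p n (M a)) (fun i => (p : ℝ) ^ E + e * v i) u| := by
      intro a ha u
      rw [hrow]
      by_cases h3 : a = a0
      · subst h3
        have h4 : (p : ℝ) ^ (A1 + K + 1 + V + 1) ≤ |Sr p n (M a) * (p : ℝ) ^ E| := by
          rw [abs_mul, abs_of_pos (by positivity : (0 : ℝ) < (p : ℝ) ^ E), hE,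
            pow_add (p : ℝ) C2 (A1 + K + 1 + V + 1), ← mul_assoc]
          refine le_mul_of_one_le_left (by positivity) ?_
          have h5 := mul_le_mul_of_nonneg_right hSrA (by positivity : (0 : ℝ) ≤ (p : ℝ) ^ C2)
          rwa [inv_mul_cancel₀ (by positivity)] at h5
        have h5 : 2 * (p : ℝ) ^ (A1 + K + 1) ≤ (p : ℝ) ^ (A1 + K + 1 + V + 1) := by
          have h6 : (p : ℝ) ^ (A1 + K + 1) ≤ (p : ℝ) ^ (A1 + K + 1 + V) :=
            pow_le_pow_right₀ hpR (by omega)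
          have h7 : (p : ℝ) ^ (A1 + K + 1 + V + 1) = (p : ℝ) ^ (A1 + K + 1 + V) * p :=
            pow_succ _ _
          have h8 : (0 : ℝ) < (p : ℝ) ^ (A1 + K + 1 + V) := by positivity
          rw [h7]
          nlinarith
        have h6 := hact2 a ha u
        have h7 : (1 : ℝ) ≤ (p : ℝ) ^ (A1 + K + 1) := one_le_pow₀ hpR
        have h8 := abs_sub_abs_le_abs_sub (Sr p n (M a) * (p : ℝ) ^ E)
          (- (e * act (ci p n (M a)) v u))
        rw [sub_neg_eq_add, abs_neg, he1] at h8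
        linarith
      · rw [hSr a ha h3, zero_mul, zero_add, he1]
        exact hinvC.trans (hact1 a ha u)
    refine ⟨w, h1, fun a ha u => (h2 (M a) (hM a ha) u (hsmall a ha u)).1,
      fun a ha hne u hneg => (h2 (M a) (hM a ha) u (hsmall a ha u)).2 ?_⟩
    rw [hrow, hSr a ha hne, zero_mul, zero_add]
    exact hneg
  obtain ⟨w, a1, a2, a3⟩ := key 1 (by simp)
  obtain ⟨w', b1, b2, b3⟩ := key (-1) (by simp)
  refine ⟨w, w', a1, b1, fun a ha u => ⟨a2 a ha u, b2 a ha u⟩, fun a ha hne u => ?_⟩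
  rcases lt_or_gt_of_ne (hact a ha u) with h | h
  · exact Or.inl (a3 a ha hne u (by linarith))
  · exact Or.inr (b3 a ha hne u (by linarith))

end Pool.Agent.Helper21.FD
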