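import Pool.Agent.Helper21.FD.S4

/-!
MP_0aa406_nt, project FD (helper21): the chain.
-/

set_option autoImplicit false

namespace Pool.Agent.Helper21.FD

open Finset Pool.Agent.Helper21.FC

/-- the conclusion of `block_weight` -/
def M4_BW (K : ℕ) [NeZero K] (B : ℕ) (C : ℝ) : Prop := ∀ p n : ℕ, 2 ≤ p → K ≤ n →
    ∀ {J : Type} [Fintype J] [DecidableEq J] [Nonempty J] (o : J → ℕ) (z : J → ZMod K → ℤ),
    (∀ i j, i ≠ j → ((B + 2 : ℕ) : ℤ) ≤ |(o i : ℤ) - o j|) → (∀ j, o j + (B + 2) ≤ n / K) →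
    (∀ j c, z j c ≠ 0) → (∀ j c, |z j c| ≤ (p : ℤ) ^ B) →
    ∀ (a : ℤ) (s : ℕ), NN p n ∣ a - (p : ℤ) ^ s * ∑ j, (p : ℤ) ^ o j * ev p n (z j) →
      |W p n a - ∑ x ∈ univ.filter (fun x : J × ZMod K => z x.1 x.2 < 0),
        (gp n (bp n o) x : ℝ)| ≤ C * Fintype.card J

/-- positions of the blocks of `d a` -/
def M4_o {I : Type} (A : Finset I) (L φ : ℕ) (g : I → ℕ) : {a // a ∈ A} × Fin L → ℕ :=
  fun x => g x.1.1 + x.2.1 * φ

/-- the weight of `a` -/
theorem M4_low (K : ℕ) [NeZero K] (h B : ℕ) (hh : 0 < h) (C1 : ℝ) (hC1 : M4_BW K (B + h) C1)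
    (p n : ℕ) (hp : 2 ≤ p) (hKn : K ≤ n) (L φ : ℕ) (hL : 1 ≤ L)
    (hsep : ∀ i j : Fin L, i ≠ j → ((B + h + 2 : ℕ) : ℤ) ≤ |((i.1 * φ : ℕ) : ℤ) - (j.1 * φ : ℕ)|)
    (hmax : ∀ j : Fin L, j.1 * φ + (B + h + 2) ≤ n / K) (w : ZMod K → ℤ)
    (hw : ∀ c, 0 < w c ∧ w c ≤ (p : ℤ) ^ B) :
    W p n (h * ∑ j : Fin L, (p : ℤ) ^ (j.1 * φ) * ev p n w) ≤ C1 * L := by
  have : Nonempty (Fin L) := ⟨⟨0, hL⟩⟩
  have hhp : (h : ℤ) ≤ (p : ℤ) ^ h := by
    have h1 : h < 2 ^ h := Nat.lt_two_pow_self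
    have h2 : 2 ^ h ≤ p ^ h := Nat.pow_le_pow_left hp h
    exact_mod_cast (h1.trans_le h2).le
  have hpos : ∀ c, 0 < ((h : ℤ) • w) c := by
    intro c
    simp only [Pi.smul_apply, smul_eq_mul]
    exact mul_pos (by exact_mod_cast hh) (hw c).1
  have h1 := hC1 p n hp hKn (J := Fin L) (fun j => j.1 * φ) (fun _ => (h : ℤ) • w) hsep hmax
    (fun _ c => (hpos c).ne') (by
      intro _ c
      rw [abs_of_pos (hpos c)]
      simp only [Pi.smul_apply, smul_eq_mul]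
      rw [pow_add, mul_comm]
      exact mul_le_mul (hw c).2 hhp (by positivity) (by positivity))
    (h * ∑ j : Fin L, (p : ℤ) ^ (j.1 * φ) * ev p n w) 0 (by
      have e : (h : ℤ) * ∑ j : Fin L, (p : ℤ) ^ (j.1 * φ) * ev p n w -
          (p : ℤ) ^ 0 * ∑ j : Fin L, (p : ℤ) ^ (j.1 * φ) * ev p n ((h : ℤ) • w) = 0 := by
        rw [ev_smul, Finset.mul_sum, pow_zero, one_mul, sub_eq_zero]
        refine Finset.sum_congr rfl fun j _ => ?_
        ring
      rw [e]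
      exact dvd_zero _)
  have h2 : univ.filter (fun x : Fin L × ZMod K => ((h : ℤ) • w) x.2 < 0) = ∅ := by
    rw [Finset.filter_eq_empty_iff]
    intro x _ hx
    exact absurd (hpos x.2) (not_lt.2 hx.le)
  rw [h2, Finset.sum_empty, sub_zero, Fintype.card_fin] at h1
  exact (le_abs_self _).trans h1

/-- the weight of `d a` -/
theorem M4_high (K : ℕ) [NeZero K] (I : Type) [DecidableEq I] (h B : ℕ)
    (C : ℝ) (hC : M4_BW K B C) (p n : ℕ) (hp : 2 ≤ p) (hKn : K ≤ n) (A : Finset I) (a0 : I)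
    (ha0 : a0 ∈ A) (g : I → ℕ) (L φ : ℕ) (hL : 1 ≤ L)
    (hsep : ∀ x y : {a // a ∈ A} × Fin L, x ≠ y →
      ((B + h + 2 : ℕ) : ℤ) ≤ |(M4_o A L φ g x : ℤ) - M4_o A L φ g y|)
    (hmax : ∀ x, M4_o A L φ g x + (B + h + 2) ≤ n / K) (z : I → ZMod K → ℤ) (w : ZMod K → ℤ)
    (hz : ∀ a ∈ A, ∀ c, z a c ≠ 0 ∧ |z a c| ≤ (p : ℤ) ^ B) (d : ℤ) (s : ℕ)
    (hd : NN p n ∣ h * d * ev p n w - (p : ℤ) ^ s * ∑ a ∈ A, (p : ℤ) ^ g a * ev p n (z a)) :
    ∑ x ∈ univ.filter (fun x : ({a // a ∈ A} × Fin L) × ZMod K => z x.1.1.1 x.2 < 0),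
        (gp n (bp n (M4_o A L φ g)) x : ℝ) - C * (A.card * L) ≤
      W p n (d * (h * ∑ j : Fin L, (p : ℤ) ^ (j.1 * φ) * ev p n w)) := by
  have : Nonempty ({a // a ∈ A} × Fin L) := ⟨(⟨a0, ha0⟩, ⟨0, hL⟩)⟩
  have h1 := hC p n hp hKn (J := {a // a ∈ A} × Fin L) (M4_o A L φ g) (fun x => z x.1.1)
    (fun x y hxy => le_trans (by push_cast; omega) (hsep x y hxy))
    (fun x => le_trans (by omega) (hmax x)) (fun x c => (hz _ x.1.2 c).1)
    (fun x c => (hz _ x.1.2 c).2)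
    (d * (h * ∑ j : Fin L, (p : ℤ) ^ (j.1 * φ) * ev p n w)) s (by
      have e : d * (h * ∑ j : Fin L, (p : ℤ) ^ (j.1 * φ) * ev p n w) -
          (p : ℤ) ^ s * ∑ x : {a // a ∈ A} × Fin L, (p : ℤ) ^ (M4_o A L φ g x) *
            ev p n (z x.1.1) =
          ∑ j : Fin L, (p : ℤ) ^ (j.1 * φ) * (h * d * ev p n w -
            (p : ℤ) ^ s * ∑ a ∈ A, (p : ℤ) ^ g a * ev p n (z a)) := by
        rw [Fintype.sum_prod_type, Finset.sum_comm, Finset.mul_sum, Finset.mul_sum,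
          Finset.mul_sum, ← Finset.sum_sub_distrib]
        refine Finset.sum_congr rfl fun j _ => ?_
        have e2 : ∑ x : {a // a ∈ A}, (p : ℤ) ^ (M4_o A L φ g (x, j)) * ev p n (z x.1) =
            (p : ℤ) ^ (j.1 * φ) * ∑ a ∈ A, (p : ℤ) ^ g a * ev p n (z a) := by
          rw [← Finset.sum_coe_sort A (fun a => (p : ℤ) ^ g a * ev p n (z a)), Finset.mul_sum]
          refine Finset.sum_congr rfl fun x _ => ?_
          unfold M4_o
          rw [pow_add]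
          ring
        simp only at e2 ⊢
        rw [e2]
        ring
      rw [e]
      exact Finset.dvd_sum fun j _ => Dvd.dvd.mul_left hd _)
  rw [Fintype.card_prod, Fintype.card_coe, Fintype.card_fin, Nat.cast_mul] at h1
  have h2 := abs_le.1 h1
  linarith [h2.1]

/-- the core of the chain argument -/
theorem M4_core (K : ℕ) [NeZero K] (I : Type) [DecidableEq I] (h B : ℕ) (hh : 0 < h)
    (C C1 : ℝ) (hC : M4_BW K B C) (hC1 : M4_BW K (B + h) C1) (p n : ℕ) (hp : 2 ≤ p)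
    (hn : 0 < n) (hKn : K ≤ n) (A : Finset I) (a0 : I) (ha0 : a0 ∈ A) (g : I → ℕ) (L φ : ℕ)
    (hL : 1 ≤ L)
    (hsep : ∀ x y : {a // a ∈ A} × Fin L, x ≠ y →
      ((B + h + 2 : ℕ) : ℤ) ≤ |(M4_o A L φ g x : ℤ) - M4_o A L φ g y|)
    (hmax : ∀ x, M4_o A L φ g x + (B + h + 2) ≤ n / K)
    (z z' : I → ZMod K → ℤ) (w w' : ZMod K → ℤ)
    (hw : ∀ c, 0 < w c ∧ w c ≤ (p : ℤ) ^ B) (hw' : ∀ c, 0 < w' c ∧ w' c ≤ (p : ℤ) ^ B)
    (hz : ∀ a ∈ A, ∀ c, z a c ≠ 0 ∧ |z a c| ≤ (p : ℤ) ^ B)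
    (hz' : ∀ a ∈ A, ∀ c, z' a c ≠ 0 ∧ |z' a c| ≤ (p : ℤ) ^ B)
    (hneg : ∀ a ∈ A, a ≠ a0 → ∀ c, z a c < 0 ∨ z' a c < 0) (d : ℤ) (s : ℕ)
    (hd : NN p n ∣ h * d * ev p n w - (p : ℤ) ^ s * ∑ a ∈ A, (p : ℤ) ^ g a * ev p n (z a))
    (hd' : NN p n ∣ h * d * ev p n w' - (p : ℤ) ^ s * ∑ a ∈ A, (p : ℤ) ^ g a * ev p n (z' a))
    (t : Fin L → ℝ)
    (ht : ∀ j c, (gp n (bp (K := K) n (M4_o A L φ g)) ((⟨a0, ha0⟩, j), c) : ℝ) ≤ t j)
    (c : ℝ) (hc0 : 0 < c)
    (hc : 2 * c ≤ n - K * ∑ j, t j - 2 * (C * (A.card * L) + C1 * L)) :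
    Gain p n d c := by
  obtain ⟨a, ha⟩ : ∃ a : ℤ, a = h * ∑ j : Fin L, (p : ℤ) ^ (j.1 * φ) * ev p n w := ⟨_, rfl⟩
  obtain ⟨a', ha'⟩ : ∃ a' : ℤ, a' = h * ∑ j : Fin L, (p : ℤ) ^ (j.1 * φ) * ev p n w' :=
    ⟨_, rfl⟩
  have hsepL : ∀ i j : Fin L, i ≠ j →
      ((B + h + 2 : ℕ) : ℤ) ≤ |((i.1 * φ : ℕ) : ℤ) - (j.1 * φ : ℕ)| := by
    intro i j hij
    have h1 := hsep (⟨a0, ha0⟩, i) (⟨a0, ha0⟩, j) (by
      intro h2
      exact hij (Prod.ext_iff.1 h2).2)
    unfold M4_o at h1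
    have e : (((g a0 + i.1 * φ : ℕ) : ℤ) - (g a0 + j.1 * φ : ℕ)) =
        ((i.1 * φ : ℕ) : ℤ) - (j.1 * φ : ℕ) := by
      push_cast
      ring
    simp only at h1
    rw [e] at h1
    exact h1
  have hmaxL : ∀ j : Fin L, j.1 * φ + (B + h + 2) ≤ n / K := by
    intro j
    have h1 := hmax (⟨a0, ha0⟩, j)
    unfold M4_o at h1
    simp only at h1
    omega
  have w1 := M4_low K h B hh C1 hC1 p n hp hKn L φ hL hsepL hmaxL w hw
  have w2 := M4_low K h B hh C1 hC1 p n hp hKn L φ hL hsepL hmaxL w' hw'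
  have w3 := M4_high K I h B C hC p n hp hKn A a0 ha0 g L φ hL hsep hmax z w hz d s hd
  have w4 := M4_high K I h B C hC p n hp hKn A a0 ha0 g L φ hL hsep hmax z' w' hz' d s hd'
  rw [← ha] at w1 w3
  rw [← ha'] at w2 w4
  have : Nonempty (({a // a ∈ A} × Fin L) × ZMod K) :=
    ⟨((⟨a0, ha0⟩, ⟨0, hL⟩), 0)⟩
  -- the sum of all gaps
  have hsum : ∑ x : ({a // a ∈ A} × Fin L) × ZMod K, gp n (bp n (M4_o A L φ g)) x = n := by
    refine sum_gp n hn _ (fun x => bp_lt n (B + h + 2) (by omega) _ hmax x) ?_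
    intro x y hxy
    by_contra hne
    have h1 := (bp_far n (B + h + 2) (by omega) _ hsep hmax x y hne).1
    rw [hxy, sub_self, abs_zero] at h1
    push_cast at h1
    omega
  obtain ⟨G, hG⟩ : ∃ G : ({a // a ∈ A} × Fin L) × ZMod K → ℝ,
      G = fun x => (gp n (bp n (M4_o A L φ g)) x : ℝ) := ⟨_, rfl⟩
  have hG0 : ∀ x, 0 ≤ G x := by
    intro x
    rw [hG]
    exact Nat.cast_nonneg _
  have hGsum : ∑ x, G x = n := by
    rw [hG]
    simp only
    exact_mod_cast hsum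
  have hGe : ∀ x, (gp n (bp n (M4_o A L φ g)) x : ℝ) = G x := by
    intro x
    rw [hG]
  simp only [hGe] at w3 w4 ht
  have hfil : ∑ x, G x ≤
      ∑ x ∈ univ.filter (fun x : ({a // a ∈ A} × Fin L) × ZMod K => z x.1.1.1 x.2 < 0), G x +
      ∑ x ∈ univ.filter (fun x : ({a // a ∈ A} × Fin L) × ZMod K => z' x.1.1.1 x.2 < 0), G x +
      ∑ x ∈ univ.filter (fun x : ({a // a ∈ A} × Fin L) × ZMod K => x.1.1.1 = a0), G x := by
    rw [Finset.sum_filter, Finset.sum_filter, Finset.sum_filter, ← Finset.sum_add_distrib,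
      ← Finset.sum_add_distrib]
    refine Finset.sum_le_sum fun x _ => ?_
    have g0 := hG0 x
    by_cases hx : x.1.1.1 = a0
    · rw [if_pos hx]
      split_ifs <;> linarith
    · rcases hneg _ x.1.1.2 hx x.2 with h1 | h1
      · rw [if_pos h1]
        split_ifs <;> linarith
      · rw [if_pos h1]
        split_ifs <;> linarith
  have ha0s : ∑ x ∈ univ.filter (fun x : ({a // a ∈ A} × Fin L) × ZMod K => x.1.1.1 = a0), G x ≤
      K * ∑ j, t j := by
    rw [Finset.sum_filter, Fintype.sum_prod_type, Fintype.sum_prod_type,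
      Finset.sum_eq_single (⟨a0, ha0⟩ : {a // a ∈ A})]
    · simp only [if_true]
      rw [Finset.mul_sum]
      refine Finset.sum_le_sum fun j _ => ?_
      refine (Finset.sum_le_sum fun c _ => ht j c).trans ?_
      rw [Finset.sum_const, Finset.card_univ, ZMod.card, nsmul_eq_mul]
    · intro b _ hb
      refine Finset.sum_eq_zero fun j _ => Finset.sum_eq_zero fun c _ => ?_
      rw [if_neg]
      intro h1
      exact hb (Subtype.ext h1)
    · intro h1
      exact absurd (Finset.mem_univ _) h1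
  have htot : 2 * c ≤ (W p n (d * a) - W p n a) + (W p n (d * a') - W p n a') := by
    rw [hGsum] at hfil
    linarith
  have hfin : ∀ b : ℤ, c ≤ W p n (d * b) - W p n b → Gain p n d c := by
    intro b hb
    refine ⟨b, fun h1 => ?_, hb⟩
    rw [W_zero hp hn h1, W_zero hp hn (Dvd.dvd.mul_left h1 d)] at hb
    linarith
  by_cases h1 : c ≤ W p n (d * a) - W p n a
  · exact hfin a h1
  · exact hfin a' (by push Not at h1; linarith)

/-- the gain from two positive directions for which all rows of the classes `a ≠ a0` have opposite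
signs, translated along an arithmetic progression -/
theorem chain_gain (K : ℕ) [NeZero K] (I : Type) [Fintype I] [DecidableEq I] (h B : ℕ) (hh : 0 < h)
    (ε : ℝ) (hε : 0 < ε) (hε2 : ε < 1 / 2) : ∃ D N1 : ℕ, ∀ p : ℕ, 2 ≤ p → ∀ n : ℕ, N1 ≤ n →
    ∀ (A : Finset I) (a0 : I) (g : I → ℕ) (z z' : I → ZMod K → ℤ) (w w' : ZMod K → ℤ), a0 ∈ A →
    2 ≤ A.card → (∀ a ∈ A, (g a : ℝ) * K ≤ ε / 16 * n) →
    (∀ a ∈ A, ∀ a' ∈ A, a ≠ a' → (D : ℤ) ≤ |(g a : ℤ) - g a'|) →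
    (∀ c, 0 < w c ∧ w c ≤ (p : ℤ) ^ B) → (∀ c, 0 < w' c ∧ w' c ≤ (p : ℤ) ^ B) →
    (∀ a ∈ A, ∀ c, z a c ≠ 0 ∧ |z a c| ≤ (p : ℤ) ^ B) →
    (∀ a ∈ A, ∀ c, z' a c ≠ 0 ∧ |z' a c| ≤ (p : ℤ) ^ B) →
    (∀ a ∈ A, a ≠ a0 → ∀ c, z a c < 0 ∨ z' a c < 0) → ∀ (d : ℤ) (s : ℕ),
    NN p n ∣ h * d * ev p n w - (p : ℤ) ^ s * ∑ a ∈ A, (p : ℤ) ^ g a * ev p n (z a) →
    NN p n ∣ h * d * ev p n w' - (p : ℤ) ^ s * ∑ a ∈ A, (p : ℤ) ^ g a * ev p n (z' a) →
      Gain p n d ((1 / 2 - ε) * n) := by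
  obtain ⟨C, hC0, hC⟩ := block_weight K B
  obtain ⟨C1, hC10, hC1⟩ := block_weight K (B + h)
  obtain ⟨D0, hD0⟩ : ∃ D0 : ℕ, D0 = B + h + 2 := ⟨_, rfl⟩
  obtain ⟨E, hE⟩ : ∃ E : ℝ, E = C * Fintype.card I + C1 := ⟨_, rfl⟩
  have hE0 : 0 ≤ E := by rw [hE]; positivity
  have hK0 : 0 < K := Nat.pos_of_ne_zero (NeZero.ne K)
  have hKr : (1 : ℝ) ≤ K := by exact_mod_cast hK0
  obtain ⟨D, hD⟩ : ∃ D : ℕ, D = D0 + ⌈(8 * D0 + 16 * E) / ε⌉₊ + 1 := ⟨_, rfl⟩
  obtain ⟨N1, hN1⟩ : ∃ N1 : ℕ, N1 = ⌈(K * D0 + K * (1 + 2 * D0) + 2 * E) / ε⌉₊ +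
      2 * K * (D0 + 1) + K + 1 := ⟨_, rfl⟩
  refine ⟨D, N1, ?_⟩
  intro p hp n hn A a0 g z z' w w' ha0 hA2 hg hsep hw hw' hz hz' hneg d s hd hd'
  have hKn : K ≤ n := by omega
  have hn0 : 0 < n := by omega
  have hn0r : (0 : ℝ) < n := by exact_mod_cast hn0
  have hDr : (8 * D0 + 16 * E) / ε ≤ D := by
    have h1 := Nat.le_ceil ((8 * D0 + 16 * E) / ε)
    have h2 : ((⌈(8 * D0 + 16 * E) / ε⌉₊ : ℕ) : ℝ) ≤ D := by
      exact_mod_cast (by omega : ⌈(8 * D0 + 16 * E) / ε⌉₊ ≤ D)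
    linarith
  have hD0D : D0 ≤ D := by omega
  have hnr : (K * D0 + K * (1 + 2 * D0) + 2 * E) ≤ ε * n := by
    have h1 := Nat.le_ceil ((K * D0 + K * (1 + 2 * D0) + 2 * E) / ε)
    have h2 : ((⌈(K * D0 + K * (1 + 2 * D0) + 2 * E) / ε⌉₊ : ℕ) : ℝ) ≤ n := by
      exact_mod_cast (by omega : ⌈(K * D0 + K * (1 + 2 * D0) + 2 * E) / ε⌉₊ ≤ n)
    have h3 := h1.trans h2
    rw [div_le_iff₀ hε] at h3
    linarith
  have hAI : (A.card : ℝ) ≤ Fintype.card I := by exact_mod_cast Finset.card_le_univ A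
  have hc0 : 0 < (1 / 2 - ε) * n := mul_pos (by linarith) hn0r
  -- all blocks are low
  have hlow : ∀ a ∈ A, g a + D0 ≤ n / K := by
    intro a ha
    rw [Nat.le_div_iff_mul_le hK0]
    have h1 := hg a ha
    have h2 : (g a : ℝ) * K ≤ n / 32 := by
      have : ε / 16 * n ≤ (1 / 2) / 16 * n :=
        mul_le_mul_of_nonneg_right (by linarith) hn0r.le
      linarith
    have h3 : (2 * K * (D0 + 1) : ℝ) ≤ n := by
      exact_mod_cast (by omega : 2 * K * (D0 + 1) ≤ n)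
    have h4 : ((g a : ℝ) + D0) * K ≤ n := by nlinarith
    exact_mod_cast h4
  have hCA : ∀ L : ℕ, 2 * (C * (A.card * L) + C1 * L) ≤ 2 * E * L := by
    intro L
    rw [hE]
    have : C * (A.card * (L : ℝ)) ≤ C * (Fintype.card I * (L : ℝ)) :=
      mul_le_mul_of_nonneg_left (mul_le_mul_of_nonneg_right hAI (Nat.cast_nonneg _)) hC0
    linarith
  by_cases hcase : ∃ b ∈ A, g a0 < g b
  · -- a higher block
    obtain ⟨b, hb, hgb⟩ := hcase
    refine M4_core K I h B hh C C1 hC hC1 p n hp hn0 hKn A a0 ha0 g 1 0 le_rfl ?_ ?_ z z' w w'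
      hw hw' hz hz' hneg d s hd hd' (fun _ => (g b : ℝ)) ?_ _ hc0 ?_
    · intro x y hxy
      unfold M4_o
      have h1 : x.1.1 ≠ y.1.1 := by
        intro h2
        exact hxy (Prod.ext (Subtype.ext h2) (Subsingleton.elim _ _))
      have h2 := hsep _ x.1.2 _ y.1.2 h1
      simp only [mul_zero, add_zero]
      refine le_trans ?_ h2
      exact_mod_cast (by omega : B + h + 2 ≤ D)
    · intro x
      unfold M4_o
      have := hlow _ x.1.2
      simp only [mul_zero, add_zero]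
      omega
    · intro j c
      have hmax : ∀ x, M4_o A 1 0 g x + (B + h + 2) ≤ n / K := by
        intro x
        unfold M4_o
        have := hlow _ x.1.2
        simp only [mul_zero, add_zero]
        omega
      have h1 := gp_up n (B + h + 2) (by omega) (M4_o A 1 0 g) hmax (⟨a0, ha0⟩, j)
        (⟨b, hb⟩, j) c (by
          unfold M4_o
          simp only [mul_zero, add_zero]
          exact hgb)
      have h2 : M4_o A 1 0 g (⟨b, hb⟩, j) - M4_o A 1 0 g (⟨a0, ha0⟩, j) ≤ g b := by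
        unfold M4_o
        simp only [mul_zero, add_zero]
        omega
      exact_mod_cast h1.trans h2
    · have h1 := hg b hb
      have h2 := hCA 1
      simp only [Finset.univ_unique, Finset.sum_singleton]
      have h3 : 0 ≤ (K : ℝ) * D0 + K * (1 + 2 * D0) := by positivity
      rw [Nat.cast_one] at h2
      have h4 : 0 ≤ ε * n := by positivity
      push_cast
      linarith
  · -- `a0` is the highest block
    push Not at hcase
    obtain ⟨a1, ha1, hmin⟩ := Finset.exists_min_image A g ⟨a0, ha0⟩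
    have h10 : a1 ≠ a0 := by
      rintro rfl
      obtain ⟨b, hb, hb1⟩ := Finset.exists_mem_ne (by omega : 1 < A.card) a1
      have h1 := hsep b hb a1 ha1 hb1
      have h2 := hcase b hb
      have h3 := hmin b hb
      have h4 : g b = g a1 := le_antisymm h2 h3
      rw [h4, sub_self, abs_zero] at h1
      have h5 : 0 < D := by omega
      have h6 : (0 : ℤ) < D := by exact_mod_cast h5
      omega
    have hw0 : g a1 + D ≤ g a0 := by
      have h1 := hsep a1 ha1 a0 ha0 h10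
      have h2 := hcase a1 ha1
      rw [abs_sub_comm, abs_of_nonneg (by
        have : (g a1 : ℤ) ≤ g a0 := by exact_mod_cast h2
        linarith)] at h1
      omega
    obtain ⟨φ, hφ⟩ : ∃ φ : ℕ, φ = g a0 - g a1 + D0 := ⟨_, rfl⟩
    have hφD : D ≤ φ := by omega
    have hφ0 : 0 < φ := by omega
    obtain ⟨L1, hL1⟩ : ∃ L1 : ℕ, L1 = (n / K - D0 - g a0) / φ := ⟨_, rfl⟩
    have hL1a : L1 * φ ≤ n / K - D0 - g a0 := by
      rw [hL1]
      exact Nat.div_mul_le_self _ _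
    have hL1b : n / K - D0 - g a0 < L1 * φ + φ := by
      rw [hL1]
      have h1 := Nat.lt_mul_div_succ (n / K - D0 - g a0) hφ0
      rw [mul_add, mul_one, mul_comm] at h1
      exact h1
    have hla0 := hlow a0 ha0
    have hmax : ∀ x, M4_o A (L1 + 1) φ g x + (B + h + 2) ≤ n / K := by
      intro x
      unfold M4_o
      have h1 := hcase _ x.1.2
      have h2 : x.2.1 * φ ≤ L1 * φ := Nat.mul_le_mul_right _ (by omega)
      omega
    refine M4_core K I h B hh C C1 hC hC1 p n hp hn0 hKn A a0 ha0 g (L1 + 1) φ (by omega)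
      ?_ hmax z z' w w' hw hw' hz hz' hneg d s hd hd'
      (fun j => if j.1 < L1 then (D0 : ℝ) else (g a0 + 2 * D0 + 1 : ℝ)) ?_ _ hc0 ?_
    · have hlt : ∀ x y : {a // a ∈ A} × Fin (L1 + 1), x.2.1 < y.2.1 →
          M4_o A (L1 + 1) φ g x + D0 ≤ M4_o A (L1 + 1) φ g y := by
        intro x y hxy
        unfold M4_o
        have h1 := hcase _ x.1.2
        have h2 := hmin _ y.1.2
        have h3 : (x.2.1 + 1) * φ ≤ y.2.1 * φ := Nat.mul_le_mul_right _ hxy
        rw [add_mul, one_mul] at h3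
        omega
      intro x y hxy
      rw [← hD0]
      rcases lt_trichotomy x.2.1 y.2.1 with h1 | h1 | h1
      · have h2 := hlt x y h1
        rw [abs_sub_comm]
        refine le_trans ?_ (le_abs_self _)
        omega
      · have h2 : x.1.1 ≠ y.1.1 := by
          intro h3
          exact hxy (Prod.ext (Subtype.ext h3) (Fin.ext h1))
        have h3 := hsep _ x.1.2 _ y.1.2 h2
        unfold M4_o
        rw [h1]
        have e : (((g x.1.1 + y.2.1 * φ : ℕ) : ℤ) - (g y.1.1 + y.2.1 * φ : ℕ)) =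
            (g x.1.1 : ℤ) - g y.1.1 := by
          push_cast
          ring
        rw [e]
        refine le_trans ?_ h3
        exact_mod_cast hD0D
      · have h2 := hlt y x h1
        refine le_trans ?_ (le_abs_self _)
        omega
    · intro j c
      split_ifs with hj
      · have h1 := gp_up n (B + h + 2) (by omega) (M4_o A (L1 + 1) φ g) hmax (⟨a0, ha0⟩, j)
          (⟨a1, ha1⟩, ⟨j.1 + 1, by omega⟩) c (by
            unfold M4_o
            simp only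
            rw [add_mul, one_mul]
            omega)
        have h2 : M4_o A (L1 + 1) φ g (⟨a1, ha1⟩, ⟨j.1 + 1, by omega⟩) -
            M4_o A (L1 + 1) φ g (⟨a0, ha0⟩, j) ≤ D0 := by
          unfold M4_o
          simp only
          rw [add_mul, one_mul]
          omega
        exact_mod_cast h1.trans h2
      · have hj2 : j.1 = L1 := by
          have := j.2
          omega
        have h1 := gp_next n (B + h + 2) (by omega) (M4_o A (L1 + 1) φ g) hmax (⟨a0, ha0⟩, j)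
          (⟨a1, ha1⟩, ⟨0, by omega⟩) c
        have h2 : gp n (bp (K := K) n (M4_o A (L1 + 1) φ g)) ((⟨a0, ha0⟩, j), c) ≤
            g a0 + 2 * D0 + 1 := by
          unfold M4_o at h1 ⊢
          simp only [zero_mul, add_zero] at h1
          rw [hj2] at h1
          omega
        exact_mod_cast h2
    · -- the count
      have h1 : ∑ j : Fin (L1 + 1), (if j.1 < L1 then (D0 : ℝ) else (g a0 + 2 * D0 + 1 : ℝ)) =
          L1 * D0 + (g a0 + 2 * D0 + 1) := by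
        rw [Fin.sum_univ_castSucc]
        simp
      rw [h1]
      have h2 := hCA (L1 + 1)
      have h3 := hg a0 ha0
      have h4 : (L1 : ℝ) * (K * D) ≤ n := by
        have h5 : L1 * D ≤ n / K := by
          calc L1 * D ≤ L1 * φ := Nat.mul_le_mul_left _ hφD
            _ ≤ n / K := hL1a.trans (by omega)
        have h6 : L1 * D * K ≤ n := (Nat.le_div_iff_mul_le hK0).1 h5
        have h7 : (L1 : ℝ) * D * K ≤ n := by exact_mod_cast h6
        linarith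
      have h5 : (8 * D0 + 16 * E) ≤ ε * D := by
        have := hDr
        rw [div_le_iff₀ hε] at this
        linarith
      have hDpos : (0 : ℝ) < D := by
        have : 0 < D := by omega
        exact_mod_cast this
      have h6 : (L1 : ℝ) * (K * D0 + 2 * E) ≤ ε / 8 * n := by
        have h7 : (K : ℝ) * D0 + 2 * E ≤ K * (D0 + 2 * E) := by nlinarith
        have h8 : K * ((D0 : ℝ) + 2 * E) ≤ K * (ε / 8 * D) :=
          mul_le_mul_of_nonneg_left (by linarith) (by linarith)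
        have h9 := mul_le_mul_of_nonneg_left (h7.trans h8) (Nat.cast_nonneg (α := ℝ) L1)
        have h10 : (L1 : ℝ) * (K * (ε / 8 * D)) = ε / 8 * (L1 * (K * D)) := by ring
        rw [h10] at h9
        exact h9.trans (mul_le_mul_of_nonneg_left h4 (by positivity))
      push_cast at h2 ⊢
      have h7 : 0 ≤ ε * n := by positivity
      have h8 : 0 ≤ (K : ℝ) * D0 := by positivity
      nlinarith

end Pool.Agent.Helper21.FD
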