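import Pool.Agent.Helper21.FD.M2
import Pool.Agent.Helper21.FD.M3
import Pool.Agent.Helper21.FD.M4

/-!
MP_0aa406_nt, project FD (helper21): at least two classes of positions.
-/

set_option autoImplicit false

namespace Pool.Agent.Helper21.FD

open Finset Pool.Agent.Helper21.FC

theorem multi_class (k : ℕ) [NeZero k] (I : Type) [Fintype I] [DecidableEq I] (h B : ℕ) (hh : 0 < h)
    (ε : ℝ) (hε : 0 < ε) (hε2 : ε < 1 / 2) : ∃ Q D N1 : ℕ, ∀ p : ℕ, p.Prime → ∀ n : ℕ, N1 ≤ n →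
    ∀ (A : Finset I) (a0 : I) (r : I → ℕ) (M : I → ZMod k → ℤ), a0 ∈ A → 2 ≤ A.card →
    (∀ a ∈ A, ∀ c, |M a c| ≤ (p : ℤ) ^ B) → (∀ a ∈ A, M a ≠ 0) →
    (∀ a ∈ A, a ≠ a0 → Sr p n (M a) = 0) → Sr p n (M a0) ≠ 0 →
    (∀ a ∈ A, ∀ a' ∈ A, a ≠ a' → ∀ q : ℕ, 1 ≤ q → q ≤ Q → ∀ t : ℤ, |t| ≤ D →
      ¬ (n : ℤ) ∣ (q : ℤ) * ((r a : ℤ) - r a') - t) →
    ∀ d : ℤ, NN p n ∣ h * d - ∑ a ∈ A, (p : ℤ) ^ r a * ev p n (M a) →
      Gain p n d ((1 / 2 - ε) * n) := by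
  obtain ⟨Q, B', hwin⟩ := windows k I B (ε / 16) (by positivity)
  -- the directions for all `K`
  have hB1 : ∀ K : ℕ, ∃ B1 : ℕ, ∀ (_ : NeZero K), ∀ p : ℕ, p.Prime → ∀ (n : ℕ) (A : Finset I)
      (a0 : I) (M : I → ZMod K → ℤ), a0 ∈ A →
      (∀ a ∈ A, ∀ c, |M a c| ≤ (p : ℤ) ^ B') → (∀ a ∈ A, M a ≠ 0) →
      (∀ a ∈ A, a ≠ a0 → Sr p n (M a) = 0) → Sr p n (M a0) ≠ 0 →
      ∃ w w' : ZMod K → ℤ, (∀ c, 0 < w c ∧ w c ≤ (p : ℤ) ^ B1) ∧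
        (∀ c, 0 < w' c ∧ w' c ≤ (p : ℤ) ^ B1) ∧
        (∀ a ∈ A, ∀ u, rmul p n (M a) w u ≠ 0 ∧ rmul p n (M a) w' u ≠ 0) ∧
        ∀ a ∈ A, a ≠ a0 → ∀ u, rmul p n (M a) w u < 0 ∨ rmul p n (M a) w' u < 0 := by
    intro K
    by_cases hK : K = 0
    · exact ⟨0, fun h0 => absurd hK h0.ne⟩
    · haveI : NeZero K := ⟨hK⟩
      obtain ⟨B1, hB1⟩ := flip_direction K I B'
      exact ⟨B1, fun _ => hB1⟩
  choose B1 hB1 using hB1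
  have hDN : ∀ K : ℕ, ∃ D N1 : ℕ, ∀ (_ : NeZero K), ∀ p : ℕ, 2 ≤ p → ∀ n : ℕ, N1 ≤ n →
      ∀ (A : Finset I) (a0 : I) (g : I → ℕ) (z z' : I → ZMod K → ℤ) (w w' : ZMod K → ℤ), a0 ∈ A →
      2 ≤ A.card → (∀ a ∈ A, (g a : ℝ) * K ≤ ε / 16 * n) →
      (∀ a ∈ A, ∀ a' ∈ A, a ≠ a' → (D : ℤ) ≤ |(g a : ℤ) - g a'|) →
      (∀ c, 0 < w c ∧ w c ≤ (p : ℤ) ^ (B' + B1 K + K + 1)) →
      (∀ c, 0 < w' c ∧ w' c ≤ (p : ℤ) ^ (B' + B1 K + K + 1)) →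
      (∀ a ∈ A, ∀ c, z a c ≠ 0 ∧ |z a c| ≤ (p : ℤ) ^ (B' + B1 K + K + 1)) →
      (∀ a ∈ A, ∀ c, z' a c ≠ 0 ∧ |z' a c| ≤ (p : ℤ) ^ (B' + B1 K + K + 1)) →
      (∀ a ∈ A, a ≠ a0 → ∀ c, z a c < 0 ∨ z' a c < 0) → ∀ (d : ℤ) (s : ℕ),
      NN p n ∣ h * d * ev p n w - (p : ℤ) ^ s * ∑ a ∈ A, (p : ℤ) ^ g a * ev p n (z a) →
      NN p n ∣ h * d * ev p n w' - (p : ℤ) ^ s * ∑ a ∈ A, (p : ℤ) ^ g a * ev p n (z' a) →
        Gain p n d ((1 / 2 - ε) * n) := by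
    intro K
    by_cases hK : K = 0
    · exact ⟨0, 0, fun h0 => absurd hK h0.ne⟩
    · haveI : NeZero K := ⟨hK⟩
      obtain ⟨D, N1, hD⟩ := chain_gain K I h (B' + B1 K + K + 1) hh ε hε hε2
      exact ⟨D, N1, fun _ => hD⟩
  choose D N1 hDN using hDN
  obtain ⟨D0, hD0⟩ : ∃ D0 : ℕ, ∀ K ≤ Q, D K ≤ D0 :=
    ⟨∑ K ∈ Finset.range (Q + 1), D K, fun K hK =>
      Finset.single_le_sum (f := D) (fun _ _ => Nat.zero_le _) (Finset.mem_range.2 (by omega))⟩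
  obtain ⟨N0, hN0⟩ : ∃ N0 : ℕ, ∀ K ≤ Q, N1 K ≤ N0 :=
    ⟨∑ K ∈ Finset.range (Q + 1), N1 K, fun K hK =>
      Finset.single_le_sum (f := N1) (fun _ _ => Nat.zero_le _) (Finset.mem_range.2 (by omega))⟩
  obtain ⟨D', N2, hwin'⟩ := hwin D0
  refine ⟨Q, D', N2 + N0, ?_⟩
  intro p hp n hn A a0 r M ha0 hA2 hM hM0 hSr hSr0 hfar d hd
  obtain ⟨K, hK1, hKQ, hKz, g, s, M', h1, h2, h3, h4, h5, h6⟩ :=
    hwin' p hp.two_le n (by omega) A r M hM hfar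
  obtain ⟨w, w', hw, hw', hz, hflip⟩ := hB1 K hKz p hp n A a0 M' ha0 h3
    (fun a ha => h5 a ha (hM0 a ha)) (fun a ha hne => (h4 a ha).2 (hSr a ha hne))
    (fun h0 => hSr0 ((h4 a0 ha0).1 h0))
  have hp1 : (1 : ℤ) ≤ p := by exact_mod_cast hp.one_le
  have hpow : (p : ℤ) ^ B1 K ≤ (p : ℤ) ^ (B' + B1 K + K + 1) := pow_le_pow_right₀ hp1 (by omega)
  have hev : ∀ v : ZMod K → ℤ, NN p n ∣ h * d * ev p n v -
      (p : ℤ) ^ s * ∑ a ∈ A, (p : ℤ) ^ g a * ev p n (rmul p n (M' a) v) := by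
    intro v
    have e : (h : ℤ) * d * ev p n v -
        (p : ℤ) ^ s * ∑ a ∈ A, (p : ℤ) ^ g a * ev p n (rmul p n (M' a) v) =
        (h * d - ∑ a ∈ A, (p : ℤ) ^ r a * ev p n (M a)) * ev p n v +
        (∑ a ∈ A, (p : ℤ) ^ r a * ev p n (M a) -
          (p : ℤ) ^ s * ∑ a ∈ A, (p : ℤ) ^ g a * ev p n (M' a)) * ev p n v +
        (p : ℤ) ^ s * ∑ a ∈ A, (p : ℤ) ^ g a *
          (ev p n (M' a) * ev p n v - ev p n (rmul p n (M' a) v)) := by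
      have e2 : ∑ a ∈ A, (p : ℤ) ^ g a *
          (ev p n (M' a) * ev p n v - ev p n (rmul p n (M' a) v)) =
          (∑ a ∈ A, (p : ℤ) ^ g a * ev p n (M' a)) * ev p n v -
            ∑ a ∈ A, (p : ℤ) ^ g a * ev p n (rmul p n (M' a) v) := by
        rw [Finset.sum_mul, ← Finset.sum_sub_distrib]
        exact Finset.sum_congr rfl fun a _ => by ring
      rw [e2]
      ring
    rw [e]
    refine dvd_add (dvd_add (hd.mul_right _) (h6.mul_right _)) (Dvd.dvd.mul_left ?_ _)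
    exact Finset.dvd_sum fun a _ => (ev_rmul p n (M' a) v).mul_left _
  refine hDN K hKz p hp.two_le n (by have := hN0 K hKQ; omega) A a0 g
    (fun a => rmul p n (M' a) w) (fun a => rmul p n (M' a) w') w w' ha0 hA2 h1 ?_ ?_ ?_ ?_ ?_
    hflip d s (hev w) (hev w')
  · intro a ha a' ha' hne
    refine le_trans ?_ (h2 a ha a' ha' hne)
    exact_mod_cast hD0 K hKQ
  · exact fun c => ⟨(hw c).1, (hw c).2.trans hpow⟩
  · exact fun c => ⟨(hw' c).1, (hw' c).2.trans hpow⟩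
  · intro a ha c
    refine ⟨(hz a ha c).1, ?_⟩
    have := rmul_bound p n hp.two_le B' (B1 K) (M' a) w (h3 a ha)
      (fun c => by rw [abs_of_pos (hw c).1]; exact (hw c).2) c
    exact this
  · intro a ha c
    refine ⟨(hz a ha c).2, ?_⟩
    have := rmul_bound p n hp.two_le B' (B1 K) (M' a) w' (h3 a ha)
      (fun c => by rw [abs_of_pos (hw' c).1]; exact (hw' c).2) c
    exact this

end Pool.Agent.Helper21.FD
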