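import Pool.Agent.Helper21.FD.Defs

/-!
MP_0aa406_nt, project FD (helper21): arithmetic of the standard positions.
-/

set_option autoImplicit false

namespace Pool.Agent.Helper21.FD

open Finset Pool.Agent.Helper21.FC

private theorem Q1_kpos (k : ℕ) [NeZero k] : 0 < k := Nat.pos_of_ne_zero (NeZero.ne k)

private theorem Q1_dvd (n : ℕ) {k : ℕ} [NeZero k] (c : ZMod k) : k ∣ c.val * n + tn n c := by
  rw [← ZMod.natCast_eq_zero_iff]
  unfold tn
  rw [Nat.cast_add, Nat.cast_mul, ZMod.natCast_zmod_val, ZMod.natCast_zmod_val]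
  exact add_neg_cancel _

theorem tn_lt (n : ℕ) {k : ℕ} [NeZero k] (c : ZMod k) : tn n c < k := ZMod.val_lt _

theorem tn_zero (n : ℕ) {k : ℕ} [NeZero k] : tn n (0 : ZMod k) = 0 := by
  unfold tn
  rw [zero_mul, neg_zero, ZMod.val_zero]

theorem ps_zero (n : ℕ) {k : ℕ} [NeZero k] : ps n (0 : ZMod k) = 0 := by
  unfold ps
  rw [tn_zero, ZMod.val_zero, zero_mul, Nat.zero_add, Nat.zero_div]

theorem ps_mul (n : ℕ) {k : ℕ} [NeZero k] (c : ZMod k) : k * ps n c = c.val * n + tn n c :=
  Nat.mul_div_cancel' (Q1_dvd n c)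

theorem tn_add (n : ℕ) {k : ℕ} [NeZero k] (a b : ZMod k) :
    tn n a + tn n b = tn n (a + b) + k * cy n a b := by
  have h : tn n (a + b) = (tn n a + tn n b) % k := by
    unfold tn
    rw [← ZMod.val_add]
    congr 1
    ring
  rw [h]
  unfold cy
  exact (Nat.mod_add_div _ _).symm

/-- positions add up modulo `n` up to the carry -/
theorem ps_add (n : ℕ) {k : ℕ} [NeZero k] (a b : ZMod k) :
    ∃ e : ℕ, e ≤ 1 ∧ ps n a + ps n b = ps n (a + b) + cy n a b + n * e := by
  have hk := Q1_kpos k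
  refine ⟨(a.val + b.val) / k, ?_, ?_⟩
  · have h1 : a.val < k := ZMod.val_lt a
    have h2 : b.val < k := ZMod.val_lt b
    have h3 : (a.val + b.val) / k < 2 := Nat.div_lt_of_lt_mul (by omega)
    omega
  · have h1 : a.val + b.val = (a + b).val + k * ((a.val + b.val) / k) := by
      rw [ZMod.val_add]
      exact (Nat.mod_add_div _ _).symm
    have h2 := ps_mul n a
    have h3 := ps_mul n b
    have h4 := ps_mul n (a + b)
    have h5 := tn_add n a b
    apply Nat.eq_of_mul_eq_mul_left hk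
    generalize (a.val + b.val) / k = e at h1 ⊢
    calc k * (ps n a + ps n b) = k * ps n a + k * ps n b := by ring
      _ = (a.val + b.val) * n + (tn n a + tn n b) := by rw [h2, h3]; ring
      _ = ((a + b).val + k * e) * n + (tn n (a + b) + k * cy n a b) := by rw [← h1, h5]
      _ = ((a + b).val * n + tn n (a + b)) + k * cy n a b + k * (n * e) := by ring
      _ = k * ps n (a + b) + k * cy n a b + k * (n * e) := by rw [h4]
      _ = k * (ps n (a + b) + cy n a b + n * e) := by ring

theorem cy_le (n : ℕ) {k : ℕ} [NeZero k] (a b : ZMod k) : cy n a b ≤ 1 := by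
  have h1 := tn_lt n a
  have h2 := tn_lt n b
  have h3 : (tn n a + tn n b) / k < 2 := Nat.div_lt_of_lt_mul (by omega)
  unfold cy
  omega

theorem cy_comm (n : ℕ) {k : ℕ} [NeZero k] (a b : ZMod k) : cy n a b = cy n b a := by
  unfold cy
  rw [Nat.add_comm]

theorem cy_zero (n : ℕ) {k : ℕ} [NeZero k] (a : ZMod k) : cy n a 0 = 0 := by
  unfold cy
  rw [tn_zero, Nat.add_zero]
  exact Nat.div_eq_of_lt (tn_lt n a)

theorem cy_assoc (n : ℕ) {k : ℕ} [NeZero k] (a b c : ZMod k) :
    cy n a b + cy n (a + b) c = cy n b c + cy n a (b + c) := by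
  have hk := Q1_kpos k
  have h1 := tn_add n a b
  have h2 := tn_add n (a + b) c
  have h3 := tn_add n b c
  have h4 := tn_add n a (b + c)
  rw [add_assoc] at h2
  apply Nat.eq_of_mul_eq_mul_left hk
  rw [Nat.mul_add, Nat.mul_add]
  omega

/-- `ps n c ≤ n - n / k` for `c ≠ 0` and consecutive positions are `n / k` or `n / k + 1` apart -/
theorem ps_mono (n : ℕ) {k : ℕ} [NeZero k] (c c' : ZMod k) (h : c.val < c'.val) :
    ps n c + (c'.val - c.val) * (n / k) ≤ ps n c' := by
  have hk := Q1_kpos k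
  obtain ⟨j, hj⟩ := Nat.exists_eq_add_of_lt h
  have h1 := ps_mul n c
  have h2 := ps_mul n c'
  have h3 := tn_lt n c
  have h4 : k * (n / k) ≤ n := Nat.mul_div_le n k
  have h5 : c'.val - c.val = j + 1 := by omega
  rw [h5]
  have h6 : k * (ps n c + (j + 1) * (n / k)) < k * (ps n c' + 1) := by
    have h7 : (j + 1) * (k * (n / k)) ≤ (j + 1) * n := Nat.mul_le_mul_left _ h4
    have h8 : c'.val * n = c.val * n + (j + 1) * n := by rw [hj]; ring
    calc k * (ps n c + (j + 1) * (n / k)) = k * ps n c + (j + 1) * (k * (n / k)) := by ring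
      _ ≤ k * ps n c + (j + 1) * n := by omega
      _ < k * ps n c' + k := by omega
      _ = k * (ps n c' + 1) := by ring
  have h9 := Nat.lt_of_mul_lt_mul_left h6
  omega

theorem ps_le (n : ℕ) {k : ℕ} [NeZero k] (c : ZMod k) : ps n c + n / k ≤ n := by
  have hk := Q1_kpos k
  have h1 := ps_mul n c
  have h3 := tn_lt n c
  have h4 : k * (n / k) ≤ n := Nat.mul_div_le n k
  have h5 : c.val + 1 ≤ k := ZMod.val_lt c
  have h7 : (c.val + 1) * n ≤ k * n := Nat.mul_le_mul_right _ h5
  have h6 : k * (ps n c + n / k) < k * (n + 1) := by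
    calc k * (ps n c + n / k) = k * ps n c + k * (n / k) := by ring
      _ ≤ c.val * n + tn n c + n := by omega
      _ = (c.val + 1) * n + tn n c := by ring
      _ < k * n + k := by omega
      _ = k * (n + 1) := by ring
  have h9 := Nat.lt_of_mul_lt_mul_left h6
  omega

theorem ps_succ (n : ℕ) {k : ℕ} [NeZero k] (c c' : ZMod k) (h : c'.val = c.val + 1) :
    ps n c' ≤ ps n c + n / k + 1 := by
  have hk := Q1_kpos k
  have h1 := ps_mul n c
  have h2 := ps_mul n c'
  have h3 := tn_lt n c'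
  have h4 : n < k * (n / k) + k := by
    have := Nat.lt_mul_div_succ n hk
    rw [Nat.mul_add, Nat.mul_one] at this
    exact this
  have h5 : c'.val * n = c.val * n + n := by rw [h]; ring
  have h6 : k * ps n c' < k * (ps n c + n / k + 2) := by
    calc k * ps n c' = c.val * n + n + tn n c' := by rw [h2, h5]
      _ < k * ps n c + k * (n / k) + k + k := by omega
      _ = k * (ps n c + n / k + 2) := by ring
  have h9 := Nat.lt_of_mul_lt_mul_left h6
  omega

theorem ps_last (n : ℕ) {k : ℕ} [NeZero k] (c : ZMod k) (h : c.val + 1 = k) :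
    n ≤ ps n c + n / k + 1 := by
  have hk := Q1_kpos k
  have h1 := ps_mul n c
  have h4 : n < k * (n / k) + k := by
    have := Nat.lt_mul_div_succ n hk
    rw [Nat.mul_add, Nat.mul_one] at this
    exact this
  have h5 : k * n = c.val * n + n := by
    calc k * n = (c.val + 1) * n := by rw [h]
      _ = c.val * n + n := by ring
  have h6 : k * n < k * (ps n c + n / k + 1) := by
    calc k * n = c.val * n + n := h5
      _ < k * ps n c + k * (n / k) + k := by omega
      _ = k * (ps n c + n / k + 1) := by ring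
  exact (Nat.lt_of_mul_lt_mul_left h6).le

/-- a rational position is a standard position up to a bounded integer -/
theorem rat_pos (n : ℕ) {k : ℕ} [NeZero k] (s t : ℤ) (h : (n : ℤ) ∣ (k : ℤ) * s - t) :
    ∃ (c : ZMod k) (i m : ℤ), s = ps n c + i + n * m ∧ (k : ℤ) * i = t - tn n c := by
  obtain ⟨m0, hm0⟩ := h
  have h1 : (((m0 : ZMod k).val : ℕ) : ℤ) = m0 % (k : ℤ) := ZMod.val_intCast m0
  have h2 : m0 % (k : ℤ) + (k : ℤ) * (m0 / (k : ℤ)) = m0 := Int.emod_add_mul_ediv m0 k
  have h3 : (k : ℤ) * (ps n (m0 : ZMod k) : ℤ) =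
      ((m0 : ZMod k).val : ℤ) * n + tn n (m0 : ZMod k) := by
    exact_mod_cast ps_mul n (m0 : ZMod k)
  refine ⟨(m0 : ZMod k), s - ps n (m0 : ZMod k) - n * (m0 / (k : ℤ)), m0 / (k : ℤ), by ring, ?_⟩
  rw [h1] at h3
  generalize m0 / (k : ℤ) = m1 at h2 ⊢
  generalize m0 % (k : ℤ) = r at h2 h3
  subst h2
  linear_combination hm0 - h3

/-- different standard positions are far from each other -/
theorem far_same (n D : ℕ) {k : ℕ} [NeZero k] (hn : k * (D + 1) < n) (c c' : ZMod k) (hc : c ≠ c')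
    (t : ℤ) (ht : |t| ≤ D) : ¬ (n : ℤ) ∣ (ps n c : ℤ) - ps n c' - t := by
  rintro ⟨m, hm⟩
  have hk := Q1_kpos k
  have h1 : (k : ℤ) * (ps n c : ℤ) = (c.val : ℤ) * n + tn n c := by exact_mod_cast ps_mul n c
  have h2 : (k : ℤ) * (ps n c' : ℤ) = (c'.val : ℤ) * n + tn n c' := by
    exact_mod_cast ps_mul n c'
  have h3 : ((c.val : ℤ) - c'.val - k * m) * n = k * t - tn n c + tn n c' := by
    linear_combination (k : ℤ) * hm - h1 + h2
  have h4 : (tn n c : ℤ) < k := by exact_mod_cast tn_lt n c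
  have h5 : (tn n c' : ℤ) < k := by exact_mod_cast tn_lt n c'
  have h6 : (0 : ℤ) ≤ tn n c := Int.natCast_nonneg _
  have h7 : (0 : ℤ) ≤ tn n c' := Int.natCast_nonneg _
  have hk' : (0 : ℤ) < k := by exact_mod_cast hk
  have hn' : (k : ℤ) * (D + 1) < n := by exact_mod_cast hn
  obtain ⟨ht1, ht2⟩ := abs_le.1 ht
  have h8 : (k : ℤ) * t ≤ k * D := mul_le_mul_of_nonneg_left ht2 hk'.le
  have h9 : -((k : ℤ) * D) ≤ k * t := by
    have := mul_le_mul_of_nonneg_left ht1 hk'.le
    linarith
  have h10 : (c.val : ℤ) - c'.val - k * m = 0 := by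
    by_contra hne
    rcases lt_or_gt_of_ne hne with h | h
    · have h11 : (c.val : ℤ) - c'.val - k * m ≤ -1 := by omega
      have h12 : ((c.val : ℤ) - c'.val - k * m) * n ≤ -1 * n :=
        mul_le_mul_of_nonneg_right h11 (Int.natCast_nonneg n)
      linarith
    · have h11 : 1 ≤ (c.val : ℤ) - c'.val - k * m := by omega
      have h12 : 1 * (n : ℤ) ≤ ((c.val : ℤ) - c'.val - k * m) * n :=
        mul_le_mul_of_nonneg_right h11 (Int.natCast_nonneg n)
      linarith
  have h13 : (c.val : ℤ) < k := by exact_mod_cast ZMod.val_lt c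
  have h14 : (c'.val : ℤ) < k := by exact_mod_cast ZMod.val_lt c'
  have h15 : (0 : ℤ) ≤ c.val := Int.natCast_nonneg _
  have h16 : (0 : ℤ) ≤ c'.val := Int.natCast_nonneg _
  have h17 : m = 0 := by
    by_contra hne
    rcases lt_or_gt_of_ne hne with h | h
    · have h11 : m ≤ -1 := by omega
      have h12 : (k : ℤ) * m ≤ k * (-1) := mul_le_mul_of_nonneg_left h11 hk'.le
      linarith
    · have h11 : 1 ≤ m := by omega
      have h12 : (k : ℤ) * 1 ≤ k * m := mul_le_mul_of_nonneg_left h11 hk'.le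
      linarith
  subst h17
  apply hc
  apply ZMod.val_injective k
  have h18 : (c.val : ℤ) = c'.val := by linarith
  exact_mod_cast h18

end Pool.Agent.Helper21.FD
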