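import Pool.Agent.Helper21.FD.Q1

/-!
MP_0aa406_nt, project FD (helper21): the ring `R_k` of standard positions.
-/

set_option autoImplicit false

namespace Pool.Agent.Helper21.FD

open Finset Pool.Agent.Helper21.FC

theorem rmul_comm (p n : ℕ) {k : ℕ} [NeZero k] (μ x : ZMod k → ℤ) :
    rmul p n μ x = rmul p n x μ := by
  funext u
  unfold rmul
  refine Fintype.sum_equiv (Equiv.subLeft u) _ _ (fun i => ?_)
  simp only [Equiv.subLeft_apply, sub_sub_cancel]
  rw [cy_comm n i (u - i)]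
  ring

theorem rmul_assoc (p n : ℕ) {k : ℕ} [NeZero k] (μ x y : ZMod k → ℤ) :
    rmul p n (rmul p n μ x) y = rmul p n μ (rmul p n x y) := by
  funext u
  unfold rmul
  have h2 : ∀ i : ZMod k, μ (u - i) * (∑ j : ZMod k, x (i - j) * y j * (p : ℤ) ^ cy n (i - j) j) *
      (p : ℤ) ^ cy n (u - i) i = ∑ j : ZMod k,
        μ (u - i) * (x (i - j) * y j * (p : ℤ) ^ cy n (i - j) j) * (p : ℤ) ^ cy n (u - i) i := by
    intro i
    rw [Finset.mul_sum, Finset.sum_mul]
  rw [Finset.sum_congr rfl (fun i _ => h2 i), Finset.sum_comm]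
  refine Finset.sum_congr rfl (fun j _ => ?_)
  rw [Finset.sum_mul, Finset.sum_mul]
  refine Fintype.sum_equiv (Equiv.addRight j) _ _ (fun i => ?_)
  simp only [Equiv.coe_addRight]
  have e1 : i + j - j = i := add_sub_cancel_right i j
  have e2 : u - (i + j) = u - j - i := by ring
  have h3 := cy_assoc n (u - j - i) i j
  rw [sub_add_cancel] at h3
  rw [e1, e2]
  have h4 : (p : ℤ) ^ cy n (u - j - i) i * (p : ℤ) ^ cy n (u - j) j =
      (p : ℤ) ^ cy n i j * (p : ℤ) ^ cy n (u - j - i) (i + j) := by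
    rw [← pow_add, ← pow_add, h3]
  linear_combination μ (u - j - i) * x i * y j * h4

theorem rmul_add (p n : ℕ) {k : ℕ} [NeZero k] (μ x y : ZMod k → ℤ) :
    rmul p n μ (x + y) = rmul p n μ x + rmul p n μ y := by
  funext u
  simp only [rmul, Pi.add_apply]
  rw [← Finset.sum_add_distrib]
  refine Finset.sum_congr rfl (fun i _ => ?_)
  ring

theorem rmul_zero (p n : ℕ) {k : ℕ} [NeZero k] (μ : ZMod k → ℤ) : rmul p n μ 0 = 0 := by
  funext u
  simp only [rmul, Pi.zero_apply, mul_zero, zero_mul, Finset.sum_const_zero]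

theorem rmul_smul (p n : ℕ) {k : ℕ} [NeZero k] (μ x : ZMod k → ℤ) (m : ℤ) :
    rmul p n μ (m • x) = m • rmul p n μ x := by
  funext u
  simp only [rmul, Pi.smul_apply, smul_eq_mul]
  rw [Finset.mul_sum]
  refine Finset.sum_congr rfl (fun i _ => ?_)
  ring

theorem rmul_sum (p n : ℕ) {k : ℕ} [NeZero k] {ι : Type} (s : Finset ι) (μ : ZMod k → ℤ)
    (x : ι → ZMod k → ℤ) : rmul p n μ (∑ i ∈ s, x i) = ∑ i ∈ s, rmul p n μ (x i) := by
  classical
  induction s using Finset.induction_on with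
  | empty => rw [Finset.sum_empty, Finset.sum_empty, rmul_zero]
  | insert a s ha ih => rw [Finset.sum_insert ha, Finset.sum_insert ha, rmul_add, ih]

theorem single_rmul (p n : ℕ) {k : ℕ} [NeZero k] (a : ZMod k) (m : ℤ) (x : ZMod k → ℤ)
    (u : ZMod k) :
    rmul p n (Pi.single a m) x u = m * x (u - a) * (p : ℤ) ^ cy n a (u - a) := by
  unfold rmul
  rw [Finset.sum_eq_single (u - a)]
  · rw [sub_sub_cancel, Pi.single_eq_same]
  · intro i _ hi
    have h : u - i ≠ a := by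
      intro h
      apply hi
      rw [← h, sub_sub_cancel]
    rw [Pi.single_eq_of_ne h, zero_mul, zero_mul]
  · intro h
    exact absurd (Finset.mem_univ _) h

theorem one_rmul (p n : ℕ) {k : ℕ} [NeZero k] (x : ZMod k → ℤ) :
    rmul p n (Pi.single 0 1) x = x := by
  funext u
  rw [single_rmul, sub_zero, cy_comm, cy_zero, pow_zero, one_mul, mul_one]

/-- multiplication by a nonzero multiple of a position is injective -/
theorem single_rmul_eq_zero (p n : ℕ) (hp : 0 < p) {k : ℕ} [NeZero k] (a : ZMod k) (m : ℤ)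
    (hm : m ≠ 0) (x : ZMod k → ℤ) (h : rmul p n (Pi.single a m) x = 0) : x = 0 := by
  funext u
  have h1 := congrFun h (u + a)
  rw [single_rmul, add_sub_cancel_right, Pi.zero_apply] at h1
  have h2 : (p : ℤ) ^ cy n a u ≠ 0 := pow_ne_zero _ (by exact_mod_cast hp.ne')
  have h3 := (mul_eq_zero.1 h1).resolve_right h2
  exact (mul_eq_zero.1 h3).resolve_left hm

theorem rmul_bound (p n : ℕ) (hp : 2 ≤ p) {k : ℕ} [NeZero k] (B B' : ℕ) (μ x : ZMod k → ℤ)
    (hμ : ∀ t, |μ t| ≤ (p : ℤ) ^ B) (hx : ∀ t, |x t| ≤ (p : ℤ) ^ B') (u : ZMod k) :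
    |rmul p n μ x u| ≤ (p : ℤ) ^ (B + B' + k + 1) := by
  have hp1 : (1 : ℤ) ≤ p := by exact_mod_cast (show 1 ≤ p by omega)
  have hp0 : (0 : ℤ) ≤ p := by linarith
  have hkp : (k : ℤ) ≤ (p : ℤ) ^ k := by
    have h1 : k ≤ p ^ k := (Nat.lt_pow_self (by omega)).le
    exact_mod_cast h1
  unfold rmul
  calc |∑ i : ZMod k, μ (u - i) * x i * (p : ℤ) ^ cy n (u - i) i|
      ≤ ∑ i : ZMod k, |μ (u - i) * x i * (p : ℤ) ^ cy n (u - i) i| :=
        Finset.abs_sum_le_sum_abs _ _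
    _ ≤ ∑ _i : ZMod k, (p : ℤ) ^ (B + B' + 1) := by
        refine Finset.sum_le_sum (fun i _ => ?_)
        rw [abs_mul, abs_mul, abs_of_nonneg (pow_nonneg hp0 (cy n (u - i) i))]
        have h1 : (p : ℤ) ^ cy n (u - i) i ≤ (p : ℤ) ^ 1 := pow_le_pow_right₀ hp1 (cy_le n _ _)
        have h2 : |μ (u - i)| * |x i| ≤ (p : ℤ) ^ B * (p : ℤ) ^ B' :=
          mul_le_mul (hμ _) (hx _) (abs_nonneg _) (pow_nonneg hp0 _)
        calc |μ (u - i)| * |x i| * (p : ℤ) ^ cy n (u - i) i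
            ≤ ((p : ℤ) ^ B * (p : ℤ) ^ B') * (p : ℤ) ^ 1 :=
              mul_le_mul h2 h1 (pow_nonneg hp0 _)
                (mul_nonneg (pow_nonneg hp0 _) (pow_nonneg hp0 _))
          _ = (p : ℤ) ^ (B + B' + 1) := by rw [← pow_add, ← pow_add]
    _ = (k : ℤ) * (p : ℤ) ^ (B + B' + 1) := by
        rw [Finset.sum_const, Finset.card_univ, ZMod.card, nsmul_eq_mul]
    _ ≤ (p : ℤ) ^ k * (p : ℤ) ^ (B + B' + 1) :=
        mul_le_mul_of_nonneg_right hkp (pow_nonneg hp0 _)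
    _ = (p : ℤ) ^ (B + B' + k + 1) := by
        rw [← pow_add]
        congr 1
        ring

end Pool.Agent.Helper21.FD
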