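import Pool.Agent.Helper21.FC.C4a
import Pool.Agent.Helper21.FD.Q1

/-!
MP_0aa406_nt, project FD (helper21): positions which are not rational are far away.
-/

set_option autoImplicit false

namespace Pool.Agent.Helper21.FD

open Finset Filter Pool.Agent.Helper21.FC

theorem far_all (U : Ultrafilter ℕ) (n : ℕ → ℕ) (s : ℕ → ℤ) (hs : ¬ IsRat U n s) (Q D : ℕ) :
    ∀ᶠ ν in (U : Filter ℕ), ∀ q : ℕ, 1 ≤ q → q ≤ Q → ∀ t : ℤ, |t| ≤ D →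
      ¬ (n ν : ℤ) ∣ (q : ℤ) * s ν - t := by
  have h1 : ∀ x ∈ (Icc 1 Q) ×ˢ (Icc (-(D : ℤ)) D), ∀ᶠ ν in (U : Filter ℕ),
      ¬ (n ν : ℤ) ∣ (x.1 : ℤ) * s ν - x.2 := by
    intro x hx
    have hq : 1 ≤ x.1 := (mem_Icc.1 (mem_product.1 hx).1).1
    apply Ultrafilter.eventually_not.2
    intro h2
    exact hs ⟨x.1, hq, x.2, h2⟩
  have h2 := (eventually_all_finset _).2 h1
  filter_upwards [h2] with ν h3 q hq1 hq2 t ht
  have h4 := abs_le.1 ht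
  exact h3 (q, t) (mem_product.2 ⟨mem_Icc.2 ⟨hq1, hq2⟩, mem_Icc.2 ⟨h4.1, h4.2⟩⟩)

theorem far_pos (U : Ultrafilter ℕ) (n : ℕ → ℕ) (k : ℕ) [NeZero k] (s : ℕ → ℤ)
    (hs : ¬ IsRat U n s) (D : ℕ) :
    ∀ᶠ ν in (U : Filter ℕ), ∀ (c c' : ZMod k) (t : ℤ), |t| ≤ D →
      ¬ (n ν : ℤ) ∣ s ν + ps (n ν) c - ps (n ν) c' - t := by
  have h1 := far_all U n s hs k (k * D + k)
  filter_upwards [h1] with ν h2 c c' t ht hd
  have hk : 0 < k := Nat.pos_of_ne_zero (NeZero.ne k)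
  have e1 : (k : ℤ) * (ps (n ν) c : ℤ) = (c.val : ℤ) * (n ν) + tn (n ν) c := by
    exact_mod_cast ps_mul (n ν) c
  have e2 : (k : ℤ) * (ps (n ν) c' : ℤ) = (c'.val : ℤ) * (n ν) + tn (n ν) c' := by
    exact_mod_cast ps_mul (n ν) c'
  have b1 : (tn (n ν) c : ℤ) < k := by exact_mod_cast tn_lt (n ν) c
  have b2 : (tn (n ν) c' : ℤ) < k := by exact_mod_cast tn_lt (n ν) c'
  have b3 : (0 : ℤ) ≤ tn (n ν) c := Int.natCast_nonneg _
  have b4 : (0 : ℤ) ≤ tn (n ν) c' := Int.natCast_nonneg _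
  have h3 := abs_le.1 ht
  have hk' : (0 : ℤ) < k := by exact_mod_cast hk
  have h4 : (k : ℤ) * t ≤ k * D := mul_le_mul_of_nonneg_left h3.2 hk'.le
  have h5 : (k : ℤ) * (-(D : ℤ)) ≤ k * t := mul_le_mul_of_nonneg_left h3.1 hk'.le
  have h6 : (k : ℤ) * (-(D : ℤ)) = -((k : ℤ) * D) := by ring
  refine h2 k hk le_rfl (k * t + tn (n ν) c' - tn (n ν) c) ?_ ?_
  · rw [abs_le]
    push_cast
    constructor <;> linarith
  · obtain ⟨m, hm⟩ := hd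
    refine ⟨k * m + c'.val - c.val, ?_⟩
    linear_combination (k : ℤ) * hm - e1 + e2

end Pool.Agent.Helper21.FD
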