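import Pool.Agent.Helper21.FC.C1
import Pool.Agent.Helper21.FD.Q3
import Pool.Agent.Helper21.FD.T1

/-!
MP_0aa406_nt, project FD (helper21): the isolation lemma for `R_k`.
-/

set_option autoImplicit false

namespace Pool.Agent.Helper21.FD

open Finset Filter Pool.Agent.Helper21.FC

/-- from residues to cyclic distances -/
private theorem T2_dist {n D a b : ℕ} (hn : 0 < n)
    (h : ∀ t : ℤ, |t| ≤ D → ¬ (n : ℤ) ∣ ((a : ℤ) - b) - t) :
    (D : ℤ) ≤ |((a % n : ℕ) : ℤ) - ((b % n : ℕ) : ℤ)| ∧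
      |((a % n : ℕ) : ℤ) - ((b % n : ℕ) : ℤ)| ≤ (n : ℤ) - D := by
  have ha : ((a % n : ℕ) : ℤ) < n := by exact_mod_cast Nat.mod_lt a hn
  have hb : ((b % n : ℕ) : ℤ) < n := by exact_mod_cast Nat.mod_lt b hn
  have ha0 : (0 : ℤ) ≤ ((a % n : ℕ) : ℤ) := Int.natCast_nonneg _
  have hb0 : (0 : ℤ) ≤ ((b % n : ℕ) : ℤ) := Int.natCast_nonneg _
  have h1 : (n : ℤ) ∣ (a : ℤ) - ((a % n : ℕ) : ℤ) := by
    refine ⟨((a / n : ℕ) : ℤ), ?_⟩
    have := Nat.mod_add_div a n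
    have h2 : (((a % n + n * (a / n) : ℕ)) : ℤ) = a := by rw [this]
    push_cast at h2 ⊢
    linarith
  have h1' : (n : ℤ) ∣ (b : ℤ) - ((b % n : ℕ) : ℤ) := by
    refine ⟨((b / n : ℕ) : ℤ), ?_⟩
    have := Nat.mod_add_div b n
    have h2 : (((b % n + n * (b / n) : ℕ)) : ℤ) = b := by rw [this]
    push_cast at h2 ⊢
    linarith
  generalize ((a % n : ℕ) : ℤ) = x at *
  generalize ((b % n : ℕ) : ℤ) = y at *
  have hkey : ∀ t : ℤ, |t| ≤ D → ¬ (n : ℤ) ∣ (x - y) - t := by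
    intro t ht hd
    refine h t ht ?_
    have h3 := dvd_add hd (dvd_sub h1 h1')
    have h4 : (x - y) - t + ((a : ℤ) - x - ((b : ℤ) - y)) = ((a : ℤ) - b) - t := by ring
    rwa [h4] at h3
  constructor
  · by_contra hlt
    push Not at hlt
    exact hkey (x - y) hlt.le (by simp)
  · by_contra hlt
    push Not at hlt
    rcases le_or_gt 0 (x - y) with h5 | h5
    · rw [abs_of_nonneg h5] at hlt
      refine hkey (x - y - n) ?_ (by simp)
      rw [abs_le]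
      constructor <;> linarith
    · rw [abs_of_neg h5] at hlt
      refine hkey (x - y + n) ?_ ⟨-1, by ring⟩
      rw [abs_le]
      constructor <;> linarith

/-- distances are symmetric -/
private theorem T2_symm {n D a b : ℕ} 
    (h : ∀ t : ℤ, |t| ≤ D → ¬ (n : ℤ) ∣ ((a : ℤ) - b) - t) :
    ∀ t : ℤ, |t| ≤ D → ¬ (n : ℤ) ∣ ((b : ℤ) - a) - t := by
  intro t ht hd
  refine h (-t) (by rwa [abs_neg]) ?_
  have h4 : ((a : ℤ) - b) - -t = -(((b : ℤ) - a) - t) := by ring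
  rw [h4]
  exact (dvd_neg).mpr hd

/-- size of the constant -/
private theorem T2_size {p : ℕ} (hp : 2 ≤ p) (M E : ℕ) :
    (M : ℤ) * (p : ℤ) ^ E < (p : ℤ) ^ (E + M) := by
  have h1 : M < p ^ M := Nat.lt_pow_self (by omega)
  have h2 : (M : ℤ) < (p : ℤ) ^ M := by exact_mod_cast h1
  have h3 : (0 : ℤ) < (p : ℤ) ^ E := pow_pos (by exact_mod_cast (by omega : 0 < p)) _
  rw [pow_add, mul_comm ((p : ℤ) ^ E)]
  exact mul_lt_mul_of_pos_right h2 h3

/-- the statement for one index -/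
private theorem T2_core {p n k : ℕ} [NeZero k] (hp : 2 ≤ p) {J : Type} [Fintype J] [DecidableEq J]
    (s : J → ℕ) (β : J → ZMod k → ℤ) (B : ℕ) (hb : ∀ j c, |β j c| ≤ (p : ℤ) ^ B)
    (hrel : NN p n ∣ ∑ j, (p : ℤ) ^ s j * ev p n (β j)) (j0 : J) (D : ℕ)
    (hD : D = B + Fintype.card J * k + 1) (hDn : k * (D + 1) < n)
    (hdiff : ∀ j, j ≠ j0 → ∀ (c c' : ZMod k) (t : ℤ), |t| ≤ D →
      ¬ (n : ℤ) ∣ ((s j0 : ℤ) - s j) + ps n c - ps n c' - t) : β j0 = 0 := by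
  have hk : 0 < k := Nat.pos_of_ne_zero (NeZero.ne k)
  have hDn' : D < n := by
    have h1 : 1 * (D + 1) ≤ k * (D + 1) := Nat.mul_le_mul_right _ hk
    omega
  have hn0 : 0 < n := by omega
  have hp0 : (0 : ℤ) < (p : ℤ) := by exact_mod_cast (by omega : 0 < p)
  let pos : J × ZMod k → ℕ := fun q => s q.1 + ps n q.2
  let b : J × ZMod k → ℤ := fun q => β q.1 q.2
  have hfar : ∀ c0 : ZMod k, ∀ i, i ≠ (j0, c0) →
      ∀ t : ℤ, |t| ≤ D → ¬ (n : ℤ) ∣ ((pos i : ℤ) - pos (j0, c0)) - t := by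
    rintro c0 ⟨j, c⟩ hi
    by_cases hj : j = j0
    · subst hj
      have hc : c ≠ c0 := fun h => hi (by rw [h])
      intro t ht
      have h1 := far_same n D hDn c c0 hc t ht
      have h2 : ((pos (j, c) : ℤ) - pos (j, c0)) - t = (ps n c : ℤ) - ps n c0 - t := by
        simp only [pos]
        push_cast
        ring
      rwa [h2]
    · have h1 : ∀ t : ℤ, |t| ≤ D → ¬ (n : ℤ) ∣ ((pos (j0, c0) : ℤ) - pos (j, c)) - t := by
        intro t ht
        have h1 := hdiff j hj c0 c t ht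
        have h2 : ((pos (j0, c0) : ℤ) - pos (j, c)) - t =
            ((s j0 : ℤ) - s j) + ps n c0 - ps n c - t := by
          simp only [pos]
          push_cast
          ring
        rwa [h2]
      exact T2_symm h1
  -- the relation
  have hrel2 : NN p n ∣ ∑ i, b i * (p : ℤ) ^ pos i := by
    have h1 : ∑ i, b i * (p : ℤ) ^ pos i = ∑ j, (p : ℤ) ^ s j * ev p n (β j) := by
      rw [Fintype.sum_prod_type]
      refine Finset.sum_congr rfl (fun j _ => ?_)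
      unfold ev
      rw [Finset.mul_sum]
      refine Finset.sum_congr rfl (fun c _ => ?_)
      simp only [pos, b]
      rw [pow_add]
      ring
    rw [h1]
    exact hrel
  have hrel3 : NN p n ∣ ∑ i, b i * (p : ℤ) ^ (pos i % n) := by
    have h3 : NN p n ∣ ∑ i, (b i * (p : ℤ) ^ pos i - b i * (p : ℤ) ^ (pos i % n)) := by
      refine Finset.dvd_sum (fun i _ => ?_)
      rw [← mul_sub]
      refine Dvd.dvd.mul_left (pow_congr p n _ _ ?_) _
      refine ⟨((pos i / n : ℕ) : ℤ), ?_⟩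
      have h4 := Nat.mod_add_div (pos i) n
      have h2 : (((pos i % n + n * (pos i / n) : ℕ)) : ℤ) = pos i := by rw [h4]
      push_cast at h2 ⊢
      linarith
    rw [Finset.sum_sub_distrib] at h3
    have h4 := dvd_sub hrel2 h3
    rwa [sub_sub_cancel] at h4
  -- the size
  have hbs : ∑ i, |b i| < (p : ℤ) ^ (D - 1) := by
    have h2 : ∑ i, |b i| ≤ (Fintype.card (J × ZMod k) : ℤ) * (p : ℤ) ^ B := by
      refine (Finset.sum_le_card_nsmul _ _ _ (fun i _ => hb i.1 i.2)).trans_eq ?_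
      rw [nsmul_eq_mul, Finset.card_univ]
    have h3 : Fintype.card (J × ZMod k) = Fintype.card J * k := by
      rw [Fintype.card_prod, ZMod.card]
    have h4 := T2_size hp (Fintype.card J * k) B
    have h5 : D - 1 = B + Fintype.card J * k := by omega
    rw [h5]
    rw [h3] at h2
    exact lt_of_le_of_lt h2 h4
  funext c0
  exact isolated hp (by omega) hDn'.le (fun i => pos i % n) (fun i => Nat.mod_lt _ hn0) b hbs
    (j0, c0) (fun i hi => T2_dist hn0 (hfar c0 i hi)) hrel3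

/-- If `∑_j p ^ (s_j) ev β_j ≡ 0` modulo `p ^ n - 1` and the class of `s_{j0}` modulo the rational
positions differs from all the others, then `β_{j0} = 0`. -/
theorem isolation (U : Ultrafilter ℕ) (p n : ℕ → ℕ) (hp : ∀ ν, 2 ≤ p ν)
    (hn : ∀ m : ℕ, ∀ᶠ ν in (U : Filter ℕ), m < n ν) (k : ℕ) [NeZero k]
    {J : Type} [Fintype J] [DecidableEq J] (s : J → ℕ → ℕ) (β : J → ℕ → ZMod k → ℤ) (B : ℕ)
    (hb : ∀ j, ∀ᶠ ν in (U : Filter ℕ), ∀ c, |β j ν c| ≤ (p ν : ℤ) ^ B)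
    (hrel : ∀ᶠ ν in (U : Filter ℕ),
      NN (p ν) (n ν) ∣ ∑ j, (p ν : ℤ) ^ s j ν * ev (p ν) (n ν) (β j ν))
    (j0 : J) (hiso : ∀ j, j ≠ j0 → ¬ IsRat U n (fun ν => (s j0 ν : ℤ) - s j ν)) :
    ∀ᶠ ν in (U : Filter ℕ), β j0 ν = 0 := by
  obtain ⟨D, hD⟩ : ∃ D, D = B + Fintype.card J * k + 1 := ⟨_, rfl⟩
  have hdiff : ∀ᶠ ν in (U : Filter ℕ), ∀ j, j ≠ j0 → ∀ (c c' : ZMod k) (t : ℤ), |t| ≤ D →
      ¬ (n ν : ℤ) ∣ ((s j0 ν : ℤ) - s j ν) + ps (n ν) c - ps (n ν) c' - t := by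
    rw [eventually_all]
    intro j
    by_cases hj : j = j0
    · exact Eventually.of_forall (fun ν hne => absurd hj hne)
    · filter_upwards [far_pos U n k _ (hiso j hj) D] with ν hν _
      exact hν
  have hb' : ∀ᶠ ν in (U : Filter ℕ), ∀ j, ∀ c, |β j ν c| ≤ (p ν : ℤ) ^ B :=
    eventually_all.2 hb
  filter_upwards [hdiff, hb', hrel, hn (k * (D + 1))] with ν h1 h2 h3 h4
  exact T2_core (hp ν) (fun j => s j ν) (fun j => β j ν) B h2 h3 j0 D hD h4 h1

end Pool.Agent.Helper21.FD
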