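import Pool.Agent.Helper21.FD.Q3
import Pool.Agent.Helper21.FD.Q4
import Pool.Agent.Helper21.FD.T1

/-!
MP_0aa406_nt, project FD (helper21): grouping the terms of a sum by classes.
-/

set_option autoImplicit false

namespace Pool.Agent.Helper21.FD

open Finset Filter Pool.Agent.Helper21.FC

/-- the position of a term of a class -/
theorem T3_pos (n k T0 qi qa : ℕ) [NeZero k] (hn : 0 < n) (τ : ℤ)
    (h : (n : ℤ) ∣ (k : ℤ) * ((qi : ℤ) - qa) - τ) (t : ℕ) (ht : (t : ℤ) = τ + k * T0)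
    (htk : k ≤ t) :
    ∃ (c : ZMod k) (e : ℕ), (n : ℤ) ∣ (qi : ℤ) - ((qa + (n - 1) * T0 + (e + ps n c) : ℕ) : ℤ) ∧
      k * e + tn n c = t := by
  have h1 : ((n - 1 : ℕ) : ℤ) = (n : ℤ) - 1 := by
    have := Nat.cast_sub (R := ℤ) (Nat.one_le_iff_ne_zero.mpr hn.ne')
    simpa using this
  have h2 : (n : ℤ) ∣ (k : ℤ) * ((qi : ℤ) - ((qa + (n - 1) * T0 : ℕ) : ℤ)) - (t : ℤ) := by
    rw [ht]
    push_cast
    rw [h1]
    have h3 : (k : ℤ) * ((qi : ℤ) - ((qa : ℤ) + ((n : ℤ) - 1) * T0)) - (τ + k * T0) =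
        ((k : ℤ) * ((qi : ℤ) - qa) - τ) - n * (k * T0) := by ring
    rw [h3]
    exact dvd_sub h (Dvd.intro _ rfl)
  obtain ⟨c, i, m, hs, hi⟩ := rat_pos n _ _ h2
  have hk : (0 : ℤ) < k := by exact_mod_cast Nat.pos_of_ne_zero (NeZero.ne k)
  have htn : (tn n c : ℤ) < k := by exact_mod_cast tn_lt n c
  have hi0 : 0 ≤ i := by
    by_contra hneg
    push Not at hneg
    have h4 : (k : ℤ) * i < 0 := by nlinarith
    have h5 : (k : ℤ) ≤ t := by exact_mod_cast htk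
    rw [hi] at h4
    linarith
  obtain ⟨e, rfl⟩ := Int.eq_ofNat_of_zero_le hi0
  refine ⟨c, e, ?_, ?_⟩
  · refine ⟨m, ?_⟩
    push_cast at hs ⊢
    linarith
  · have h6 : ((k * e + tn n c : ℕ) : ℤ) = (t : ℤ) := by
      push_cast
      linarith
    exact_mod_cast h6

/-- the divisibility for one term -/
theorem T3_term (p n k : ℕ) [NeZero k] (qi r e : ℕ) (c : ZMod k) (β : ZMod k → ℤ)
    (h : (n : ℤ) ∣ (qi : ℤ) - ((r + (e + ps n c) : ℕ) : ℤ)) :
    NN p n ∣ (p : ℤ) ^ qi * ev p n β -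
      (p : ℤ) ^ r * ev p n (rmul p n (Pi.single c ((p : ℤ) ^ e)) β) := by
  have h1 := pow_congr p n _ _ h
  have h2 := ev_rmul p n (Pi.single c ((p : ℤ) ^ e)) β
  rw [ev_single] at h2
  have h3 : (p : ℤ) ^ qi * ev p n β -
      (p : ℤ) ^ r * ev p n (rmul p n (Pi.single c ((p : ℤ) ^ e)) β) =
      ((p : ℤ) ^ qi - (p : ℤ) ^ (r + (e + ps n c))) * ev p n β +
      (p : ℤ) ^ r * ((p : ℤ) ^ e * (p : ℤ) ^ ps n c * ev p n β -
        ev p n (rmul p n (Pi.single c ((p : ℤ) ^ e)) β)) := by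
    rw [pow_add, pow_add]; ring
  rw [h3]
  exact dvd_add (Dvd.dvd.mul_right h1 _) (Dvd.dvd.mul_left h2 _)

/-- the real place for one term -/
theorem T3_real (p n k : ℕ) [NeZero k] (e t : ℕ) (c : ZMod k) (β : ZMod k → ℤ)
    (h : k * e + tn n c = t) :
    Sr p n (rmul p n (Pi.single c ((p : ℤ) ^ e)) β) = rho p k ^ t * Sr p n β := by
  rw [Sr_rmul, Sr_single, ← h, pow_add, pow_mul, rho_pow p k (Nat.pos_of_ne_zero (NeZero.ne k))]
  push_cast
  ring

/-- the bound for one term -/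
theorem T3_bound (p n k : ℕ) (hp : 2 ≤ p) [NeZero k] (e E B : ℕ) (he : e ≤ E) (c : ZMod k)
    (β : ZMod k → ℤ) (hβ : ∀ t, |β t| ≤ (p : ℤ) ^ B) (u : ZMod k) :
    |rmul p n (Pi.single c ((p : ℤ) ^ e)) β u| ≤ (p : ℤ) ^ (E + B + k + 1) := by
  refine rmul_bound p n hp E B _ _ (fun t => ?_) hβ u
  have hp1 : (1 : ℤ) ≤ p := by exact_mod_cast (by omega : 1 ≤ p)
  by_cases h : t = c
  · subst h
    rw [Pi.single_eq_same, abs_of_nonneg (by positivity)]
    exact pow_le_pow_right₀ hp1 he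
  · rw [Pi.single_eq_of_ne h, abs_zero]
    positivity

/-- a sum of boundedly many bounded terms -/
theorem T3_sum {I : Type} [Fintype I] (p : ℕ) (hp : 2 ≤ p) (S : Finset I) (f : I → ℤ) (E : ℕ)
    (hf : ∀ i ∈ S, |f i| ≤ (p : ℤ) ^ E) :
    |∑ i ∈ S, f i| ≤ (p : ℤ) ^ (Fintype.card I + E) := by
  refine (Finset.abs_sum_le_sum_abs _ _).trans ?_
  refine (Finset.sum_le_sum hf).trans ?_
  rw [Finset.sum_const, nsmul_eq_mul, pow_add]
  have h3 : (S.card : ℤ) ≤ (p : ℤ) ^ Fintype.card I := by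
    have h4 : S.card ≤ Fintype.card I := Finset.card_le_univ S
    have h5 : Fintype.card I ≤ 2 ^ Fintype.card I := Nat.lt_two_pow_self.le
    have h6 : 2 ^ Fintype.card I ≤ p ^ Fintype.card I := Nat.pow_le_pow_left hp _
    have h7 : S.card ≤ p ^ Fintype.card I := h4.trans (h5.trans h6)
    exact_mod_cast h7
  exact mul_le_mul_of_nonneg_right h3 (by positivity)

/-- Representatives `rep i` of the classes of the positions `q i` modulo the rational positions;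
`γ a` is the sum of the elements of the class of `a`, transported to the position `r a`. -/
theorem grouping (U : Ultrafilter ℕ) (p n : ℕ → ℕ) (hp : ∀ ν, 2 ≤ p ν)
    (hn : ∀ m : ℕ, ∀ᶠ ν in (U : Filter ℕ), m < n ν) (k : ℕ) [NeZero k]
    {I : Type} [Fintype I] [DecidableEq I] (q : I → ℕ → ℕ) (β : I → ℕ → ZMod k → ℤ) (B : ℕ)
    (hb : ∀ i, ∀ᶠ ν in (U : Filter ℕ), ∀ c, |β i ν c| ≤ (p ν : ℤ) ^ B)
    (hden : ∀ i i', IsRat U n (fun ν => (q i ν : ℤ) - q i' ν) →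
      ∃ t : ℤ, ∀ᶠ ν in (U : Filter ℕ), (n ν : ℤ) ∣ (k : ℤ) * ((q i ν : ℤ) - q i' ν) - t) :
    ∃ (rep : I → I) (r : I → ℕ → ℕ) (γ : I → ℕ → ZMod k → ℤ) (t : I → ℕ) (B' : ℕ),
      (∀ i, rep (rep i) = rep i) ∧
      (∀ i i', rep i = rep i' ↔ IsRat U n (fun ν => (q i ν : ℤ) - q i' ν)) ∧
      (∀ i, ∃ t' : ℤ, ∀ᶠ ν in (U : Filter ℕ), (n ν : ℤ) ∣ (k : ℤ) * ((r i ν : ℤ) - q i ν) - t') ∧
      (∀ a, ∀ᶠ ν in (U : Filter ℕ), ∀ c, |γ a ν c| ≤ (p ν : ℤ) ^ B') ∧
      (∀ a, ∀ᶠ ν in (U : Filter ℕ), NN (p ν) (n ν) ∣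
        ∑ i ∈ univ.filter (fun i => rep i = a), (p ν : ℤ) ^ q i ν * ev (p ν) (n ν) (β i ν) -
          (p ν : ℤ) ^ r a ν * ev (p ν) (n ν) (γ a ν)) ∧
      ∀ a, ∀ᶠ ν in (U : Filter ℕ), Sr (p ν) (n ν) (γ a ν) =
        ∑ i ∈ univ.filter (fun i => rep i = a), rho (p ν) k ^ t i * Sr (p ν) (n ν) (β i ν) := by
  classical
  -- the equivalence relation
  let s : Setoid I :=
    { r := fun i i' => IsRat U n (fun ν => (q i ν : ℤ) - q i' ν)
      iseqv :=
        { refl := fun i => by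
            have h := isRat_zero U n
            have h2 : (fun ν => (q i ν : ℤ) - q i ν) = fun _ => (0 : ℤ) := by
              funext ν; ring
            rw [h2]; exact h
          symm := fun {i j} h => by
            have h1 := h.neg
            have h2 : (fun ν => (q j ν : ℤ) - q i ν) = fun ν => -((q i ν : ℤ) - q j ν) := by
              funext ν; ring
            rw [h2]; exact h1
          trans := fun {i j l} h h' => by
            have h1 := h.add h'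
            have h2 : (fun ν => (q i ν : ℤ) - q l ν) =
                fun ν => ((q i ν : ℤ) - q j ν) + ((q j ν : ℤ) - q l ν) := by
              funext ν; ring
            rw [h2]; exact h1 } }
  let rep : I → I := fun i => (Quotient.mk s i).out
  have hrep : ∀ i, IsRat U n (fun ν => (q i ν : ℤ) - q (rep i) ν) := by
    intro i
    have h1 : s.r (rep i) i := Quotient.mk_out (s := s) i
    exact s.iseqv.symm h1
  have hrep2 : ∀ i j, IsRat U n (fun ν => (q i ν : ℤ) - q j ν) → rep i = rep j := by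
    intro i j h
    have h1 : Quotient.mk s i = Quotient.mk s j := Quotient.sound h
    show (Quotient.mk s i).out = (Quotient.mk s j).out
    rw [h1]
  have hrep3 : ∀ i, rep (rep i) = rep i := by
    intro i
    show (Quotient.mk s (Quotient.mk s i).out).out = (Quotient.mk s i).out
    rw [Quotient.out_eq]
  have hrep4 : ∀ i j, rep i = rep j → IsRat U n (fun ν => (q i ν : ℤ) - q j ν) := by
    intro i j h
    have h1 : s.r i (rep i) := hrep i
    have h2 : s.r j (rep j) := hrep j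
    rw [← h] at h2
    exact s.iseqv.trans h1 (s.iseqv.symm h2)
  choose τ hτ using fun i => hden i (rep i) (hrep i)
  have hk : 0 < k := Nat.pos_of_ne_zero (NeZero.ne k)
  obtain ⟨T, hT⟩ : ∃ T : ℕ, ∀ i, |τ i| ≤ T := by
    refine ⟨∑ i, (τ i).natAbs, fun i => ?_⟩
    have h1 : (τ i).natAbs ≤ ∑ i, (τ i).natAbs :=
      Finset.single_le_sum (f := fun i => (τ i).natAbs) (fun _ _ => Nat.zero_le _)
        (Finset.mem_univ i)
    rw [Int.abs_eq_natAbs]
    exact_mod_cast h1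
  have hkT : ∀ i, (k : ℤ) ≤ τ i + k * ((T + 1 : ℕ) : ℤ) := by
    intro i
    have h1 := neg_le_of_abs_le (hT i)
    have h2 : (T : ℤ) ≤ k * T := by
      have : (1 : ℤ) ≤ k := by exact_mod_cast hk
      nlinarith
    push_cast
    linarith
  let t : I → ℕ := fun i => (τ i + k * ((T + 1 : ℕ) : ℤ)).toNat
  have ht : ∀ i, (t i : ℤ) = τ i + k * ((T + 1 : ℕ) : ℤ) := by
    intro i
    exact Int.toNat_of_nonneg ((Int.natCast_nonneg k).trans (hkT i))
  have ht2 : ∀ i, k ≤ t i := by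
    intro i
    have h1 := hkT i
    rw [← ht i] at h1
    exact_mod_cast h1
  have hch : ∀ i ν, ∃ (c : ZMod k) (e : ℕ), 0 < n ν →
      (n ν : ℤ) ∣ (k : ℤ) * ((q i ν : ℤ) - q (rep i) ν) - τ i →
      (n ν : ℤ) ∣ (q i ν : ℤ) -
        ((q (rep i) ν + (n ν - 1) * (T + 1) + (e + ps (n ν) c) : ℕ) : ℤ) ∧
        k * e + tn (n ν) c = t i := by
    intro i ν
    by_cases h : 0 < n ν ∧ (n ν : ℤ) ∣ (k : ℤ) * ((q i ν : ℤ) - q (rep i) ν) - τ i
    · obtain ⟨c, e, h1, h2⟩ := T3_pos (n ν) k (T + 1) (q i ν) (q (rep i) ν) h.1 (τ i) h.2 (t i)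
        (ht i) (ht2 i)
      exact ⟨c, e, fun _ _ => ⟨h1, h2⟩⟩
    · exact ⟨0, 0, fun h1 h2 => absurd ⟨h1, h2⟩ h⟩
  choose c e hce using hch
  have hall : ∀ᶠ ν in (U : Filter ℕ), ∀ i,
      (n ν : ℤ) ∣ (q i ν : ℤ) -
        ((q (rep i) ν + (n ν - 1) * (T + 1) + (e i ν + ps (n ν) (c i ν)) : ℕ) : ℤ) ∧
        k * e i ν + tn (n ν) (c i ν) = t i := by
    have h0 : ∀ᶠ ν in (U : Filter ℕ), ∀ i,
        (n ν : ℤ) ∣ (k : ℤ) * ((q i ν : ℤ) - q (rep i) ν) - τ i := by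
      rw [Filter.eventually_all]
      exact hτ
    filter_upwards [hn 0, h0] with ν h1 h2 i
    exact hce i ν h1 (h2 i)
  have hball : ∀ᶠ ν in (U : Filter ℕ), ∀ i, ∀ c, |β i ν c| ≤ (p ν : ℤ) ^ B := by
    rw [Filter.eventually_all]
    exact hb
  refine ⟨rep, fun a ν => q a ν + (n ν - 1) * (T + 1),
    fun a ν => ∑ i ∈ univ.filter (fun i => rep i = a),
      rmul (p ν) (n ν) (Pi.single (c i ν) ((p ν : ℤ) ^ e i ν)) (β i ν),
    t, Fintype.card I + ((∑ i, t i) + B + k + 1), hrep3, fun i j => ⟨hrep4 i j, hrep2 i j⟩,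
    ?_, ?_, ?_, ?_⟩
  · intro i
    refine ⟨-((k : ℤ) * ((T + 1 : ℕ) : ℤ)), ?_⟩
    filter_upwards [hn 0] with ν h1
    have h2 : ((n ν - 1 : ℕ) : ℤ) = (n ν : ℤ) - 1 := by
      have := Nat.cast_sub (R := ℤ) (Nat.one_le_iff_ne_zero.mpr h1.ne')
      simpa using this
    push_cast
    rw [h2]
    have h3 : (k : ℤ) * ((q i ν : ℤ) + ((n ν : ℤ) - 1) * (T + 1) - q i ν) -
        -((k : ℤ) * (T + 1)) = n ν * (k * (T + 1)) := by ring
    rw [h3]
    exact Dvd.intro _ rfl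
  · intro a
    filter_upwards [hall, hball] with ν h1 h2 u
    rw [Finset.sum_apply]
    refine T3_sum (p ν) (hp ν) _ _ _ fun i _ => ?_
    refine T3_bound (p ν) (n ν) k (hp ν) (e i ν) _ B ?_ (c i ν) (β i ν) (h2 i) u
    have h3 : t i ≤ ∑ i, t i :=
      Finset.single_le_sum (f := fun i => t i) (fun _ _ => Nat.zero_le _) (Finset.mem_univ i)
    have h4 := (h1 i).2
    have h5 : e i ν ≤ k * e i ν := Nat.le_mul_of_pos_left _ hk
    omega
  · intro a
    filter_upwards [hall] with ν h1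
    rw [ev_sum, Finset.mul_sum, ← Finset.sum_sub_distrib]
    refine Finset.dvd_sum fun i hi => ?_
    have hia : rep i = a := (Finset.mem_filter.mp hi).2
    refine T3_term (p ν) (n ν) k (q i ν) _ (e i ν) (c i ν) (β i ν) ?_
    have h2 := (h1 i).1
    rw [hia] at h2
    exact h2
  · intro a
    filter_upwards [hall] with ν h1
    rw [Sr_sum]
    refine Finset.sum_congr rfl fun i _ => ?_
    exact T3_real (p ν) (n ν) k (e i ν) (t i) (c i ν) (β i ν) (h1 i).2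

end Pool.Agent.Helper21.FD
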