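import Pool.Agent.Helper21.FC.C4a
import Pool.Agent.Helper21.FD.T2
import Pool.Agent.Helper21.FD.T3

/-!
MP_0aa406_nt, project FD (helper21): a vanishing sum has vanishing real place on every class.
-/

set_option autoImplicit false

namespace Pool.Agent.Helper21.FD

open Finset Filter Pool.Agent.Helper21.FC

/-- If `∑_i p ^ (q_i) ev β_i ≡ 0`, the weighted sum of the `Sr β_i` over the class of `i0` is zero. -/
theorem class_sum (U : Ultrafilter ℕ) (p n : ℕ → ℕ) (hp : ∀ ν, 2 ≤ p ν)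
    (hn : ∀ m : ℕ, ∀ᶠ ν in (U : Filter ℕ), m < n ν) (k : ℕ) [NeZero k]
    {I : Type} [Fintype I] [DecidableEq I] (q : I → ℕ → ℕ) (β : I → ℕ → ZMod k → ℤ) (B : ℕ)
    (hb : ∀ i, ∀ᶠ ν in (U : Filter ℕ), ∀ c, |β i ν c| ≤ (p ν : ℤ) ^ B)
    (hden : ∀ i i', IsRat U n (fun ν => (q i ν : ℤ) - q i' ν) →
      ∃ t : ℤ, ∀ᶠ ν in (U : Filter ℕ), (n ν : ℤ) ∣ (k : ℤ) * ((q i ν : ℤ) - q i' ν) - t)
    (hrel : ∀ᶠ ν in (U : Filter ℕ),
      NN (p ν) (n ν) ∣ ∑ i, (p ν : ℤ) ^ q i ν * ev (p ν) (n ν) (β i ν)) (i0 : I) :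
    ∃ (T : Finset I) (t : I → ℕ), (∀ i, i ∈ T ↔ IsRat U n (fun ν => (q i ν : ℤ) - q i0 ν)) ∧
      ∀ᶠ ν in (U : Filter ℕ), ∑ i ∈ T, rho (p ν) k ^ t i * Sr (p ν) (n ν) (β i ν) = 0 := by
  obtain ⟨rep, r, γ, t, B', hrr, hrep, hrq, hγ, hsum, hSr⟩ :=
    grouping U p n hp hn k q β B hb hden
  have hrat : ∀ i, IsRat U n (fun ν => (r i ν : ℤ) - q i ν) := fun i => by
    obtain ⟨t', ht'⟩ := hrq i
    exact ⟨k, Nat.pos_of_ne_zero (NeZero.ne k), t', ht'⟩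
  have hrel' : ∀ᶠ ν in (U : Filter ℕ), NN (p ν) (n ν) ∣
      ∑ j : {a : I // rep a = a}, (p ν : ℤ) ^ r j.1 ν * ev (p ν) (n ν) (γ j.1 ν) := by
    have h1 : ∀ᶠ ν in (U : Filter ℕ), ∀ a, NN (p ν) (n ν) ∣
        ∑ i ∈ univ.filter (fun i => rep i = a), (p ν : ℤ) ^ q i ν * ev (p ν) (n ν) (β i ν) -
          (p ν : ℤ) ^ r a ν * ev (p ν) (n ν) (γ a ν) := eventually_all.2 hsum
    filter_upwards [h1, hrel] with ν h2 h3
    have h4 : ∑ j : {a : I // rep a = a}, ∑ i ∈ univ.filter (fun i => rep i = j.1),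
        (p ν : ℤ) ^ q i ν * ev (p ν) (n ν) (β i ν) =
        ∑ i, (p ν : ℤ) ^ q i ν * ev (p ν) (n ν) (β i ν) := by
      rw [← Finset.sum_fiberwise univ (fun i => (⟨rep i, hrr i⟩ : {a : I // rep a = a}))]
      refine Finset.sum_congr rfl fun j _ => Finset.sum_congr ?_ fun _ _ => rfl
      ext i
      simp [Subtype.ext_iff]
    have h5 : NN (p ν) (n ν) ∣ ∑ j : {a : I // rep a = a},
        (∑ i ∈ univ.filter (fun i => rep i = j.1),
          (p ν : ℤ) ^ q i ν * ev (p ν) (n ν) (β i ν) -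
            (p ν : ℤ) ^ r j.1 ν * ev (p ν) (n ν) (γ j.1 ν)) :=
      Finset.dvd_sum fun j _ => h2 j.1
    rw [Finset.sum_sub_distrib, h4] at h5
    exact (dvd_sub_right h3).1 h5
  have hz : ∀ᶠ ν in (U : Filter ℕ), γ (rep i0) ν = 0 := by
    refine isolation U p n hp hn k (J := {a : I // rep a = a}) (fun j => r j.1)
      (fun j => γ j.1) B' (fun j => hγ j.1) hrel' ⟨rep i0, hrr i0⟩ ?_
    rintro ⟨a, ha⟩ hne hr
    apply hne
    have h1 : IsRat U n (fun ν => (q (rep i0) ν : ℤ) - q a ν) := by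
      have h2 := ((hr.add (hrat (rep i0)).neg).add (hrat a))
      have h3 : (fun ν => ((r (rep i0) ν : ℤ) - r a ν + -((r (rep i0) ν : ℤ) - q (rep i0) ν)) +
          ((r a ν : ℤ) - q a ν)) = fun ν => (q (rep i0) ν : ℤ) - q a ν := by
        funext ν
        ring
      rw [h3] at h2
      exact h2
    have h4 := (hrep (rep i0) a).2 h1
    rw [hrr, ha] at h4
    exact Subtype.ext h4.symm
  refine ⟨univ.filter (fun i => rep i = rep i0), t, fun i => ?_, ?_⟩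
  · rw [Finset.mem_filter, ← hrep i i0]
    simp
  · filter_upwards [hz, hSr (rep i0)] with ν h1 h2
    rw [← h2, h1]
    simp [Sr]

end Pool.Agent.Helper21.FD
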