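import Pool.Agent.Helper21.FC.C4b
import Pool.Agent.Helper21.FD.Q3
import Pool.Agent.Helper21.FD.Q4
import Pool.Agent.Helper21.FD.T4

/-!
MP_0aa406_nt, project FD (helper21): exactly one class has a nonzero real place.
-/

set_option autoImplicit false

namespace Pool.Agent.Helper21.FD

open Finset Filter Pool.Agent.Helper21.FC

/-- the common hypotheses: `k` is a denominator of all rational combinations in question -/
def Den (U : Ultrafilter ℕ) (n : ℕ → ℕ) (k : ℕ) (s : ℕ → ℤ) : Prop :=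
  IsRat U n s → ∃ t : ℤ, ∀ᶠ ν in (U : Filter ℕ), (n ν : ℤ) ∣ (k : ℤ) * s ν - t

theorem T5_rho_pos (p k : ℕ) (hp : 2 ≤ p) : 0 < rho p k :=
  Real.rpow_pos_of_pos (by exact_mod_cast (by omega : 0 < p)) _

/-- in a vanishing weighted sum with a single possibly nonzero term this term vanishes -/
theorem T5_isolate (U : Ultrafilter ℕ) (p n : ℕ → ℕ) (hp : ∀ ν, 2 ≤ p ν) (k : ℕ) [NeZero k]
    {K : Type} [DecidableEq K] (β : K → ℕ → ZMod k → ℤ) (T : Finset K) (t : K → ℕ) (i0 : K)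
    (hi0 : i0 ∈ T)
    (h0 : ∀ i ∈ T, i ≠ i0 → ∀ᶠ ν in (U : Filter ℕ), Sr (p ν) (n ν) (β i ν) = 0)
    (hs : ∀ᶠ ν in (U : Filter ℕ), ∑ i ∈ T, rho (p ν) k ^ t i * Sr (p ν) (n ν) (β i ν) = 0) :
    ∀ᶠ ν in (U : Filter ℕ), Sr (p ν) (n ν) (β i0 ν) = 0 := by
  have h1 : ∀ᶠ ν in (U : Filter ℕ), ∀ i ∈ T, i ≠ i0 → Sr (p ν) (n ν) (β i ν) = 0 := by
    refine (eventually_all_finset T).2 fun i hi => ?_
    by_cases h : i = i0
    · exact Eventually.of_forall fun ν h' => absurd h h'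
    · filter_upwards [h0 i hi h] with ν h2 _ using h2
  filter_upwards [h1, hs] with ν h2 h3
  rw [Finset.sum_eq_single_of_mem i0 hi0 (fun i hi hne => by rw [h2 i hi hne, mul_zero])] at h3
  rcases mul_eq_zero.1 h3 with h4 | h4
  · exact absurd h4 (pow_pos (T5_rho_pos (p ν) k (hp ν)) _).ne'
  · exact h4

/-- positions of the product relation -/
def T5_q {I J : Type} (A : Finset I) (A' : Finset J) (r : I → ℕ → ℕ) (r' : J → ℕ → ℕ) :
    Option (A × A') → ℕ → ℕ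
  | none, _ => 0
  | some x, ν => r x.1 ν + r' x.2 ν

/-- coefficients of the product relation -/
def T5_b (p n : ℕ → ℕ) {k : ℕ} [NeZero k] {I J : Type} (A : Finset I) (A' : Finset J)
    (M : I → ℕ → ZMod k → ℤ) (M' : J → ℕ → ZMod k → ℤ) (h : ℕ) :
    Option (A × A') → ℕ → ZMod k → ℤ
  | none, _ => Pi.single 0 (-(h : ℤ))
  | some x, ν => rmul (p ν) (n ν) (M x.1 ν) (M' x.2 ν)

theorem T5_rel (p n : ℕ → ℕ) {k : ℕ} [NeZero k] {I J : Type} (A : Finset I) (A' : Finset J)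
    (r : I → ℕ → ℕ) (r' : J → ℕ → ℕ) (M : I → ℕ → ZMod k → ℤ) (M' : J → ℕ → ZMod k → ℤ) (h : ℕ)
    (ν : ℕ) (hrel : NN (p ν) (n ν) ∣
      (∑ a ∈ A, (p ν : ℤ) ^ r a ν * ev (p ν) (n ν) (M a ν)) *
        (∑ b ∈ A', (p ν : ℤ) ^ r' b ν * ev (p ν) (n ν) (M' b ν)) - h) :
    NN (p ν) (n ν) ∣ ∑ i, (p ν : ℤ) ^ T5_q A A' r r' i ν *
      ev (p ν) (n ν) (T5_b p n A A' M M' h i ν) := by
  rw [Fintype.sum_option, Fintype.sum_prod_type]
  rw [← Finset.sum_coe_sort A, ← Finset.sum_coe_sort A', Finset.sum_mul_sum] at hrel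
  have h1 : NN (p ν) (n ν) ∣ ∑ a : A, ∑ b : A',
      (((p ν : ℤ) ^ r a ν * ev (p ν) (n ν) (M a ν)) *
        ((p ν : ℤ) ^ r' b ν * ev (p ν) (n ν) (M' b ν)) -
        (p ν : ℤ) ^ T5_q A A' r r' (some (a, b)) ν *
          ev (p ν) (n ν) (T5_b p n A A' M M' h (some (a, b)) ν)) := by
    refine Finset.dvd_sum fun a _ => Finset.dvd_sum fun b _ => ?_
    have h2 := ev_rmul (p ν) (n ν) (M a ν) (M' b ν)
    have h3 : ((p ν : ℤ) ^ r a ν * ev (p ν) (n ν) (M a ν)) *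
        ((p ν : ℤ) ^ r' b ν * ev (p ν) (n ν) (M' b ν)) -
        (p ν : ℤ) ^ T5_q A A' r r' (some (a, b)) ν *
          ev (p ν) (n ν) (T5_b p n A A' M M' h (some (a, b)) ν) =
        (p ν : ℤ) ^ (r a ν + r' b ν) * (ev (p ν) (n ν) (M a ν) * ev (p ν) (n ν) (M' b ν) -
          ev (p ν) (n ν) (rmul (p ν) (n ν) (M a ν) (M' b ν))) := by
      simp only [T5_q, T5_b]
      ring
    rw [h3]
    exact Dvd.dvd.mul_left h2 _
  simp only [Finset.sum_sub_distrib] at h1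
  have h4 : (p ν : ℤ) ^ T5_q A A' r r' none ν *
      ev (p ν) (n ν) (T5_b p n A A' M M' h none ν) = -(h : ℤ) := by
    simp only [T5_q, T5_b]
    rw [ev_single, ps_zero]
    simp
  rw [h4]
  have h5 := dvd_sub hrel h1
  ring_nf at h5 ⊢
  exact h5

theorem T5_isRat_neg {U : Ultrafilter ℕ} {n : ℕ → ℕ} {s s' : ℕ → ℤ} (hs : IsRat U n s)
    (h : ∀ ν, s' ν = - s ν) : IsRat U n s' := by
  have h1 : s' = fun ν => - s ν := funext h
  rw [h1]
  exact hs.neg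

theorem T5_isRat_congr {U : Ultrafilter ℕ} {n : ℕ → ℕ} {s s' : ℕ → ℤ} (hs : IsRat U n s)
    (h : ∀ ν, s' ν = s ν) : IsRat U n s' := by
  have h1 : s' = s := funext h
  rw [h1]
  exact hs

theorem T5_den (U : Ultrafilter ℕ) (n : ℕ → ℕ) (k : ℕ) {I J : Type} (A : Finset I)
    (A' : Finset J) (r : I → ℕ → ℕ) (r' : J → ℕ → ℕ)
    (hden1 : ∀ a b, Den U n k (fun ν => (r a ν : ℤ) + r' b ν))
    (hden2 : ∀ a b a' b', Den U n k (fun ν => ((r a ν : ℤ) + r' b ν) - ((r a' ν : ℤ) + r' b' ν)))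
    (i i' : Option (A × A'))
    (hr : IsRat U n (fun ν => (T5_q A A' r r' i ν : ℤ) - T5_q A A' r r' i' ν)) :
    ∃ t : ℤ, ∀ᶠ ν in (U : Filter ℕ),
      (n ν : ℤ) ∣ (k : ℤ) * ((T5_q A A' r r' i ν : ℤ) - T5_q A A' r r' i' ν) - t := by
  rcases i with _ | ⟨a, b⟩
  · rcases i' with _ | ⟨a', b'⟩
    · exact ⟨0, Eventually.of_forall fun ν => by simp⟩
    · obtain ⟨t, ht⟩ := hden1 a' b' (T5_isRat_neg hr fun ν => by simp [T5_q])
      refine ⟨-t, ?_⟩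
      filter_upwards [ht] with ν h1
      have h2 : (k : ℤ) * ((T5_q A A' r r' none ν : ℤ) - T5_q A A' r r' (some (a', b')) ν) - -t =
          -((k : ℤ) * ((r a' ν : ℤ) + r' b' ν) - t) := by
        simp only [T5_q]
        push_cast
        ring
      rw [h2]
      exact (dvd_neg).2 h1
  · rcases i' with _ | ⟨a', b'⟩
    · obtain ⟨t, ht⟩ := hden1 a b (T5_isRat_congr hr fun ν => by simp [T5_q])
      refine ⟨t, ?_⟩
      filter_upwards [ht] with ν h1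
      have h2 : (k : ℤ) * ((T5_q A A' r r' (some (a, b)) ν : ℤ) - T5_q A A' r r' none ν) - t =
          (k : ℤ) * ((r a ν : ℤ) + r' b ν) - t := by
        simp only [T5_q]
        push_cast
        ring
      rw [h2]
      exact h1
    · obtain ⟨t, ht⟩ := hden2 a b a' b' (T5_isRat_congr hr fun ν => by simp [T5_q])
      refine ⟨t, ?_⟩
      filter_upwards [ht] with ν h1
      have h2 : (k : ℤ) * ((T5_q A A' r r' (some (a, b)) ν : ℤ) -
          T5_q A A' r r' (some (a', b')) ν) - t =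
          (k : ℤ) * (((r a ν : ℤ) + r' b ν) - ((r a' ν : ℤ) + r' b' ν)) - t := by
        simp only [T5_q]
        push_cast
        ring
      rw [h2]
      exact h1

theorem T5_bound (U : Ultrafilter ℕ) (p n : ℕ → ℕ) (hp : ∀ ν, 2 ≤ p ν) {k : ℕ} [NeZero k]
    {I J : Type} (A : Finset I) (A' : Finset J) (M : I → ℕ → ZMod k → ℤ)
    (M' : J → ℕ → ZMod k → ℤ) (B h : ℕ)
    (hb : ∀ a ∈ A, ∀ᶠ ν in (U : Filter ℕ), ∀ c, |M a ν c| ≤ (p ν : ℤ) ^ B)
    (hb' : ∀ b ∈ A', ∀ᶠ ν in (U : Filter ℕ), ∀ c, |M' b ν c| ≤ (p ν : ℤ) ^ B)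
    (i : Option (A × A')) :
    ∀ᶠ ν in (U : Filter ℕ), ∀ c, |T5_b p n A A' M M' h i ν c| ≤
      (p ν : ℤ) ^ (B + B + k + 1 + h) := by
  have hp1 : ∀ ν, (1 : ℤ) ≤ p ν := fun ν => by
    have := hp ν
    exact_mod_cast (by omega : 1 ≤ p ν)
  rcases i with _ | ⟨a, b⟩
  · refine Eventually.of_forall fun ν c => ?_
    have h1 : |T5_b p n A A' M M' h none ν c| ≤ (h : ℤ) := by
      simp only [T5_b]
      by_cases hc : c = 0
      · subst hc
        simp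
      · rw [Pi.single_eq_of_ne hc]
        simp
    have h2 : (h : ℤ) ≤ (p ν : ℤ) ^ h := by
      have h3 : h < p ν ^ h := Nat.lt_pow_self (by have := hp ν; omega)
      exact_mod_cast h3.le
    exact h1.trans (h2.trans (pow_le_pow_right₀ (hp1 ν) (by omega)))
  · filter_upwards [hb a a.2, hb' b b.2] with ν h1 h2 c
    exact (rmul_bound (p ν) (n ν) (hp ν) B B (M a ν) (M' b ν) h1 h2 c).trans
      (pow_le_pow_right₀ (hp1 ν) (by omega))

theorem one_real_class (U : Ultrafilter ℕ) (p n : ℕ → ℕ) (hp : ∀ ν, 2 ≤ p ν)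
    (hn : ∀ m : ℕ, ∀ᶠ ν in (U : Filter ℕ), m < n ν) (k : ℕ) [NeZero k]
    {I J : Type} [Fintype I] [Fintype J] [DecidableEq I] [DecidableEq J] (A : Finset I)
    (A' : Finset J) (r : I → ℕ → ℕ) (r' : J → ℕ → ℕ) (M : I → ℕ → ZMod k → ℤ)
    (M' : J → ℕ → ZMod k → ℤ) (B h : ℕ) (hh : 0 < h)
    (hb : ∀ a ∈ A, ∀ᶠ ν in (U : Filter ℕ), ∀ c, |M a ν c| ≤ (p ν : ℤ) ^ B)
    (hb' : ∀ b ∈ A', ∀ᶠ ν in (U : Filter ℕ), ∀ c, |M' b ν c| ≤ (p ν : ℤ) ^ B)
    (hA : ∀ a ∈ A, ∀ a' ∈ A, a ≠ a' → ¬ IsRat U n (fun ν => (r a ν : ℤ) - r a' ν))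
    (hA' : ∀ b ∈ A', ∀ b' ∈ A', b ≠ b' → ¬ IsRat U n (fun ν => (r' b ν : ℤ) - r' b' ν))
    (hden1 : ∀ a b, Den U n k (fun ν => (r a ν : ℤ) + r' b ν))
    (hden2 : ∀ a b a' b', Den U n k (fun ν => ((r a ν : ℤ) + r' b ν) - ((r a' ν : ℤ) + r' b' ν)))
    (hrel : ∀ᶠ ν in (U : Filter ℕ), NN (p ν) (n ν) ∣
      (∑ a ∈ A, (p ν : ℤ) ^ r a ν * ev (p ν) (n ν) (M a ν)) *
        (∑ b ∈ A', (p ν : ℤ) ^ r' b ν * ev (p ν) (n ν) (M' b ν)) - h) :
    ∃ a0 ∈ A, ∃ b0 ∈ A', (∀ᶠ ν in (U : Filter ℕ), Sr (p ν) (n ν) (M a0 ν) ≠ 0) ∧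
      (∀ᶠ ν in (U : Filter ℕ), Sr (p ν) (n ν) (M' b0 ν) ≠ 0) ∧
      (∀ a ∈ A, a ≠ a0 → ∀ᶠ ν in (U : Filter ℕ), Sr (p ν) (n ν) (M a ν) = 0) ∧
      (∀ b ∈ A', b ≠ b0 → ∀ᶠ ν in (U : Filter ℕ), Sr (p ν) (n ν) (M' b ν) = 0) := by
  classical
  have hcs := class_sum U p n hp hn k (T5_q A A' r r') (T5_b p n A A' M M' h)
    (B + B + k + 1 + h) (T5_bound U p n hp A A' M M' B h hb hb')
    (T5_den U n k A A' r r' hden1 hden2)
    (by filter_upwards [hrel] with ν h1 using T5_rel p n A A' r r' M M' h ν h1)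
  obtain ⟨S, hS⟩ : ∃ S : Finset I, ∀ a, a ∈ S ↔
      a ∈ A ∧ ∀ᶠ ν in (U : Filter ℕ), Sr (p ν) (n ν) (M a ν) ≠ 0 :=
    ⟨A.filter (fun a => ∀ᶠ ν in (U : Filter ℕ), Sr (p ν) (n ν) (M a ν) ≠ 0),
      fun a => Finset.mem_filter⟩
  obtain ⟨S', hS'⟩ : ∃ S' : Finset J, ∀ b, b ∈ S' ↔
      b ∈ A' ∧ ∀ᶠ ν in (U : Filter ℕ), Sr (p ν) (n ν) (M' b ν) ≠ 0 :=
    ⟨A'.filter (fun b => ∀ᶠ ν in (U : Filter ℕ), Sr (p ν) (n ν) (M' b ν) ≠ 0),
      fun b => Finset.mem_filter⟩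
  have hz : ∀ a ∈ A, a ∉ S → ∀ᶠ ν in (U : Filter ℕ), Sr (p ν) (n ν) (M a ν) = 0 := by
    intro a ha haS
    by_contra hne
    exact haS ((hS a).2 ⟨ha, (Ultrafilter.eventually_not).2 hne⟩)
  have hz' : ∀ b ∈ A', b ∉ S' → ∀ᶠ ν in (U : Filter ℕ), Sr (p ν) (n ν) (M' b ν) = 0 := by
    intro b hb hbS
    by_contra hne
    exact hbS ((hS' b).2 ⟨hb, (Ultrafilter.eventually_not).2 hne⟩)
  have hzz : ∀ (a : A) (b : A'), (a.1 ∉ S ∨ b.1 ∉ S') → ∀ᶠ ν in (U : Filter ℕ),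
      Sr (p ν) (n ν) (T5_b p n A A' M M' h (some (a, b)) ν) = 0 := by
    intro a b hab
    rcases hab with h1 | h1
    · filter_upwards [hz a.1 a.2 h1] with ν h2
      simp only [T5_b]
      rw [Sr_rmul, h2, zero_mul]
    · filter_upwards [hz' b.1 b.2 h1] with ν h2
      simp only [T5_b]
      rw [Sr_rmul, h2, mul_zero]
  -- both sets are nonempty
  have hne : ¬ (S = ∅ ∨ S' = ∅) := by
    intro hemp
    obtain ⟨T, t, hT, hsum⟩ := hcs none
    have hmem : (none : Option (A × A')) ∈ T := (hT none).2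
      (T5_isRat_congr (isRat_zero U n) fun ν => by simp)
    have h1 := T5_isolate U p n hp k (T5_b p n A A' M M' h) T t none hmem
      (by
        rintro (_ | ⟨a, b⟩) _ hi
        · exact absurd rfl hi
        · refine hzz a b ?_
          rcases hemp with he | he
          · exact Or.inl (by simp [he])
          · exact Or.inr (by simp [he])) hsum
    obtain ⟨ν, hν⟩ := h1.exists
    simp only [T5_b] at hν
    rw [Sr_single] at hν
    rcases mul_eq_zero.1 hν with h2 | h2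
    · have h3 : (h : ℝ) = 0 := by
        have h4 : (-(h : ℝ)) = 0 := by exact_mod_cast h2
        linarith
      have h5 : h = 0 := by exact_mod_cast h3
      omega
    · exact (pow_pos (T5_rho_pos (p ν) k (hp ν)) _).ne' h2
  push Not at hne
  obtain ⟨hne1, hne2⟩ := hne
  have hcard : ¬ 1 < S.card * S'.card := by
    intro hlt
    obtain ⟨a, ha, b, hb, hnr, huniq⟩ := unique_pair U n (fun i ν => (r i ν : ℤ))
      (fun j ν => (r' j ν : ℤ)) S S'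
      (fun a ha a' ha' hne => hA a ((hS a).1 ha).1 a' ((hS a').1 ha').1 hne)
      (fun b hb b' hb' hne => hA' b ((hS' b).1 hb).1 b' ((hS' b').1 hb').1 hne) hlt
    obtain ⟨haA, haS⟩ := (hS a).1 ha
    obtain ⟨hbA, hbS⟩ := (hS' b).1 hb
    obtain ⟨T, t, hT, hsum⟩ := hcs (some (⟨a, haA⟩, ⟨b, hbA⟩))
    have hmem : (some (⟨a, haA⟩, ⟨b, hbA⟩) : Option (A × A')) ∈ T := (hT _).2
      (T5_isRat_congr (isRat_zero U n) fun ν => by simp)
    have h1 := T5_isolate U p n hp k (T5_b p n A A' M M' h) T t _ hmem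
      (by
        rintro (_ | ⟨⟨a', ha'⟩, ⟨b', hb'⟩⟩) hi hne
        · exact absurd (T5_isRat_neg ((hT none).1 hi) fun ν => by simp [T5_q]) hnr
        · refine hzz _ _ ?_
          by_contra hcon
          push Not at hcon
          refine huniq a' hcon.1 b' hcon.2 ?_
            (T5_isRat_neg ((hT _).1 hi) fun ν => by simp [T5_q])
          intro heq
          apply hne
          simp only [Prod.mk.injEq] at heq
          obtain ⟨rfl, rfl⟩ := heq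
          rfl) hsum
    obtain ⟨ν, h2, h3, h4⟩ := (h1.and (haS.and hbS)).exists
    simp only [T5_b] at h2
    rw [Sr_rmul] at h2
    rcases mul_eq_zero.1 h2 with h5 | h5
    · exact h3 h5
    · exact h4 h5
  have hc1 : 0 < S.card := Finset.card_pos.2 hne1
  have hc2 : 0 < S'.card := Finset.card_pos.2 hne2
  have hS1 : S.card = 1 := by
    have := Nat.le_mul_of_pos_right S.card hc2
    omega
  have hS2 : S'.card = 1 := by
    have := Nat.le_mul_of_pos_left S'.card hc1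
    omega
  obtain ⟨a0, ha0⟩ := Finset.card_eq_one.1 hS1
  obtain ⟨b0, hb0⟩ := Finset.card_eq_one.1 hS2
  have ha1 := (hS a0).1 (by simp [ha0])
  have hb1 := (hS' b0).1 (by simp [hb0])
  exact ⟨a0, ha1.1, b0, hb1.1, ha1.2, hb1.2,
    fun a ha hne => hz a ha (by simp [ha0, hne]),
    fun b hb hne => hz' b hb (by simp [hb0, hne])⟩

end Pool.Agent.Helper21.FD
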