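import Pool.Agent.Helper21.FD.T2
import Pool.Agent.Helper21.FD.T5

/-!
MP_0aa406_nt, project FD (helper21): the relation for a single class.
-/

set_option autoImplicit false

namespace Pool.Agent.Helper21.FD

open Finset Filter Pool.Agent.Helper21.FC

/-- `m ≤ p ^ m` for `2 ≤ p` -/
theorem T6_le_pow (p m : ℕ) (hp : 2 ≤ p) : (m : ℤ) ≤ (p : ℤ) ^ m := by
  have h1 : m ≤ 2 ^ m := Nat.lt_two_pow_self.le
  have h2 : 2 ^ m ≤ p ^ m := Nat.pow_le_pow_left hp _
  exact_mod_cast h1.trans h2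

/-- the product of two classes as one class -/
theorem T6_prod (p n k : ℕ) [NeZero k] (r r' h : ℕ) (M M' : ZMod k → ℤ)
    (hrel : NN p n ∣ ((p : ℤ) ^ r * ev p n M) * ((p : ℤ) ^ r' * ev p n M') - h) :
    NN p n ∣ (p : ℤ) ^ (r + r') * ev p n (rmul p n M M') - h := by
  have h1 := ev_rmul p n M M'
  have h2 : (p : ℤ) ^ (r + r') * ev p n (rmul p n M M') - h =
      (((p : ℤ) ^ r * ev p n M) * ((p : ℤ) ^ r' * ev p n M') - h) -
        (p : ℤ) ^ (r + r') * (ev p n M * ev p n M' - ev p n (rmul p n M M')) := by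
    rw [pow_add]; ring
  rw [h2]
  exact dvd_sub hrel (Dvd.dvd.mul_left h1 _)

/-- the single relation moved to position `0` -/
theorem T6_move (p n k : ℕ) [NeZero k] (s h T e : ℕ) (c : ZMod k) (X : ZMod k → ℤ)
    (hrel : NN p n ∣ (p : ℤ) ^ s * ev p n X - h)
    (hs : (n : ℤ) ∣ ((s + T : ℕ) : ℤ) - ((ps n c + e : ℕ) : ℤ)) :
    NN p n ∣ ev p n (rmul p n (Pi.single c ((p : ℤ) ^ e)) X + Pi.single 0 (-((h : ℤ) * (p : ℤ) ^ T))) := by
  have h1 := ev_rmul p n (Pi.single c ((p : ℤ) ^ e)) X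
  have h2 := pow_congr p n _ _ hs
  rw [ev_single] at h1
  rw [ev_add, ev_single, ps_zero, pow_zero, mul_one]
  have h3 : ev p n (rmul p n (Pi.single c ((p : ℤ) ^ e)) X) + -((h : ℤ) * (p : ℤ) ^ T) =
      (p : ℤ) ^ T * ((p : ℤ) ^ s * ev p n X - h) -
        ((p : ℤ) ^ (s + T) - (p : ℤ) ^ (ps n c + e)) * ev p n X -
        ((p : ℤ) ^ e * (p : ℤ) ^ ps n c * ev p n X -
          ev p n (rmul p n (Pi.single c ((p : ℤ) ^ e)) X)) := by
    rw [pow_add, pow_add]; ring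
  rw [h3]
  exact dvd_sub (dvd_sub (Dvd.dvd.mul_left hrel _) (Dvd.dvd.mul_right h2 _)) h1

/-- reading off the entries -/
theorem T6_read (p n k : ℕ) (hp : 2 ≤ p) [NeZero k] (h T e : ℕ) (c : ZMod k) (X : ZMod k → ℤ)
    (hX : rmul p n (Pi.single c ((p : ℤ) ^ e)) X + Pi.single 0 (-((h : ℤ) * (p : ℤ) ^ T)) = 0) :
    ∀ u, (p : ℤ) ^ (e + cy n c (-c)) * X u =
      (Pi.single (-c) ((h : ℤ) * (p : ℤ) ^ T) : ZMod k → ℤ) u := by
  intro u
  have h1 := congrFun hX (u + c)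
  rw [Pi.add_apply, Pi.zero_apply, single_rmul, add_sub_cancel_right] at h1
  by_cases hu : u = -c
  · subst hu
    rw [neg_add_cancel, Pi.single_eq_same] at h1
    rw [Pi.single_eq_same, pow_add]
    linarith [h1]
  · have h2 : u + c ≠ 0 := fun h => hu (eq_neg_of_add_eq_zero_left h)
    rw [Pi.single_eq_of_ne h2, add_zero] at h1
    have hp0 : (p : ℤ) ≠ 0 := by
      have : (0 : ℤ) < p := by exact_mod_cast (by omega : 0 < p)
      exact this.ne'
    have h3 : X u = 0 := by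
      rcases mul_eq_zero.1 h1 with h4 | h4
      · rcases mul_eq_zero.1 h4 with h5 | h5
        · exact absurd h5 (pow_ne_zero _ hp0)
        · exact h5
      · exact absurd h4 (pow_ne_zero _ hp0)
    rw [h3, mul_zero, Pi.single_eq_of_ne hu]

theorem T6_bound (p n k : ℕ) (hp : 2 ≤ p) [NeZero k] (h T e E B : ℕ) (he : e ≤ E) (c : ZMod k)
    (X : ZMod k → ℤ) (hX : ∀ t, |X t| ≤ (p : ℤ) ^ B) (u : ZMod k) :
    |(rmul p n (Pi.single c ((p : ℤ) ^ e)) X +
      Pi.single 0 (-((h : ℤ) * (p : ℤ) ^ T)) : ZMod k → ℤ) u| ≤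
      (p : ℤ) ^ ((E + B + k + 1) + (h + T) + 1) := by
  have hp1 : (1 : ℤ) ≤ p := by exact_mod_cast (by omega : 1 ≤ p)
  have hp2 : (2 : ℤ) ≤ p := by exact_mod_cast hp
  have h1 : |rmul p n (Pi.single c ((p : ℤ) ^ e)) X u| ≤ (p : ℤ) ^ (E + B + k + 1) := by
    refine rmul_bound p n hp E B _ _ (fun t => ?_) hX u
    by_cases h : t = c
    · subst h
      rw [Pi.single_eq_same, abs_of_nonneg (by positivity)]
      exact pow_le_pow_right₀ hp1 he
    · rw [Pi.single_eq_of_ne h, abs_zero]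
      positivity
  have h2 : |(Pi.single 0 (-((h : ℤ) * (p : ℤ) ^ T)) : ZMod k → ℤ) u| ≤ (p : ℤ) ^ (h + T) := by
    by_cases hu : u = 0
    · subst hu
      rw [Pi.single_eq_same, abs_neg, abs_of_nonneg (by positivity), pow_add]
      exact mul_le_mul_of_nonneg_right (T6_le_pow p h hp) (by positivity)
    · rw [Pi.single_eq_of_ne hu, abs_zero]
      positivity
  rw [Pi.add_apply]
  refine (abs_add_le _ _).trans ?_
  have h3 : (p : ℤ) ^ (E + B + k + 1) ≤ (p : ℤ) ^ ((E + B + k + 1) + (h + T)) :=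
    pow_le_pow_right₀ hp1 (Nat.le_add_right _ _)
  have h4 : (p : ℤ) ^ (h + T) ≤ (p : ℤ) ^ ((E + B + k + 1) + (h + T)) :=
    pow_le_pow_right₀ hp1 (Nat.le_add_left _ _)
  have h5 : (0 : ℤ) ≤ (p : ℤ) ^ ((E + B + k + 1) + (h + T)) := by positivity
  rw [pow_succ]
  nlinarith

theorem single_relation (U : Ultrafilter ℕ) (p n : ℕ → ℕ) (hp : ∀ ν, 2 ≤ p ν)
    (hn : ∀ m : ℕ, ∀ᶠ ν in (U : Filter ℕ), m < n ν) (k : ℕ) [NeZero k]
    (r r' : ℕ → ℕ) (M M' : ℕ → ZMod k → ℤ) (B h : ℕ) (hh : 0 < h)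
    (hb : ∀ᶠ ν in (U : Filter ℕ), ∀ c, |M ν c| ≤ (p ν : ℤ) ^ B)
    (hb' : ∀ᶠ ν in (U : Filter ℕ), ∀ c, |M' ν c| ≤ (p ν : ℤ) ^ B)
    (hden : Den U n k (fun ν => (r ν : ℤ) + r' ν))
    (hrel : ∀ᶠ ν in (U : Filter ℕ), NN (p ν) (n ν) ∣
      ((p ν : ℤ) ^ r ν * ev (p ν) (n ν) (M ν)) *
        ((p ν : ℤ) ^ r' ν * ev (p ν) (n ν) (M' ν)) - h) :
    ∃ B' : ℕ, ∀ᶠ ν in (U : Filter ℕ), ∃ (α β : ℕ) (c : ZMod k), α ≤ B' ∧ β ≤ B' ∧
      ∀ u, (p ν : ℤ) ^ α * rmul (p ν) (n ν) (M ν) (M' ν) u =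
        (Pi.single c ((h : ℤ) * (p ν : ℤ) ^ β) : ZMod k → ℤ) u := by
  have hk : 0 < k := Nat.pos_of_ne_zero (NeZero.ne k)
  have hXb : ∀ᶠ ν in (U : Filter ℕ), ∀ u,
      |rmul (p ν) (n ν) (M ν) (M' ν) u| ≤ (p ν : ℤ) ^ (B + B + k + 1) := by
    filter_upwards [hb, hb'] with ν h1 h2 u
    exact rmul_bound (p ν) (n ν) (hp ν) B B _ _ h1 h2 u
  have hX : ∀ᶠ ν in (U : Filter ℕ), NN (p ν) (n ν) ∣
      (p ν : ℤ) ^ (r ν + r' ν) * ev (p ν) (n ν) (rmul (p ν) (n ν) (M ν) (M' ν)) - h := by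
    filter_upwards [hrel] with ν h1
    exact T6_prod (p ν) (n ν) k (r ν) (r' ν) h (M ν) (M' ν) h1
  -- the sum of the positions is rational
  have hrat : IsRat U n (fun ν => (r ν : ℤ) + r' ν) := by
    by_contra hnr
    have h1 : ∀ᶠ ν in (U : Filter ℕ), (Pi.single 0 (-(h : ℤ)) : ZMod k → ℤ) = 0 := by
      have h2 := isolation U p n hp hn k (J := Bool)
        (fun j ν => if j then r ν + r' ν else 0)
        (fun j ν => if j then rmul (p ν) (n ν) (M ν) (M' ν) else Pi.single 0 (-(h : ℤ)))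
        (h + (B + B + k + 1)) ?_ ?_ false ?_
      · exact h2
      · intro j
        have hp1 : ∀ ν, (1 : ℤ) ≤ p ν := fun ν => by
          have := hp ν
          exact_mod_cast (by omega : 1 ≤ p ν)
        cases j with
        | true =>
          filter_upwards [hXb] with ν h3 c
          exact (h3 c).trans (pow_le_pow_right₀ (hp1 ν) (Nat.le_add_left _ _))
        | false =>
          refine Filter.Eventually.of_forall fun ν c => ?_
          show |(Pi.single 0 (-(h : ℤ)) : ZMod k → ℤ) c| ≤ _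
          by_cases hc : c = 0
          · subst hc
            rw [Pi.single_eq_same, abs_neg, abs_of_nonneg (Int.natCast_nonneg h)]
            exact (T6_le_pow (p ν) h (hp ν)).trans
              (pow_le_pow_right₀ (hp1 ν) (Nat.le_add_right _ _))
          · rw [Pi.single_eq_of_ne hc, abs_zero]
            have := hp1 ν
            positivity
      · filter_upwards [hX] with ν h3
        rw [Fintype.sum_bool]
        simp only [if_true, Bool.false_eq_true, if_false, pow_zero, one_mul]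
        rw [ev_single, ps_zero, pow_zero, mul_one, ← sub_eq_add_neg]
        exact h3
      · intro j hj hr
        cases j with
        | false => exact hj rfl
        | true =>
          apply hnr
          have h3 := hr.neg
          have h4 : (fun ν => -((((if false = true then r ν + r' ν else 0 : ℕ)) : ℤ) -
              ((if true = true then r ν + r' ν else 0 : ℕ) : ℤ))) =
              fun ν => (r ν : ℤ) + r' ν := by
            funext ν
            simp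
          rw [h4] at h3
          exact h3
    obtain ⟨ν, h2⟩ := h1.exists
    have h3 := congrFun h2 0
    rw [Pi.single_eq_same, Pi.zero_apply] at h3
    have h4 : (0 : ℤ) < h := by exact_mod_cast hh
    linarith
  obtain ⟨t, ht⟩ := hden hrat
  set T : ℕ := t.natAbs + 1 with hT
  have hbnd : ∀ (m : ℕ) (c : ZMod k) (i : ℤ), (k : ℤ) * i = t - tn m c → 0 ≤ (T : ℤ) + i ∧
      (T : ℤ) + i ≤ 2 * T := by
    intro m c i hi
    have h1 : (tn m c : ℤ) < k := by exact_mod_cast tn_lt m c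
    have h2 : (0 : ℤ) ≤ tn m c := Int.natCast_nonneg _
    have hk' : (1 : ℤ) ≤ k := by exact_mod_cast hk
    have h3 : (T : ℤ) = |t| + 1 := by
      rw [hT, Int.abs_eq_natAbs]
      push_cast
      rfl
    have h4 := neg_abs_le t
    have h5 := le_abs_self t
    have h6 : (0 : ℤ) ≤ |t| := abs_nonneg t
    constructor
    · by_contra hneg
      push Not at hneg
      have h7 : i + 1 ≤ -(|t| + 1) := by linarith
      have h8 : (k : ℤ) * (i + 1) ≤ k * (-(|t| + 1)) := mul_le_mul_of_nonneg_left h7 (by linarith)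
      nlinarith
    · have h7 : (k : ℤ) * i ≤ |t| := by linarith
      by_contra hneg
      push Not at hneg
      have h8 : |t| + 1 ≤ i := by linarith
      nlinarith
  have hch : ∀ ν, ∃ (c : ZMod k) (e : ℕ), (n ν : ℤ) ∣ (k : ℤ) * ((r ν : ℤ) + r' ν) - t →
      e ≤ 2 * T ∧ (n ν : ℤ) ∣ ((r ν + r' ν + T : ℕ) : ℤ) - ((ps (n ν) c + e : ℕ) : ℤ) := by
    intro ν
    by_cases hd : (n ν : ℤ) ∣ (k : ℤ) * ((r ν : ℤ) + r' ν) - t
    · obtain ⟨c, i, m, h1, h2⟩ := rat_pos (n ν) _ _ hd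
      obtain ⟨h3, h4⟩ := hbnd (n ν) c i h2
      obtain ⟨e, he⟩ := Int.eq_ofNat_of_zero_le h3
      refine ⟨c, e, fun _ => ⟨?_, m, ?_⟩⟩
      · have : (e : ℤ) ≤ 2 * T := by rw [← he]; exact h4
        exact_mod_cast this
      · push_cast
        rw [← he]
        linarith
    · exact ⟨0, 0, fun h1 => absurd h1 hd⟩
  choose c e hce using hch
  have hY : ∀ᶠ ν in (U : Filter ℕ),
      rmul (p ν) (n ν) (Pi.single (c ν) ((p ν : ℤ) ^ e ν)) (rmul (p ν) (n ν) (M ν) (M' ν)) +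
        Pi.single 0 (-((h : ℤ) * (p ν : ℤ) ^ T)) = 0 := by
    have h2 := isolation U p n hp hn k (J := Unit) (fun _ _ => 0)
      (fun _ ν => rmul (p ν) (n ν) (Pi.single (c ν) ((p ν : ℤ) ^ e ν))
        (rmul (p ν) (n ν) (M ν) (M' ν)) + Pi.single 0 (-((h : ℤ) * (p ν : ℤ) ^ T)))
      ((2 * T + (B + B + k + 1) + k + 1) + (h + T) + 1) ?_ ?_ () ?_
    · exact h2
    · intro _
      filter_upwards [hXb, ht] with ν h3 h4 u
      exact T6_bound (p ν) (n ν) k (hp ν) h T (e ν) (2 * T) (B + B + k + 1) (hce ν h4).1 (c ν) _ h3 u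
    · filter_upwards [hX, ht] with ν h3 h4
      rw [Fintype.sum_unique, pow_zero, one_mul]
      exact T6_move (p ν) (n ν) k (r ν + r' ν) h T (e ν) (c ν) _ h3 (hce ν h4).2
    · intro j hj
      exact absurd rfl hj
  refine ⟨2 * T + 1, ?_⟩
  filter_upwards [hY, ht] with ν h3 h4
  refine ⟨e ν + cy (n ν) (c ν) (-c ν), T, -c ν, ?_, by omega, ?_⟩
  · have h5 := (hce ν h4).1
    have h6 := cy_le (n ν) (c ν) (-c ν)
    omega
  · exact T6_read (p ν) (n ν) k (hp ν) h T (e ν) (c ν) _ h3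

end Pool.Agent.Helper21.FD
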