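import Pool.Agent.Helper21.FC.B3c
import Pool.Agent.Helper21.FC.B4
import Pool.Agent.Helper21.FD.K8
import Pool.Agent.Helper21.FD.M5
import Pool.Agent.Helper21.FD.T7

/-!
MP_0aa406_nt, project FD (helper21): no sequence of bad degrees.
-/

set_option autoImplicit false

namespace Pool.Agent.Helper21.FD

open Finset Filter Pool.Agent.Helper21.FC

/-- a finite family of far conditions -/
theorem U1_far (U : Ultrafilter ℕ) (n : ℕ → ℕ) {I : Type} [Fintype I] [DecidableEq I]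
    (A : Finset I) (r : I → ℕ → ℕ)
    (hA : ∀ a ∈ A, ∀ a' ∈ A, a ≠ a' → ¬ IsRat U n (fun ν => (r a ν : ℤ) - r a' ν)) (Q D : ℕ) :
    ∀ᶠ ν in (U : Filter ℕ), ∀ a ∈ A, ∀ a' ∈ A, a ≠ a' → ∀ q : ℕ, 1 ≤ q → q ≤ Q → ∀ t : ℤ,
      |t| ≤ D → ¬ (n ν : ℤ) ∣ (q : ℤ) * ((r a ν : ℤ) - r a' ν) - t := by
  have h1 : ∀ a a' : I, ∀ᶠ ν in (U : Filter ℕ), a ∈ A → a' ∈ A → a ≠ a' → ∀ q : ℕ, 1 ≤ q →
      q ≤ Q → ∀ t : ℤ, |t| ≤ D → ¬ (n ν : ℤ) ∣ (q : ℤ) * ((r a ν : ℤ) - r a' ν) - t := by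
    intro a a'
    by_cases h : a ∈ A ∧ a' ∈ A ∧ a ≠ a'
    · obtain ⟨h1, h2, h3⟩ := h
      filter_upwards [far_all U n (fun ν => (r a ν : ℤ) - r a' ν) (hA a h1 a' h2 h3) Q D]
        with ν hν _ _ _ using hν
    · exact Eventually.of_forall fun ν ha ha' hne => absurd ⟨ha, ha', hne⟩ h
  have h2 : ∀ᶠ ν in (U : Filter ℕ), ∀ a a' : I, a ∈ A → a' ∈ A → a ≠ a' → ∀ q : ℕ, 1 ≤ q →
      q ≤ Q → ∀ t : ℤ, |t| ≤ D → ¬ (n ν : ℤ) ∣ (q : ℤ) * ((r a ν : ℤ) - r a' ν) - t := by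
    rw [eventually_all]
    intro a
    rw [eventually_all]
    intro a'
    exact h1 a a'
  filter_upwards [h2] with ν hν a ha a' ha' hne
  exact hν a a' ha ha' hne

/-- there is always a gain `≥ -1` -/
theorem U1_trivial {p n : ℕ} (hp : 2 ≤ p) (hn : 1 ≤ n) (d : ℤ)
    (hnd : ∀ j : ℕ, ¬ NN p n ∣ d - (p : ℤ) ^ j) : Gain p n d (-1) := by
  refine ⟨1, ?_, ?_⟩
  · intro h1
    exact hnd 0 (h1.trans (one_dvd _))
  · have h1 := W_le_self hp hn 1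
    have h2 := W_nonneg p n (d * 1)
    have h3 : (2 : ℝ) ≤ p := by exact_mod_cast hp
    have h4 : ((1 : ℕ) : ℝ) / ((p : ℝ) - 1) ≤ 1 := by
      rw [div_le_one (by linarith)]
      push_cast
      linarith
    have h5 : W p n 1 ≤ 1 := by
      have h6 : W p n ((1 : ℕ) : ℤ) ≤ 1 := h1.trans h4
      simpa using h6
    linarith

theorem no_bad_sequence' (ε : ℝ) (hε : 0 < ε) (hε2 : ε < 1 / 2) (p n : ℕ → ℕ) (d : ℕ → ℤ)
    (l : ℕ → ℕ) (hp : ∀ ν, (p ν).Prime) (hn1 : ∀ ν, 1 ≤ n ν)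
    (hl1 : ∀ ν, 1 ≤ l ν) (hl : ∀ ν, ∀ q : ℕ, q.Prime → q ≠ 2 → q ∣ n ν → l ν ≤ q)
    (hd : ∀ ν, IsCoprime (d ν) (NN (p ν) (n ν)))
    (hnd : ∀ ν, ∀ j : ℕ, ¬ NN (p ν) (n ν) ∣ d ν - (p ν : ℤ) ^ j)
    (hbad : ∀ ν, ¬ Gain (p ν) (n ν) (d ν)
      (min (1 / 2 - ε) (1 / 2 - 1 / (2 * l ν)) * n ν - ν)) : False := by
  classical
  -- the weaker form of the assumption
  have hbad0 : ∀ ν, ¬ Gain (p ν) (n ν) (d ν) ((1 / 2 - ε) * n ν) := by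
    intro ν hg
    refine hbad ν (gain_mono ?_ hg)
    have h1 : min (1 / 2 - ε) (1 / 2 - 1 / (2 * (l ν : ℝ))) ≤ 1 / 2 - ε := min_le_left _ _
    have h2 : (0 : ℝ) ≤ (n ν : ℝ) := Nat.cast_nonneg _
    have h3 : (0 : ℝ) ≤ (ν : ℝ) := Nat.cast_nonneg _
    nlinarith
  -- the degrees tend to infinity
  have hn : ∀ ν, ν ≤ n ν := by
    intro ν
    by_contra hlt
    push Not at hlt
    refine hbad ν (gain_mono ?_ (U1_trivial (hp ν).two_le (hn1 ν) (d ν) (hnd ν)))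
    have h1 : min (1 / 2 - ε) (1 / 2 - 1 / (2 * (l ν : ℝ))) ≤ 1 / 2 - ε := min_le_left _ _
    have h2 : (1 : ℝ) ≤ (n ν : ℝ) := by exact_mod_cast hn1 ν
    have h3 : (n ν : ℝ) + 1 ≤ (ν : ℝ) := by exact_mod_cast hlt
    nlinarith
  have hinv : ∀ ν, ∃ d' : ℤ, NN (p ν) (n ν) ∣ d ν * d' - 1 := by
    intro ν
    obtain ⟨a, b, hab⟩ := hd ν
    refine ⟨a, -b, ?_⟩
    linear_combination hab
  choose d' hd' using hinv
  have hbad' : ∀ ν, ¬ Gain (p ν) (n ν) (d' ν) ((1 / 2 - ε) * n ν) := fun ν hg =>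
    hbad0 ν (gain_inv (hp ν).two_le (hn1 ν) (hd' ν) hg)
  obtain ⟨H, K, hHK⟩ := small_multiple ε hε hε2
  have h1 : ∀ ν, ∃ h : ℕ, (1 ≤ h ∧ h ≤ H) ∧ ∃ (q : Fin K → ℕ) (u : Fin K → ℤ),
      (∀ i, |u i| ≤ p ν) ∧ NN (p ν) (n ν) ∣ (h : ℤ) * d ν - ∑ i, u i * (p ν : ℤ) ^ q i := by
    intro ν
    obtain ⟨h, hh1, hh2, hc⟩ := hHK (p ν) (n ν) (hp ν).two_le (hn1 ν) (d ν) (hbad0 ν)
    obtain ⟨q, u, _, hu, hdv⟩ := telescope (hp ν).two_le (hn1 ν) _ K hc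
    exact ⟨h, ⟨hh1, hh2⟩, q, u, hu, hdv⟩
  have h2 : ∀ ν, ∃ h : ℕ, (1 ≤ h ∧ h ≤ H) ∧ ∃ (q : Fin K → ℕ) (u : Fin K → ℤ),
      (∀ i, |u i| ≤ p ν) ∧ NN (p ν) (n ν) ∣ (h : ℤ) * d' ν - ∑ i, u i * (p ν : ℤ) ^ q i := by
    intro ν
    obtain ⟨h, hh1, hh2, hc⟩ := hHK (p ν) (n ν) (hp ν).two_le (hn1 ν) (d' ν) (hbad' ν)
    obtain ⟨q, u, _, hu, hdv⟩ := telescope (hp ν).two_le (hn1 ν) _ K hc
    exact ⟨h, ⟨hh1, hh2⟩, q, u, hu, hdv⟩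
  choose h hh q u hu hrel using h1
  choose h' hh' q' u' hu' hrel' using h2
  let U : Ultrafilter ℕ := hyperfilter ℕ
  have hU : (U : Filter ℕ) ≤ atTop := Nat.hyperfilter_le_atTop
  have hc1 : ∃ h0 ∈ Set.Icc 1 H, ∀ᶠ ν in (U : Filter ℕ), h ν = h0 :=
    (Ultrafilter.eventually_exists_mem_iff (Set.finite_Icc 1 H)).mp
      (Eventually.of_forall fun ν => ⟨h ν, hh ν, rfl⟩)
  have hc2 : ∃ h0 ∈ Set.Icc 1 H, ∀ᶠ ν in (U : Filter ℕ), h' ν = h0 :=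
    (Ultrafilter.eventually_exists_mem_iff (Set.finite_Icc 1 H)).mp
      (Eventually.of_forall fun ν => ⟨h' ν, hh' ν, rfl⟩)
  obtain ⟨h0, hh0, e0⟩ := hc1
  obtain ⟨h0', hh0', e0'⟩ := hc2
  have hpos : 0 < h0 := hh0.1
  have hpos' : 0 < h0' := hh0'.1
  have hn' : ∀ m : ℕ, ∀ᶠ ν in (U : Filter ℕ), m < n ν := by
    intro m
    filter_upwards [hU (eventually_gt_atTop m)] with ν hν
    exact lt_of_lt_of_le hν (hn ν)
  have hprod : ∀ᶠ ν in (U : Filter ℕ), NN (p ν) (n ν) ∣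
      (∑ i, u ν i * (p ν : ℤ) ^ q ν i) * (∑ j, u' ν j * (p ν : ℤ) ^ q' ν j) -
        ((h0 * h0' : ℕ) : ℤ) := by
    filter_upwards [e0, e0'] with ν h1 h2
    obtain ⟨a, ha⟩ := hrel ν
    obtain ⟨b, hb⟩ := hrel' ν
    obtain ⟨c, hc⟩ := hd' ν
    rw [h1] at ha
    rw [h2] at hb
    refine ⟨h0 * h0' * c - (∑ i, u ν i * (p ν : ℤ) ^ q ν i) * b - h0' * d' ν * a, ?_⟩
    push_cast
    linear_combination (-(h0' : ℤ) * d' ν) * ha -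
      (∑ i, u ν i * (p ν : ℤ) ^ q ν i) * hb + (h0 * h0' : ℤ) * hc
  obtain ⟨k, _, B, A, A', a0, b0, r, r', M, M', ha0, hb0, hA, hA', hst⟩ := structure_fd U p n
    (fun ν => (hp ν).two_le) hn' (fun i ν => q ν i) (fun i ν => u ν i) (fun i ν => q' ν i)
    (fun i ν => u' ν i) (fun i ν => hu ν i) (fun i ν => hu' ν i) (h0 * h0')
    (Nat.mul_pos hpos hpos') hprod
  -- the relation for `d` and for `d'`
  have hrd : ∀ᶠ ν in (U : Filter ℕ), NN (p ν) (n ν) ∣ (h0 : ℤ) * d ν -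
      ∑ a ∈ A, (p ν : ℤ) ^ r a ν * ev (p ν) (n ν) (M a ν) := by
    filter_upwards [e0, hst] with ν h3 h4
    have h5 := hrel ν
    rw [h3] at h5
    have h6 := dvd_add h5 h4.2.2.2.2.2.2.2.2.1
    rwa [sub_add_sub_cancel] at h6
  have hrd' : ∀ᶠ ν in (U : Filter ℕ), NN (p ν) (n ν) ∣ (h0' : ℤ) * d' ν -
      ∑ b ∈ A', (p ν : ℤ) ^ r' b ν * ev (p ν) (n ν) (M' b ν) := by
    filter_upwards [e0', hst] with ν h3 h4
    have h5 := hrel' ν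
    rw [h3] at h5
    have h6 := dvd_add h5 h4.2.2.2.2.2.2.2.2.2.1
    rwa [sub_add_sub_cancel] at h6
  have hAc : 1 ≤ A.card := Finset.card_pos.mpr ⟨a0, ha0⟩
  have hAc' : 1 ≤ A'.card := Finset.card_pos.mpr ⟨b0, hb0⟩
  rcases Nat.lt_or_ge 1 A.card with hA2 | hA1
  · -- at least two classes for `d`
    obtain ⟨Q, D, N1, hmul⟩ := multi_class k (Fin K) h0 B hpos ε hε hε2
    obtain ⟨ν, h3, h4, h5, h6⟩ := (hst.and (hrd.and ((U1_far U n A r hA Q D).and (hn' N1)))).exists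
    obtain ⟨g1, g2, g3, g4, g5, g6, g7, g8, g9, g10, g11⟩ := h3
    exact hbad0 ν (hmul (p ν) (hp ν) (n ν) h6.le A a0 (fun a => r a ν) (fun a => M a ν) ha0 hA2 g1
      g3 g7 g5 h5 (d ν) h4)
  rcases Nat.lt_or_ge 1 A'.card with hA2' | hA1'
  · -- at least two classes for `d'`
    obtain ⟨Q, D, N1, hmul⟩ := multi_class k (Fin K) h0' B hpos' ε hε hε2
    obtain ⟨ν, h3, h4, h5, h6⟩ :=
      (hst.and (hrd'.and ((U1_far U n A' r' hA' Q D).and (hn' N1)))).exists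
    obtain ⟨g1, g2, g3, g4, g5, g6, g7, g8, g9, g10, g11⟩ := h3
    exact hbad' ν (hmul (p ν) (hp ν) (n ν) h6.le A' b0 (fun a => r' a ν) (fun a => M' a ν) hb0 hA2'
      g2 g4 g8 g6 h5 (d' ν) h4)
  -- one class
  have hcA : A.card = 1 := le_antisymm hA1 hAc
  have hcA' : A'.card = 1 := le_antisymm hA1' hAc'
  obtain ⟨x, hx⟩ := Finset.card_eq_one.mp hcA
  obtain ⟨x', hx'⟩ := Finset.card_eq_one.mp hcA'
  have hx0 : x = a0 := by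
    rw [hx] at ha0
    exact (Finset.mem_singleton.mp ha0).symm
  have hx0' : x' = b0 := by
    rw [hx'] at hb0
    exact (Finset.mem_singleton.mp hb0).symm
  subst hx0
  subst hx0'
  obtain ⟨C, N1, hfin⟩ := single_class k h0 h0' B hpos hpos'
  obtain ⟨m0, hm0⟩ := exists_nat_gt C
  obtain ⟨ν, h3, h4, h5, h6, h7⟩ := (hst.and (hrd.and (hrd'.and ((hn' N1).and
    (hU (eventually_gt_atTop m0)))))).exists
  obtain ⟨g1, g2, g3, g4, g5, g6, g7, g8, g9, g10, g11⟩ := h3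
  rw [hx, Finset.sum_singleton] at h4
  rw [hx', Finset.sum_singleton] at h5
  have hone : OneClass (p ν) (n ν) B h0 h0' (M x ν) (M' x' ν) (d ν) (d' ν) :=
    ⟨g1 x ha0, g2 x' hb0, g11 hcA hcA', hd' ν, ⟨_, h4⟩, ⟨_, h5⟩⟩
  have hg := hfin (p ν) (hp ν) (n ν) h6.le (l ν) (hl1 ν) (hl ν) _ _ _ _ hone (hnd ν)
  refine hbad ν (gain_mono ?_ hg)
  have h8 : C < ν := hm0.trans (by exact_mod_cast h7)
  have h9 : min (1 / 2 - ε) (1 / 2 - 1 / (2 * (l ν : ℝ))) ≤ 1 / 2 - 1 / (2 * (l ν : ℝ)) :=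
    min_le_right _ _
  have h10 : (0 : ℝ) ≤ (n ν : ℝ) := Nat.cast_nonneg _
  nlinarith

end Pool.Agent.Helper21.FD
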