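import Pool.Agent.Helper21.FC.A3
import Pool.Agent.Helper21.FD.U1

/-!
MP_0aa406_nt, project FD (helper21): the theorem.
-/

set_option autoImplicit false

namespace Pool.Agent.Helper21.FD

open Finset Filter Pool.Agent.Helper21.FC

private theorem U2_cast {p n : ℕ} (hp : 2 ≤ p) : ((p ^ n - 1 : ℕ) : ℤ) = NN p n := by
  have h1 : 1 ≤ p ^ n := Nat.one_le_pow _ _ (by omega)
  unfold NN
  rw [Nat.cast_sub h1]
  push_cast
  ring

private theorem U2_max (a b x : ℝ) : x - min a b * x = max (1 - a) (1 - b) * x := by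
  rcases le_total a b with h | h
  · rw [min_eq_left h, max_eq_left (by linarith)]
    ring
  · rw [min_eq_right h, max_eq_right (by linarith)]
    ring

theorem main_fd (ε : ℝ) (hε : 0 < ε) : ∃ C : ℝ, ∀ p : ℕ, p.Prime → ∀ m : ℕ, 0 < m →
    ∀ l : ℕ, 1 ≤ l → (∀ q : ℕ, q.Prime → q ≠ 2 → q ∣ m → l ≤ q) →
    ∀ n : ℕ, 0 < n → m ∣ n → ∀ d : ℕ,
      Nat.Coprime d (p ^ n - 1) → (∀ k : ℕ, ¬ d ≡ p ^ k [MOD p ^ m - 1]) →
      ∃ a b : ℕ, 0 < a ∧ a < p ^ n - 1 ∧ b < p ^ n - 1 ∧ (p ^ n - 1) ∣ d * a + b ∧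
        (((Nat.digits p a).sum + (Nat.digits p b).sum : ℕ) : ℝ) ≤
          (max (1 / 2 + ε) ((l + 1) / (2 * l)) * n + C * (n / m)) * ((p : ℝ) - 1) := by
  by_contra hcon
  have key : ∀ ν : ℕ, ∃ (p m : ℕ) (d l : ℕ), p.Prime ∧ 1 ≤ m ∧ 1 ≤ l ∧
      (∀ q : ℕ, q.Prime → q ≠ 2 → q ∣ m → l ≤ q) ∧
      IsCoprime (d : ℤ) (NN p m) ∧ (∀ j : ℕ, ¬ NN p m ∣ (d : ℤ) - (p : ℤ) ^ j) ∧
      ¬ Gain p m (d : ℤ) (min (1 / 2 - min ε (1 / 4)) (1 / 2 - 1 / (2 * l)) * m - ν) := by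
    intro ν
    by_contra hν
    apply hcon
    refine ⟨ν, ?_⟩
    intro p hp m hm l hl hlq n hn hmn d hd hk
    by_contra hab
    apply hν
    have hp2 : 2 ≤ p := hp.two_le
    obtain ⟨t, rfl⟩ := hmn
    have ht : 0 < t := Nat.pos_of_ne_zero (by rintro rfl; simp at hn)
    have hdvd : (p ^ m - 1) ∣ (p ^ (m * t) - 1) := by
      have := Nat.sub_dvd_pow_sub_pow (p ^ m) 1 t
      rwa [one_pow, ← pow_mul] at this
    have hdm : Nat.Coprime d (p ^ m - 1) := Nat.Coprime.coprime_dvd_right hdvd hd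
    refine ⟨p, m, d, l, hp, hm, hl, hlq, ?_, ?_, ?_⟩
    · rw [← U2_cast hp2]
      exact Nat.isCoprime_iff_coprime.mpr hdm
    · intro j hj
      apply hk j
      rw [← U2_cast hp2] at hj
      have h2 : ((p ^ m - 1 : ℕ) : ℤ) ∣ (d : ℤ) - ((p ^ j : ℕ) : ℤ) := by
        push_cast at hj ⊢
        exact hj
      exact (Nat.modEq_iff_dvd.mpr h2).symm
    · intro hg
      apply hab
      have hl0 : (0 : ℝ) < l := by exact_mod_cast hl
      have hm0 : (0 : ℝ) < m := by exact_mod_cast hm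
      have hc : (min (1 / 2 - min ε (1 / 4)) (1 / 2 - 1 / (2 * l)) * m - ν : ℝ) =
          m - (max (1 - (1 / 2 - min ε (1 / 4))) (1 - (1 / 2 - 1 / (2 * l))) * m + ν) := by
        rw [← U2_max]
        ring
      rw [hc] at hg
      have h3 := digits_of_gain hp2 hm d hdm hg
      obtain ⟨a, b, h4, h5, h6, h7, h8⟩ := lift_real hp2 m t hm ht d _ h3
      refine ⟨a, b, h4, h5, h6, h7, h8.trans ?_⟩
      have h9 : min ε (1 / 4) ≤ ε := min_le_left _ _
      have h10 : max (1 - (1 / 2 - min ε (1 / 4))) (1 - (1 / 2 - 1 / (2 * (l : ℝ)))) ≤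
          max (1 / 2 + ε) ((l + 1) / (2 * l)) := by
        refine max_le_max (by linarith) (le_of_eq ?_)
        field_simp
        ring
      have hp1 : (0 : ℝ) ≤ (p : ℝ) - 1 := by
        have : (2 : ℝ) ≤ p := by exact_mod_cast hp2
        linarith
      have ht0 : (0 : ℝ) ≤ (t : ℝ) := Nat.cast_nonneg _
      have h11 : ((m * t : ℕ) : ℝ) / m = t := by
        push_cast
        field_simp
      rw [h11]
      obtain ⟨X, hX⟩ : ∃ X : ℝ, X = max (1 / 2 + ε) (((l : ℝ) + 1) / (2 * l)) := ⟨_, rfl⟩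
      rw [← hX] at h10 ⊢
      have h12 : (max (1 - (1 / 2 - min ε (1 / 4))) (1 - (1 / 2 - 1 / (2 * (l : ℝ)))) * m + ν) *
          ((p : ℝ) - 1) ≤ (X * m + ν) * ((p : ℝ) - 1) := by
        apply mul_le_mul_of_nonneg_right _ hp1
        have := mul_le_mul_of_nonneg_right h10 hm0.le
        linarith
      refine (mul_le_mul_of_nonneg_left h12 ht0).trans (le_of_eq ?_)
      push_cast
      ring
  choose p m d l hp hm hl hlq hcop hnd hbad using key
  exact no_bad_sequence' (min ε (1 / 4)) (lt_min hε (by norm_num))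
    (lt_of_le_of_lt (min_le_right _ _) (by norm_num)) p m (fun ν => (d ν : ℤ)) l hp hm hl hlq
    hcop hnd hbad

end Pool.Agent.Helper21.FD
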